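import Mathlib

/-!
# Fourier series on the torus: basic facts
-/

set_option autoImplicit false

open MeasureTheory UnitAddTorus Filter Topology
open scoped ENNReal ComplexConjugate InnerProductSpace

noncomputable section

namespace Pool.Agent.helper28.Coul

/-- the torus `ℝ^d/ℤ^d` -/
abbrev T (d : ℕ) := UnitAddTorus (Fin d)

/-- Lebesgue measure on the torus, total mass one -/
def mu (d : ℕ) : Measure (T d) := Measure.pi fun _ => AddCircle.haarAddCircle

variable {d : ℕ}

instance : IsProbabilityMeasure (mu d) := by unfold mu; infer_instance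

instance : (mu d).IsAddHaarMeasure := by unfold mu; infer_instance

/-- complex `L²` functions -/
abbrev HC (d : ℕ) := Lp ℂ 2 (mu d)

/-- real `L²` functions -/
abbrev HR (d : ℕ) := Lp ℝ 2 (mu d)

/-- Fourier coefficients of a function -/
def fc (f : T d → ℂ) (k : Fin d → ℤ) : ℂ := ∫ x, conj (mFourier k x) * f x ∂(mu d)

section bas

local instance : MeasureSpace UnitAddCircle := ⟨AddCircle.haarAddCircle⟩

/-- the Hilbert basis of characters -/
def bas (d : ℕ) : HilbertBasis (Fin d → ℤ) ℂ (HC d) := mFourierBasis (d := Fin d)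

lemma fc_eq (f : T d → ℂ) (k : Fin d → ℤ) : fc f k = mFourierCoeff f k := by
  unfold fc mFourierCoeff
  simp only [mFourier_neg, smul_eq_mul]
  rfl

lemma bas_repr (f : HC d) (k : Fin d → ℤ) : (bas d).repr f k = fc f k := by
  rw [fc_eq]
  exact mFourierBasis_repr (d := Fin d) f k

lemma bas_apply (k : Fin d → ℤ) : bas d k =ᵐ[mu d] mFourier k := by
  have h : (mFourierBasis (d := Fin d) k : T d → ℂ) =ᵐ[volume] mFourier k := by
    rw [coe_mFourierBasis]
    exact coeFn_mFourierLp (d := Fin d) 2 k
  exact h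

lemma hasSum_inner_fc (f g : HC d) :
    HasSum (fun k => conj (fc f k) * fc g k) (∫ x, conj (f x) * g x ∂(mu d)) := by
  simp only [fc_eq]
  exact hasSum_prod_mFourierCoeff (d := Fin d) f g

lemma hasSum_sq_fc (f : HC d) :
    HasSum (fun k => ‖fc f k‖ ^ 2) (∫ x, ‖f x‖ ^ 2 ∂(mu d)) := by
  simp only [fc_eq]
  exact hasSum_sq_mFourierCoeff (d := Fin d) f

lemma span_dense_one :
    (Submodule.span ℂ (Set.range (fun k : Fin d → ℤ =>
      ContinuousMap.toLp (E := ℂ) 1 (mu d) ℂ (mFourier k)))).topologicalClosure = ⊤ :=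
  span_mFourierLp_closure_eq_top (d := Fin d) (p := 1) (by simp)

end bas

lemma span_dense_sup :
    (Submodule.span ℂ (Set.range (mFourier (d := Fin d)))).topologicalClosure = ⊤ :=
  span_mFourier_closure_eq_top

end Pool.Agent.helper28.Coul
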