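import Mathlib

/-!
# Coulomb MMD on the torus: energy, Wasserstein distance, slope, optimal constant
-/

set_option autoImplicit false

open MeasureTheory UnitAddTorus
open scoped ENNReal

noncomputable section

namespace Pool.Agent.helper28.Coul

/-- Borel probability measures on the torus `ℝ^d/ℤ^d` -/
abbrev PT (d : ℕ) := ProbabilityMeasure (UnitAddTorus (Fin d))

variable {d : ℕ}

/-- the Fourier coefficient `∫ exp(-2πi k·x) dρ(x)` -/
def coef (ρ : PT d) (k : Fin d → ℤ) : ℂ := ∫ x, mFourier (-k) x ∂(ρ : Measure (UnitAddTorus (Fin d)))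

/-- The energy `F(ρ) = (1/2) ∫ g*(ρ-1) d(ρ-1)` for the Coulomb kernel `-Δg = δ₀ - 1`, that is half
of the squared homogeneous `H^{-1}` norm of `ρ - 1`: the sum over the frequencies `k ≠ 0` of
`|ρ̂(k)|² / (2·4π²|k|²)`, with values in `[0,∞]`. -/
def energy (ρ : PT d) : ℝ≥0∞ :=
  ∑' k : Fin d → ℤ, if k = 0 then 0 else
    ENNReal.ofReal (‖coef ρ k‖ ^ 2 / (2 * (4 * Real.pi ^ 2 * ∑ i, (k i : ℝ) ^ 2)))

/-- squared distance on the flat torus (`‖·‖` is the distance to the nearest integer) -/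
def dist2 (x y : UnitAddTorus (Fin d)) : ℝ := ∑ i, ‖x i - y i‖ ^ 2

/-- `π` is a coupling of `ρ` and `η` -/
def IsCoupling (π : ProbabilityMeasure (UnitAddTorus (Fin d) × UnitAddTorus (Fin d)))
    (ρ η : PT d) : Prop :=
  (π : Measure (UnitAddTorus (Fin d) × UnitAddTorus (Fin d))).map Prod.fst = ρ ∧
  (π : Measure (UnitAddTorus (Fin d) × UnitAddTorus (Fin d))).map Prod.snd = η

/-- the quadratic Wasserstein distance -/
def W2 (ρ η : PT d) : ℝ :=
  Real.sqrt (sInf {c : ℝ | ∃ π : ProbabilityMeasure (UnitAddTorus (Fin d) × UnitAddTorus (Fin d)),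
    IsCoupling π ρ η ∧
      c = ∫ p, dist2 p.1 p.2 ∂(π : Measure (UnitAddTorus (Fin d) × UnitAddTorus (Fin d)))})

/-- the descending local slope of the energy: the limsup, as `η → ρ` in `W₂`, of
`(F(ρ) - F(η))₊ / W₂(ρ,η)` (subtraction in `[0,∞]` is truncated at `0`) -/
def slopeE (ρ : PT d) : ℝ≥0∞ :=
  ⨅ (r : ℝ) (_ : 0 < r), ⨆ (η : PT d) (_ : 0 < W2 ρ η ∧ W2 ρ η < r),
    (energy ρ - energy η) / ENNReal.ofReal (W2 ρ η)

/-- the optimal constant `c_d = inf |∂F|²(ρ)/F(ρ)` over all `ρ` with `0 < F(ρ) < ∞` -/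
def cOpt (d : ℕ) : ℝ≥0∞ :=
  ⨅ (ρ : PT d) (_ : 0 < energy ρ ∧ energy ρ < ∞), slopeE ρ ^ 2 / energy ρ

end Pool.Agent.helper28.Coul
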