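import Pool.Agent.helper28.Coul.Mult

/-!
# Fejer means on the torus
-/

set_option autoImplicit false

open MeasureTheory UnitAddTorus Filter Topology
open scoped ENNReal ComplexConjugate InnerProductSpace

noncomputable section

namespace Pool.Agent.helper28.Coul

variable {d : ℕ}

lemma norm_mF (k : Fin d → ℤ) (x : T d) : ‖mFourier k x‖ = 1 := by
  simp only [mFourier, fourier_apply, ContinuousMap.coe_mk, norm_prod, Circle.norm_coe,
    Finset.prod_const_one]

lemma mF_zero (k : Fin d → ℤ) : mFourier k (0 : T d) = 1 := by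
  simp [mFourier]

lemma mF_add_arg (k : Fin d → ℤ) (x y : T d) :
    mFourier k (x + y) = mFourier k x * mFourier k y := by
  simp only [mFourier, ContinuousMap.coe_mk, Pi.add_apply]
  rw [← Finset.prod_mul_distrib]
  refine Finset.prod_congr rfl fun i _ => ?_
  rw [fourier_apply, fourier_apply, fourier_apply, smul_add, AddCircle.toCircle_add]
  simp

lemma mF_conj_mul (k : Fin d → ℤ) (x : T d) : conj (mFourier k x) * mFourier k x = 1 := by
  rw [mul_comm, Complex.mul_conj, Complex.normSq_eq_norm_sq, norm_mF]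
  simp

lemma mF_neg_arg (k : Fin d → ℤ) (x : T d) : mFourier k (-x) = conj (mFourier k x) := by
  have h := mF_add_arg k x (-x)
  rw [add_neg_cancel, mF_zero] at h
  have h2 := mF_conj_mul k x
  calc mFourier k (-x) = (conj (mFourier k x) * mFourier k x) * mFourier k (-x) := by
        rw [h2, one_mul]
    _ = conj (mFourier k x) * (mFourier k x * mFourier k (-x)) := by ring
    _ = conj (mFourier k x) := by rw [← h, mul_one]

lemma mF_sub_arg (k : Fin d → ℤ) (x y : T d) :
    mFourier k (x - y) = mFourier k x * conj (mFourier k y) := by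
  rw [sub_eq_add_neg, mF_add_arg, mF_neg_arg]

lemma mF_sub (k l : Fin d → ℤ) (x : T d) :
    mFourier (k - l) x = mFourier k x * conj (mFourier l x) := by
  rw [sub_eq_add_neg, mFourier_add, mFourier_neg]

lemma integral_mF (k : Fin d → ℤ) : ∫ x, mFourier k x ∂(mu d) = if k = 0 then 1 else 0 := by
  have h := (orthonormal_iff_ite.mp (bas d).orthonormal) 0 k
  rw [inner_hc] at h
  have e : ∫ x, conj ((bas d 0 : HC d) x) * (bas d k : HC d) x ∂(mu d) =
      ∫ x, mFourier k x ∂(mu d) := by
    apply integral_congr_ae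
    filter_upwards [bas_apply (0 : Fin d → ℤ), bas_apply k] with x h1 h2
    rw [h1, h2, mFourier_zero]
    simp
  rw [e] at h
  rw [h]
  simp only [eq_comm]

lemma integral_mF_conj (k l : Fin d → ℤ) :
    ∫ x, conj (mFourier k x) * mFourier l x ∂(mu d) = if l = k then 1 else 0 := by
  have : ∀ x, conj (mFourier k x) * mFourier l x = mFourier (l - k) x := fun x => by
    rw [mF_sub, mul_comm]
  simp only [this]
  rw [integral_mF]
  simp only [sub_eq_zero]

/-- cube of frequencies -/
def Qc (d N : ℕ) : Finset (Fin d → ℤ) := Fintype.piFinset fun _ => Finset.Ico (0 : ℤ) N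

lemma card_Qc (d N : ℕ) : (Qc d N).card = N ^ d := by
  unfold Qc
  rw [Fintype.card_piFinset]
  simp

/-- Dirichlet kernel of the cube -/
def Dk (d N : ℕ) (x : T d) : ℂ := ∑ a ∈ Qc d N, mFourier a x

/-- Fejer kernel -/
def KN (d N : ℕ) (x : T d) : ℝ := ‖Dk d N x‖ ^ 2 / (N : ℝ) ^ d

lemma KN_nonneg (N : ℕ) (x : T d) : 0 ≤ KN d N x := by unfold KN; positivity

lemma continuous_KN (N : ℕ) : Continuous (KN d N) := by
  unfold KN Dk
  have : Continuous fun x : T d => ∑ a ∈ Qc d N, mFourier a x :=
    continuous_finsetSum _ fun a _ => (mFourier a).continuous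
  fun_prop

lemma KN_eq (N : ℕ) (x : T d) :
    (KN d N x : ℂ) = (∑ a ∈ Qc d N, ∑ b ∈ Qc d N, mFourier (a - b) x) / (N : ℂ) ^ d := by
  unfold KN
  push_cast
  congr 1
  rw [← Complex.ofReal_pow, ← Complex.normSq_eq_norm_sq, ← Complex.mul_conj]
  unfold Dk
  rw [map_sum, Finset.sum_mul_sum]
  simp only [mF_sub]

/-- multiplier of the Fejer means -/
def kap (N : ℕ) (k : Fin d → ℤ) : ℝ :=
  (((Qc d N).filter fun b => b + k ∈ Qc d N).card : ℝ) / (N : ℝ) ^ d

lemma kap_nonneg (N : ℕ) (k : Fin d → ℤ) : 0 ≤ kap N k := by unfold kap; positivity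

lemma kap_le (N : ℕ) (k : Fin d → ℤ) : kap N k ≤ 1 := by
  unfold kap
  have h : ((Qc d N).filter fun b => b + k ∈ Qc d N).card ≤ N ^ d :=
    (Finset.card_filter_le _ _).trans (card_Qc d N).le
  apply div_le_one_of_le₀
  · exact_mod_cast h
  · positivity

lemma tendsto_kap (k : Fin d → ℤ) : Tendsto (fun N => kap N k) atTop (𝓝 1) := by
  have h1 : ∀ N : ℕ, ((Qc d N).filter fun b => b + k ∈ Qc d N) =
      Fintype.piFinset fun i => Finset.Ico (max 0 (- k i)) (min (N : ℤ) (N - k i)) := by
    intro N
    ext b
    simp only [Qc, Finset.mem_filter, Fintype.mem_piFinset, Finset.mem_Ico, Pi.add_apply]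
    constructor
    · rintro ⟨h, h'⟩ i
      have a := h i; have b := h' i
      constructor
      · exact max_le a.1 (by linarith)
      · exact lt_min a.2 (by linarith)
    · intro h
      refine ⟨fun i => ?_, fun i => ?_⟩
      · have a := h i
        exact ⟨(le_max_left _ _).trans a.1, a.2.trans_le (min_le_left _ _)⟩
      · have a := h i
        have a1 := (le_max_right _ _).trans a.1
        have a2 := a.2.trans_le (min_le_right _ _)
        exact ⟨by linarith, by linarith⟩
  have h2 : ∀ᶠ N : ℕ in atTop, kap N k = ∏ i, (1 - |(k i : ℝ)| / N) := by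
    filter_upwards [eventually_gt_atTop 0, eventually_ge_atTop (∑ i, (k i).natAbs)] with N hN hN2
    have hi : ∀ i, |k i| ≤ N := by
      intro i
      have : (k i).natAbs ≤ ∑ i, (k i).natAbs :=
        Finset.single_le_sum (f := fun i => (k i).natAbs) (fun _ _ => Nat.zero_le _)
          (Finset.mem_univ i)
      have h3 : (k i).natAbs ≤ N := this.trans hN2
      rw [Int.abs_eq_natAbs]
      exact_mod_cast h3
    unfold kap
    rw [h1, Fintype.card_piFinset]
    simp only [Int.card_Ico]
    have hc : ∀ i, ((((min (N : ℤ) (N - k i)) - max 0 (- k i)).toNat : ℕ) : ℝ) =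
        N - |(k i : ℝ)| := by
      intro i
      have e : (min (N : ℤ) (N - k i)) - max 0 (- k i) = N - |k i| := by
        rcases le_total 0 (k i) with h | h
        · rw [abs_of_nonneg h, max_eq_left (by linarith), min_eq_right (by linarith)]
          ring
        · rw [abs_of_nonpos h, max_eq_right (by linarith), min_eq_left (by linarith)]
      rw [e]
      have h0 : 0 ≤ (N : ℤ) - |k i| := by linarith [hi i]
      have := Int.toNat_of_nonneg h0
      have h3 : (((N : ℤ) - |k i|).toNat : ℝ) = (((N : ℤ) - |k i| : ℤ) : ℝ) := by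
        rw [← Int.cast_natCast, this]
      rw [h3]
      push_cast
      rfl
    push_cast
    simp only [hc]
    have : (N : ℝ) ^ d = ∏ _i : Fin d, (N : ℝ) := by simp
    rw [this, ← Finset.prod_div_distrib]
    refine Finset.prod_congr rfl fun i _ => ?_
    have : (N : ℝ) ≠ 0 := by positivity
    field_simp
  have h3 : Tendsto (fun N : ℕ => ∏ i, (1 - |(k i : ℝ)| / N)) atTop (𝓝 (∏ _i : Fin d, (1 - 0))) := by
    apply tendsto_finsetProd
    intro i _
    exact tendsto_const_nhds.sub (tendsto_const_div_atTop_nhds_zero_nat _)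
  simp only [sub_zero, Finset.prod_const_one] at h3
  exact h3.congr' (h2.mono fun N h => h.symm)

/-- Fejer means -/
def cs (N : ℕ) (g : T d → ℂ) (x : T d) : ℂ := ∫ y, g y * (KN d N (x - y) : ℂ) ∂(mu d)

lemma int_mF {g : T d → ℂ} (hg : Integrable g (mu d)) (k : Fin d → ℤ) :
    Integrable (fun y => conj (mFourier k y) * g y) (mu d) := by
  refine hg.mono ?_ (Eventually.of_forall fun y => ?_)
  · exact ((Complex.continuous_conj.comp (mFourier k).continuous).aestronglyMeasurable).mul
      hg.aestronglyMeasurable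
  · rw [norm_mul, RCLike.norm_conj, norm_mF, one_mul]

lemma cs_eq (N : ℕ) {g : T d → ℂ} (hg : Integrable g (mu d)) (x : T d) :
    cs N g x = (∑ a ∈ Qc d N, ∑ b ∈ Qc d N, fc g (a - b) * mFourier (a - b) x) / (N : ℂ) ^ d := by
  unfold cs
  have : ∀ y, g y * (KN d N (x - y) : ℂ) = (∑ a ∈ Qc d N, ∑ b ∈ Qc d N,
      (mFourier (a - b) x) * (conj (mFourier (a - b) y) * g y)) / (N : ℂ) ^ d := by
    intro y
    rw [KN_eq, mul_div_assoc', Finset.mul_sum]
    congr 1
    refine Finset.sum_congr rfl fun a _ => ?_
    rw [Finset.mul_sum]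
    refine Finset.sum_congr rfl fun b _ => ?_
    rw [mF_sub_arg]
    ring
  simp only [this]
  rw [integral_div]
  congr 1
  rw [integral_finsetSum]
  · refine Finset.sum_congr rfl fun a _ => ?_
    rw [integral_finsetSum]
    · refine Finset.sum_congr rfl fun b _ => ?_
      rw [integral_const_mul, mul_comm]
      rfl
    · intro b _
      exact (int_mF hg _).const_mul _
  · intro a _
    exact integrable_finsetSum _ fun b _ => (int_mF hg _).const_mul _

lemma continuous_cs (N : ℕ) {g : T d → ℂ} (hg : Integrable g (mu d)) : Continuous (cs N g) := by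
  have : cs N g = fun x => (∑ a ∈ Qc d N, ∑ b ∈ Qc d N, fc g (a - b) * mFourier (a - b) x) /
      (N : ℂ) ^ d := funext fun x => cs_eq N hg x
  rw [this]
  have h : ∀ k : Fin d → ℤ, Continuous fun x : T d => mFourier k x := fun k => (mFourier k).continuous
  fun_prop

lemma fc_cs (N : ℕ) {g : T d → ℂ} (hg : Integrable g (mu d)) (k : Fin d → ℤ) :
    fc (cs N g) k = kap N k * fc g k := by
  have h1 : fc (cs N g) k = (∑ a ∈ Qc d N, ∑ b ∈ Qc d N, fc g (a - b) *
      (if a - b = k then 1 else 0)) / (N : ℂ) ^ d := by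
    unfold fc
    have : ∀ x, conj (mFourier k x) * cs N g x = (∑ a ∈ Qc d N, ∑ b ∈ Qc d N, fc g (a - b) *
        (conj (mFourier k x) * mFourier (a - b) x)) / (N : ℂ) ^ d := by
      intro x
      rw [cs_eq N hg, mul_div_assoc', Finset.mul_sum]
      congr 1
      refine Finset.sum_congr rfl fun a _ => ?_
      rw [Finset.mul_sum]
      refine Finset.sum_congr rfl fun b _ => ?_
      ring
    simp only [this]
    have hi : ∀ l : Fin d → ℤ, Integrable (fun x => conj (mFourier k x) * mFourier l x) (mu d) :=
      fun l => int_mF (((mFourier l).continuous.integrable_of_hasCompactSupport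
        (HasCompactSupport.of_compactSpace _))) k
    rw [integral_div]
    congr 1
    rw [integral_finsetSum]
    · refine Finset.sum_congr rfl fun a _ => ?_
      rw [integral_finsetSum]
      · refine Finset.sum_congr rfl fun b _ => ?_
        rw [integral_const_mul, integral_mF_conj]
        rfl
      · intro b _
        exact (hi _).const_mul _
    · intro a _
      exact integrable_finsetSum _ fun b _ => (hi _).const_mul _
  rw [h1, Finset.sum_comm]
  have h2 : ∀ b ∈ Qc d N, ∑ a ∈ Qc d N, fc g (a - b) * (if a - b = k then (1 : ℂ) else 0) =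
      if b + k ∈ Qc d N then fc g k else 0 := by
    intro b _
    have : ∀ a, fc g (a - b) * (if a - b = k then (1 : ℂ) else 0) =
        if a = b + k then fc g k else 0 := by
      intro a
      by_cases h : a = b + k
      · have h' : a - b = k := by rw [h]; ring
        rw [if_pos h, if_pos h', h', mul_one]
      · have h' : ¬ (a - b = k) := fun h'' => h (by rw [← h'']; ring)
        rw [if_neg h, if_neg h', mul_zero]
    simp only [this]
    rw [Finset.sum_ite_eq']
  rw [Finset.sum_congr rfl h2, ← Finset.sum_filter, Finset.sum_const, nsmul_eq_mul]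
  unfold kap
  push_cast
  ring

lemma integral_KN {N : ℕ} (hN : 0 < N) : ∫ x, KN d N x ∂(mu d) = 1 := by
  have h1 : ((∫ x, KN d N x ∂(mu d) : ℝ) : ℂ) = 1 := by
    have h2 : ∫ x, ((KN d N x : ℝ) : ℂ) ∂(mu d) = ((∫ x, KN d N x ∂(mu d) : ℝ) : ℂ) :=
      integral_ofReal
    rw [← h2]
    simp only [KN_eq]
    have hi : ∀ l : Fin d → ℤ, Integrable (fun x => mFourier l x) (mu d) :=
      fun l => (mFourier l).continuous.integrable_of_hasCompactSupport
        (HasCompactSupport.of_compactSpace _)
    rw [integral_div, integral_finsetSum]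
    · have : ∀ a ∈ Qc d N, ∫ x, ∑ b ∈ Qc d N, mFourier (a - b) x ∂(mu d) = 1 := by
        intro a ha
        rw [integral_finsetSum _ fun b _ => hi _]
        simp only [integral_mF, sub_eq_zero]
        rw [Finset.sum_ite_eq, if_pos ha]
      rw [Finset.sum_congr rfl this, Finset.sum_const, card_Qc, nsmul_eq_mul, mul_one]
      push_cast
      have : (N : ℂ) ^ d ≠ 0 := by
        have : (N : ℂ) ≠ 0 := by exact_mod_cast hN.ne'
        exact pow_ne_zero _ this
      exact div_self this
    · intro a _
      exact integrable_finsetSum _ fun b _ => hi _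
  exact_mod_cast h1

lemma integrable_KN (N : ℕ) : Integrable (KN d N) (mu d) :=
  (continuous_KN N).integrable_of_hasCompactSupport (HasCompactSupport.of_compactSpace _)

lemma integral_KN_sub {N : ℕ} (hN : 0 < N) (y : T d) : ∫ x, KN d N (x - y) ∂(mu d) = 1 := by
  rw [integral_sub_right_eq_self (fun x => KN d N x) y, integral_KN hN]

instance : (mu d).IsNegInvariant := Measure.IsAddHaarMeasure.isNegInvariant_of_regular (mu d)

lemma integral_KN_sub' {N : ℕ} (hN : 0 < N) (x : T d) : ∫ y, KN d N (x - y) ∂(mu d) = 1 := by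
  rw [integral_sub_left_eq_self (fun x => KN d N x) (mu d) x, integral_KN hN]

lemma prod_int (N : ℕ) {g : T d → ℝ} (hg : Integrable g (mu d)) :
    Integrable (fun p : T d × T d => g p.2 * KN d N (p.1 - p.2)) ((mu d).prod (mu d)) := by
  obtain ⟨C, hC⟩ : ∃ C, ∀ x, ‖KN d N x‖ ≤ C := by
    obtain ⟨C, hC⟩ := isCompact_univ.exists_bound_of_continuousOn (continuous_KN (d := d) N).continuousOn
    exact ⟨C, fun x => hC x (Set.mem_univ x)⟩
  have h1 : Integrable (fun p : T d × T d => g p.2) ((mu d).prod (mu d)) := by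
    have := (integrable_const (1 : ℝ) (μ := mu d)).mul_prod hg
    simpa using this
  refine (h1.mul_const C).mono ?_ (Eventually.of_forall fun p => ?_)
  · refine h1.aestronglyMeasurable.mul ?_
    exact ((continuous_KN N).comp (continuous_fst.sub continuous_snd)).aestronglyMeasurable
  · rw [norm_mul, norm_mul]
    have h2 := hC (p.1 - p.2)
    have h3 : ‖KN d N (p.1 - p.2)‖ ≤ ‖C‖ := h2.trans (le_abs_self C)
    gcongr

lemma l1_cs {N : ℕ} (hN : 0 < N) {g : T d → ℂ} (hg : Integrable g (mu d)) :
    ∫ x, ‖cs N g x‖ ∂(mu d) ≤ ∫ x, ‖g x‖ ∂(mu d) := by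
  have h1 : ∀ x, ‖cs N g x‖ ≤ ∫ y, ‖g y‖ * KN d N (x - y) ∂(mu d) := by
    intro x
    refine (norm_integral_le_integral_norm _).trans (le_of_eq ?_)
    congr 1
    ext y
    rw [norm_mul, Complex.norm_real, Real.norm_of_nonneg (KN_nonneg _ _)]
  have hp := prod_int N hg.norm
  calc ∫ x, ‖cs N g x‖ ∂(mu d) ≤ ∫ x, ∫ y, ‖g y‖ * KN d N (x - y) ∂(mu d) ∂(mu d) := by
        apply integral_mono_of_nonneg (Eventually.of_forall fun x => norm_nonneg _)
        · exact hp.integral_prod_left
        · exact Eventually.of_forall h1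
    _ = ∫ y, ∫ x, ‖g y‖ * KN d N (x - y) ∂(mu d) ∂(mu d) := by
        exact integral_integral_swap hp
    _ = ∫ x, ‖g x‖ ∂(mu d) := by
        congr 1
        ext y
        rw [integral_const_mul, integral_KN_sub hN, mul_one]

lemma cs_sub (N : ℕ) {g h : T d → ℂ} (hg : Integrable g (mu d)) (hh : Integrable h (mu d))
    (x : T d) : cs N (fun x => g x - h x) x = cs N g x - cs N h x := by
  unfold cs
  have hb : ∀ {g : T d → ℂ}, Integrable g (mu d) →
      Integrable (fun y => g y * (KN d N (x - y) : ℂ)) (mu d) := by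
    intro g hg
    obtain ⟨C, hC⟩ : ∃ C, ∀ x, ‖KN d N x‖ ≤ C := by
      obtain ⟨C, hC⟩ := isCompact_univ.exists_bound_of_continuousOn
        (continuous_KN (d := d) N).continuousOn
      exact ⟨C, fun x => hC x (Set.mem_univ x)⟩
    refine (hg.mul_const (C : ℂ)).mono ?_ (Eventually.of_forall fun y => ?_)
    · refine hg.aestronglyMeasurable.mul (Continuous.aestronglyMeasurable ?_)
      have := continuous_KN (d := d) N
      fun_prop
    · rw [norm_mul, norm_mul, Complex.norm_real, Complex.norm_real]
      have h2 := hC (x - y)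
      have h3 : ‖KN d N (x - y)‖ ≤ ‖C‖ := h2.trans (le_abs_self C)
      gcongr
  rw [← integral_sub (hb hg) (hb hh)]
  congr 1
  ext y
  ring

lemma cs_mF (N : ℕ) (k : Fin d → ℤ) (x : T d) :
    cs N (fun y => mFourier k y) x = kap N k * mFourier k x := by
  have hi : Integrable (fun x => mFourier k x) (mu d) :=
    (mFourier k).continuous.integrable_of_hasCompactSupport (HasCompactSupport.of_compactSpace _)
  rw [cs_eq N hi, Finset.sum_comm]
  have hf : ∀ l : Fin d → ℤ, fc (fun y => mFourier k y) l = if k = l then 1 else 0 := by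
    intro l
    unfold fc
    rw [integral_mF_conj]
  have h2 : ∀ b ∈ Qc d N, ∑ a ∈ Qc d N, fc (fun y => mFourier k y) (a - b) *
      mFourier (a - b) x = if b + k ∈ Qc d N then mFourier k x else 0 := by
    intro b _
    have : ∀ a, fc (fun y => mFourier k y) (a - b) * mFourier (a - b) x =
        if a = b + k then mFourier k x else 0 := by
      intro a
      rw [hf]
      by_cases h : a = b + k
      · have h' : a - b = k := by rw [h]; ring
        rw [if_pos h, h', if_pos rfl, one_mul]
      · have h' : ¬ (k = a - b) := fun h'' => h (by rw [h'']; ring)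
        rw [if_neg h, if_neg h', zero_mul]
    simp only [this]
    rw [Finset.sum_ite_eq']
  rw [Finset.sum_congr rfl h2, ← Finset.sum_filter, Finset.sum_const, nsmul_eq_mul]
  unfold kap
  push_cast
  ring

lemma integrable_cont {f : T d → ℂ} (hf : Continuous f) : Integrable f (mu d) :=
  hf.integrable_of_hasCompactSupport (HasCompactSupport.of_compactSpace _)

lemma cs_sup {N : ℕ} (hN : 0 < N) (g : C(T d, ℂ)) (x : T d) : ‖cs N g x‖ ≤ ‖g‖ := by
  calc ‖cs N g x‖ ≤ ∫ y, ‖g y‖ * KN d N (x - y) ∂(mu d) := by
        refine (norm_integral_le_integral_norm _).trans (le_of_eq ?_)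
        congr 1
        ext y
        rw [norm_mul, Complex.norm_real, Real.norm_of_nonneg (KN_nonneg _ _)]
    _ ≤ ∫ y, ‖g‖ * KN d N (x - y) ∂(mu d) := by
        have hc : Continuous fun y => KN d N (x - y) :=
          (continuous_KN N).comp (continuous_const.sub continuous_id)
        apply integral_mono_of_nonneg
        · exact Eventually.of_forall fun y => mul_nonneg (norm_nonneg _) (KN_nonneg _ _)
        · exact (hc.const_smul ‖g‖).integrable_of_hasCompactSupport
            (HasCompactSupport.of_compactSpace _)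
        · refine Eventually.of_forall fun y => ?_
          exact mul_le_mul_of_nonneg_right (g.norm_coe_le_norm y) (KN_nonneg _ _)
    _ = ‖g‖ := by rw [integral_const_mul, integral_KN_sub' hN, mul_one]

/-- uniform convergence of the Fejer means of continuous functions -/
lemma cs_unif (g : C(T d, ℂ)) {ε : ℝ} (hε : 0 < ε) :
    ∀ᶠ N in atTop, ∀ x, ‖cs N g x - g x‖ ≤ ε := by
  have hspan : ∀ p : C(T d, ℂ), p ∈ Submodule.span ℂ (Set.range (mFourier (d := Fin d))) →
      ∀ ε > 0, ∀ᶠ N in atTop, ∀ x, ‖cs N p x - p x‖ ≤ ε := by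
    intro p hp
    refine Submodule.span_induction ?_ ?_ ?_ ?_ hp
    · rintro _ ⟨k, rfl⟩ ε hε
      have h := tendsto_kap k
      rw [Metric.tendsto_atTop'] at h
      obtain ⟨N₀, hN₀⟩ := h ε hε
      filter_upwards [eventually_gt_atTop N₀] with N hN x
      have := hN₀ N hN
      rw [cs_mF]
      have e : (kap N k : ℂ) * mFourier k x - mFourier k x =
          ((kap N k - 1 : ℝ) : ℂ) * mFourier k x := by push_cast; ring
      rw [e, norm_mul, norm_mF, mul_one, Complex.norm_real]
      exact this.le
    · intro ε hε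
      filter_upwards with N x
      have : cs N (fun x => (0 : C(T d, ℂ)) x) x = 0 := by simp [cs]
      rw [this]
      simpa using hε.le
    · intro p q _ _ hp hq ε hε
      filter_upwards [hp (ε / 2) (half_pos hε), hq (ε / 2) (half_pos hε)] with N h1 h2 x
      have e : cs N (fun y => (p + q) y) x = cs N p x + cs N q x := by
        rw [cs_eq N (integrable_cont (p + q).continuous), cs_eq N (integrable_cont p.continuous),
          cs_eq N (integrable_cont q.continuous), ← add_div]
        congr 1
        rw [← Finset.sum_add_distrib]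
        refine Finset.sum_congr rfl fun a _ => ?_
        rw [← Finset.sum_add_distrib]
        refine Finset.sum_congr rfl fun b _ => ?_
        have : fc (fun y => (p + q) y) (a - b) = fc p (a - b) + fc q (a - b) := by
          unfold fc
          rw [← integral_add (int_mF (integrable_cont p.continuous) _)
            (int_mF (integrable_cont q.continuous) _)]
          congr 1
          ext y
          change _ * (p y + q y) = _
          ring
        rw [this]
        ring
      rw [e, ContinuousMap.add_apply]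
      calc ‖cs N p x + cs N q x - (p x + q x)‖ = ‖(cs N p x - p x) + (cs N q x - q x)‖ := by
            congr 1; ring
        _ ≤ ε / 2 + ε / 2 := (norm_add_le _ _).trans (add_le_add (h1 x) (h2 x))
        _ = ε := by ring
    · intro c p _ hp ε hε
      have hc : 0 < ‖c‖ + 1 := by positivity
      filter_upwards [hp (ε / (‖c‖ + 1)) (div_pos hε hc)] with N h1 x
      have e : cs N (fun y => (c • p) y) x = c * cs N p x := by
        unfold cs
        rw [← integral_const_mul]
        congr 1
        ext y
        change (c * p y) * _ = _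
        ring
      rw [e, ContinuousMap.smul_apply, smul_eq_mul, ← mul_sub, norm_mul]
      calc ‖c‖ * ‖cs N p x - p x‖ ≤ (‖c‖ + 1) * (ε / (‖c‖ + 1)) := by
            apply mul_le_mul (by linarith) (h1 x) (norm_nonneg _) hc.le
        _ = ε := by field_simp
  have hd : g ∈ closure (Submodule.span ℂ (Set.range (mFourier (d := Fin d))) : Set C(T d, ℂ)) := by
    have := span_dense_sup (d := d)
    have h : g ∈ (Submodule.span ℂ (Set.range (mFourier (d := Fin d)))).topologicalClosure := by
      rw [this]; trivial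
    exact h
  rw [Metric.mem_closure_iff] at hd
  obtain ⟨p, hp, hpd⟩ := hd (ε / 3) (by positivity)
  filter_upwards [hspan p hp (ε / 3) (by positivity), eventually_gt_atTop 0] with N h1 hN x
  have e : cs N g x - g x = (cs N (fun y => g y - p y) x) + (cs N p x - p x) + (p x - g x) := by
    rw [cs_sub N (integrable_cont g.continuous) (integrable_cont p.continuous)]
    ring
  have h2 : ‖cs N (fun y => g y - p y) x‖ ≤ ‖g - p‖ := cs_sup hN (g - p) x
  have h3 : ‖g - p‖ ≤ ε / 3 := by rw [← dist_eq_norm]; exact hpd.le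
  have h4 : ‖p x - g x‖ ≤ ‖g - p‖ := by
    rw [norm_sub_rev]; exact (g - p).norm_coe_le_norm x
  rw [e]
  calc ‖cs N (fun y => g y - p y) x + (cs N p x - p x) + (p x - g x)‖
      ≤ ‖cs N (fun y => g y - p y) x‖ + ‖cs N p x - p x‖ + ‖p x - g x‖ := norm_add₃_le
    _ ≤ ε / 3 + ε / 3 + ε / 3 := by
        refine add_le_add (add_le_add (h2.trans h3) (h1 x)) (h4.trans h3)
    _ = ε := by ring

/-- `L¹` convergence of the Fejer means -/
lemma cs_l1 {g : T d → ℂ} (hg : Integrable g (mu d)) :
    Tendsto (fun N => ∫ x, ‖cs N g x - g x‖ ∂(mu d)) atTop (𝓝 0) := by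
  rw [Metric.tendsto_atTop']
  intro ε hε
  -- continuous approximation
  obtain ⟨p, hp1, hp2⟩ := hg.exists_boundedContinuous_integral_sub_le (show (0 : ℝ) < ε / 4 by positivity)
  have hpc : Continuous p := p.continuous
  let q : C(T d, ℂ) := ⟨p, hpc⟩
  obtain ⟨N₀, hN₀⟩ := eventually_atTop.mp ((cs_unif q (show (0 : ℝ) < ε / 4 by positivity)).and
    (eventually_gt_atTop 0))
  refine ⟨N₀, fun N hN => ?_⟩
  obtain ⟨h1, hNpos⟩ := hN₀ N hN.le
  have hq : Integrable q (mu d) := integrable_cont q.continuous
  have hcs := continuous_cs N hg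
  have hi1 : Integrable (fun x => ‖cs N g x - g x‖) (mu d) :=
    ((integrable_cont hcs).sub hg).norm
  rw [Real.dist_eq, sub_zero, abs_of_nonneg (integral_nonneg fun x => norm_nonneg _)]
  have hpq : Integrable (fun x => g x - q x) (mu d) := hg.sub hq
  have e : ∀ x, ‖cs N g x - g x‖ ≤ ‖cs N (fun y => g y - q y) x‖ + ε / 4 + ‖g x - q x‖ := by
    intro x
    have e1 : cs N g x - g x = (cs N (fun y => g y - q y) x) + (cs N q x - q x) + (q x - g x) := by
      rw [cs_sub N hg hq]
      ring
    rw [e1]
    refine norm_add₃_le.trans (add_le_add (add_le_add le_rfl (h1 x)) (le_of_eq (norm_sub_rev _ _)))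
  have hi2 : Integrable (fun x => ‖cs N (fun y => g y - q y) x‖) (mu d) :=
    (integrable_cont (continuous_cs N hpq)).norm
  calc ∫ x, ‖cs N g x - g x‖ ∂(mu d)
      ≤ ∫ x, (‖cs N (fun y => g y - q y) x‖ + ε / 4 + ‖g x - q x‖) ∂(mu d) :=
        integral_mono hi1 ((hi2.add (integrable_const _)).add hpq.norm) e
    _ = ∫ x, ‖cs N (fun y => g y - q y) x‖ ∂(mu d) + ε / 4 + ∫ x, ‖g x - q x‖ ∂(mu d) := by
        have hi3 : Integrable (fun x => ‖cs N (fun y => g y - q y) x‖ + ε / 4) (mu d) :=
          hi2.add (integrable_const _)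
        have hi4 : Integrable (fun x => ‖g x - q x‖) (mu d) := hpq.norm
        rw [integral_add hi3 hi4, integral_add hi2 (integrable_const _)]
        simp
    _ ≤ ε / 4 + ε / 4 + ε / 4 := by
        have h3 : ∫ x, ‖g x - q x‖ ∂(mu d) ≤ ε / 4 := hp1
        have h4 := (l1_cs hNpos hpq).trans h3
        linarith
    _ < ε := by linarith

end Pool.Agent.helper28.Coul
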