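import Pool.Agent.helper28.Coul.Ident
import Pool.Agent.helper28.Coul.Fejer

/-!
# Translations and the Dirichlet form inequality
-/

set_option autoImplicit false

open MeasureTheory UnitAddTorus Filter Topology
open scoped ENNReal ComplexConjugate InnerProductSpace

noncomputable section

namespace Pool.Agent.helper28.Coul

variable {d : ℕ}

/-- translation operator -/
def tr (a : T d) : HR d →L[ℝ] HR d := mulR (fun k => mFourier k a)

lemma bdd_tr (a : T d) : Bdd (fun k : Fin d → ℤ => mFourier k a) := ⟨1, fun k => (norm_mF k a).le⟩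

lemma herm_tr (a : T d) : Herm (fun k : Fin d → ℤ => mFourier k a) := fun _ => mFourier_neg

lemma fr_tr (a : T d) (f : HR d) (k : Fin d → ℤ) : fr (tr a f) k = mFourier k a * fr f k :=
  fr_mulR (bdd_tr a) (herm_tr a) f k

lemma mp_add (a : T d) : MeasurePreserving (fun x : T d => x + a) (mu d) (mu d) :=
  measurePreserving_add_right (mu d) a

lemma fc_shift (f : T d → ℂ) (a : T d) (k : Fin d → ℤ) :
    fc (fun x => f (x + a)) k = mFourier k a * fc f k := by
  unfold fc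
  rw [← integral_const_mul, ← integral_add_right_eq_self
    (fun x => mFourier k a * (conj (mFourier k x) * f x)) a]
  congr 1
  ext x
  have h := mF_conj_mul k a
  rw [mF_add_arg, map_mul]
  linear_combination (-(conj (mFourier k x) * f (x + a))) * h

lemma tr_ae (a : T d) (f : HR d) : tr a f =ᵐ[mu d] fun x => f (x + a) := by
  set g : HR d := Lp.compMeasurePreserving (fun x : T d => x + a) (mp_add a) f with hg
  have h1 : g =ᵐ[mu d] fun x => f (x + a) := Lp.coeFn_compMeasurePreserving f (mp_add a)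
  have h2 : tr a f = g := by
    apply hr_ext
    intro k
    rw [fr_tr, fr_eq g, fr_eq f]
    have : (fun x => ((g x : ℝ) : ℂ)) =ᵐ[mu d] fun x => ((f (x + a) : ℝ) : ℂ) := by
      filter_upwards [h1] with x hx
      rw [hx]
    rw [fc_congr this]
    exact (fc_shift (fun x => ((f x : ℝ) : ℂ)) a k).symm
  rw [h2]; exact h1

/-- the `i`-th coordinate step of length `ε` -/
def stp (i : Fin d) (ε : ℝ) : T d := Pi.single i (ε : UnitAddCircle)

lemma mF_stp (k : Fin d → ℤ) (i : Fin d) (ε : ℝ) :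
    mFourier k (stp i ε) = Complex.exp (Complex.I * ((2 * Real.pi * k i * ε : ℝ) : ℂ)) := by
  unfold stp
  simp only [mFourier, ContinuousMap.coe_mk]
  rw [Finset.prod_eq_single i]
  · rw [Pi.single_eq_same, fourier_coe_apply]
    congr 1
    push_cast
    ring
  · intro j _ hj
    rw [Pi.single_eq_of_ne hj]
    simp
  · intro h; exact absurd (Finset.mem_univ i) h

/-- squared modulus of the symbol of the difference -/
def dm (i : Fin d) (ε : ℝ) (k : Fin d → ℤ) : ℝ := ‖mFourier k (stp i ε) - 1‖ ^ 2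

lemma dm_nonneg (i : Fin d) (ε : ℝ) (k : Fin d → ℤ) : 0 ≤ dm i ε k := by unfold dm; positivity

lemma dm_le (i : Fin d) (ε : ℝ) (k : Fin d → ℤ) :
    dm i ε k ≤ 4 * Real.pi ^ 2 * ((k i : ℝ) * (k i : ℝ)) * ε ^ 2 := by
  unfold dm
  rw [mF_stp]
  have h := Real.norm_exp_I_mul_ofReal_sub_one_le (x := 2 * Real.pi * k i * ε)
  calc ‖Complex.exp (Complex.I * ((2 * Real.pi * k i * ε : ℝ) : ℂ)) - 1‖ ^ 2
      ≤ ‖(2 * Real.pi * k i * ε : ℝ)‖ ^ 2 := by gcongr
    _ = _ := by rw [Real.norm_eq_abs, sq_abs]; ring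

lemma tendsto_dm (i : Fin d) (k : Fin d → ℤ) :
    Tendsto (fun ε : ℝ => dm i ε k / ε ^ 2) (𝓝[≠] 0)
      (𝓝 (4 * Real.pi ^ 2 * ((k i : ℝ) * (k i : ℝ)))) := by
  have h1 : HasDerivAt (fun ε : ℝ => Complex.exp (Complex.I * ((2 * Real.pi * k i * ε : ℝ) : ℂ)))
      (Complex.I * ((2 * Real.pi * k i : ℝ) : ℂ)) 0 := by
    have h2 : HasDerivAt (fun ε : ℝ => Complex.I * ((2 * Real.pi * k i * ε : ℝ) : ℂ))
        (Complex.I * ((2 * Real.pi * k i : ℝ) : ℂ)) 0 := by
      have h3 : HasDerivAt (fun ε : ℝ => (2 * Real.pi * k i * ε : ℝ)) (2 * Real.pi * k i) 0 := by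
        simpa using (hasDerivAt_id (0 : ℝ)).const_mul (2 * Real.pi * k i : ℝ)
      exact h3.ofReal_comp.const_mul Complex.I
    have h4 := h2.cexp
    simpa using h4
  rw [hasDerivAt_iff_tendsto_slope] at h1
  have h5 := (h1.norm).pow 2
  have e : ‖Complex.I * ((2 * Real.pi * k i : ℝ) : ℂ)‖ ^ 2 =
      4 * Real.pi ^ 2 * ((k i : ℝ) * (k i : ℝ)) := by
    rw [norm_mul, Complex.norm_I, one_mul, Complex.norm_real, Real.norm_eq_abs, sq_abs]
    ring
  rw [e] at h5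
  refine h5.congr' ?_
  filter_upwards [self_mem_nhdsWithin] with ε hε
  unfold slope dm
  rw [mF_stp]
  simp only [vsub_eq_sub, sub_zero, norm_smul, mul_pow, norm_inv, Real.norm_eq_abs]
  rw [inv_pow, sq_abs]
  simp only [mul_zero, Complex.ofReal_zero, Complex.exp_zero]
  rw [div_eq_inv_mul]

/-- potential -/
def Pot (d : ℕ) : HR d →L[ℝ] HR d := mulR (fun k => (w k : ℂ))

lemma fr_Pot (f : HR d) (k : Fin d → ℤ) : fr (Pot d f) k = w k * fr f k :=
  fr_mulR ⟨1, fun k => by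
    rw [Complex.norm_real, Real.norm_of_nonneg (w_nonneg k)]; exact w_le k⟩
    (fun k => by rw [w_neg, Complex.conj_ofReal]) f k

/-- the symbol of the discrete Laplacian of the potential -/
def Mm (ε : ℝ) (k : Fin d → ℤ) : ℝ := (∑ i, dm i ε k) * w k / ε ^ 2

lemma Mm_nonneg (ε : ℝ) (k : Fin d → ℤ) : 0 ≤ Mm ε k := by
  unfold Mm
  have := w_nonneg k
  have := Finset.sum_nonneg (s := Finset.univ) fun i _ => dm_nonneg i ε k
  positivity

lemma Mm_le {ε : ℝ} (hε : ε ≠ 0) (k : Fin d → ℤ) : Mm ε k ≤ 1 := by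
  rcases eq_or_ne k 0 with rfl | hk
  · simp [Mm]
  · unfold Mm
    have h1 : ∑ i, dm i ε k ≤ 4 * Real.pi ^ 2 * dot k k * ε ^ 2 := by
      unfold dot
      rw [Finset.mul_sum, Finset.sum_mul]
      exact Finset.sum_le_sum fun i _ => dm_le i ε k
    have h2 := w_mul hk
    have h3 : 0 < ε ^ 2 := by positivity
    rw [div_le_one h3]
    calc (∑ i, dm i ε k) * w k ≤ (4 * Real.pi ^ 2 * dot k k * ε ^ 2) * w k :=
          mul_le_mul_of_nonneg_right h1 (w_nonneg k)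
      _ = (w k * (4 * Real.pi ^ 2 * dot k k)) * ε ^ 2 := by ring
      _ = ε ^ 2 := by rw [h2, one_mul]

lemma tendsto_Mm (k : Fin d → ℤ) :
    Tendsto (fun ε : ℝ => Mm ε k) (𝓝[≠] 0) (𝓝 (if k = 0 then 0 else 1)) := by
  have h1 : Tendsto (fun ε : ℝ => (∑ i, dm i ε k / ε ^ 2) * w k) (𝓝[≠] 0)
      (𝓝 ((∑ i, 4 * Real.pi ^ 2 * ((k i : ℝ) * (k i : ℝ))) * w k)) :=
    (tendsto_finsetSum _ fun i _ => tendsto_dm i k).mul_const _
  have e : (∑ i, 4 * Real.pi ^ 2 * ((k i : ℝ) * (k i : ℝ))) * w k = if k = 0 then 0 else 1 := by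
    split_ifs with h
    · rw [h]; simp
    · rw [← Finset.mul_sum, mul_comm]
      exact w_mul h
  rw [e] at h1
  refine h1.congr fun ε => ?_
  unfold Mm
  rw [← Finset.sum_div]
  ring

lemma hasSum_diff (a : T d) (f g : HR d) :
    HasSum (fun k => ‖mFourier k a - 1‖ ^ 2 * (conj (fr f k) * fr g k).re)
      ⟪tr a f - f, tr a g - g⟫_ℝ := by
  refine (hasSum_inner_hr (tr a f - f) (tr a g - g)).congr_fun fun k => ?_
  rw [fr_sub, fr_sub, fr_tr, fr_tr]
  have : conj (mFourier k a * fr f k - fr f k) * (mFourier k a * fr g k - fr g k) =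
      ((‖mFourier k a - 1‖ ^ 2 : ℝ) : ℂ) * (conj (fr f k) * fr g k) := by
    have h : ((‖mFourier k a - 1‖ ^ 2 : ℝ) : ℂ) =
        (mFourier k a - 1) * conj (mFourier k a - 1) := by
      rw [Complex.mul_conj, Complex.normSq_eq_norm_sq]
    rw [h]
    simp only [map_sub, map_mul, map_one]
    ring
  rw [this, Complex.re_ofReal_mul]

/-- `F` is minus the Laplacian of `u` -/
def IsNegLap (u F : HR d) : Prop := ∀ k, fr F k = ((4 * Real.pi ^ 2 * dot k k : ℝ) : ℂ) * fr u k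

lemma isNegLap_Pot (r : HR d) : IsNegLap (Pot d r) (-(Lap d r)) := by
  intro k
  rw [fr_neg', fr_Lap, fr_Pot]
  rcases eq_or_ne k 0 with rfl | hk
  · simp [sL, dot]
  · have h := w_mul hk
    have h' : ((w k : ℝ) : ℂ) * ((4 * Real.pi ^ 2 * dot k k : ℝ) : ℂ) = 1 := by
      rw [← Complex.ofReal_mul, h]; simp
    unfold sL
    rw [if_neg hk]
    linear_combination (- fr r k) * h'

lemma hasSum_sum_diff {u F : HR d} (h : IsNegLap u F) (v : HR d) {ε : ℝ} (hε : ε ≠ 0) :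
    HasSum (fun k => Mm ε k * (conj (fr F k) * fr v k).re)
      ((∑ i, ⟪tr (stp i ε) u - u, tr (stp i ε) v - v⟫_ℝ) / ε ^ 2) := by
  have h1 := (hasSum_sum (s := Finset.univ) fun i _ => hasSum_diff (stp i ε) u v).div_const (ε ^ 2)
  refine h1.congr_fun fun k => ?_
  rcases eq_or_ne k 0 with rfl | hk
  · have : ∀ i, ‖mFourier (0 : Fin d → ℤ) (stp i ε) - 1‖ ^ 2 = 0 := by
      intro i; rw [mFourier_zero]; simp
    simp [Mm, this]
  · have h2 : fr u k = (w k : ℂ) * fr F k := by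
      rw [h k]
      have h3 := w_mul hk
      have h' : ((w k : ℝ) : ℂ) * ((4 * Real.pi ^ 2 * dot k k : ℝ) : ℂ) = 1 := by
        rw [← Complex.ofReal_mul, h3]; simp
      linear_combination (- fr u k) * h'
    have h4 : (conj (fr u k) * fr v k).re = w k * (conj (fr F k) * fr v k).re := by
      rw [h2, map_mul, Complex.conj_ofReal, mul_assoc, Complex.re_ofReal_mul]
    rw [← Finset.sum_mul, h4]
    unfold Mm dm
    ring

lemma fr_zero_of_isNegLap {u F : HR d} (h : IsNegLap u F) : fr F 0 = 0 := by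
  rw [h 0]; simp [dot]

lemma summable_inner_abs (f g : HR d) : Summable fun k => ‖(conj (fr f k) * fr g k).re‖ :=
  (hasSum_inner_hr f g).summable.norm

lemma tendsto_sum_diff {u F : HR d} (h : IsNegLap u F) (v : HR d) :
    Tendsto (fun ε : ℝ => (∑ i, ⟪tr (stp i ε) u - u, tr (stp i ε) v - v⟫_ℝ) / ε ^ 2) (𝓝[≠] 0)
      (𝓝 ⟪F, v⟫_ℝ) := by
  have h1 : Tendsto (fun ε : ℝ => ∑' k, Mm ε k * (conj (fr F k) * fr v k).re) (𝓝[≠] 0)
      (𝓝 (∑' k, (if k = 0 then 0 else 1) * (conj (fr F k) * fr v k).re)) := by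
    apply tendsto_tsum_of_dominated_convergence (summable_inner_abs F v)
    · intro k
      exact (tendsto_Mm k).mul_const _
    · filter_upwards [self_mem_nhdsWithin] with ε hε k
      rw [norm_mul, Real.norm_of_nonneg (Mm_nonneg _ _)]
      have := Mm_le (d := d) hε k
      exact mul_le_of_le_one_left (norm_nonneg _) this
  have h2 : ∑' k, (if k = 0 then 0 else 1) * (conj (fr F k) * fr v k).re = ⟪F, v⟫_ℝ := by
    rw [← (hasSum_inner_hr F v).tsum_eq]
    congr 1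
    ext k
    rcases eq_or_ne k 0 with rfl | hk
    · rw [fr_zero_of_isNegLap h]; simp
    · simp [hk]
  rw [h2] at h1
  refine h1.congr' ?_
  filter_upwards [self_mem_nhdsWithin] with ε hε
  exact (hasSum_sum_diff h v hε).tsum_eq

lemma sum_diff_pot_le (r : HR d) {ε : ℝ} (hε : ε ≠ 0) :
    (∑ i, ‖tr (stp i ε) (Pot d r) - Pot d r‖ ^ 2) / ε ^ 2 ≤ En r := by
  have h1 := hasSum_sum_diff (isNegLap_Pot r) (Pot d r) hε
  simp only [real_inner_self_eq_norm_sq] at h1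
  refine hasSum_le (fun k => ?_) h1 (hasSum_En r)
  rw [fr_neg', fr_Lap, fr_Pot]
  rcases eq_or_ne k 0 with rfl | hk
  · simp [Mm]
  · unfold sL
    rw [if_neg hk]
    have e : (conj (-(-1 * fr r k)) * (↑(w k) * fr r k)).re = w k * ‖fr r k‖ ^ 2 := by
      have : conj (-(-1 * fr r k)) * (↑(w k) * fr r k) = ((w k * ‖fr r k‖ ^ 2 : ℝ) : ℂ) := by
        push_cast
        rw [← Complex.ofReal_pow, ← Complex.normSq_eq_norm_sq, ← Complex.mul_conj]
        simp only [neg_mul, one_mul, neg_neg]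
        ring
      rw [this, Complex.ofReal_re]
    rw [e]
    have h2 := Mm_le (d := d) hε k
    have h3 : 0 ≤ w k * ‖fr r k‖ ^ 2 := mul_nonneg (w_nonneg k) (by positivity)
    exact mul_le_of_le_one_left h3 h2

/-- **Dirichlet form inequality** -/
theorem dirichlet {u F v : HR d} (h : IsNegLap u F) {φ : ℝ → ℝ}
    (hφ : ∀ s t, (φ s - φ t) ^ 2 ≤ (s - t) * (φ s - φ t)) (hv : v =ᵐ[mu d] fun x => φ (u x))
    (r : HR d) : ⟪Lap d r, v⟫_ℝ ^ 2 ≤ ⟪F, v⟫_ℝ * En r := by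
  have h1 := tendsto_sum_diff (isNegLap_Pot r) v
  have h2 := tendsto_sum_diff h v
  have h3 : ∀ a : T d, ‖tr a v - v‖ ^ 2 ≤ ⟪tr a u - u, tr a v - v⟫_ℝ := by
    intro a
    rw [← real_inner_self_eq_norm_sq, inner_hr, inner_hr]
    have hva : (fun x => v (x + a)) =ᵐ[mu d] fun x => φ (u (x + a)) :=
      (mp_add a).quasiMeasurePreserving.ae hv
    have hi : ∀ f g : HR d, Integrable (fun x => f x * g x) (mu d) := fun f g =>
      (Lp.memLp f).integrable_mul (Lp.memLp g)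
    apply integral_mono_ae (hi _ _) (hi _ _)
    filter_upwards [tr_ae a v, tr_ae a u, Lp.coeFn_sub (tr a v) v, Lp.coeFn_sub (tr a u) u, hv,
      hva] with x e1 e2 e3 e4 e5 e6
    rw [e3, e4, Pi.sub_apply, Pi.sub_apply, e1, e2, e5, e6, ← sq]
    exact hφ _ _
  have h4 : ∀ᶠ ε : ℝ in 𝓝[≠] 0,
      ((∑ i, ⟪tr (stp i ε) (Pot d r) - Pot d r, tr (stp i ε) v - v⟫_ℝ) / ε ^ 2) ^ 2 ≤
      ((∑ i, ⟪tr (stp i ε) u - u, tr (stp i ε) v - v⟫_ℝ) / ε ^ 2) * En r := by
    filter_upwards [self_mem_nhdsWithin] with ε hε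
    have hε' : ε ≠ 0 := hε
    have hpos : 0 < ε ^ 2 := by positivity
    have c1 : (∑ i, ⟪tr (stp i ε) (Pot d r) - Pot d r, tr (stp i ε) v - v⟫_ℝ) ^ 2 ≤
        (∑ i, ‖tr (stp i ε) (Pot d r) - Pot d r‖ ^ 2) * (∑ i, ‖tr (stp i ε) v - v‖ ^ 2) := by
      calc (∑ i, ⟪tr (stp i ε) (Pot d r) - Pot d r, tr (stp i ε) v - v⟫_ℝ) ^ 2
          ≤ (∑ i, ‖tr (stp i ε) (Pot d r) - Pot d r‖ * ‖tr (stp i ε) v - v‖) ^ 2 := by
            apply sq_le_sq'
            · rw [neg_le, ← Finset.sum_neg_distrib]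
              refine Finset.sum_le_sum fun i _ => ?_
              exact (neg_le_abs _).trans (abs_real_inner_le_norm _ _)
            · exact Finset.sum_le_sum fun i _ => real_inner_le_norm _ _
        _ ≤ _ := Finset.sum_mul_sq_le_sq_mul_sq _ _ _
    have c2 : (∑ i, ‖tr (stp i ε) v - v‖ ^ 2) ≤
        ∑ i, ⟪tr (stp i ε) u - u, tr (stp i ε) v - v⟫_ℝ :=
      Finset.sum_le_sum fun i _ => h3 _
    have c3 := sum_diff_pot_le r hε'
    have c4 : 0 ≤ ∑ i, ‖tr (stp i ε) v - v‖ ^ 2 := Finset.sum_nonneg fun i _ => by positivity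
    have c5 : 0 ≤ ∑ i, ‖tr (stp i ε) (Pot d r) - Pot d r‖ ^ 2 :=
      Finset.sum_nonneg fun i _ => by positivity
    calc ((∑ i, ⟪tr (stp i ε) (Pot d r) - Pot d r, tr (stp i ε) v - v⟫_ℝ) / ε ^ 2) ^ 2
        = (∑ i, ⟪tr (stp i ε) (Pot d r) - Pot d r, tr (stp i ε) v - v⟫_ℝ) ^ 2 / (ε ^ 2 * ε ^ 2) := by
          rw [div_pow]; ring
      _ ≤ ((∑ i, ‖tr (stp i ε) (Pot d r) - Pot d r‖ ^ 2) * (∑ i, ‖tr (stp i ε) v - v‖ ^ 2)) /
          (ε ^ 2 * ε ^ 2) := by gcongr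
      _ = ((∑ i, ‖tr (stp i ε) v - v‖ ^ 2) / ε ^ 2) *
          ((∑ i, ‖tr (stp i ε) (Pot d r) - Pot d r‖ ^ 2) / ε ^ 2) := by
          field_simp
      _ ≤ ((∑ i, ⟪tr (stp i ε) u - u, tr (stp i ε) v - v⟫_ℝ) / ε ^ 2) * En r := by
          apply mul_le_mul _ c3 (by positivity)
          · exact div_nonneg (c4.trans c2) hpos.le
          · gcongr
  have h5 := le_of_tendsto_of_tendsto (h1.pow 2) (h2.mul_const (En r)) h4
  rw [inner_neg_left, neg_sq] at h5
  exact h5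

end Pool.Agent.helper28.Coul
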