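import Pool.Agent.helper28.Coul.Dir

/-!
# The Dirichlet form inequality for integrable functions
-/

set_option autoImplicit false

open MeasureTheory UnitAddTorus Filter Topology
open scoped ENNReal ComplexConjugate InnerProductSpace

noncomputable section

namespace Pool.Agent.helper28.Coul

variable {d : ℕ}

/-- real Fejer means -/
def csR (N : ℕ) (g : T d → ℝ) (x : T d) : ℝ := ∫ y, g y * KN d N (x - y) ∂(mu d)

lemma csR_eq (N : ℕ) (g : T d → ℝ) (x : T d) : (csR N g x : ℂ) = cs N (fun y => (g y : ℂ)) x := by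
  unfold csR cs
  have h2 : ∫ y, ((g y * KN d N (x - y) : ℝ) : ℂ) ∂(mu d) =
      ((∫ y, g y * KN d N (x - y) ∂(mu d) : ℝ) : ℂ) := integral_ofReal
  rw [← h2]
  congr 1
  ext y
  push_cast
  rfl

lemma continuous_csR (N : ℕ) {g : T d → ℝ} (hg : Integrable g (mu d)) : Continuous (csR N g) := by
  have h := continuous_cs N (hg.ofReal (𝕜 := ℂ))
  have : csR N g = fun x => (cs N (fun y => (g y : ℂ)) x).re := by
    ext x
    rw [← csR_eq, Complex.ofReal_re]
  rw [this]
  exact Complex.continuous_re.comp h

lemma fc_csR (N : ℕ) {g : T d → ℝ} (hg : Integrable g (mu d)) (k : Fin d → ℤ) :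
    fc (fun x => (csR N g x : ℂ)) k = kap N k * fc (fun x => (g x : ℂ)) k := by
  simp only [csR_eq]
  exact fc_cs N (hg.ofReal (𝕜 := ℂ)) k

lemma csR_l1 {g : T d → ℝ} (hg : Integrable g (mu d)) :
    Tendsto (fun N => ∫ x, |csR N g x - g x| ∂(mu d)) atTop (𝓝 0) := by
  refine (cs_l1 (hg.ofReal (𝕜 := ℂ))).congr fun N => ?_
  congr 1
  ext x
  have e : cs N (fun y => (g y : ℂ)) x - (g x : ℂ) = ((csR N g x - g x : ℝ) : ℂ) := by
    rw [← csR_eq]; push_cast; rfl
  change ‖cs N (fun y => (g y : ℂ)) x - (g x : ℂ)‖ = _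
  rw [e, Complex.norm_real, Real.norm_eq_abs]

/-- continuous functions as elements of `L²` -/
def ofCont {f : T d → ℝ} (hf : Continuous f) : HR d :=
  MemLp.toLp f (MemLp.of_bound (p := 2) (μ := mu d) hf.aestronglyMeasurable
    (isCompact_univ.exists_bound_of_continuousOn hf.continuousOn).choose
    (Eventually.of_forall fun x =>
      (isCompact_univ.exists_bound_of_continuousOn hf.continuousOn).choose_spec x (Set.mem_univ x)))

lemma ofCont_ae {f : T d → ℝ} (hf : Continuous f) : ofCont hf =ᵐ[mu d] f := MemLp.coeFn_toLp _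

lemma fr_ofCont {f : T d → ℝ} (hf : Continuous f) (k : Fin d → ℤ) :
    fr (ofCont hf) k = fc (fun x => (f x : ℂ)) k := by
  rw [fr_eq]
  apply fc_congr
  filter_upwards [ofCont_ae hf] with x hx
  rw [hx]

theorem dirichlet_L1 {l f : T d → ℝ} (hl : Integrable l (mu d)) (hf : Integrable f (mu d))
    (h : ∀ k, fc (fun x => (f x : ℂ)) k =
      ((4 * Real.pi ^ 2 * dot k k : ℝ) : ℂ) * fc (fun x => (l x : ℂ)) k)
    {φ : ℝ → ℝ} (hφ : ∀ s t, (φ s - φ t) ^ 2 ≤ (s - t) * (φ s - φ t)) (hc : Continuous φ)
    {K : ℝ} (hK : ∀ s, |φ s| ≤ K) (r : HR d) :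
    (∫ x, Lap d r x * φ (l x) ∂(mu d)) ^ 2 ≤ (∫ x, f x * φ (l x) ∂(mu d)) * En r := by
  have hK0 : 0 ≤ K := (abs_nonneg _).trans (hK 0)
  -- subsequence
  have hm : TendstoInMeasure (mu d) (fun N => csR N l) atTop l := by
    apply tendstoInMeasure_of_tendsto_eLpNorm (p := 1) one_ne_zero
    · intro N; exact (continuous_csR N hl).aestronglyMeasurable
    · exact hl.aestronglyMeasurable
    · have h1 : ∀ N, eLpNorm (csR N l - l) 1 (mu d) =
          ENNReal.ofReal (∫ x, |csR N l x - l x| ∂(mu d)) := by
        intro N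
        rw [eLpNorm_one_eq_lintegral_enorm]
        have hi : Integrable (fun x => csR N l x - l x) (mu d) :=
          ((continuous_csR N hl).integrable_of_hasCompactSupport
            (HasCompactSupport.of_compactSpace _)).sub hl
        have := ofReal_integral_norm_eq_lintegral_enorm hi
        simp only [Real.norm_eq_abs] at this
        rw [this]
        rfl
      simp only [h1]
      rw [← ENNReal.ofReal_zero]
      exact (ENNReal.continuous_ofReal.tendsto 0).comp (csR_l1 hl)
  obtain ⟨ns, hns, hae⟩ := hm.exists_seq_tendsto_ae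
  have hns' := hns.tendsto_atTop
  -- integrability
  have hcont : ∀ N, Continuous fun x => φ (csR N l x) := fun N => hc.comp (continuous_csR N hl)
  have hlm : AEStronglyMeasurable (fun x => φ (l x)) (mu d) :=
    hc.comp_aestronglyMeasurable hl.aestronglyMeasurable
  -- first limit
  have hL1 : Integrable (Lap d r) (mu d) := (Lp.memLp (Lap d r)).integrable one_le_two
  have lim1 : Tendsto (fun j => ∫ x, Lap d r x * φ (csR (ns j) l x) ∂(mu d)) atTop
      (𝓝 (∫ x, Lap d r x * φ (l x) ∂(mu d))) := by
    apply tendsto_integral_of_dominated_convergence (fun x => |Lap d r x| * K)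
    · intro j
      exact hL1.aestronglyMeasurable.mul (hcont _).aestronglyMeasurable
    · exact hL1.abs.mul_const K
    · intro j
      refine Eventually.of_forall fun x => ?_
      rw [norm_mul, Real.norm_eq_abs, Real.norm_eq_abs]
      exact mul_le_mul_of_nonneg_left (hK _) (abs_nonneg _)
    · filter_upwards [hae] with x hx
      exact ((hc.tendsto _).comp hx).const_mul _
  have lim2 : Tendsto (fun j => ∫ x, f x * φ (csR (ns j) l x) ∂(mu d)) atTop
      (𝓝 (∫ x, f x * φ (l x) ∂(mu d))) := by
    apply tendsto_integral_of_dominated_convergence (fun x => |f x| * K)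
    · intro j
      exact hf.aestronglyMeasurable.mul (hcont _).aestronglyMeasurable
    · exact hf.abs.mul_const K
    · intro j
      refine Eventually.of_forall fun x => ?_
      rw [norm_mul, Real.norm_eq_abs, Real.norm_eq_abs]
      exact mul_le_mul_of_nonneg_left (hK _) (abs_nonneg _)
    · filter_upwards [hae] with x hx
      exact ((hc.tendsto _).comp hx).const_mul _
  have hb : ∀ N (g : T d → ℝ), Integrable g (mu d) →
      Integrable (fun x => g x * φ (csR N l x)) (mu d) := by
    intro N g hg
    refine (hg.abs.mul_const K).mono (hg.aestronglyMeasurable.mul (hcont _).aestronglyMeasurable)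
      (Eventually.of_forall fun x => ?_)
    rw [norm_mul, norm_mul, Real.norm_eq_abs, Real.norm_eq_abs, Real.norm_eq_abs, abs_abs]
    exact mul_le_mul_of_nonneg_left ((hK _).trans (le_abs_self K)) (abs_nonneg _)
  have lim3 : Tendsto (fun j => ∫ x, csR (ns j) f x * φ (csR (ns j) l x) ∂(mu d)) atTop
      (𝓝 (∫ x, f x * φ (l x) ∂(mu d))) := by
    have e : ∀ j, ∫ x, csR (ns j) f x * φ (csR (ns j) l x) ∂(mu d) =
        ∫ x, f x * φ (csR (ns j) l x) ∂(mu d) +
        ∫ x, (csR (ns j) f x - f x) * φ (csR (ns j) l x) ∂(mu d) := by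
      intro j
      have hi : Integrable (fun x => csR (ns j) f x - f x) (mu d) :=
        ((continuous_csR (ns j) hf).integrable_of_hasCompactSupport
          (HasCompactSupport.of_compactSpace _)).sub hf
      rw [← integral_add (hb _ _ hf) (hb _ _ hi)]
      congr 1
      ext x
      ring
    simp only [e]
    have h0 : Tendsto (fun j => ∫ x, (csR (ns j) f x - f x) * φ (csR (ns j) l x) ∂(mu d)) atTop
        (𝓝 0) := by
      have h1 := ((csR_l1 hf).comp hns').mul_const K
      rw [zero_mul] at h1
      apply squeeze_zero_norm _ h1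
      intro j
      rw [Function.comp_apply, ← integral_mul_const]
      refine (norm_integral_le_integral_norm _).trans ?_
      have hi : Integrable (fun x => csR (ns j) f x - f x) (mu d) :=
        ((continuous_csR (ns j) hf).integrable_of_hasCompactSupport
          (HasCompactSupport.of_compactSpace _)).sub hf
      apply integral_mono (hb _ _ hi).norm (hi.abs.mul_const K)
      intro x
      simp only [norm_mul, Real.norm_eq_abs]
      exact mul_le_mul_of_nonneg_left (hK _) (abs_nonneg _)
    simpa using lim2.add h0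
  -- the inequality for the means
  have ineq : ∀ j, (∫ x, Lap d r x * φ (csR (ns j) l x) ∂(mu d)) ^ 2 ≤
      (∫ x, csR (ns j) f x * φ (csR (ns j) l x) ∂(mu d)) * En r := by
    intro j
    set u := ofCont (continuous_csR (ns j) hl) with hu
    set F := ofCont (continuous_csR (ns j) hf) with hF
    set v := ofCont (hcont (ns j)) with hv
    have hneg : IsNegLap u F := by
      intro k
      rw [hu, hF, fr_ofCont, fr_ofCont, fc_csR _ hf, fc_csR _ hl, h k]
      ring
    have hvu : v =ᵐ[mu d] fun x => φ (u x) := by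
      filter_upwards [ofCont_ae (hcont (ns j)), ofCont_ae (continuous_csR (ns j) hl)] with x h1 h2
      rw [hv, hu, h1, h2]
    have := dirichlet hneg hφ hvu r
    rw [inner_hr, inner_hr] at this
    have e1 : ∫ x, Lap d r x * v x ∂(mu d) = ∫ x, Lap d r x * φ (csR (ns j) l x) ∂(mu d) := by
      apply integral_congr_ae
      filter_upwards [ofCont_ae (hcont (ns j))] with x h1
      rw [hv, h1]
    have e2 : ∫ x, F x * v x ∂(mu d) = ∫ x, csR (ns j) f x * φ (csR (ns j) l x) ∂(mu d) := by
      apply integral_congr_ae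
      filter_upwards [ofCont_ae (hcont (ns j)), ofCont_ae (continuous_csR (ns j) hf)] with x h1 h2
      rw [hv, h1, hF, h2]
    rwa [e1, e2] at this
  exact le_of_tendsto_of_tendsto' (lim1.pow 2) (lim3.mul_const (En r)) ineq

end Pool.Agent.helper28.Coul
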