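import Pool.Agent.helper28.Coul.Sym

/-!
# The second order identity
-/

set_option autoImplicit false

open MeasureTheory UnitAddTorus Filter Topology
open scoped ENNReal ComplexConjugate InnerProductSpace

noncomputable section

namespace Pool.Agent.helper28.Coul

variable {d : ℕ}

lemma norm_mFourier_apply (k : Fin d → ℤ) (x : T d) : ‖mFourier k x‖ = 1 := by
  simp only [mFourier, fourier_apply, ContinuousMap.coe_mk, norm_prod, Circle.norm_coe,
    Finset.prod_const_one]

lemma hasSum_bil (u v : HC d) (n : Fin d → ℤ) :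
    HasSum (fun k => fc u (-n - k) * fc v k) (∫ x, u x * v x * mFourier n x ∂(mu d)) := by
  have hU : MemLp (fun x => conj (u x) * conj (mFourier n x)) 2 (mu d) := by
    refine (Lp.memLp u).mono ?_ (Eventually.of_forall fun x => ?_)
    · exact ((Complex.continuous_conj.comp_aestronglyMeasurable (Lp.aestronglyMeasurable u)).mul
        (Complex.continuous_conj.comp (mFourier n).continuous).aestronglyMeasurable)
    · rw [norm_mul, RCLike.norm_conj, RCLike.norm_conj, norm_mFourier_apply, mul_one]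
  have hae := hU.coeFn_toLp
  have h := hasSum_inner_fc (hU.toLp _) v
  have e1 : ∫ x, conj (hU.toLp _ x) * v x ∂(mu d) = ∫ x, u x * v x * mFourier n x ∂(mu d) := by
    apply integral_congr_ae
    filter_upwards [hae] with x hx
    rw [hx, map_mul, Complex.conj_conj, Complex.conj_conj]
    ring
  rw [e1] at h
  refine h.congr_fun ?_
  intro k
  congr 1
  rw [fc_congr hae]
  unfold fc
  rw [← integral_conj]
  congr 1
  ext x
  rw [map_mul, map_mul, Complex.conj_conj, Complex.conj_conj, Complex.conj_conj, ← mFourier_neg]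
  have : (-(-n - k)) = k + n := by ring
  rw [this, mFourier_add]
  ring

/-- the trilinear expression `∫ f g e_n` -/
def Bn (f g : HR d) (n : Fin d → ℤ) : ℂ := ∫ x, (f x : ℂ) * (g x : ℂ) * mFourier n x ∂(mu d)

lemma hasSum_Bn (f g : HR d) (n : Fin d → ℤ) :
    HasSum (fun k => fr f (-n - k) * fr g k) (Bn f g n) := by
  have h := hasSum_bil (toC d f) (toC d g) n
  have : Bn f g n = ∫ x, toC d f x * toC d g x * mFourier n x ∂(mu d) := by
    unfold Bn
    apply integral_congr_ae
    filter_upwards [toC_ae f, toC_ae g] with x a b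
    rw [a, b]
  rw [this]
  exact h

lemma Bn_comm (f g : HR d) (n : Fin d → ℤ) : Bn f g n = Bn g f n := by
  unfold Bn
  congr 1
  ext x
  ring

lemma sum_GG (a b : Fin d → ℤ) :
    ∑ i, sG i a * sG i b = ((-(4 * Real.pi ^ 2) * w a * w b * dot a b : ℝ) : ℂ) := by
  have : ∀ i, sG i a * sG i b =
      ((-(4 * Real.pi ^ 2) * w a * w b * ((a i : ℝ) * (b i : ℝ)) : ℝ) : ℂ) := by
    intro i
    unfold sG
    push_cast
    linear_combination (4 * Real.pi ^ 2 * (a i : ℂ) * w a * b i * w b) * Complex.I_sq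
  simp only [this]
  rw [← Complex.ofReal_sum, ← Finset.mul_sum]
  rfl

lemma sum_nG (n b : Fin d → ℤ) :
    ∑ i, (2 * Real.pi * Complex.I * (n i : ℂ)) * sG i b =
      ((-(4 * Real.pi ^ 2) * w b * dot n b : ℝ) : ℂ) := by
  have : ∀ i, (2 * Real.pi * Complex.I * (n i : ℂ)) * sG i b =
      ((-(4 * Real.pi ^ 2) * w b * ((n i : ℝ) * (b i : ℝ)) : ℝ) : ℂ) := by
    intro i
    unfold sG
    push_cast
    linear_combination (4 * Real.pi ^ 2 * (n i : ℂ) * b i * w b) * Complex.I_sq
  simp only [this]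
  rw [← Complex.ofReal_sum, ← Finset.mul_sum]
  rfl

lemma sum_HH (a b : Fin d → ℤ) :
    ∑ i, ∑ j, sH i j a * sH i j b = ((16 * Real.pi ^ 4 * w a * w b * dot a b ^ 2 : ℝ) : ℂ) := by
  have : ∀ i j, sH i j a * sH i j b =
      ((16 * Real.pi ^ 4 * w a * w b * (((a i : ℝ) * (b i : ℝ)) * ((a j : ℝ) * (b j : ℝ))) : ℝ) : ℂ) := by
    intro i j
    unfold sH
    push_cast
    ring
  simp only [this]
  simp only [← Complex.ofReal_sum, ← Finset.mul_sum]
  congr 1
  rw [sq, dot, Finset.sum_mul_sum]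
  simp only [Finset.mul_sum]

lemma sym_identity {a b n : Fin d → ℤ} (h : a + b + n = 0) :
    -(4 * Real.pi ^ 2 * dot n n : ℝ) * (∑ i, sG i a * sG i b) +
      (sL a * ∑ i, (2 * Real.pi * Complex.I * (n i : ℂ)) * sG i b +
       sL b * ∑ i, (2 * Real.pi * Complex.I * (n i : ℂ)) * sG i a) =
      2 * (∑ i, ∑ j, sH i j a * sH i j b) - 2 * (sL a * sL b) := by
  rw [sum_GG, sum_nG, sum_nG, sum_HH]
  have hn : n = -a - b := by
    have := eq_neg_of_add_eq_zero_right h
    rw [this]; ring
  have e1 : dot n n = dot a a + dot b b + 2 * dot a b := by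
    rw [hn]; unfold dot
    rw [Finset.mul_sum, ← Finset.sum_add_distrib, ← Finset.sum_add_distrib]
    refine Finset.sum_congr rfl fun i _ => ?_
    simp only [Pi.sub_apply, Pi.neg_apply, Int.cast_sub, Int.cast_neg]
    ring
  have e2 : dot n b = - dot a b - dot b b := by
    rw [hn]; unfold dot
    rw [← Finset.sum_neg_distrib, ← Finset.sum_sub_distrib]
    refine Finset.sum_congr rfl fun i _ => ?_
    simp only [Pi.sub_apply, Pi.neg_apply, Int.cast_sub, Int.cast_neg]
    ring
  have e3 : dot n a = - dot a a - dot a b := by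
    rw [hn]; unfold dot
    rw [← Finset.sum_neg_distrib, ← Finset.sum_sub_distrib]
    refine Finset.sum_congr rfl fun i _ => ?_
    simp only [Pi.sub_apply, Pi.neg_apply, Int.cast_sub, Int.cast_neg]
    ring
  rcases eq_or_ne a 0 with rfl | ha
  · simp [sL]
  rcases eq_or_ne b 0 with rfl | hb
  · simp [sL]
  have ha1 := w_mul ha
  have hb1 := w_mul hb
  have sa : sL a = ((-1 : ℝ) : ℂ) := by simp [sL, ha]
  have sb : sL b = ((-1 : ℝ) : ℂ) := by simp [sL, hb]
  rw [sa, sb, e1, e2, e3]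
  have key : -(4 * Real.pi ^ 2 * (dot a a + dot b b + 2 * dot a b)) *
      (-(4 * Real.pi ^ 2) * w a * w b * dot a b) +
      ((-1) * (-(4 * Real.pi ^ 2) * w b * (- dot a b - dot b b)) +
       (-1) * (-(4 * Real.pi ^ 2) * w a * (- dot a a - dot a b))) =
      2 * (16 * Real.pi ^ 4 * w a * w b * dot a b ^ 2) - 2 * ((-1) * (-1 : ℝ)) := by
    linear_combination (4 * Real.pi ^ 2 * w b * dot a b - 1) * ha1 +
      (4 * Real.pi ^ 2 * w a * dot a b - 1) * hb1
  exact_mod_cast key

theorem ident (f : HR d) (n : Fin d → ℤ) :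
    -(4 * Real.pi ^ 2 * dot n n : ℝ) * (∑ i, Bn (G i f) (G i f) n) +
      2 * (∑ i, (2 * Real.pi * Complex.I * (n i : ℂ)) * Bn (Lap d f) (G i f) n) =
      2 * (∑ i, ∑ j, Bn (R i j f) (R i j f) n) - 2 * Bn (Lap d f) (Lap d f) n := by
  have h1 : HasSum (fun k => ∑ i, fr (G i f) (-n - k) * fr (G i f) k)
      (∑ i, Bn (G i f) (G i f) n) := hasSum_sum fun i _ => hasSum_Bn _ _ n
  have h2 : HasSum (fun k => ∑ i, (2 * Real.pi * Complex.I * (n i : ℂ)) *
      (fr (Lap d f) (-n - k) * fr (G i f) k))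
      (∑ i, (2 * Real.pi * Complex.I * (n i : ℂ)) * Bn (Lap d f) (G i f) n) :=
    hasSum_sum fun i _ => (hasSum_Bn _ _ n).mul_left _
  have h3 : HasSum (fun k => ∑ i, (2 * Real.pi * Complex.I * (n i : ℂ)) *
      (fr (G i f) (-n - k) * fr (Lap d f) k))
      (∑ i, (2 * Real.pi * Complex.I * (n i : ℂ)) * Bn (Lap d f) (G i f) n) :=
    hasSum_sum fun i _ => by
      rw [Bn_comm]
      exact (hasSum_Bn _ _ n).mul_left _
  have h4 : HasSum (fun k => ∑ i, ∑ j, fr (R i j f) (-n - k) * fr (R i j f) k)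
      (∑ i, ∑ j, Bn (R i j f) (R i j f) n) :=
    hasSum_sum fun i _ => hasSum_sum fun j _ => hasSum_Bn _ _ n
  have h5 := hasSum_Bn (Lap d f) (Lap d f) n
  have hl := (h1.mul_left (-(4 * Real.pi ^ 2 * dot n n : ℝ) : ℂ)).add (h2.add h3)
  have hr := (h4.mul_left 2).sub (h5.mul_left 2)
  have hterm : ∀ k, -(4 * Real.pi ^ 2 * dot n n : ℝ) *
      (∑ i, fr (G i f) (-n - k) * fr (G i f) k) +
      ((∑ i, (2 * Real.pi * Complex.I * (n i : ℂ)) * (fr (Lap d f) (-n - k) * fr (G i f) k)) +
       (∑ i, (2 * Real.pi * Complex.I * (n i : ℂ)) * (fr (G i f) (-n - k) * fr (Lap d f) k))) =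
      2 * (∑ i, ∑ j, fr (R i j f) (-n - k) * fr (R i j f) k) -
        2 * (fr (Lap d f) (-n - k) * fr (Lap d f) k) := by
    intro k
    have hs := sym_identity (a := -n - k) (b := k) (n := n) (by ring)
    have e := congrArg (fun z : ℂ => z * (fr f (-n - k) * fr f k)) hs
    simp only [fr_G, fr_R, fr_Lap]
    have c1 : ∑ i, sG i (-n - k) * fr f (-n - k) * (sG i k * fr f k) =
        (∑ i, sG i (-n - k) * sG i k) * (fr f (-n - k) * fr f k) := by
      rw [Finset.sum_mul]; exact Finset.sum_congr rfl fun i _ => by ring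
    have c2 : ∑ i, (2 * Real.pi * Complex.I * (n i : ℂ)) *
        (sL (-n - k) * fr f (-n - k) * (sG i k * fr f k)) =
        sL (-n - k) * (∑ i, (2 * Real.pi * Complex.I * (n i : ℂ)) * sG i k) *
          (fr f (-n - k) * fr f k) := by
      rw [Finset.mul_sum, Finset.sum_mul]; exact Finset.sum_congr rfl fun i _ => by ring
    have c3 : ∑ i, (2 * Real.pi * Complex.I * (n i : ℂ)) *
        (sG i (-n - k) * fr f (-n - k) * (sL k * fr f k)) =
        sL k * (∑ i, (2 * Real.pi * Complex.I * (n i : ℂ)) * sG i (-n - k)) *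
          (fr f (-n - k) * fr f k) := by
      rw [Finset.mul_sum, Finset.sum_mul]; exact Finset.sum_congr rfl fun i _ => by ring
    have c4 : ∑ i, ∑ j, sH i j (-n - k) * fr f (-n - k) * (sH i j k * fr f k) =
        (∑ i, ∑ j, sH i j (-n - k) * sH i j k) * (fr f (-n - k) * fr f k) := by
      rw [Finset.sum_mul]
      refine Finset.sum_congr rfl fun i _ => ?_
      rw [Finset.sum_mul]; exact Finset.sum_congr rfl fun i _ => by ring
    rw [c1, c2, c3, c4]
    linear_combination e
  have hl' := hl.congr_fun (fun k => (hterm k).symm)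
  have := hl'.unique hr
  rw [← this]
  ring

end Pool.Agent.helper28.Coul
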