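import Pool.Agent.helper28.Coul.PA5

/-!
# The sharp dissipation inequality for bounded densities: conclusion
-/

set_option autoImplicit false

open MeasureTheory UnitAddTorus Filter Topology
open scoped ENNReal ComplexConjugate InnerProductSpace

noncomputable section

namespace Pool.Agent.helper28.Coul

variable {d : ℕ}

lemma claim3 {κ M : ℝ} (hM : 1 < M) {r : HR d} {V : Fin d → HR d} (hV : IsV κ r V) (hr : KM M r)
    (hmx : IsMx κ M r) {c : ℝ} (hc : 0 < mu d {x | 0 < r x ∧ PP r V x < c}) :
    (∫ x in {x | 0 < r x}, PP r V x * (r x - 1) ∂(mu d)) - (mu d).real {x | r x ≤ 0} * c ≤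
      2 * J κ r := by
  have hrm := meas_hr r
  have hPm := meas_PP r V
  -- a set on which r is bounded below
  have hex : ∃ n : ℕ, 0 < mu d {x | 1 / ((n : ℝ) + 1) ≤ r x ∧ PP r V x < c} := by
    by_contra hcon
    push Not at hcon
    have : {x | 0 < r x ∧ PP r V x < c} ⊆ ⋃ n : ℕ, {x | 1 / ((n : ℝ) + 1) ≤ r x ∧ PP r V x < c} := by
      rintro x ⟨h1, h2⟩
      obtain ⟨n, hn⟩ := exists_nat_one_div_lt h1
      exact Set.mem_iUnion.mpr ⟨n, hn.le, h2⟩
    have h0 : mu d (⋃ n : ℕ, {x | 1 / ((n : ℝ) + 1) ≤ r x ∧ PP r V x < c}) = 0 :=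
      measure_iUnion_null fun n => le_antisymm (hcon n) bot_le
    exact absurd (measure_mono_null this h0) hc.ne'
  obtain ⟨n, hn⟩ := hex
  set A : Set (T d) := {x | 1 / ((n : ℝ) + 1) ≤ r x ∧ PP r V x < c} with hAdef
  have hA : MeasurableSet A :=
    (measurableSet_le measurable_const hrm).inter (measurableSet_lt hPm measurable_const)
  have hApos : 0 < (mu d).real A := ENNReal.toReal_pos hn.ne' (measure_ne_top _ _)
  have hb : (0 : ℝ) < 1 / ((n : ℝ) + 1) := by positivity
  have key : ∀ j : ℕ, (∫ x in {x | 1 / ((j : ℝ) + 1) ≤ r x}, PP r V x * (r x - 1) ∂(mu d)) -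
      bt r (1 / ((j : ℝ) + 1)) * c ≤ 2 * J κ r := by
    intro j
    have ha : (0 : ℝ) < 1 / ((j : ℝ) + 1) := by positivity
    have ha1 : 1 / ((j : ℝ) + 1) ≤ 1 := by
      rw [div_le_one (by positivity)]
      have : (0 : ℝ) ≤ j := Nat.cast_nonneg j
      linarith
    exact claim2 hM hV hr hmx ha ha1 hb hA (fun x hx => hx.1) hApos (fun x hx => hx.2.le)
  have hUn : (⋃ j : ℕ, {x : T d | 1 / ((j : ℝ) + 1) ≤ r x}) = {x | 0 < r x} := by
    ext x
    simp only [Set.mem_iUnion, Set.mem_ofPred_eq]
    constructor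
    · rintro ⟨j, hj⟩
      exact lt_of_lt_of_le (by positivity) hj
    · intro h
      obtain ⟨n, hn⟩ := exists_nat_one_div_lt h
      exact ⟨n, hn.le⟩
  have hmono : Monotone fun j : ℕ => {x : T d | 1 / ((j : ℝ) + 1) ≤ r x} := by
    intro i j hij x hx
    have hx' : 1 / ((i : ℝ) + 1) ≤ r x := hx
    have : 1 / ((j : ℝ) + 1) ≤ 1 / ((i : ℝ) + 1) := by
      have : (i : ℝ) ≤ j := by exact_mod_cast hij
      gcongr
    exact this.trans hx'
  have hms : ∀ j : ℕ, MeasurableSet {x : T d | 1 / ((j : ℝ) + 1) ≤ r x} := fun j =>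
    measurableSet_le measurable_const hrm
  have j1 : Integrable (fun x => PP r V x * (r x - 1)) (mu d) := by
    apply int_bd (C := M + 1) (integrable_PP r V) ((meas_hr r).sub_const 1).aestronglyMeasurable
    filter_upwards [hr.1] with x hx
    rw [abs_le]; constructor <;> linarith [hx.1, hx.2]
  have lim1 := tendsto_setIntegral_of_monotone hms hmono (f := fun x => PP r V x * (r x - 1))
    (μ := mu d) j1.integrableOn
  have lim2 := tendsto_setIntegral_of_monotone hms hmono (f := fun x => r x - 1)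
    (μ := mu d) (int_sub_one r).integrableOn
  rw [hUn] at lim1 lim2
  have hE : MeasurableSet {x | 0 < r x} := measurableSet_lt measurable_const hrm
  have hz : ∫ x in {x | 0 < r x}, (r x - 1) ∂(mu d) = (mu d).real {x | r x ≤ 0} := by
    have h1 := integral_add_compl hE (int_sub_one r)
    have h2 : ∫ x, (r x - 1) ∂(mu d) = 0 := by
      rw [integral_sub (int_hr r) (integrable_const 1), hr.2]; simp
    have hcomp : {x | 0 < r x}ᶜ = {x : T d | r x ≤ 0} := by
      ext x; simp
    rw [hcomp] at h1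
    have h3 : ∫ x in {x | r x ≤ 0}, (r x - 1) ∂(mu d) = - (mu d).real {x | r x ≤ 0} := by
      have : ∫ x in {x | r x ≤ 0}, (r x - 1) ∂(mu d) = ∫ _x in {x | r x ≤ 0}, (-1 : ℝ) ∂(mu d) := by
        apply setIntegral_congr_ae (measurableSet_le hrm measurable_const)
        filter_upwards [hr.1] with x hx hx'
        have hx'' : r x ≤ 0 := hx'
        have : r x = 0 := le_antisymm hx'' hx.1
        rw [this]; ring
      rw [this, setIntegral_const]; simp
    linarith
  rw [hz] at lim2
  exact le_of_tendsto' (lim1.sub (lim2.mul_const c)) key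

/-- **The sharp dissipation inequality for bounded densities.** -/
theorem partA (hd : 0 < d) {M : ℝ} {r : HR d} (hr : KM M r) : J (kp d) r ≤ 0 := by
  by_contra hcon
  push Not at hcon
  have hκ : 0 ≤ kp d := by
    unfold kp
    have : (1 : ℝ) ≤ d := by exact_mod_cast hd
    have : 0 ≤ (d : ℝ) - 1 := by linarith
    positivity
  have hM : 1 < M := by
    have h1 : J (kp d) r ≤ ∫ x, gs r x ∂(mu d) := by
      unfold J
      apply integral_mono_ae (int_bd (integrable_gs r) (meas_const_sub r) (bd_const_sub hr.bd))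
        (integrable_gs r)
      filter_upwards [hr.1] with x hx
      exact mul_le_of_le_one_right (gs_nonneg r x) (by linarith [hx.1])
    rw [integral_gs] at h1
    have := hr.En_le
    linarith
  obtain ⟨M', r', hMM, hr', hJ', hmx'⟩ := exists_max hκ hM hr hcon
  have hM' : 1 < M' := by linarith
  have hmx : IsMx (kp d) M' r' := fun M'' r'' h1 h2 => hmx' M'' r'' (hMM.trans h1) h2
  clear hmx' hcon hM hr r
  obtain ⟨V, hV⟩ := exists_V (kp d) hr'.bd
  have hrm := meas_hr r'
  have hPm := meas_PP r' V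
  have hE : MeasurableSet {x | 0 < r' x} := measurableSet_lt measurable_const hrm
  have hZ : MeasurableSet {x | r' x ≤ 0} := measurableSet_le hrm measurable_const
  have hcomp : {x | 0 < r' x}ᶜ = {x : T d | r' x ≤ 0} := by ext x; simp
  set L₀ := ∫ x in {x | 0 < r' x}, PP r' V x * (r' x - 1) ∂(mu d) with hL₀
  set z := (mu d).real {x | r' x ≤ 0} with hz
  have hz0 : 0 ≤ z := measureReal_nonneg
  have j1 : Integrable (fun x => PP r' V x * (r' x - 1)) (mu d) := by
    apply int_bd (C := M' + 1) (integrable_PP r' V) ((meas_hr r').sub_const 1).aestronglyMeasurable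
    filter_upwards [hr'.1] with x hx
    rw [abs_le]; constructor <;> linarith [hx.1, hx.2]
  have hL : L₀ = 3 * J (kp d) r' + kp d * En r' + ∫ x in {x | r' x ≤ 0}, PP r' V x ∂(mu d) := by
    have h1 := integral_add_compl hE j1
    rw [hcomp, integral_PP_sub_one hV hr'.bd hr'.2] at h1
    have h3 : ∫ x in {x | r' x ≤ 0}, PP r' V x * (r' x - 1) ∂(mu d) =
        - ∫ x in {x | r' x ≤ 0}, PP r' V x ∂(mu d) := by
      rw [← integral_neg]
      apply setIntegral_congr_ae hZ
      filter_upwards [hr'.1] with x hx hx'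
      have hx'' : r' x ≤ 0 := hx'
      have : r' x = 0 := le_antisymm hx'' hx.1
      rw [this]; ring
    rw [h3] at h1
    rw [hL₀]
    linarith
  have hEn := En_nonneg r'
  have hprod : 0 ≤ kp d * En r' := mul_nonneg hκ hEn
  have c3 := fun c hc => claim3 hM' hV hr' hmx (c := c) hc
  -- the set of levels
  have hEpos : 0 < mu d {x | 0 < r' x} := by
    rw [pos_iff_ne_zero]
    intro h0
    have h1 : ∫ x, r' x ∂(mu d) ≤ 0 := by
      apply integral_nonpos_of_ae
      have : ∀ᵐ x ∂(mu d), ¬ (0 < r' x) := by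
        rw [ae_iff]; simpa using h0
      filter_upwards [this] with x hx
      exact not_lt.mp hx
    rw [hr'.2] at h1
    linarith
  have hne : ∃ c, 0 < mu d {x | 0 < r' x ∧ PP r' V x < c} := by
    by_contra hcon
    push Not at hcon
    have : {x | 0 < r' x} ⊆ ⋃ n : ℕ, {x | 0 < r' x ∧ PP r' V x < n} := by
      intro x hx
      obtain ⟨n, hn⟩ := exists_nat_gt (PP r' V x)
      exact Set.mem_iUnion.mpr ⟨n, hx, hn⟩
    have h0 : mu d (⋃ n : ℕ, {x | 0 < r' x ∧ PP r' V x < n}) = 0 :=
      measure_iUnion_null fun n => le_antisymm (hcon n) bot_le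
    exact absurd (measure_mono_null this h0) hEpos.ne'
  rcases hz0.eq_or_lt with h0 | h0
  · -- no vacuum
    obtain ⟨c, hc⟩ := hne
    have h1 := c3 c hc
    have h2 : ∫ x in {x | r' x ≤ 0}, PP r' V x ∂(mu d) = 0 := by
      apply setIntegral_measure_zero
      rw [hz] at h0
      exact (measureReal_eq_zero_iff (measure_ne_top _ _)).mp h0.symm
    rw [← hz, ← h0, ← hL₀, hL, h2] at h1
    linarith
  · set S : Set ℝ := {c | 0 < mu d {x | 0 < r' x ∧ PP r' V x < c}} with hS
    have hSne : S.Nonempty := hne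
    have hSb : ∀ c ∈ S, (L₀ - 2 * J (kp d) r') / z ≤ c := by
      intro c hc
      rw [div_le_iff₀ h0]
      have := c3 c hc
      linarith
    have hbdd : BddBelow S := ⟨_, hSb⟩
    set c := sInf S with hcdef
    have hc1 : (L₀ - 2 * J (kp d) r') / z ≤ c := le_csInf hSne hSb
    rw [div_le_iff₀ h0] at hc1
    have hnull : ∀ᵐ x ∂(mu d), PP r' V x < c → r' x = 0 := by
      have h1 : ∀ n : ℕ, mu d {x | 0 < r' x ∧ PP r' V x < c - 1 / ((n : ℝ) + 1)} = 0 := by
        intro n
        by_contra hcon
        have hmem : c - 1 / ((n : ℝ) + 1) ∈ S := pos_iff_ne_zero.mpr hcon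
        have h2 := csInf_le hbdd hmem
        have h3 : (0 : ℝ) < 1 / ((n : ℝ) + 1) := by positivity
        linarith
      have h2 : ∀ᵐ x ∂(mu d), ∀ n : ℕ, ¬ (0 < r' x ∧ PP r' V x < c - 1 / ((n : ℝ) + 1)) := by
        rw [ae_all_iff]
        intro n
        rw [ae_iff]
        simp only [not_not]
        exact h1 n
      filter_upwards [h2, hr'.1] with x hx hx2 hlt
      by_contra hne0
      have hpos : 0 < r' x := lt_of_le_of_ne hx2.1 (Ne.symm hne0)
      obtain ⟨n, hn⟩ := exists_nat_one_div_lt (sub_pos.mpr hlt)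
      exact hx n ⟨hpos, by linarith⟩
    have hlam := lam_le hd hV hr'.2 hnull
    have hmaxint : Integrable (fun x => max (c - PP r' V x) 0) (mu d) :=
      ((integrable_const c).sub (integrable_PP r' V)).pos_part
    have h4 : c * z - ∫ x, max (c - PP r' V x) 0 ∂(mu d) ≤
        ∫ x in {x | r' x ≤ 0}, PP r' V x ∂(mu d) := by
      have h5 : ∫ x in {x | r' x ≤ 0}, (c - max (c - PP r' V x) 0) ∂(mu d) ≤
          ∫ x in {x | r' x ≤ 0}, PP r' V x ∂(mu d) := by
        apply setIntegral_mono ((integrable_const c).sub hmaxint).integrableOn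
          (integrable_PP r' V).integrableOn
        intro x
        have := le_max_left (c - PP r' V x) 0
        change c - max (c - PP r' V x) 0 ≤ PP r' V x
        linarith
      have h6 : ∫ x in {x | r' x ≤ 0}, (c - max (c - PP r' V x) 0) ∂(mu d) =
          c * z - ∫ x in {x | r' x ≤ 0}, max (c - PP r' V x) 0 ∂(mu d) := by
        rw [integral_sub (integrable_const c).integrableOn hmaxint.integrableOn,
          setIntegral_const, smul_eq_mul, mul_comm]
      have h7 : ∫ x in {x | r' x ≤ 0}, max (c - PP r' V x) 0 ∂(mu d) ≤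
          ∫ x, max (c - PP r' V x) 0 ∂(mu d) :=
        setIntegral_le_integral hmaxint (Eventually.of_forall fun x => le_max_right _ _)
      linarith
    linarith

end Pool.Agent.helper28.Coul
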