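import Pool.Agent.helper28.Coul.Defs
import Pool.Agent.helper28.Coul.PA6

/-!
# Energy of measures, minimisers of the penalised problem
-/

set_option autoImplicit false

open MeasureTheory UnitAddTorus Filter Topology
open scoped ENNReal ComplexConjugate InnerProductSpace

noncomputable section

namespace Pool.Agent.helper28.Coul

variable {d : ℕ}

/-- real valued terms of the energy -/
lemma energy_eq (ρ : PT d) :
    energy ρ = ∑' k : Fin d → ℤ, ENNReal.ofReal (w k * ‖coef ρ k‖ ^ 2 / 2) := by
  unfold energy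
  congr 1
  ext k
  split_ifs with h
  · rw [h]; simp
  · congr 1
    have h1 := w_mul h
    have h2 : (∑ i, (k i : ℝ) ^ 2) = dot k k := by
      unfold dot
      exact Finset.sum_congr rfl fun i _ => sq _
    have h3 := one_le_dot_self h
    rw [h2]
    have h4 : (4 * Real.pi ^ 2 * dot k k) ≠ 0 := by
      have := Real.pi_pos
      positivity
    have h5 : w k = 1 / (4 * Real.pi ^ 2 * dot k k) := by
      rw [eq_div_iff h4]; exact h1
    rw [h5]
    field_simp

lemma term_nonneg (ρ : PT d) (k : Fin d → ℤ) : 0 ≤ w k * ‖coef ρ k‖ ^ 2 / 2 := by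
  have := w_nonneg k
  positivity

/-- real energy -/
def Er (ρ : PT d) : ℝ := ∑' k : Fin d → ℤ, w k * ‖coef ρ k‖ ^ 2 / 2

/-- finite energy -/
def Fin' (ρ : PT d) : Prop := Summable fun k : Fin d → ℤ => w k * ‖coef ρ k‖ ^ 2 / 2

lemma Er_nonneg (ρ : PT d) : 0 ≤ Er ρ := tsum_nonneg fun k => term_nonneg ρ k

lemma energy_of_fin {ρ : PT d} (h : Fin' ρ) : energy ρ = ENNReal.ofReal (Er ρ) := by
  rw [energy_eq, Er, ENNReal.ofReal_tsum_of_nonneg (term_nonneg ρ) h]

lemma fin_of_energy {ρ : PT d} (h : energy ρ < ∞) : Fin' ρ := by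
  rw [energy_eq] at h
  have h1 := ENNReal.summable_toReal h.ne
  refine h1.congr fun k => ?_
  rw [ENNReal.toReal_ofReal (term_nonneg ρ k)]

lemma energy_lt_top_iff {ρ : PT d} : energy ρ < ∞ ↔ Fin' ρ :=
  ⟨fin_of_energy, fun h => by rw [energy_of_fin h]; exact ENNReal.ofReal_lt_top⟩

lemma continuous_coef (k : Fin d → ℤ) : Continuous fun ρ : PT d => coef ρ k := by
  rw [continuous_iff_continuousAt]
  intro ρ
  have h := (ProbabilityMeasure.tendsto_iff_forall_integral_rclike_tendsto ℂ
    (μs := fun ρ' : PT d => ρ') (μ := ρ) (F := 𝓝 ρ)).mp tendsto_id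
  exact h (BoundedContinuousFunction.mkOfCompact (mFourier (-k)))

lemma lsc_energy : LowerSemicontinuous (energy (d := d)) := by
  have : (energy (d := d)) = fun ρ =>
      ∑' k : Fin d → ℤ, ENNReal.ofReal (w k * ‖coef ρ k‖ ^ 2 / 2) := funext energy_eq
  rw [this]
  apply lowerSemicontinuous_tsum
  intro k
  have hc := continuous_coef (d := d) k
  apply Continuous.lowerSemicontinuous
  exact ENNReal.continuous_ofReal.comp (by fun_prop)

/-- the product of the torus with itself -/
abbrev P2 (d : ℕ) := ProbabilityMeasure (UnitAddTorus (Fin d) × UnitAddTorus (Fin d))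

instance instTopP2 : TopologicalSpace (P2 d) := ProbabilityMeasure.instTopologicalSpace

instance instCompactP2 : CompactSpace (P2 d) := instCompactSpaceProbabilityMeasure

/-- first marginal -/
def m1 (π : P2 d) : PT d := π.map (f := Prod.fst) measurable_fst.aemeasurable

/-- second marginal -/
def m2 (π : P2 d) : PT d := π.map (f := Prod.snd) measurable_snd.aemeasurable

lemma continuous_m1 : Continuous (m1 (d := d)) :=
  ProbabilityMeasure.continuous_map continuous_fst

lemma continuous_m2 : Continuous (m2 (d := d)) :=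
  ProbabilityMeasure.continuous_map continuous_snd

lemma isCoupling_iff {π : P2 d} {ρ η : PT d} : IsCoupling π ρ η ↔ m1 π = ρ ∧ m2 π = η := by
  unfold IsCoupling
  rw [← ProbabilityMeasure.toMeasure_injective.eq_iff, ← ProbabilityMeasure.toMeasure_injective.eq_iff]
  rfl

lemma continuous_dist2 : Continuous fun p : UnitAddTorus (Fin d) × UnitAddTorus (Fin d) =>
    dist2 p.1 p.2 := by
  unfold dist2
  fun_prop

lemma dist2_nonneg (x y : UnitAddTorus (Fin d)) : 0 ≤ dist2 x y :=
  Finset.sum_nonneg fun _ _ => by positivity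

/-- total transport cost of a plan -/
def Cst (π : P2 d) : ℝ := ∫ p, dist2 p.1 p.2 ∂(π : Measure (UnitAddTorus (Fin d) × UnitAddTorus (Fin d)))

lemma Cst_nonneg (π : P2 d) : 0 ≤ Cst π := integral_nonneg fun _ => dist2_nonneg _ _

lemma continuous_Cst : Continuous (Cst (d := d)) := by
  have h := ProbabilityMeasure.continuous_integral_boundedContinuousFunction
    (BoundedContinuousFunction.mkOfCompact
      (⟨fun p : UnitAddTorus (Fin d) × UnitAddTorus (Fin d) => dist2 p.1 p.2, continuous_dist2⟩ :
        C(UnitAddTorus (Fin d) × UnitAddTorus (Fin d), ℝ)))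
  exact h

/-- penalised functional -/
def Phi (τ : ℝ) (π : P2 d) : ℝ≥0∞ := energy (m2 π) + ENNReal.ofReal (Cst π / (2 * τ))

lemma lsc_Phi (τ : ℝ) : LowerSemicontinuous (Phi (d := d) τ) := by
  unfold Phi
  apply LowerSemicontinuous.add
  · exact lsc_energy.comp continuous_m2
  · apply Continuous.lowerSemicontinuous
    have := continuous_Cst (d := d)
    exact ENNReal.continuous_ofReal.comp (this.div_const _)

/-- the diagonal plan -/
def diag (ρ : PT d) : P2 d :=
  ρ.map (f := fun x => (x, x)) (measurable_id.prodMk measurable_id).aemeasurable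

lemma m1_diag (ρ : PT d) : m1 (diag ρ) = ρ := by
  apply ProbabilityMeasure.toMeasure_injective
  change ((ρ : Measure (UnitAddTorus (Fin d))).map (fun x => (x, x))).map Prod.fst = ρ
  have hm : Measurable fun x : UnitAddTorus (Fin d) => (x, x) :=
    measurable_id.prodMk measurable_id
  rw [Measure.map_map measurable_fst hm]
  exact Measure.map_id

lemma m2_diag (ρ : PT d) : m2 (diag ρ) = ρ := by
  apply ProbabilityMeasure.toMeasure_injective
  change ((ρ : Measure (UnitAddTorus (Fin d))).map (fun x => (x, x))).map Prod.snd = ρ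
  have hm : Measurable fun x : UnitAddTorus (Fin d) => (x, x) :=
    measurable_id.prodMk measurable_id
  rw [Measure.map_map measurable_snd hm]
  exact Measure.map_id

lemma dist2_self (x : UnitAddTorus (Fin d)) : dist2 x x = 0 := by simp [dist2]

lemma Cst_diag (ρ : PT d) : Cst (diag ρ) = 0 := by
  unfold Cst diag
  rw [ProbabilityMeasure.toMeasure_map, integral_map]
  · simp [dist2_self]
  · exact (measurable_id.prodMk measurable_id).aemeasurable
  · exact continuous_dist2.aestronglyMeasurable

/-- minimisers of the penalised functional -/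
def IsMin (τ : ℝ) (ρ : PT d) (π : P2 d) : Prop :=
  m1 π = ρ ∧ ∀ π' : P2 d, m1 π' = ρ → Phi τ π ≤ Phi τ π'

theorem exists_isMin (τ : ℝ) (ρ : PT d) : ∃ π : P2 d, IsMin τ ρ π := by
  have hcl : IsClosed {π : P2 d | m1 π = ρ} := isClosed_eq continuous_m1 continuous_const
  have hcp : IsCompact {π : P2 d | m1 π = ρ} := hcl.isCompact
  obtain ⟨π, hπ, hmin⟩ := LowerSemicontinuousOn.exists_isMinOn ⟨diag ρ, m1_diag ρ⟩ hcp
    ((lsc_Phi τ).lowerSemicontinuousOn _)
  exact ⟨π, hπ, fun π' h => hmin h⟩

end Pool.Agent.helper28.Coul
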