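import Pool.Agent.helper28.Coul.MB1

/-!
# First order conditions for minimisers
-/

set_option autoImplicit false

open MeasureTheory UnitAddTorus Filter Topology
open scoped ENNReal ComplexConjugate InnerProductSpace

noncomputable section

namespace Pool.Agent.helper28.Coul

variable {d : ℕ}

/-! ### representatives -/

/-- representative in `(-1/2,1/2]` -/
def rp (a : UnitAddCircle) : ℝ := (AddCircle.equivIoc 1 (-1 / 2 : ℝ) a : ℝ)

lemma coe_rp (a : UnitAddCircle) : ((rp a : ℝ) : UnitAddCircle) = a :=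
  AddCircle.coe_equivIoc

lemma measurable_rp : Measurable rp :=
  measurable_subtype_coe.comp (AddCircle.measurableEquivIoc 1 (-1 / 2 : ℝ)).measurable

lemma rp_mem (a : UnitAddCircle) : -1 / 2 < rp a ∧ rp a ≤ 1 / 2 := by
  have h := (AddCircle.equivIoc 1 (-1 / 2 : ℝ) a).2
  rw [Set.mem_Ioc] at h
  have h2 : rp a ≤ -1 / 2 + 1 := h.2
  exact ⟨h.1, by linarith⟩

lemma abs_rp (a : UnitAddCircle) : |rp a| = ‖a‖ := by
  have h := rp_mem a
  have h1 : |rp a| ≤ |(1 : ℝ)| / 2 := by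
    rw [abs_one, abs_le]; constructor <;> linarith [h.1, h.2]
  have h2 := (AddCircle.norm_coe_eq_abs_iff 1 one_ne_zero).mpr h1
  rw [coe_rp] at h2
  exact h2.symm

lemma norm_coe_le_abs (t : ℝ) : ‖(t : UnitAddCircle)‖ ≤ |t| := by
  rw [UnitAddCircle.norm_eq]
  simpa using round_le t 0

lemma norm_sub_sq_le (a : UnitAddCircle) (ε : ℝ) : ‖a - (ε : UnitAddCircle)‖ ^ 2 ≤
    ‖a‖ ^ 2 - 2 * ε * rp a + ε ^ 2 := by
  have h1 : a - (ε : UnitAddCircle) = ((rp a - ε : ℝ) : UnitAddCircle) := by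
    rw [AddCircle.coe_sub, coe_rp]
  rw [h1, ← abs_rp a, sq_abs]
  calc ‖((rp a - ε : ℝ) : UnitAddCircle)‖ ^ 2 ≤ |rp a - ε| ^ 2 := by
        have := norm_coe_le_abs (rp a - ε)
        gcongr
    _ = _ := by rw [sq_abs]; ring

lemma dist2_stp (x y : UnitAddTorus (Fin d)) (i : Fin d) (ε : ℝ) :
    dist2 x (y + stp i ε) ≤ dist2 x y - 2 * ε * rp (x i - y i) + ε ^ 2 := by
  unfold dist2
  have h : ∀ j, ‖x j - (y + stp i ε) j‖ ^ 2 ≤ ‖x j - y j‖ ^ 2 +
      if j = i then (-(2 * ε * rp (x i - y i)) + ε ^ 2) else 0 := by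
    intro j
    by_cases hj : j = i
    · subst hj
      rw [if_pos rfl]
      have e : x j - (y + stp j ε) j = (x j - y j) - (ε : UnitAddCircle) := by
        unfold stp
        rw [Pi.add_apply, Pi.single_eq_same]; abel
      rw [e]
      have := norm_sub_sq_le (x j - y j) ε
      linarith
    · rw [if_neg hj]
      have e : (y + stp i ε) j = y j := by
        unfold stp
        rw [Pi.add_apply, Pi.single_eq_of_ne hj, add_zero]
      rw [e, add_zero]
  refine (Finset.sum_le_sum fun j _ => h j).trans (le_of_eq ?_)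
  rw [Finset.sum_add_distrib, Finset.sum_ite_eq']
  simp only [Finset.mem_univ, if_true]
  ring

/-! ### plans -/

lemma phi_eq {τ : ℝ} (hτ : 0 < τ) {P : P2 d} (h : Fin' (m2 P)) :
    Phi τ P = ENNReal.ofReal (Er (m2 P) + Cst P / (2 * τ)) := by
  unfold Phi
  rw [energy_of_fin h, ENNReal.ofReal_add (Er_nonneg _) (div_nonneg (Cst_nonneg _) (by positivity))]

lemma IsMin.fin {τ : ℝ} {ρ : PT d} {P : P2 d} (h : IsMin τ ρ P) (hρ : Fin' ρ) : Fin' (m2 P) := by
  have h1 := h.2 (diag ρ) (m1_diag ρ)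
  have h2 : Phi τ (diag ρ) = energy ρ := by
    unfold Phi; rw [m2_diag, Cst_diag]; simp
  rw [h2, energy_of_fin hρ] at h1
  apply fin_of_energy
  exact ((le_self_add).trans h1).trans_lt ENNReal.ofReal_lt_top

lemma IsMin.le {τ : ℝ} (hτ : 0 < τ) {ρ : PT d} {P : P2 d} (h : IsMin τ ρ P) (hρ : Fin' ρ)
    {Q : P2 d} (hQ : m1 Q = ρ) (hQf : Fin' (m2 Q)) :
    Er (m2 P) + Cst P / (2 * τ) ≤ Er (m2 Q) + Cst Q / (2 * τ) := by
  have h1 := h.2 Q hQ
  rw [phi_eq hτ (h.fin hρ), phi_eq hτ hQf] at h1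
  exact (ENNReal.ofReal_le_ofReal_iff
    (add_nonneg (Er_nonneg _) (div_nonneg (Cst_nonneg _) (by positivity)))).mp h1

/-- convex combination of plans -/
def mixP (s : ℝ) (hs : 0 ≤ s ∧ s ≤ 1) (P Q : P2 d) : P2 d :=
  ⟨ENNReal.ofReal (1 - s) • (P : Measure (UnitAddTorus (Fin d) × UnitAddTorus (Fin d))) +
    ENNReal.ofReal s • (Q : Measure (UnitAddTorus (Fin d) × UnitAddTorus (Fin d))), by
    constructor
    rw [Measure.add_apply, Measure.smul_apply, Measure.smul_apply, measure_univ, measure_univ,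
      smul_eq_mul, smul_eq_mul, mul_one, mul_one, ← ENNReal.ofReal_add (by linarith [hs.2]) hs.1]
    simp⟩

lemma integral_mixP {E : Type*} [NormedAddCommGroup E] [NormedSpace ℝ E] {s : ℝ}
    (hs : 0 ≤ s ∧ s ≤ 1) (P Q : P2 d)
    {f : UnitAddTorus (Fin d) × UnitAddTorus (Fin d) → E}
    (hf : Integrable f (P : Measure (UnitAddTorus (Fin d) × UnitAddTorus (Fin d))))
    (hg : Integrable f (Q : Measure (UnitAddTorus (Fin d) × UnitAddTorus (Fin d)))) :
    ∫ p, f p ∂(mixP s hs P Q : Measure (UnitAddTorus (Fin d) × UnitAddTorus (Fin d))) =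
      (1 - s) • ∫ p, f p ∂(P : Measure (UnitAddTorus (Fin d) × UnitAddTorus (Fin d))) +
      s • ∫ p, f p ∂(Q : Measure (UnitAddTorus (Fin d) × UnitAddTorus (Fin d))) := by
  unfold mixP
  rw [ProbabilityMeasure.coe_mk, integral_add_measure (hf.smul_measure ENNReal.ofReal_ne_top)
    (hg.smul_measure ENNReal.ofReal_ne_top), integral_smul_measure, integral_smul_measure,
    ENNReal.toReal_ofReal (by linarith [hs.2]), ENNReal.toReal_ofReal hs.1]

lemma int_cont {E : Type*} [NormedAddCommGroup E] [NormedSpace ℝ E] (P : P2 d)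
    {f : UnitAddTorus (Fin d) × UnitAddTorus (Fin d) → E} (hf : Continuous f)
    [SecondCountableTopology E] :
    Integrable f (P : Measure (UnitAddTorus (Fin d) × UnitAddTorus (Fin d))) :=
  hf.integrable_of_hasCompactSupport (HasCompactSupport.of_compactSpace _)

lemma coef_m2 (P : P2 d) (k : Fin d → ℤ) : coef (m2 P) k =
    ∫ p, mFourier (-k) p.2 ∂(P : Measure (UnitAddTorus (Fin d) × UnitAddTorus (Fin d))) := by
  unfold coef m2
  rw [ProbabilityMeasure.toMeasure_map, integral_map measurable_snd.aemeasurable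
    (mFourier (-k)).continuous.aestronglyMeasurable]

lemma coef_mix {s : ℝ} (hs : 0 ≤ s ∧ s ≤ 1) (P Q : P2 d) (k : Fin d → ℤ) :
    coef (m2 (mixP s hs P Q)) k = coef (m2 P) k + s * (coef (m2 Q) k - coef (m2 P) k) := by
  have hc : Continuous fun p : UnitAddTorus (Fin d) × UnitAddTorus (Fin d) =>
      mFourier (-k) p.2 := (mFourier (-k)).continuous.comp continuous_snd
  rw [coef_m2, coef_m2, coef_m2, integral_mixP hs P Q (int_cont P hc) (int_cont Q hc)]
  simp only [Complex.real_smul]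
  push_cast
  ring

lemma Cst_mix {s : ℝ} (hs : 0 ≤ s ∧ s ≤ 1) (P Q : P2 d) :
    Cst (mixP s hs P Q) = Cst P + s * (Cst Q - Cst P) := by
  unfold Cst
  rw [integral_mixP hs P Q (int_cont P continuous_dist2) (int_cont Q continuous_dist2)]
  simp only [smul_eq_mul]
  ring

lemma m1_mix {s : ℝ} (hs : 0 ≤ s ∧ s ≤ 1) {P Q : P2 d} {ρ : PT d} (h1 : m1 P = ρ)
    (h2 : m1 Q = ρ) : m1 (mixP s hs P Q) = ρ := by
  apply ProbabilityMeasure.toMeasure_injective
  have e1 : (P : Measure (UnitAddTorus (Fin d) × UnitAddTorus (Fin d))).map Prod.fst = ρ := by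
    rw [← h1]; rfl
  have e2 : (Q : Measure (UnitAddTorus (Fin d) × UnitAddTorus (Fin d))).map Prod.fst = ρ := by
    rw [← h2]; rfl
  change (ENNReal.ofReal (1 - s) • (P : Measure (UnitAddTorus (Fin d) × UnitAddTorus (Fin d))) +
    ENNReal.ofReal s • (Q : Measure (UnitAddTorus (Fin d) × UnitAddTorus (Fin d)))).map Prod.fst = ρ
  rw [Measure.map_add _ _ measurable_fst, Measure.map_smul, Measure.map_smul, e1, e2, ← add_smul,
    ← ENNReal.ofReal_add (by linarith [hs.2]) hs.1]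
  simp

/-- first order condition -/
theorem first_order {τ : ℝ} (hτ : 0 < τ) {ρ : PT d} {P : P2 d} (h : IsMin τ ρ P) (hρ : Fin' ρ)
    {Q : P2 d} (hQ : m1 Q = ρ)
    (hd : Summable fun k => w k * ‖coef (m2 Q) k - coef (m2 P) k‖ ^ 2) :
    0 ≤ ∑' k, w k * (conj (coef (m2 P) k) * (coef (m2 Q) k - coef (m2 P) k)).re +
      (Cst Q - Cst P) / (2 * τ) := by
  have hP := h.fin hρ
  set p : (Fin d → ℤ) → ℂ := fun k => coef (m2 P) k with hp
  set b : (Fin d → ℤ) → ℂ := fun k => coef (m2 Q) k - coef (m2 P) k with hb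
  have sP : Summable fun k => w k * ‖p k‖ ^ 2 := by
    refine (hP.mul_left 2).congr fun k => ?_
    ring
  have sB : Summable fun k => w k * (conj (p k) * b k).re := by
    refine Summable.of_norm_bounded (sP.add hd) fun k => ?_
    have h1 : |(conj (p k) * b k).re| ≤ ‖p k‖ * ‖b k‖ := by
      refine (Complex.abs_re_le_norm _).trans ?_
      rw [norm_mul, RCLike.norm_conj]
    rw [Real.norm_eq_abs, abs_mul, abs_of_nonneg (w_nonneg k)]
    have h2 : ‖p k‖ * ‖b k‖ ≤ ‖p k‖ ^ 2 + ‖b k‖ ^ 2 := by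
      nlinarith [sq_nonneg (‖p k‖ - ‖b k‖), sq_nonneg ‖p k‖, sq_nonneg ‖b k‖]
    calc w k * |(conj (p k) * b k).re| ≤ w k * (‖p k‖ ^ 2 + ‖b k‖ ^ 2) :=
          mul_le_mul_of_nonneg_left (h1.trans h2) (w_nonneg k)
      _ = _ := by ring
  set B := ∑' k, w k * (conj (p k) * b k).re with hB
  set A := ∑' k, w k * ‖b k‖ ^ 2 with hA
  have hexp : ∀ s : ℝ, 0 < s → s ≤ 1 → 0 ≤ B + s * (A / 2) + (Cst Q - Cst P) / (2 * τ) := by
    intro s hs hs1
    have hs' : 0 ≤ s ∧ s ≤ 1 := ⟨hs.le, hs1⟩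
    have hcoef : ∀ k, w k * ‖coef (m2 (mixP s hs' P Q)) k‖ ^ 2 / 2 =
        w k * ‖p k‖ ^ 2 / 2 + s * (w k * (conj (p k) * b k).re) + s ^ 2 * (w k * ‖b k‖ ^ 2 / 2) := by
      intro k
      rw [coef_mix]
      change w k * ‖p k + s * b k‖ ^ 2 / 2 = _
      have : ‖p k + s * b k‖ ^ 2 = ‖p k‖ ^ 2 + 2 * s * (conj (p k) * b k).re + s ^ 2 * ‖b k‖ ^ 2 := by
        rw [← Complex.normSq_eq_norm_sq, ← Complex.normSq_eq_norm_sq, ← Complex.normSq_eq_norm_sq]
        simp only [Complex.normSq_apply, Complex.add_re, Complex.add_im, Complex.mul_re,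
          Complex.mul_im, Complex.ofReal_re, Complex.ofReal_im, Complex.conj_re, Complex.conj_im]
        ring
      rw [this]; ring
    have hs3 : HasSum (fun k => w k * ‖coef (m2 (mixP s hs' P Q)) k‖ ^ 2 / 2)
        (Er (m2 P) + s * B + s ^ 2 * (A / 2)) := by
      simp only [hcoef]
      exact (hP.hasSum.add (sB.hasSum.mul_left s)).add ((hd.hasSum.div_const 2).mul_left (s ^ 2))
    have hle := h.le hτ hρ (m1_mix hs' h.1 hQ) hs3.summable
    have hEr : Er (m2 (mixP s hs' P Q)) = Er (m2 P) + s * B + s ^ 2 * (A / 2) := hs3.tsum_eq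
    rw [hEr, Cst_mix] at hle
    have h4 : 0 ≤ s * (B + s * (A / 2) + (Cst Q - Cst P) / (2 * τ)) := by
      have e : s * (B + s * (A / 2) + (Cst Q - Cst P) / (2 * τ)) =
        (Er (m2 P) + s * B + s ^ 2 * (A / 2) + (Cst P + s * (Cst Q - Cst P)) / (2 * τ)) -
          (Er (m2 P) + Cst P / (2 * τ)) := by ring
      rw [e]; linarith
    exact nonneg_of_mul_nonneg_right h4 hs
  have hlim : Tendsto (fun s : ℝ => B + s * (A / 2) + (Cst Q - Cst P) / (2 * τ)) (𝓝[>] 0)
      (𝓝 (B + 0 * (A / 2) + (Cst Q - Cst P) / (2 * τ))) := by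
    apply Tendsto.mono_left _ nhdsWithin_le_nhds
    exact (by fun_prop : Continuous fun s : ℝ =>
      B + s * (A / 2) + (Cst Q - Cst P) / (2 * τ)).tendsto 0
  have hev : ∀ᶠ s : ℝ in 𝓝[>] 0, 0 ≤ B + s * (A / 2) + (Cst Q - Cst P) / (2 * τ) := by
    have : Set.Iio (1 : ℝ) ∈ 𝓝 (0 : ℝ) := Iio_mem_nhds one_pos
    filter_upwards [self_mem_nhdsWithin, mem_nhdsWithin_of_mem_nhds this] with s h1 h2
    exact hexp s h1 (le_of_lt h2)
  have := ge_of_tendsto hlim hev
  simpa using this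

end Pool.Agent.helper28.Coul
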