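import Pool.Agent.helper28.Coul.MB2

/-!
# Perturbations of the minimiser; the minimiser has an `L²` density
-/

set_option autoImplicit false

open MeasureTheory UnitAddTorus Filter Topology
open scoped ENNReal ComplexConjugate InnerProductSpace

noncomputable section

namespace Pool.Agent.helper28.Coul

variable {d : ℕ}

open Classical in
/-- move the points of `A` by `v` -/
def mv (A : Set (T d)) (v : T d) (y : T d) : T d := if y ∈ A then y + v else y

lemma measurable_mv {A : Set (T d)} (hA : MeasurableSet A) (v : T d) : Measurable (mv A v) := by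
  classical
  unfold mv
  exact Measurable.ite hA (measurable_id.add_const v) measurable_id

lemma measurable_mv2 {A : Set (T d)} (hA : MeasurableSet A) (v : T d) :
    Measurable fun p : T d × T d => (p.1, mv A v p.2) :=
  measurable_fst.prodMk ((measurable_mv hA v).comp measurable_snd)

/-- move the part of the plan with second coordinate in `A` -/
def shP {A : Set (T d)} (hA : MeasurableSet A) (v : T d) (P : P2 d) : P2 d :=
  P.map (f := fun p => (p.1, mv A v p.2)) (measurable_mv2 hA v).aemeasurable

lemma m1_shP {A : Set (T d)} (hA : MeasurableSet A) (v : T d) (P : P2 d) :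
    m1 (shP hA v P) = m1 P := by
  apply ProbabilityMeasure.toMeasure_injective
  change ((P : Measure (T d × T d)).map (fun p => (p.1, mv A v p.2))).map Prod.fst =
    (P : Measure (T d × T d)).map Prod.fst
  rw [Measure.map_map measurable_fst (measurable_mv2 hA v)]
  rfl

lemma integral_shP {E : Type*} [NormedAddCommGroup E] [NormedSpace ℝ E]
    [SecondCountableTopology E] {A : Set (T d)} (hA : MeasurableSet A) (v : T d) (P : P2 d)
    {f : T d × T d → E} (hf : Continuous f) :
    ∫ p, f p ∂(shP hA v P : Measure (T d × T d)) =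
      ∫ p, f (p.1, mv A v p.2) ∂(P : Measure (T d × T d)) := by
  unfold shP
  rw [ProbabilityMeasure.toMeasure_map, integral_map (measurable_mv2 hA v).aemeasurable
    hf.aestronglyMeasurable]

/-- coefficients of the restriction -/
def cA (η : PT d) (A : Set (T d)) (k : Fin d → ℤ) : ℂ :=
  ∫ y in A, mFourier (-k) y ∂(η : Measure (T d))

lemma int_comp_cont {E : Type*} [NormedAddCommGroup E] [NormedSpace ℝ E]
    [SecondCountableTopology E] (P : P2 d) {φ : T d × T d → T d × T d} (hφ : Measurable φ)
    {f : T d × T d → E} (hf : Continuous f) :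
    Integrable (fun p => f (φ p)) (P : Measure (T d × T d)) := by
  obtain ⟨C, hC⟩ := isCompact_univ.exists_bound_of_continuousOn hf.continuousOn
  exact Integrable.of_bound (hf.aestronglyMeasurable.comp_measurable hφ) C
    (Eventually.of_forall fun p => hC _ (Set.mem_univ _))

lemma coef_shP {A : Set (T d)} (hA : MeasurableSet A) (v : T d) (P : P2 d) (k : Fin d → ℤ) :
    coef (m2 (shP hA v P)) k - coef (m2 P) k = (mFourier (-k) v - 1) * cA (m2 P) A k := by
  have hc : Continuous fun p : T d × T d => mFourier (-k) p.2 :=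
    (mFourier (-k)).continuous.comp continuous_snd
  rw [coef_m2, coef_m2, integral_shP hA v P hc, ← integral_sub
    (int_comp_cont P (measurable_mv2 hA v) hc) (int_cont P hc)]
  have e : ∀ p : T d × T d, mFourier (-k) (mv A v p.2) - mFourier (-k) p.2 =
      A.indicator (fun y => (mFourier (-k) v - 1) * mFourier (-k) y) p.2 := by
    intro p
    unfold mv
    by_cases h : p.2 ∈ A
    · rw [if_pos h, Set.indicator_of_mem h, mF_add_arg]; ring
    · rw [if_neg h, Set.indicator_of_notMem h, sub_self]
  simp only [e]
  have e2 : ∫ p : T d × T d, A.indicator (fun y => (mFourier (-k) v - 1) * mFourier (-k) y) p.2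
      ∂(P : Measure (T d × T d)) =
      ∫ y, A.indicator (fun y => (mFourier (-k) v - 1) * mFourier (-k) y) y
        ∂((m2 P : PT d) : Measure (T d)) := by
    unfold m2
    rw [ProbabilityMeasure.toMeasure_map, integral_map measurable_snd.aemeasurable]
    apply AEStronglyMeasurable.indicator _ hA
    exact (continuous_const.mul (mFourier (-k)).continuous).aestronglyMeasurable
  rw [e2, integral_indicator hA, integral_const_mul]
  rfl

/-- first moment of the displacement of the part of the plan over `A` -/
def XA (P : P2 d) (A : Set (T d)) (i : Fin d) : ℝ :=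
  ∫ p in {p : T d × T d | p.2 ∈ A}, rp (p.1 i - p.2 i) ∂(P : Measure (T d × T d))

lemma measurable_q (i : Fin d) : Measurable fun p : T d × T d => rp (p.1 i - p.2 i) := by
  have h1 : Measurable fun p : T d × T d => p.1 i := (measurable_pi_apply i).comp measurable_fst
  have h2 : Measurable fun p : T d × T d => p.2 i := (measurable_pi_apply i).comp measurable_snd
  exact measurable_rp.comp (h1.sub h2)

lemma abs_rp_le (a : UnitAddCircle) : |rp a| ≤ 1 / 2 := by
  have h := rp_mem a
  rw [abs_le]
  constructor <;> linarith [h.1, h.2]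

lemma integrable_q (P : P2 d) (i : Fin d) :
    Integrable (fun p : T d × T d => rp (p.1 i - p.2 i)) (P : Measure (T d × T d)) :=
  Integrable.of_bound (measurable_q i).aestronglyMeasurable (1 / 2)
    (Eventually.of_forall fun p => by rw [Real.norm_eq_abs]; exact abs_rp_le _)

lemma meas_sndA {A : Set (T d)} (hA : MeasurableSet A) :
    MeasurableSet {p : T d × T d | p.2 ∈ A} := measurable_snd hA

lemma Cst_shP {A : Set (T d)} (hA : MeasurableSet A) (i : Fin d) (ε : ℝ) (P : P2 d) :
    Cst (shP hA (stp i ε) P) - Cst P ≤ -2 * ε * XA P A i +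
      ε ^ 2 * (P : Measure (T d × T d)).real {p : T d × T d | p.2 ∈ A} := by
  unfold Cst
  rw [integral_shP hA _ P continuous_dist2, ← integral_sub
    (int_comp_cont P (measurable_mv2 hA (stp i ε)) continuous_dist2) (int_cont P continuous_dist2)]
  have h1 : Integrable (fun p : T d × T d => -2 * ε * rp (p.1 i - p.2 i) + ε ^ 2)
      (P : Measure (T d × T d)) := ((integrable_q P i).const_mul (-2 * ε)).add (integrable_const _)
  have e : ∀ p : T d × T d, dist2 p.1 (mv A (stp i ε) p.2) - dist2 p.1 p.2 ≤
      {p : T d × T d | p.2 ∈ A}.indicator (fun p => -2 * ε * rp (p.1 i - p.2 i) + ε ^ 2) p := by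
    intro p
    unfold mv
    by_cases h : p.2 ∈ A
    · have h' : p ∈ {p : T d × T d | p.2 ∈ A} := h
      rw [if_pos h, Set.indicator_of_mem h']
      have := dist2_stp p.1 p.2 i ε
      linarith
    · have h' : p ∉ {p : T d × T d | p.2 ∈ A} := h
      rw [if_neg h, Set.indicator_of_notMem h', sub_self]
  refine (integral_mono ?_ (h1.indicator (meas_sndA hA)) e).trans (le_of_eq ?_)
  · exact (int_comp_cont P (measurable_mv2 hA (stp i ε)) continuous_dist2).sub
      (int_cont P continuous_dist2)
  · rw [integral_indicator (meas_sndA hA), integral_add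
      ((integrable_q P i).const_mul (-2 * ε)).integrableOn (integrable_const _),
      integral_const_mul, setIntegral_const, smul_eq_mul]
    unfold XA
    ring

lemma abs_rp_XA {A : Set (T d)} (hA : MeasurableSet A) (P : P2 d) :
    ((m2 P : PT d) : Measure (T d)).real A = (P : Measure (T d × T d)).real {p | p.2 ∈ A} := by
  unfold m2
  rw [ProbabilityMeasure.toMeasure_map, map_measureReal_apply measurable_snd hA]
  rfl

/-- first order condition for coordinate shifts of a part of the plan -/
theorem first_order_shift {τ : ℝ} (hτ : 0 < τ) {ρ : PT d} {P : P2 d} (h : IsMin τ ρ P)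
    (hρ : Fin' ρ) {A : Set (T d)} (hA : MeasurableSet A) (i : Fin d) (ε : ℝ)
    (hs : Summable fun k => w k * ‖cA (m2 P) A k‖ ^ 2) :
    0 ≤ ∑' k, w k * (conj (coef (m2 P) k) * ((mFourier (-k) (stp i ε) - 1) *
      cA (m2 P) A k)).re + (-2 * ε * XA P A i +
      ε ^ 2 * (P : Measure (T d × T d)).real {p : T d × T d | p.2 ∈ A}) / (2 * τ) := by
  have hsum : Summable fun k => w k * ‖coef (m2 (shP hA (stp i ε) P)) k - coef (m2 P) k‖ ^ 2 := by
    refine Summable.of_nonneg_of_le (fun k => mul_nonneg (w_nonneg k) (by positivity)) (fun k => ?_)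
      (hs.mul_left 4)
    rw [coef_shP, norm_mul, mul_pow]
    have h1 : ‖mFourier (-k) (stp i ε) - 1‖ ≤ 2 := by
      refine (norm_sub_le _ _).trans ?_
      rw [norm_mF, norm_one]; norm_num
    have h2 : ‖mFourier (-k) (stp i ε) - 1‖ ^ 2 ≤ 4 := by nlinarith [norm_nonneg (mFourier (-k) (stp i ε) - 1)]
    have h3 : 0 ≤ w k * ‖cA (m2 P) A k‖ ^ 2 := mul_nonneg (w_nonneg k) (by positivity)
    calc w k * (‖mFourier (-k) (stp i ε) - 1‖ ^ 2 * ‖cA (m2 P) A k‖ ^ 2) =
        ‖mFourier (-k) (stp i ε) - 1‖ ^ 2 * (w k * ‖cA (m2 P) A k‖ ^ 2) := by ring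
      _ ≤ _ := mul_le_mul_of_nonneg_right h2 h3
  have h1 := first_order hτ h hρ ((m1_shP hA (stp i ε) P).trans h.1) hsum
  simp only [coef_shP] at h1
  refine h1.trans ?_
  gcongr
  exact Cst_shP hA i ε P

end Pool.Agent.helper28.Coul
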