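import Pool.Agent.helper28.Coul.MB3

/-!
# The minimiser has an `L²` density
-/

set_option autoImplicit false

open MeasureTheory UnitAddTorus Filter Topology
open scoped ENNReal ComplexConjugate InnerProductSpace

noncomputable section

namespace Pool.Agent.helper28.Coul

variable {d : ℕ}

lemma cA_univ (η : PT d) (k : Fin d → ℤ) : cA η Set.univ k = coef η k := by
  unfold cA coef
  rw [Measure.restrict_univ]

lemma coef_neg (η : PT d) (k : Fin d → ℤ) : coef η (-k) = conj (coef η k) := by
  unfold coef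
  rw [← integral_conj]
  congr 1
  ext x
  rw [mFourier_neg]

lemma coef_zero (η : PT d) : coef η 0 = 1 := by
  unfold coef
  simp only [neg_zero, mFourier_zero, ContinuousMap.one_apply]
  simp

lemma norm_coef_le (η : PT d) (k : Fin d → ℤ) : ‖coef η k‖ ≤ 1 := by
  unfold coef
  refine (norm_integral_le_integral_norm _).trans ?_
  simp only [norm_mF]
  simp

lemma stp_neg (i : Fin d) (ε : ℝ) : (stp i (-ε) : T d) = - stp i ε := by
  unfold stp
  rw [← Pi.single_neg, AddCircle.coe_neg]

lemma mF_stp_neg (k : Fin d → ℤ) (i : Fin d) (ε : ℝ) :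
    mFourier k (stp i (-ε)) = conj (mFourier k (stp i ε)) := by
  rw [stp_neg, mF_neg_arg]

lemma dm_sum (i : Fin d) (ε : ℝ) (k : Fin d → ℤ) :
    (mFourier k (stp i ε) - 1) + (conj (mFourier k (stp i ε)) - 1) = -((dm i ε k : ℝ) : ℂ) := by
  unfold dm
  rw [← Complex.normSq_eq_norm_sq, ← Complex.mul_conj, map_sub, map_one]
  have h := mF_conj_mul k (stp i ε)
  linear_combination h

/-- the key `L²` bound -/
lemma sum_sq_le {τ : ℝ} (hτ : 0 < τ) {ρ : PT d} {P : P2 d} (h : IsMin τ ρ P) (hρ : Fin' ρ)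
    (s : Finset (Fin d → ℤ)) :
    ∑ k ∈ s, (if k = 0 then 0 else 1) * ‖coef (m2 P) k‖ ^ 2 ≤ d / τ := by
  have hP := h.fin hρ
  set c : (Fin d → ℤ) → ℂ := fun k => coef (m2 P) k with hc
  have sP : Summable fun k => w k * ‖c k‖ ^ 2 := by
    refine (hP.mul_left 2).congr fun k => ?_
    ring
  have hs0 : Summable fun k => w k * ‖cA (m2 P) Set.univ k‖ ^ 2 := by
    simpa only [cA_univ] using sP
  have hmass : (P : Measure (T d × T d)).real {p : T d × T d | p.2 ∈ Set.univ} = 1 := by
    simp
  have key : ∀ (i : Fin d) (ε : ℝ), HasSum (fun k => w k * dm i ε k * ‖c k‖ ^ 2)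
      (∑' k, w k * dm i ε k * ‖c k‖ ^ 2) ∧ ∑' k, w k * dm i ε k * ‖c k‖ ^ 2 ≤ ε ^ 2 / τ := by
    intro i ε
    have hsm : ∀ z : (Fin d → ℤ) → ℂ, (∀ k, ‖z k‖ = 1) →
        Summable fun k => w k * (conj (c k) * ((z k - 1) * c k)).re := by
      intro z hz
      refine Summable.of_norm_bounded (sP.mul_left 2) fun k => ?_
      rw [Real.norm_eq_abs, abs_mul, abs_of_nonneg (w_nonneg k)]
      have h1 : |(conj (c k) * ((z k - 1) * c k)).re| ≤ 2 * ‖c k‖ ^ 2 := by
        refine (Complex.abs_re_le_norm _).trans ?_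
        rw [norm_mul, norm_mul, RCLike.norm_conj]
        have : ‖z k - 1‖ ≤ 2 := by
          refine (norm_sub_le _ _).trans ?_
          rw [hz, norm_one]; norm_num
        nlinarith [norm_nonneg (c k), mul_nonneg (norm_nonneg (c k)) (norm_nonneg (c k))]
      calc w k * |(conj (c k) * ((z k - 1) * c k)).re| ≤ w k * (2 * ‖c k‖ ^ 2) :=
            mul_le_mul_of_nonneg_left h1 (w_nonneg k)
        _ = _ := by ring
    have f1 := first_order_shift hτ h hρ MeasurableSet.univ i ε hs0
    have f2 := first_order_shift hτ h hρ MeasurableSet.univ i (-ε) hs0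
    simp only [cA_univ] at f1 f2
    rw [hmass] at f1 f2
    have s1 := hsm (fun k => mFourier (-k) (stp i ε)) (fun k => norm_mF _ _)
    have s2 := hsm (fun k => mFourier (-k) (stp i (-ε))) (fun k => norm_mF _ _)
    have e : ∀ k, w k * (conj (c k) * ((mFourier (-k) (stp i ε) - 1) * c k)).re +
        w k * (conj (c k) * ((mFourier (-k) (stp i (-ε)) - 1) * c k)).re =
        -(w k * dm i ε k * ‖c k‖ ^ 2) := by
      intro k
      rw [← mul_add, ← Complex.add_re]
      have : conj (c k) * ((mFourier (-k) (stp i ε) - 1) * c k) +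
          conj (c k) * ((mFourier (-k) (stp i (-ε)) - 1) * c k) =
          ((-(dm i ε k * ‖c k‖ ^ 2) : ℝ) : ℂ) := by
        have h1 : ((‖c k‖ ^ 2 : ℝ) : ℂ) = c k * conj (c k) := by
          rw [Complex.mul_conj, Complex.normSq_eq_norm_sq]
        rw [mF_stp_neg, mFourier_neg, Complex.conj_conj, Complex.ofReal_neg, Complex.ofReal_mul, h1]
        have h2 := dm_sum i ε k
        linear_combination (conj (c k) * c k) * h2
      rw [this, Complex.ofReal_re]
      ring
    have s3 := (s1.add s2)
    simp only [e] at s3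
    have s4 : Summable fun k => w k * dm i ε k * ‖c k‖ ^ 2 := by
      refine s3.neg.congr fun k => ?_
      ring
    refine ⟨s4.hasSum, ?_⟩
    have h3 : ∑' k, w k * (conj (c k) * ((mFourier (-k) (stp i ε) - 1) * c k)).re +
        ∑' k, w k * (conj (c k) * ((mFourier (-k) (stp i (-ε)) - 1) * c k)).re =
        - ∑' k, w k * dm i ε k * ‖c k‖ ^ 2 := by
      rw [← s1.tsum_add s2, ← tsum_neg]
      exact tsum_congr e
    have h4 : (-2 * ε * XA P Set.univ i + ε ^ 2 * 1) / (2 * τ) +
        (-2 * -ε * XA P Set.univ i + (-ε) ^ 2 * 1) / (2 * τ) = ε ^ 2 / τ := by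
      field_simp
      ring
    linarith
  have hM : ∀ ε : ℝ, ε ≠ 0 → ∑ k ∈ s, Mm ε k * ‖c k‖ ^ 2 ≤ d / τ := by
    intro ε hε
    have h1 : HasSum (fun k => ∑ i, w k * dm i ε k * ‖c k‖ ^ 2)
        (∑ i, ∑' k, w k * dm i ε k * ‖c k‖ ^ 2) := hasSum_sum fun i _ => (key i ε).1
    have h2 : ∑ i : Fin d, ∑' k, w k * dm i ε k * ‖c k‖ ^ 2 ≤ d * (ε ^ 2 / τ) := by
      refine (Finset.sum_le_sum fun i _ => (key i ε).2).trans (le_of_eq ?_)
      rw [Finset.sum_const, Finset.card_univ, Fintype.card_fin, nsmul_eq_mul]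
    have h3 := sum_le_hasSum s (fun k _ => Finset.sum_nonneg fun i _ =>
      mul_nonneg (mul_nonneg (w_nonneg k) (dm_nonneg i ε k)) (by positivity)) h1
    have hpos : 0 < ε ^ 2 := by positivity
    have h4 : ∑ k ∈ s, Mm ε k * ‖c k‖ ^ 2 =
        (∑ k ∈ s, ∑ i, w k * dm i ε k * ‖c k‖ ^ 2) / ε ^ 2 := by
      rw [Finset.sum_div]
      refine Finset.sum_congr rfl fun k _ => ?_
      unfold Mm
      rw [← Finset.sum_mul, ← Finset.mul_sum]
      ring
    rw [h4, div_le_iff₀ hpos]
    refine (h3.trans h2).trans (le_of_eq ?_)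
    ring
  have hlim : Tendsto (fun ε : ℝ => ∑ k ∈ s, Mm ε k * ‖c k‖ ^ 2) (𝓝[≠] 0)
      (𝓝 (∑ k ∈ s, (if k = 0 then 0 else 1) * ‖c k‖ ^ 2)) :=
    tendsto_finsetSum _ fun k _ => (tendsto_Mm k).mul_const _
  refine le_of_tendsto hlim ?_
  filter_upwards [self_mem_nhdsWithin] with ε hε
  exact hM ε hε

lemma summable_sq {τ : ℝ} (hτ : 0 < τ) {ρ : PT d} {P : P2 d} (h : IsMin τ ρ P) (hρ : Fin' ρ) :
    Summable fun k => ‖coef (m2 P) k‖ ^ 2 := by
  apply summable_of_sum_le (c := 1 + d / τ) (fun k => by positivity)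
  intro s
  have h1 := sum_sq_le hτ h hρ s
  have h2 : ∀ k, ‖coef (m2 P) k‖ ^ 2 ≤ (if k = 0 then 1 else 0) +
      (if k = 0 then 0 else 1) * ‖coef (m2 P) k‖ ^ 2 := by
    intro k
    have h3 := norm_coef_le (m2 P) k
    split_ifs
    · nlinarith [norm_nonneg (coef (m2 P) k)]
    · simp
  have h4 : ∑ k ∈ s, (if k = 0 then (1 : ℝ) else 0) ≤ 1 := by
    rw [Finset.sum_ite_eq']
    split_ifs <;> norm_num
  calc ∑ k ∈ s, ‖coef (m2 P) k‖ ^ 2 ≤ ∑ k ∈ s, ((if k = 0 then 1 else 0) +
      (if k = 0 then 0 else 1) * ‖coef (m2 P) k‖ ^ 2) := Finset.sum_le_sum fun k _ => h2 k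
    _ ≤ 1 + d / τ := by rw [Finset.sum_add_distrib]; exact add_le_add h4 h1

/-- `η` has density `r` -/
def IsDens (η : PT d) (r : HR d) : Prop :=
  (0 ≤ᵐ[mu d] r) ∧ (η : Measure (T d)) = (mu d).withDensity (fun x => ENNReal.ofReal (r x)) ∧
    ∀ k, fr r k = coef η k

lemma integral_eq_of_coef {η : PT d} {r : HR d} (h : ∀ k, fr r k = coef η k) (f : C(T d, ℂ)) :
    ∫ x, f x ∂(η : Measure (T d)) = ∫ x, f x * (r x : ℂ) ∂(mu d) := by
  have hr : Integrable (fun x => (r x : ℂ)) (mu d) := (int_hr r).ofReal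
  have hi : ∀ f : C(T d, ℂ), Integrable (fun x => f x * (r x : ℂ)) (mu d) := by
    intro f
    refine hr.bdd_mul f.continuous.aestronglyMeasurable (c := ‖f‖) (Eventually.of_forall fun x => f.norm_coe_le_norm x)
  have hie : ∀ f : C(T d, ℂ), Integrable f (η : Measure (T d)) := fun f =>
    f.continuous.integrable_of_hasCompactSupport (HasCompactSupport.of_compactSpace _)
  let L1 : C(T d, ℂ) →L[ℂ] ℂ := LinearMap.mkContinuous
    { toFun := fun f => ∫ x, f x ∂(η : Measure (T d))
      map_add' := fun f g => integral_add (hie f) (hie g)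
      map_smul' := fun c f => integral_const_mul c _ } 1 (by
        intro f
        refine (norm_integral_le_integral_norm _).trans ?_
        refine (integral_mono (hie f).norm (integrable_const ‖f‖) fun x =>
          f.norm_coe_le_norm x).trans ?_
        simp)
  let L2 : C(T d, ℂ) →L[ℂ] ℂ := LinearMap.mkContinuous
    { toFun := fun f => ∫ x, f x * (r x : ℂ) ∂(mu d)
      map_add' := fun f g => by
        rw [← integral_add (hi f) (hi g)]
        congr 1
        ext x
        rw [ContinuousMap.add_apply]; ring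
      map_smul' := fun c f => by
        rw [RingHom.id_apply, smul_eq_mul, ← integral_const_mul]
        congr 1
        ext x
        rw [ContinuousMap.smul_apply, smul_eq_mul]; ring } (∫ x, ‖(r x : ℂ)‖ ∂(mu d)) (by
        intro f
        refine (norm_integral_le_integral_norm _).trans ?_
        rw [← integral_mul_const]
        refine integral_mono (hi f).norm (hr.norm.mul_const _) fun x => ?_
        change ‖f x * (r x : ℂ)‖ ≤ ‖(r x : ℂ)‖ * ‖f‖
        rw [norm_mul, mul_comm]
        exact mul_le_mul_of_nonneg_left (f.norm_coe_le_norm x) (norm_nonneg _))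
  have hd : Dense (Submodule.span ℂ (Set.range (mFourier (d := Fin d))) : Set C(T d, ℂ)) := by
    have := span_dense_sup (d := d)
    rwa [← Submodule.dense_iff_topologicalClosure_eq_top] at this
  have hL : L1 = L2 := by
    apply ContinuousLinearMap.ext_on hd
    rintro _ ⟨k, rfl⟩
    change ∫ x, mFourier k x ∂(η : Measure (T d)) = ∫ x, mFourier k x * (r x : ℂ) ∂(mu d)
    have h1 := h (-k)
    rw [fr_eq] at h1
    unfold fc coef at h1
    rw [neg_neg] at h1
    rw [← h1]
    congr 1
    ext x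
    rw [mFourier_neg, Complex.conj_conj]
  exact congrArg (fun L : C(T d, ℂ) →L[ℂ] ℂ => L f) hL

lemma integral_eq_of_coef_real {η : PT d} {r : HR d} (h : ∀ k, fr r k = coef η k)
    (f : C(T d, ℝ)) : ∫ x, f x ∂(η : Measure (T d)) = ∫ x, f x * r x ∂(mu d) := by
  have h1 := integral_eq_of_coef h ⟨fun x => ((f x : ℝ) : ℂ), Complex.continuous_ofReal.comp f.continuous⟩
  have e1 : ∫ x, ((f x : ℝ) : ℂ) ∂(η : Measure (T d)) = ((∫ x, f x ∂(η : Measure (T d)) : ℝ) : ℂ) :=
    integral_ofReal
  have e2 : ∫ x, ((f x * r x : ℝ) : ℂ) ∂(mu d) = ((∫ x, f x * r x ∂(mu d) : ℝ) : ℂ) :=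
    integral_ofReal
  have h2 : ((∫ x, f x ∂(η : Measure (T d)) : ℝ) : ℂ) = ((∫ x, f x * r x ∂(mu d) : ℝ) : ℂ) := by
    rw [← e1, ← e2]
    refine Eq.trans h1 ?_
    congr 1
    ext x
    change ((f x : ℝ) : ℂ) * (r x : ℂ) = _
    push_cast
    rfl
  exact_mod_cast h2

lemma isDens_of_coef {η : PT d} {r : HR d} (h : ∀ k, fr r k = coef η k) : IsDens η r := by
  have hm : Measurable r := (Lp.stronglyMeasurable r).measurable
  have hir := int_hr r
  -- the identity of measures
  have hfin : ∀ {g : T d → ℝ}, Integrable g (mu d) →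
      IsFiniteMeasure ((mu d).withDensity (fun x => ENNReal.ofReal (g x))) := fun hg =>
    isFiniteMeasure_withDensity_ofReal hg.2
  have hmn : Measurable fun x => ENNReal.ofReal (-r x) := hm.neg.ennreal_ofReal
  have hmp : Measurable fun x => ENNReal.ofReal (r x) := hm.ennreal_ofReal
  have hirn : Integrable (fun x => -r x) (mu d) := hir.neg
  have hfp := hfin hir
  have hfn := hfin hirn
  set μp := (mu d).withDensity (fun x => ENNReal.ofReal (r x)) with hμp
  set μn := (mu d).withDensity (fun x => ENNReal.ofReal (-r x)) with hμn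
  have hid : (η : Measure (T d)) + μn = μp := by
    apply ext_of_forall_integral_eq_of_IsFiniteMeasure
    intro f
    have hcf : Integrable f (η : Measure (T d)) := f.integrable _
    have hcn : Integrable f μn := f.integrable _
    rw [integral_add_measure hcf hcn]
    have e0 := integral_eq_of_coef_real h ⟨f, f.continuous⟩
    change ∫ x, f x ∂(η : Measure (T d)) = ∫ x, f x * r x ∂(mu d) at e0
    have e1 : ∫ x, f x ∂μn = ∫ x, (max (-r x) 0) * f x ∂(mu d) := by
      rw [hμn, integral_withDensity_eq_integral_toReal_smul₀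
        hmn.aemeasurable (Eventually.of_forall fun x => ENNReal.ofReal_lt_top)]
      rfl
    have e2 : ∫ x, f x ∂μp = ∫ x, (max (r x) 0) * f x ∂(mu d) := by
      rw [hμp, integral_withDensity_eq_integral_toReal_smul₀
        hmp.aemeasurable (Eventually.of_forall fun x => ENNReal.ofReal_lt_top)]
      rfl
    have hb : ∀ {g : T d → ℝ}, Integrable g (mu d) → Integrable (fun x => g x * f x) (mu d) := by
      intro g hg
      exact hg.mul_bdd (c := ‖f‖) f.continuous.aestronglyMeasurable
        (Eventually.of_forall fun x => f.norm_coe_le_norm x)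
    rw [e0, e1, e2]
    have i1 : Integrable (fun x => f x * r x) (mu d) := by
      simpa only [mul_comm] using hb hir
    have i2 : Integrable (fun x => max (-r x) 0 * f x) (mu d) := hb hirn.pos_part
    rw [← integral_add i1 i2]
    congr 1
    ext x
    have : max (-r x) 0 + r x = max (r x) 0 := by
      rcases le_total 0 (r x) with h0 | h0
      · rw [max_eq_left h0, max_eq_right (by linarith)]; ring
      · rw [max_eq_right h0, max_eq_left (by linarith)]; ring
    rw [← this]; ring
  have hpos : 0 ≤ᵐ[mu d] r := by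
    have hN : MeasurableSet {x | r x < 0} := measurableSet_lt hm measurable_const
    have h1 : μp {x | r x < 0} = 0 := by
      rw [hμp, withDensity_apply _ hN]
      rw [setLIntegral_congr_fun (g := fun _ => 0) hN]
      · simp
      · intro x hx
        exact ENNReal.ofReal_of_nonpos (le_of_lt hx)
    have h2 : μn {x | r x < 0} = 0 := by
      rw [← hid] at h1
      rw [Measure.add_apply] at h1
      exact (add_eq_zero.mp h1).2
    rw [hμn, withDensity_apply _ hN, lintegral_eq_zero_iff hmn] at h2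
    rw [Filter.EventuallyEq, ae_restrict_iff' hN] at h2
    filter_upwards [h2] with x hx
    by_contra hc
    have hc' : r x < 0 := not_le.mp hc
    have := hx hc'
    simp only [Pi.zero_apply, ENNReal.ofReal_eq_zero] at this
    linarith
  refine ⟨hpos, ?_, h⟩
  have h0 : μn = 0 := by
    rw [hμn]
    have : (fun x => ENNReal.ofReal (-r x)) =ᵐ[mu d] fun _ => 0 := by
      filter_upwards [hpos] with x hx
      have hx' : 0 ≤ r x := hx
      exact ENNReal.ofReal_of_nonpos (by linarith)
    rw [withDensity_congr_ae this]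
    simp
  rw [h0, add_zero] at hid
  exact hid

/-- measures with square summable coefficients have densities -/
theorem exists_density {η : PT d} (hs : Summable fun k => ‖coef η k‖ ^ 2) :
    ∃ r : HR d, IsDens η r := by
  obtain ⟨f, hf⟩ := exists_hc hs
  have hh : toC d (toR d f) = f := real_of_herm fun k => by rw [hf, hf, coef_neg]
  refine ⟨toR d f, isDens_of_coef fun k => ?_⟩
  unfold fr
  rw [hh, hf]

end Pool.Agent.helper28.Coul
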