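import Pool.Agent.helper28.Coul.MB4

/-!
# The minimiser has a bounded density and satisfies the Euler equation
-/

set_option autoImplicit false

open MeasureTheory UnitAddTorus Filter Topology
open scoped ENNReal ComplexConjugate InnerProductSpace

noncomputable section

namespace Pool.Agent.helper28.Coul

variable {d : ℕ}

lemma IsDens.nonneg {η : PT d} {r : HR d} (h : IsDens η r) : ∀ᵐ x ∂(mu d), 0 ≤ r x := h.1

lemma IsDens.fr {η : PT d} {r : HR d} (h : IsDens η r) (k : Fin d → ℤ) :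
    Coul.fr r k = coef η k := h.2.2 k

lemma IsDens.setInt {E : Type*} [NormedAddCommGroup E] [NormedSpace ℝ E] {η : PT d} {r : HR d}
    (h : IsDens η r) {A : Set (T d)} (hA : MeasurableSet A) (g : T d → E) :
    ∫ x in A, g x ∂(η : Measure (T d)) = ∫ x in A, (r x) • g x ∂(mu d) := by
  have hm : Measurable r := (Lp.stronglyMeasurable r).measurable
  rw [h.2.1, setIntegral_withDensity_eq_setIntegral_toReal_smul hm.ennreal_ofReal
    (Eventually.of_forall fun x => ENNReal.ofReal_lt_top) g hA]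
  apply setIntegral_congr_ae hA
  filter_upwards [h.nonneg] with x hx _
  rw [ENNReal.toReal_ofReal hx]

lemma IsDens.int {E : Type*} [NormedAddCommGroup E] [NormedSpace ℝ E] {η : PT d} {r : HR d}
    (h : IsDens η r) (g : T d → E) :
    ∫ x, g x ∂(η : Measure (T d)) = ∫ x, (r x) • g x ∂(mu d) := by
  have := h.setInt MeasurableSet.univ g
  simpa only [Measure.restrict_univ] using this

lemma IsDens.integrable {g : T d → ℝ} {η : PT d} {r : HR d}
    (h : IsDens η r) (hg : Integrable (fun x => r x * g x) (mu d)) :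
    Integrable g (η : Measure (T d)) := by
  have hm : Measurable r := (Lp.stronglyMeasurable r).measurable
  rw [h.2.1, integrable_withDensity_iff_integrable_smul' hm.ennreal_ofReal
    (Eventually.of_forall fun x => ENNReal.ofReal_lt_top)]
  refine hg.congr ?_
  filter_upwards [h.nonneg] with x hx
  rw [ENNReal.toReal_ofReal hx, smul_eq_mul]

lemma IsDens.mean {η : PT d} {r : HR d} (h : IsDens η r) : ∫ x, r x ∂(mu d) = 1 := by
  have h1 := h.fr 0
  rw [fr_zero, coef_zero] at h1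
  exact_mod_cast h1

/-- restriction of an `L²` function to a set -/
def rs (r : HR d) {A : Set (T d)} (hA : MeasurableSet A) : HR d :=
  MemLp.toLp (A.indicator r) ((Lp.memLp r).indicator hA)

lemma rs_ae (r : HR d) {A : Set (T d)} (hA : MeasurableSet A) : rs r hA =ᵐ[mu d] A.indicator r :=
  MemLp.coeFn_toLp _

lemma IsDens.cA {η : PT d} {r : HR d} (h : IsDens η r) {A : Set (T d)} (hA : MeasurableSet A)
    (k : Fin d → ℤ) : cA η A k = Coul.fr (rs r hA) k := by
  unfold Coul.cA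
  rw [h.setInt hA, fr_eq, ← integral_indicator hA]
  unfold fc
  apply integral_congr_ae
  filter_upwards [rs_ae r hA] with x hx
  rw [hx]
  by_cases hxA : x ∈ A
  · rw [Set.indicator_of_mem hxA, Set.indicator_of_mem hxA, Complex.real_smul, mul_comm,
      mFourier_neg]
  · rw [Set.indicator_of_notMem hxA, Set.indicator_of_notMem hxA]; simp

lemma inner_rs (f r : HR d) {A : Set (T d)} (hA : MeasurableSet A) :
    ⟪f, rs r hA⟫_ℝ = ∫ x in A, f x * r x ∂(mu d) := by
  rw [inner_hr, ← integral_indicator hA]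
  apply integral_congr_ae
  filter_upwards [rs_ae r hA] with x hx
  rw [hx]
  by_cases hxA : x ∈ A
  · rw [Set.indicator_of_mem hxA, Set.indicator_of_mem hxA]
  · rw [Set.indicator_of_notMem hxA, Set.indicator_of_notMem hxA]; simp

/-- symbol of the difference of the potential -/
def Ms (i : Fin d) (ε : ℝ) (k : Fin d → ℤ) : ℂ := (w k : ℂ) * (mFourier k (stp i ε) - 1)

lemma bdd_Ms (i : Fin d) (ε : ℝ) : Bdd (Ms (d := d) i ε) := by
  refine ⟨2, fun k => ?_⟩
  unfold Ms
  rw [norm_mul, Complex.norm_real, Real.norm_of_nonneg (w_nonneg k)]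
  have h1 : ‖mFourier k (stp i ε) - 1‖ ≤ 2 := by
    refine (norm_sub_le _ _).trans ?_
    rw [norm_mF, norm_one]; norm_num
  nlinarith [w_nonneg k, w_le k, norm_nonneg (mFourier k (stp i ε) - 1)]

lemma herm_Ms (i : Fin d) (ε : ℝ) : Herm (Ms (d := d) i ε) := by
  intro k
  unfold Ms
  rw [w_neg, mFourier_neg, map_mul, map_sub, map_one, Complex.conj_ofReal]

lemma fr_Ms (i : Fin d) (ε : ℝ) (f : HR d) (k : Fin d → ℤ) :
    fr (mulR (Ms i ε) f) k = Ms i ε k * fr f k := fr_mulR (bdd_Ms i ε) (herm_Ms i ε) f k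

/-- first order condition, in terms of the density -/
lemma fo {τ : ℝ} (hτ : 0 < τ) {ρ : PT d} {P : P2 d} (h : IsMin τ ρ P)
    (hρ : Fin' ρ) {r : HR d} (hr : IsDens (m2 P) r) {A : Set (T d)} (hA : MeasurableSet A)
    (i : Fin d) (ε : ℝ) :
    0 ≤ ⟪mulR (Ms i ε) r, rs r hA⟫_ℝ + (-2 * ε * XA P A i +
      ε ^ 2 * (P : Measure (T d × T d)).real {p : T d × T d | p.2 ∈ A}) / (2 * τ) := by
  have hs : Summable fun k => w k * ‖cA (m2 P) A k‖ ^ 2 := by
    simp only [hr.cA hA]
    exact (hasSum_En _).summable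
  have h1 := first_order_shift hτ h hρ hA i ε hs
  refine h1.trans (le_of_eq ?_)
  congr 1
  rw [← (hasSum_inner_hr (mulR (Ms i ε) r) (rs r hA)).tsum_eq]
  refine tsum_congr fun k => ?_
  rw [fr_Ms, hr.cA hA, ← hr.fr, mFourier_neg]
  have : conj (Ms i ε k * fr r k) * fr (rs r hA) k =
      (w k : ℂ) * (conj (fr r k) * ((conj (mFourier k (stp i ε)) - 1) * fr (rs r hA) k)) := by
    unfold Ms
    simp only [map_mul, map_sub, map_one, Complex.conj_ofReal]
    ring
  rw [this, Complex.re_ofReal_mul]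

lemma herm_Mm (ε : ℝ) : Herm (fun k : Fin d → ℤ => -((Mm ε k : ℝ) : ℂ)) := by
  intro k
  have h1 : Mm ε (-k) = Mm ε k := by
    unfold Mm dm
    rw [w_neg]
    congr 2
    refine Finset.sum_congr rfl fun i _ => ?_
    rw [mFourier_neg]
    have : conj (mFourier k (stp i ε)) - 1 = conj (mFourier k (stp i ε) - 1) := by simp
    rw [this, RCLike.norm_conj]
  change -((Mm ε (-k) : ℝ) : ℂ) = conj (-((Mm ε k : ℝ) : ℂ))
  rw [h1, map_neg, Complex.conj_ofReal]

lemma Mm_le' (ε : ℝ) (k : Fin d → ℤ) : Mm ε k ≤ 1 := by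
  rcases eq_or_ne ε 0 with rfl | hε
  · simp [Mm]
  · exact Mm_le hε k

lemma norm_Mm (ε : ℝ) (k : Fin d → ℤ) : ‖-((Mm ε k : ℝ) : ℂ)‖ ≤ 1 := by
  rw [norm_neg, Complex.norm_real, Real.norm_of_nonneg (Mm_nonneg _ _)]
  exact Mm_le' ε k

/-- second differences -/
lemma second {τ : ℝ} (hτ : 0 < τ) {ρ : PT d} {P : P2 d} (h : IsMin τ ρ P)
    (hρ : Fin' ρ) {r : HR d} (hr : IsDens (m2 P) r) {A : Set (T d)} (hA : MeasurableSet A) :
    -(d / τ * (P : Measure (T d × T d)).real {p : T d × T d | p.2 ∈ A}) ≤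
      ⟪Lap d r, rs r hA⟫_ℝ := by
  set m := (P : Measure (T d × T d)).real {p : T d × T d | p.2 ∈ A} with hm
  have h1 : ∀ ε : ℝ, ε ≠ 0 → -(d / τ * m) ≤
      ⟪mulR (fun k => -((Mm ε k : ℝ) : ℂ)) r, rs r hA⟫_ℝ := by
    intro ε hε
    have e : mulR (fun k => -((Mm ε k : ℝ) : ℂ)) r =
        (1 / ε ^ 2) • ∑ i, (mulR (Ms i ε) r + mulR (Ms i (-ε)) r) := by
      apply hr_ext
      intro k
      rw [fr_mulR ⟨1, norm_Mm ε⟩ (herm_Mm ε), fr_smul, fr_sum]
      have : ∀ i, fr (mulR (Ms i ε) r + mulR (Ms i (-ε)) r) k =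
          -((w k : ℂ) * (dm i ε k : ℂ) * fr r k) := by
        intro i
        rw [fr_add, fr_Ms, fr_Ms]
        unfold Ms
        rw [mF_stp_neg]
        have h2 := dm_sum i ε k
        linear_combination ((w k : ℂ) * fr r k) * h2
      simp only [this]
      rw [Finset.sum_neg_distrib, ← Finset.sum_mul, ← Finset.mul_sum]
      unfold Mm
      push_cast
      ring
    rw [e, inner_smul_left, sum_inner]
    have h2 : ∀ i, -(ε ^ 2 * m / τ) ≤ ⟪mulR (Ms i ε) r + mulR (Ms i (-ε)) r, rs r hA⟫_ℝ := by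
      intro i
      have f1 := fo hτ h hρ hr hA i ε
      have f2 := fo hτ h hρ hr hA i (-ε)
      rw [← hm] at f1 f2
      rw [inner_add_left]
      have h4 : (-2 * ε * XA P A i + ε ^ 2 * m) / (2 * τ) +
          (-2 * -ε * XA P A i + (-ε) ^ 2 * m) / (2 * τ) = ε ^ 2 * m / τ := by
        field_simp
        ring
      linarith
    have h3 : ∑ _i : Fin d, -(ε ^ 2 * m / τ) ≤
        ∑ i, ⟪mulR (Ms i ε) r + mulR (Ms i (-ε)) r, rs r hA⟫_ℝ := Finset.sum_le_sum fun i _ => h2 i
    rw [Finset.sum_const, Finset.card_univ, Fintype.card_fin, nsmul_eq_mul] at h3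
    have hpos : 0 < ε ^ 2 := by positivity
    have h4 : (1 / ε ^ 2) * (d * -(ε ^ 2 * m / τ)) = -(d / τ * m) := by
      field_simp
    rw [← h4]
    exact mul_le_mul_of_nonneg_left h3 (by positivity)
  have h2 : Tendsto (fun ε : ℝ => mulR (fun k => -((Mm ε k : ℝ) : ℂ)) r) (𝓝[≠] 0)
      (𝓝 (Lap d r)) := by
    unfold Lap
    apply tendsto_mulR (C := 1) norm_Mm norm_sL
    intro k
    have h3 := (Complex.continuous_ofReal.tendsto _).comp (tendsto_Mm k)
    have h4 := h3.neg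
    have e : (-(((if k = 0 then 0 else 1 : ℝ)) : ℂ)) = sL k := by
      unfold sL; split_ifs <;> simp
    rw [e] at h4
    exact h4
  have h3 : Tendsto (fun ε : ℝ => ⟪mulR (fun k => -((Mm ε k : ℝ) : ℂ)) r, rs r hA⟫_ℝ) (𝓝[≠] 0)
      (𝓝 ⟪Lap d r, rs r hA⟫_ℝ) := h2.inner tendsto_const_nhds
  refine ge_of_tendsto h3 ?_
  filter_upwards [self_mem_nhdsWithin] with ε hε
  exact h1 ε hε

lemma mass_eq {P : P2 d} {r : HR d} (hr : IsDens (m2 P) r) {A : Set (T d)}
    (hA : MeasurableSet A) :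
    (P : Measure (T d × T d)).real {p : T d × T d | p.2 ∈ A} = ∫ x in A, r x ∂(mu d) := by
  have h1 := hr.setInt hA (fun _ => (1 : ℝ))
  simp only [smul_eq_mul, mul_one] at h1
  rw [← h1, setIntegral_const, smul_eq_mul, mul_one, abs_rp_XA hA]

/-- the density is bounded -/
theorem KM_min {τ : ℝ} (hτ : 0 < τ) {ρ : PT d} {P : P2 d} (h : IsMin τ ρ P)
    (hρ : Fin' ρ) {r : HR d} (hr : IsDens (m2 P) r) : KM (1 + d / τ) r := by
  refine ⟨?_, hr.mean⟩
  have hi : Integrable (fun x => r x * (1 + d / τ - r x)) (mu d) := by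
    have := ((int_hr r).const_mul (1 + d / τ)).sub (int_mul r r)
    refine this.congr (Eventually.of_forall fun x => ?_)
    change (1 + d / τ) * r x - r x * r x = _
    ring
  have h1 : 0 ≤ᵐ[mu d] fun x => r x * (1 + d / τ - r x) := by
    apply ae_nonneg_of_forall_setIntegral_nonneg hi
    intro A hA _
    have h2 := second hτ h hρ hr hA
    rw [inner_rs, mass_eq hr hA] at h2
    have h3 : ∫ x in A, Lap d r x * r x ∂(mu d) = ∫ x in A, (r x - r x * r x) ∂(mu d) := by
      apply setIntegral_congr_ae hA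
      filter_upwards [Lap_of_mean hr.mean] with x hx _
      rw [hx]; ring
    rw [h3] at h2
    have h4 : ∫ x in A, r x * (1 + d / τ - r x) ∂(mu d) =
        ∫ x in A, (r x - r x * r x) ∂(mu d) + d / τ * ∫ x in A, r x ∂(mu d) := by
      rw [← integral_const_mul, ← integral_add]
      · congr 1
        ext x
        ring
      · exact ((int_hr r).sub (int_mul r r)).integrableOn
      · exact ((int_hr r).const_mul _).integrableOn
    rw [h4]
    linarith
  filter_upwards [h1, hr.nonneg] with x h2 h3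
  refine ⟨h3, ?_⟩
  rcases eq_or_lt_of_le h3 with h4 | h4
  · rw [← h4]
    positivity
  · have h5 : 0 ≤ r x * (1 + d / τ - r x) := h2
    have := nonneg_of_mul_nonneg_right h5 h4
    linarith

/-- the Euler equation -/
theorem euler {τ : ℝ} (hτ : 0 < τ) {ρ : PT d} {P : P2 d} (h : IsMin τ ρ P)
    (hρ : Fin' ρ) {r : HR d} (hr : IsDens (m2 P) r) {A : Set (T d)} (hA : MeasurableSet A)
    (i : Fin d) : ∫ x in A, G i r x * r x ∂(mu d) = XA P A i / τ := by
  set m := (P : Measure (T d × T d)).real {p : T d × T d | p.2 ∈ A} with hm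
  rw [← inner_rs _ _ hA]
  have hherm : ∀ ε : ℝ, Herm (fun k : Fin d → ℤ => Ms i ε k / (ε : ℂ)) := by
    intro ε k
    change Ms i ε (-k) / (ε : ℂ) = _
    rw [herm_Ms i ε k, map_div₀, Complex.conj_ofReal]
  have hbd : ∀ (ε : ℝ) (k : Fin d → ℤ), ‖Ms i ε k / (ε : ℂ)‖ ≤ 1 := by
    intro ε k
    rcases eq_or_ne ε 0 with rfl | hε
    · simp
    refine le_trans ?_ (norm_sG i k)
    have h3 : ‖sG i k‖ = 2 * Real.pi * |(k i : ℝ)| * w k := by
      unfold sG
      simp only [norm_mul, Complex.norm_I, Complex.norm_real, Complex.norm_intCast, Real.norm_eq_abs]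
      rw [abs_of_pos Real.pi_pos, abs_of_nonneg (w_nonneg k)]
      norm_num
    rw [h3]
    unfold Ms
    rw [norm_div, norm_mul, Complex.norm_real, Complex.norm_real,
      Real.norm_of_nonneg (w_nonneg k), mF_stp, div_le_iff₀ (by positivity)]
    have h4 := Real.norm_exp_I_mul_ofReal_sub_one_le (x := 2 * Real.pi * k i * ε)
    have h5 : ‖(2 * Real.pi * k i * ε : ℝ)‖ = 2 * Real.pi * |(k i : ℝ)| * ‖ε‖ := by
      simp only [norm_mul, Real.norm_eq_abs]
      rw [abs_of_pos Real.pi_pos, abs_of_pos (by norm_num : (0 : ℝ) < 2)]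
    rw [h5] at h4
    calc w k * ‖Complex.exp (Complex.I * ((2 * Real.pi * k i * ε : ℝ) : ℂ)) - 1‖
        ≤ w k * (2 * Real.pi * |(k i : ℝ)| * ‖ε‖) := mul_le_mul_of_nonneg_left h4 (w_nonneg k)
      _ = _ := by ring
  have hlim : Tendsto (fun ε : ℝ => ⟪mulR (fun k => Ms i ε k / (ε : ℂ)) r, rs r hA⟫_ℝ) (𝓝[≠] 0)
      (𝓝 ⟪G i r, rs r hA⟫_ℝ) := by
    refine Tendsto.inner ?_ tendsto_const_nhds
    unfold G
    apply tendsto_mulR (C := 1) hbd (norm_sG i)
    intro k
    have h1 : HasDerivAt (fun ε : ℝ => Complex.exp (Complex.I * ((2 * Real.pi * k i * ε : ℝ) : ℂ)))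
        (Complex.I * ((2 * Real.pi * k i : ℝ) : ℂ)) 0 := by
      have h2 : HasDerivAt (fun ε : ℝ => Complex.I * ((2 * Real.pi * k i * ε : ℝ) : ℂ))
          (Complex.I * ((2 * Real.pi * k i : ℝ) : ℂ)) 0 := by
        have h3 : HasDerivAt (fun ε : ℝ => (2 * Real.pi * k i * ε : ℝ)) (2 * Real.pi * k i) 0 := by
          simpa using (hasDerivAt_id (0 : ℝ)).const_mul (2 * Real.pi * k i : ℝ)
        exact h3.ofReal_comp.const_mul Complex.I
      have h4 := h2.cexp
      simpa using h4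
    rw [hasDerivAt_iff_tendsto_slope] at h1
    have h5 := h1.const_mul (w k : ℂ)
    have e : (w k : ℂ) * (Complex.I * ((2 * Real.pi * k i : ℝ) : ℂ)) = sG i k := by
      unfold sG; push_cast; ring
    rw [e] at h5
    refine h5.congr' ?_
    filter_upwards [self_mem_nhdsWithin] with ε hε
    unfold slope Ms
    rw [mF_stp]
    simp only [vsub_eq_sub, sub_zero, mul_zero, Complex.ofReal_zero, Complex.exp_zero]
    rw [Complex.real_smul]
    push_cast
    ring
  have hrel : ∀ ε : ℝ, ε ≠ 0 → ⟪mulR (fun k => Ms i ε k / (ε : ℂ)) r, rs r hA⟫_ℝ =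
      ⟪mulR (Ms i ε) r, rs r hA⟫_ℝ / ε := by
    intro ε hε
    have e : mulR (fun k => Ms i ε k / (ε : ℂ)) r = (1 / ε) • mulR (Ms i ε) r := by
      apply hr_ext
      intro k
      rw [fr_mulR ⟨1, hbd ε⟩ (hherm ε), fr_smul, fr_Ms]
      push_cast
      ring
    rw [e, inner_smul_left]
    simp only [conj_trivial]
    ring
  -- limits from the right and from the left
  have hfun : Tendsto (fun ε : ℝ => (2 * XA P A i - ε * m) / (2 * τ)) (𝓝 0)
      (𝓝 (XA P A i / τ)) := by
    have hc : Continuous fun ε : ℝ => (2 * XA P A i - ε * m) / (2 * τ) := by fun_prop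
    have := hc.tendsto 0
    have e : (2 * XA P A i - 0 * m) / (2 * τ) = XA P A i / τ := by
      field_simp
      ring
    rwa [e] at this
  apply le_antisymm
  · have hl : Tendsto (fun ε : ℝ => ⟪mulR (fun k => Ms i ε k / (ε : ℂ)) r, rs r hA⟫_ℝ) (𝓝[<] 0)
      (𝓝 ⟪G i r, rs r hA⟫_ℝ) := hlim.mono_left (nhdsWithin_mono _ fun x hx => ne_of_lt hx)
    refine le_of_tendsto_of_tendsto hl (hfun.mono_left nhdsWithin_le_nhds) ?_
    filter_upwards [self_mem_nhdsWithin] with ε hε
    have hε' : ε < 0 := hε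
    rw [hrel ε hε'.ne, div_le_iff_of_neg hε']
    have f1 := fo hτ h hρ hr hA i ε
    rw [← hm] at f1
    have e : (2 * XA P A i - ε * m) / (2 * τ) * ε =
      -((-2 * ε * XA P A i + ε ^ 2 * m) / (2 * τ)) := by
      field_simp; ring
    rw [e]; linarith
  · have hl : Tendsto (fun ε : ℝ => ⟪mulR (fun k => Ms i ε k / (ε : ℂ)) r, rs r hA⟫_ℝ) (𝓝[>] 0)
      (𝓝 ⟪G i r, rs r hA⟫_ℝ) := hlim.mono_left (nhdsWithin_mono _ fun x hx => ne_of_gt hx)
    refine le_of_tendsto_of_tendsto (hfun.mono_left nhdsWithin_le_nhds) hl ?_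
    filter_upwards [self_mem_nhdsWithin] with ε hε
    have hε' : 0 < ε := hε
    rw [hrel ε hε'.ne', le_div_iff₀ hε']
    have f1 := fo hτ h hρ hr hA i ε
    rw [← hm] at f1
    have e : (2 * XA P A i - ε * m) / (2 * τ) * ε =
      -((-2 * ε * XA P A i + ε ^ 2 * m) / (2 * τ)) := by
      field_simp; ring
    rw [e]; linarith

end Pool.Agent.helper28.Coul
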