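import Pool.Agent.helper28.Coul.MB5

/-!
# The dissipation of the minimiser is controlled by the transport cost
-/

set_option autoImplicit false

open MeasureTheory UnitAddTorus Filter Topology
open scoped ENNReal ComplexConjugate InnerProductSpace

noncomputable section

namespace Pool.Agent.helper28.Coul

variable {d : ℕ}

/-- the sigma algebra generated by the second coordinate -/
abbrev msnd (d : ℕ) : MeasurableSpace (T d × T d) := MeasurableSpace.comap Prod.snd inferInstance

lemma msnd_le : msnd d ≤ Prod.instMeasurableSpace := measurable_snd.comap_le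

lemma int_sq_le {P : P2 d} {r : HR d} (hr : IsDens (m2 P) r) {τ : ℝ} (hτ : 0 < τ) (i : Fin d)
    (he : ∀ A : Set (T d), MeasurableSet A → ∫ x in A, G i r x * r x ∂(mu d) = XA P A i / τ) :
    ∫ x, (G i r x) ^ 2 * r x ∂(mu d) ≤
      (1 / τ ^ 2) * ∫ p, rp (p.1 i - p.2 i) ^ 2 ∂(P : Measure (T d × T d)) := by
  set ν := (P : Measure (T d × T d)) with hν
  set q : T d × T d → ℝ := fun p => rp (p.1 i - p.2 i) with hq
  set g : T d × T d → ℝ := fun p => τ * G i r p.2 with hg
  have hGm : Measurable (G i r) := (Lp.stronglyMeasurable (G i r)).measurable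
  have hqi : Integrable q ν := integrable_q P i
  have hmap : ν.map Prod.snd = ((m2 P : PT d) : Measure (T d)) := rfl
  have hmle := msnd_le (d := d)
  have hgm : Measurable[msnd d] g := by
    have h1 : Measurable[msnd d] (Prod.snd : T d × T d → T d) := comap_measurable _
    exact (hGm.comp h1).const_mul τ
  have hgs : StronglyMeasurable[msnd d] g := hgm.stronglyMeasurable
  have hgm' : Measurable g := (hGm.comp measurable_snd).const_mul τ
  have hGi : Integrable (G i r) ((m2 P : PT d) : Measure (T d)) := by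
    apply hr.integrable
    have := int_mul r (G i r)
    exact this
  have hgi : Integrable g ν := by
    have : Integrable (fun p : T d × T d => G i r p.2) ν := by
      rw [← hmap] at hGi
      exact hGi.comp_measurable measurable_snd
    exact this.const_mul τ
  have hset : ∀ s : Set (T d × T d), MeasurableSet[msnd d] s → ∫ p in s, g p ∂ν = ∫ p in s, q p ∂ν := by
    rintro s ⟨A, hA, rfl⟩
    have h1 := he A hA
    have h2 : ∫ p in Prod.snd ⁻¹' A, q p ∂ν = XA P A i := rfl
    rw [h2]
    have h3 : XA P A i = τ * ∫ x in A, G i r x * r x ∂(mu d) := by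
      rw [h1]; field_simp
    rw [h3]
    have h4 : ∫ x in A, G i r x ∂((m2 P : PT d) : Measure (T d)) =
        ∫ x in A, G i r x * r x ∂(mu d) := by
      rw [hr.setInt hA]
      simp only [smul_eq_mul, mul_comm]
    rw [← h4, ← hmap, setIntegral_map hA hGm.aestronglyMeasurable measurable_snd.aemeasurable,
      ← integral_const_mul]
  have hce : g =ᵐ[ν] ν[q | msnd d] := by
    apply ae_eq_condExp_of_forall_setIntegral_eq hmle hqi
    · intro s _ _; exact hgi.integrableOn
    · intro s hs _; exact hset s hs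
    · exact hgs.aestronglyMeasurable
  have hgb : ∀ᵐ p ∂ν, |g p| ≤ 1 / 2 := by
    have h1 : ∀ᵐ p ∂ν, |q p| ≤ 1 / 2 := Eventually.of_forall fun p => abs_rp_le _
    have h2 := ae_bdd_abs_condExp_of_ae_bdd_abs (m := msnd d) h1
    filter_upwards [h2, hce] with p h3 h4
    rw [h4]; exact h3
  have hgg : Integrable (fun p => g p * g p) ν := by
    refine hgi.bdd_mul (c := 1 / 2) hgm'.aestronglyMeasurable ?_
    filter_upwards [hgb] with p hp
    rw [Real.norm_eq_abs]; exact hp
  have hgq : Integrable (g * q) ν := by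
    refine hqi.bdd_mul (c := 1 / 2) hgm'.aestronglyMeasurable ?_
    filter_upwards [hgb] with p hp
    rw [Real.norm_eq_abs]; exact hp
  have hqq : Integrable (fun p => q p * q p) ν := by
    refine hqi.bdd_mul (c := 1 / 2) hqi.aestronglyMeasurable
      (Eventually.of_forall fun p => ?_)
    rw [Real.norm_eq_abs]; exact abs_rp_le _
  have h1 : ∫ p, g p * g p ∂ν = ∫ p, g p * q p ∂ν := by
    have h2 := condExp_mul_of_stronglyMeasurable_left hgs hgq hqi
    have h3 : ∫ p, (ν[g * q | msnd d]) p ∂ν = ∫ p, (g * q) p ∂ν := integral_condExp hmle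
    have h4 : ∫ p, g p * g p ∂ν = ∫ p, (ν[g * q | msnd d]) p ∂ν := by
      apply integral_congr_ae
      filter_upwards [h2, hce] with p h5 h6
      rw [h5, Pi.mul_apply, ← h6]
    rw [h4, h3]
    rfl
  have h2 : ∫ p, g p * q p ∂ν ≤ (1 / 2) * ∫ p, g p * g p ∂ν + (1 / 2) * ∫ p, q p * q p ∂ν := by
    rw [← integral_const_mul, ← integral_const_mul, ← integral_add (hgg.const_mul _)
      (hqq.const_mul _)]
    apply integral_mono hgq ((hgg.const_mul _).add (hqq.const_mul _))
    intro p
    change g p * q p ≤ 1 / 2 * (g p * g p) + 1 / 2 * (q p * q p)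
    nlinarith [sq_nonneg (g p - q p)]
  have h3 : ∫ p, g p * g p ∂ν ≤ ∫ p, q p * q p ∂ν := by linarith
  have h4 : ∫ p, g p * g p ∂ν = τ ^ 2 * ∫ x, (G i r x) ^ 2 * r x ∂(mu d) := by
    have e1 : ∫ p, g p * g p ∂ν = ∫ x, (τ * G i r x) * (τ * G i r x)
        ∂((m2 P : PT d) : Measure (T d)) := by
      rw [← hmap, integral_map measurable_snd.aemeasurable]
      exact ((hGm.const_mul τ).mul (hGm.const_mul τ)).aestronglyMeasurable
    rw [e1, hr.int, ← integral_const_mul]
    congr 1
    ext x
    rw [smul_eq_mul]; ring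
  rw [h4] at h3
  have hpos : 0 < τ ^ 2 := by positivity
  rw [one_div, ← div_eq_inv_mul, le_div_iff₀ hpos]
  refine le_trans (le_of_eq (mul_comm _ _)) (h3.trans (le_of_eq ?_))
  congr 1
  ext p
  ring

lemma En_eq_Er {η : PT d} {r : HR d} (hr : IsDens η r) : En r = 2 * Er η := by
  rw [← (hasSum_En r).tsum_eq, Er, ← tsum_mul_left]
  refine tsum_congr fun k => ?_
  rw [hr.fr]; ring

/-- **the key inequality at the minimiser** -/
theorem key_ineq (hd : 0 < d) {τ : ℝ} (hτ : 0 < τ) {ρ : PT d} {P : P2 d} (h : IsMin τ ρ P)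
    (hρ : Fin' ρ) : 2 * (1 - kp d) * τ ^ 2 * Er (m2 P) ≤ Cst P := by
  obtain ⟨r, hr⟩ := exists_density (summable_sq hτ h hρ)
  have hK := KM_min hτ h hρ hr
  have hJ := partA hd hK
  have h1 : ∀ i, ∫ x, (G i r x) ^ 2 * r x ∂(mu d) ≤
      (1 / τ ^ 2) * ∫ p, rp (p.1 i - p.2 i) ^ 2 ∂(P : Measure (T d × T d)) := fun i =>
    int_sq_le hr hτ i fun A hA => euler hτ h hρ hr hA i
  have hb := hK.bd
  have hi : ∀ i, Integrable (fun x => (G i r x) ^ 2 * r x) (mu d) := fun i =>
    int_bd (int_sq _) (Lp.aestronglyMeasurable r) hb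
  have hgr : Integrable (fun x => gs r x * r x) (mu d) :=
    int_bd (integrable_gs r) (Lp.aestronglyMeasurable r) hb
  have h2 : ∫ x, gs r x * r x ∂(mu d) = ∑ i, ∫ x, (G i r x) ^ 2 * r x ∂(mu d) := by
    rw [← integral_finsetSum _ fun i _ => hi i]
    congr 1
    ext x
    unfold gs
    rw [Finset.sum_mul]
  have h3 : Cst P = ∑ i, ∫ p, rp (p.1 i - p.2 i) ^ 2 ∂(P : Measure (T d × T d)) := by
    unfold Cst
    rw [← integral_finsetSum]
    · congr 1
      ext p
      unfold dist2
      refine Finset.sum_congr rfl fun i _ => ?_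
      rw [← abs_rp, sq_abs]
    · intro i _
      have := (integrable_q P i).bdd_mul (c := 1 / 2) (integrable_q P i).aestronglyMeasurable
        (Eventually.of_forall fun p => by rw [Real.norm_eq_abs]; exact abs_rp_le _)
      simpa only [← sq] using this
  have h4 : J (kp d) r = (1 - kp d) * En r - ∫ x, gs r x * r x ∂(mu d) := by
    unfold J
    rw [← integral_gs, ← integral_const_mul, ← integral_sub ((integrable_gs r).const_mul _) hgr]
    congr 1
    ext x
    ring
  have h5 : ∫ x, gs r x * r x ∂(mu d) ≤ (1 / τ ^ 2) * Cst P := by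
    rw [h2, h3, Finset.mul_sum]
    exact Finset.sum_le_sum fun i _ => h1 i
  rw [En_eq_Er hr] at h4
  have hpos : 0 < τ ^ 2 := by positivity
  have h6 : (1 - kp d) * (2 * Er (m2 P)) ≤ (1 / τ ^ 2) * Cst P := by linarith
  rw [one_div, ← div_eq_inv_mul, le_div_iff₀ hpos] at h6
  linarith

end Pool.Agent.helper28.Coul
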