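import Pool.Agent.helper28.Coul.MB6

/-!
# Lower bound for the slope (De Giorgi's variational interpolation)
-/

set_option autoImplicit false

open MeasureTheory UnitAddTorus Filter Topology
open scoped ENNReal ComplexConjugate InnerProductSpace

noncomputable section

namespace Pool.Agent.helper28.Coul

variable {d : ℕ}

/-! ### coefficients and transport cost -/

lemma mF_eq_exp (k : Fin d → ℤ) (z : T d) :
    mFourier k z = Complex.exp (Complex.I * ((2 * Real.pi * ∑ i, (k i : ℝ) * rp (z i) : ℝ) : ℂ)) := by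
  simp only [mFourier, ContinuousMap.coe_mk]
  rw [Finset.mul_sum, Complex.ofReal_sum, Finset.mul_sum, Complex.exp_sum]
  refine Finset.prod_congr rfl fun i _ => ?_
  conv_lhs => rw [← coe_rp (z i)]
  rw [fourier_coe_apply]
  congr 1
  push_cast
  ring

lemma mF_lip (k : Fin d → ℤ) (x y : T d) :
    ‖mFourier k y - mFourier k x‖ ^ 2 ≤ 4 * Real.pi ^ 2 * dot k k * dist2 x y := by
  have h1 : ‖mFourier k y - mFourier k x‖ = ‖mFourier k (y - x) - 1‖ := by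
    have e : mFourier k y - mFourier k x = mFourier k x * (mFourier k (y - x) - 1) := by
      rw [mF_sub_arg]
      have h := mF_conj_mul k x
      linear_combination (-mFourier k y) * h
    rw [e, norm_mul, norm_mF, one_mul]
  rw [h1, mF_eq_exp]
  have h2 := Real.norm_exp_I_mul_ofReal_sub_one_le
    (x := 2 * Real.pi * ∑ i, (k i : ℝ) * rp ((y - x) i))
  have h3 : (∑ i, (k i : ℝ) * rp ((y - x) i)) ^ 2 ≤ dot k k * dist2 x y := by
    refine (Finset.sum_mul_sq_le_sq_mul_sq _ _ _).trans (le_of_eq ?_)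
    unfold dot dist2
    congr 1
    · exact Finset.sum_congr rfl fun i _ => sq _
    · refine Finset.sum_congr rfl fun i _ => ?_
      rw [← sq_abs, abs_rp, Pi.sub_apply, norm_sub_rev]
  calc ‖Complex.exp (Complex.I * ((2 * Real.pi * ∑ i, (k i : ℝ) * rp ((y - x) i) : ℝ) : ℂ)) - 1‖ ^ 2
      ≤ ‖(2 * Real.pi * ∑ i, (k i : ℝ) * rp ((y - x) i) : ℝ)‖ ^ 2 := by gcongr
    _ = 4 * Real.pi ^ 2 * (∑ i, (k i : ℝ) * rp ((y - x) i)) ^ 2 := by
        rw [Real.norm_eq_abs, sq_abs]; ring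
    _ ≤ 4 * Real.pi ^ 2 * (dot k k * dist2 x y) := by gcongr
    _ = _ := by ring

lemma coef_m1 (P : P2 d) (k : Fin d → ℤ) : coef (m1 P) k =
    ∫ p, mFourier (-k) p.1 ∂(P : Measure (T d × T d)) := by
  unfold coef m1
  rw [ProbabilityMeasure.toMeasure_map, integral_map measurable_fst.aemeasurable
    (mFourier (-k)).continuous.aestronglyMeasurable]

lemma sq_int_le {α : Type*} [MeasurableSpace α] {ν : Measure α} [IsProbabilityMeasure ν]
    {g : α → ℝ} (hg : Integrable g ν) (hg2 : Integrable (fun x => g x ^ 2) ν) :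
    (∫ x, g x ∂ν) ^ 2 ≤ ∫ x, g x ^ 2 ∂ν := by
  set m := ∫ x, g x ∂ν with hm
  have h1 : 0 ≤ ∫ x, (g x ^ 2 - 2 * m * g x + m ^ 2) ∂ν := by
    apply integral_nonneg
    intro x
    change 0 ≤ g x ^ 2 - 2 * m * g x + m ^ 2
    nlinarith [sq_nonneg (g x - m)]
  have i1 : Integrable (fun x => g x ^ 2 - 2 * m * g x) ν := hg2.sub (hg.const_mul _)
  rw [integral_add i1 (integrable_const _), integral_sub hg2 (hg.const_mul _),
    integral_const_mul] at h1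
  simp only [integral_const, probReal_univ, smul_eq_mul, one_mul] at h1
  rw [← hm] at h1
  nlinarith

lemma coef_close (P : P2 d) (k : Fin d → ℤ) :
    ‖coef (m2 P) k - coef (m1 P) k‖ ^ 2 ≤ 4 * Real.pi ^ 2 * dot k k * Cst P := by
  have c1 : Continuous fun p : T d × T d => mFourier (-k) p.1 :=
    (mFourier (-k)).continuous.comp continuous_fst
  have c2 : Continuous fun p : T d × T d => mFourier (-k) p.2 :=
    (mFourier (-k)).continuous.comp continuous_snd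
  rw [coef_m1, coef_m2, ← integral_sub (int_cont P c2) (int_cont P c1)]
  have h1 := norm_integral_le_integral_norm (μ := (P : Measure (T d × T d)))
    (fun p : T d × T d => mFourier (-k) p.2 - mFourier (-k) p.1)
  have c3 : Continuous fun p : T d × T d => ‖mFourier (-k) p.2 - mFourier (-k) p.1‖ :=
    (c2.sub c1).norm
  have h2 := sq_int_le (int_cont P c3) (int_cont P (c3.pow 2))
  calc ‖∫ p, (mFourier (-k) p.2 - mFourier (-k) p.1) ∂(P : Measure (T d × T d))‖ ^ 2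
      ≤ (∫ p, ‖mFourier (-k) p.2 - mFourier (-k) p.1‖ ∂(P : Measure (T d × T d))) ^ 2 := by
        gcongr
    _ ≤ ∫ p, ‖mFourier (-k) p.2 - mFourier (-k) p.1‖ ^ 2 ∂(P : Measure (T d × T d)) := h2
    _ ≤ ∫ p, 4 * Real.pi ^ 2 * dot k k * dist2 p.1 p.2 ∂(P : Measure (T d × T d)) := by
        apply integral_mono (int_cont P (c3.pow 2)) ((int_cont P continuous_dist2).const_mul _)
        intro p
        have := mF_lip (-k) p.1 p.2
        rwa [dot_neg_neg] at this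
    _ = _ := by rw [integral_const_mul]; rfl

/-! ### the family of minimisers -/

/-- a minimiser -/
def Pm (τ : ℝ) (ρ : PT d) : P2 d := (exists_isMin τ ρ).choose

lemma Pm_isMin (τ : ℝ) (ρ : PT d) : IsMin τ ρ (Pm τ ρ) := (exists_isMin τ ρ).choose_spec

/-- energy of the minimiser -/
def Ef (ρ : PT d) (τ : ℝ) : ℝ := Er (m2 (Pm τ ρ))

/-- cost of the minimiser -/
def Cf (ρ : PT d) (τ : ℝ) : ℝ := Cst (Pm τ ρ)

/-- minimal value -/
def pf (ρ : PT d) (τ : ℝ) : ℝ := Ef ρ τ + Cf ρ τ / (2 * τ)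

lemma Ef_nonneg (ρ : PT d) (τ : ℝ) : 0 ≤ Ef ρ τ := Er_nonneg _
lemma Cf_nonneg (ρ : PT d) (τ : ℝ) : 0 ≤ Cf ρ τ := Cst_nonneg _

lemma pf_le {ρ : PT d} (hρ : Fin' ρ) {t : ℝ} (s : ℝ) (ht : 0 < t) (_hs : 0 < s) :
    pf ρ t ≤ Ef ρ s + Cf ρ s / (2 * t) :=
  (Pm_isMin t ρ).le ht hρ (Pm_isMin s ρ).1 ((Pm_isMin s ρ).fin hρ)

lemma pf_le_Er {ρ : PT d} (hρ : Fin' ρ) {t : ℝ} (ht : 0 < t) : pf ρ t ≤ Er ρ := by
  have hf : Fin' (m2 (diag ρ)) := by rw [m2_diag]; exact hρ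
  have := (Pm_isMin t ρ).le ht hρ (m1_diag ρ) hf
  rw [m2_diag, Cst_diag, zero_div, add_zero] at this
  exact this

lemma Ef_anti {ρ : PT d} (hρ : Fin' ρ) {s t : ℝ} (hs : 0 < s) (hst : s ≤ t) :
    Ef ρ t ≤ Ef ρ s := by
  have ht : 0 < t := hs.trans_le hst
  rcases eq_or_lt_of_le hst with rfl | hlt
  · exact le_rfl
  have h1 := pf_le hρ s ht hs
  have h2 := pf_le hρ t hs ht
  unfold pf at h1 h2
  have h3 : (Cf ρ s - Cf ρ t) * (1 / (2 * s) - 1 / (2 * t)) ≤ 0 := by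
    have e : (Cf ρ s - Cf ρ t) * (1 / (2 * s) - 1 / (2 * t)) =
      Cf ρ s / (2 * s) - Cf ρ s / (2 * t) - Cf ρ t / (2 * s) + Cf ρ t / (2 * t) := by ring
    rw [e]; linarith
  have h4 : 0 < 1 / (2 * s) - 1 / (2 * t) := by
    rw [sub_pos]
    apply one_div_lt_one_div_of_lt <;> linarith
  have h5 : Cf ρ s - Cf ρ t ≤ 0 := by
    by_contra hc
    push Not at hc
    have := mul_pos hc h4
    linarith
  have h6 : Cf ρ s / (2 * t) ≤ Cf ρ t / (2 * t) := by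
    apply div_le_div_of_nonneg_right _ (by positivity)
    linarith
  linarith

lemma one_sub_kp_pos (hd : 0 < d) : 0 < 1 - kp d := by
  unfold kp
  have : (0 : ℝ) < d := by exact_mod_cast hd
  rw [sub_pos, div_lt_one (by positivity)]
  linarith

lemma pf_step (hd : 0 < d) {ρ : PT d} (hρ : Fin' ρ) {s t : ℝ} (hs : 0 < s) (hst : s < t) :
    (1 - kp d) * s * Ef ρ s * (1 - s / t) ≤ pf ρ s - pf ρ t := by
  have ht : 0 < t := hs.trans hst
  have h1 := pf_le hρ s ht hs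
  have h2 := key_ineq hd hs (Pm_isMin s ρ) hρ
  change 2 * (1 - kp d) * s ^ 2 * Ef ρ s ≤ Cf ρ s at h2
  have h4 : 0 < 1 / (2 * s) - 1 / (2 * t) := by
    rw [sub_pos]
    apply one_div_lt_one_div_of_lt <;> linarith
  have h5 := mul_le_mul_of_nonneg_right h2 h4.le
  have e1 : 2 * (1 - kp d) * s ^ 2 * Ef ρ s * (1 / (2 * s) - 1 / (2 * t)) =
      (1 - kp d) * s * Ef ρ s * (1 - s / t) := by
    field_simp
  have e2 : Cf ρ s * (1 / (2 * s) - 1 / (2 * t)) = Cf ρ s / (2 * s) - Cf ρ s / (2 * t) := by ring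
  rw [e1, e2] at h5
  unfold pf at h1 ⊢
  linarith

lemma pf_iter (hd : 0 < d) {ρ : PT d} (hρ : Fin' ρ) {τ : ℝ} (hτ : 0 < τ) {q : ℝ} (hq : 0 < q)
    (hq1 : q < 1) (n : ℕ) :
    pf ρ τ + (1 - kp d) * Ef ρ τ * q * τ * (1 - q ^ n) ≤ pf ρ (q ^ n * τ) := by
  induction n with
  | zero => simp
  | succ n ih =>
    have hqn : 0 < q ^ n := by positivity
    have hs : 0 < q ^ (n + 1) * τ := by positivity
    have hst : q ^ (n + 1) * τ < q ^ n * τ := by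
      apply mul_lt_mul_of_pos_right _ hτ
      rw [pow_succ]
      nlinarith
    have h1 := pf_step hd hρ hs hst
    have h2 : Ef ρ τ ≤ Ef ρ (q ^ (n + 1) * τ) := by
      apply Ef_anti hρ hs
      have : q ^ (n + 1) ≤ 1 := pow_le_one₀ hq.le hq1.le
      nlinarith
    have e : 1 - q ^ (n + 1) * τ / (q ^ n * τ) = 1 - q := by
      rw [pow_succ]
      field_simp
    rw [e] at h1
    have h3 : (1 - kp d) * (q ^ (n + 1) * τ) * Ef ρ τ * (1 - q) ≤
        (1 - kp d) * (q ^ (n + 1) * τ) * Ef ρ (q ^ (n + 1) * τ) * (1 - q) := by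
      apply mul_le_mul_of_nonneg_right _ (by linarith)
      apply mul_le_mul_of_nonneg_left h2
      exact mul_nonneg (one_sub_kp_pos hd).le hs.le
    have e2 : pf ρ τ + (1 - kp d) * Ef ρ τ * q * τ * (1 - q ^ (n + 1)) =
      (pf ρ τ + (1 - kp d) * Ef ρ τ * q * τ * (1 - q ^ n)) +
        (1 - kp d) * (q ^ (n + 1) * τ) * Ef ρ τ * (1 - q) := by
      rw [pow_succ]; ring
    rw [e2]
    linarith

/-- the De Giorgi inequality -/
theorem deGiorgi (hd : 0 < d) {ρ : PT d} (hρ : Fin' ρ) {τ : ℝ} (hτ : 0 < τ) :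
    Ef ρ τ + Cf ρ τ / (2 * τ) + (1 - kp d) * τ * Ef ρ τ ≤ Er ρ := by
  have h1 : ∀ q : ℝ, 0 < q → q < 1 → pf ρ τ + (1 - kp d) * Ef ρ τ * q * τ ≤ Er ρ := by
    intro q hq hq1
    have hl : Tendsto (fun n : ℕ => pf ρ τ + (1 - kp d) * Ef ρ τ * q * τ * (1 - q ^ n)) atTop
        (𝓝 (pf ρ τ + (1 - kp d) * Ef ρ τ * q * τ * (1 - 0))) :=
      tendsto_const_nhds.add (tendsto_const_nhds.mul
        (tendsto_const_nhds.sub (tendsto_pow_atTop_nhds_zero_of_lt_one hq.le hq1)))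
    rw [sub_zero, mul_one] at hl
    refine le_of_tendsto' hl fun n => ?_
    exact (pf_iter hd hρ hτ hq hq1 n).trans (pf_le_Er hρ (by positivity))
  have hl : Tendsto (fun q : ℝ => pf ρ τ + (1 - kp d) * Ef ρ τ * q * τ) (𝓝[<] 1)
      (𝓝 (pf ρ τ + (1 - kp d) * Ef ρ τ * 1 * τ)) := by
    apply Tendsto.mono_left _ nhdsWithin_le_nhds
    exact (by fun_prop : Continuous fun q : ℝ =>
      pf ρ τ + (1 - kp d) * Ef ρ τ * q * τ).tendsto 1
  have h2 : pf ρ τ + (1 - kp d) * Ef ρ τ * 1 * τ ≤ Er ρ := by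
    refine le_of_tendsto hl ?_
    have : Set.Ioi (0 : ℝ) ∈ 𝓝 (1 : ℝ) := Ioi_mem_nhds one_pos
    filter_upwards [self_mem_nhdsWithin, mem_nhdsWithin_of_mem_nhds this] with q hq1 hq
    exact h1 q hq hq1
  unfold pf at h2
  linarith

lemma sq_ineq (hd : 0 < d) {ρ : PT d} (hρ : Fin' ρ) {τ : ℝ} (hτ : 0 < τ) :
    2 * (1 - kp d) * Cf ρ τ * Ef ρ τ ≤ (Er ρ - Ef ρ τ) ^ 2 ∧ Ef ρ τ ≤ Er ρ := by
  have h1 := deGiorgi hd hρ hτ
  have h2 := Cf_nonneg ρ τ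
  have h3 := Ef_nonneg ρ τ
  have h4 := one_sub_kp_pos hd
  have ha : 0 ≤ Cf ρ τ / (2 * τ) := by positivity
  have hb : 0 ≤ (1 - kp d) * τ * Ef ρ τ := by positivity
  have e : 4 * (Cf ρ τ / (2 * τ)) * ((1 - kp d) * τ * Ef ρ τ) =
      2 * (1 - kp d) * Cf ρ τ * Ef ρ τ := by
    field_simp
    ring
  refine ⟨?_, by linarith⟩
  rw [← e]
  nlinarith [sq_nonneg (Cf ρ τ / (2 * τ) - (1 - kp d) * τ * Ef ρ τ)]

lemma Cf_le {ρ : PT d} (hρ : Fin' ρ) {τ : ℝ} (hτ : 0 < τ) : Cf ρ τ ≤ 2 * τ * Er ρ := by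
  have h1 := pf_le_Er hρ hτ
  unfold pf at h1
  have h2 := Ef_nonneg ρ τ
  have h3 : Cf ρ τ / (2 * τ) ≤ Er ρ := by linarith
  rw [div_le_iff₀ (by positivity)] at h3
  linarith

lemma tendsto_Cf {ρ : PT d} (hρ : Fin' ρ) : Tendsto (Cf ρ) (𝓝[>] 0) (𝓝 0) := by
  have h1 : Tendsto (fun τ : ℝ => 2 * τ * Er ρ) (𝓝[>] 0) (𝓝 0) := by
    apply Tendsto.mono_left _ nhdsWithin_le_nhds
    have : Continuous fun τ : ℝ => 2 * τ * Er ρ := by fun_prop
    simpa using this.tendsto 0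
  refine squeeze_zero' (Eventually.of_forall fun τ => Cf_nonneg ρ τ) ?_ h1
  filter_upwards [self_mem_nhdsWithin] with τ hτ
  exact Cf_le hρ hτ

lemma tendsto_coef {ρ : PT d} (hρ : Fin' ρ) (k : Fin d → ℤ) :
    Tendsto (fun τ => coef (m2 (Pm τ ρ)) k) (𝓝[>] 0) (𝓝 (coef ρ k)) := by
  rw [tendsto_iff_norm_sub_tendsto_zero]
  have h1 : Tendsto (fun τ => Real.sqrt (4 * Real.pi ^ 2 * dot k k * Cf ρ τ)) (𝓝[>] 0) (𝓝 0) := by
    have h2 := ((tendsto_Cf hρ).const_mul (4 * Real.pi ^ 2 * dot k k)).sqrt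
    simpa using h2
  refine squeeze_zero (fun τ => norm_nonneg _) (fun τ => ?_) h1
  apply Real.le_sqrt_of_sq_le
  have := coef_close (Pm τ ρ) k
  rw [(Pm_isMin τ ρ).1] at this
  exact this

lemma ev_lt_Ef {ρ : PT d} (hρ : Fin' ρ) {a : ℝ} (ha : a < Er ρ) : ∀ᶠ τ in 𝓝[>] 0, a < Ef ρ τ := by
  have h1 := hρ.hasSum
  obtain ⟨s, hs⟩ := ((tendsto_order.mp h1).1 a ha).exists
  have h2 : Tendsto (fun τ => ∑ k ∈ s, w k * ‖coef (m2 (Pm τ ρ)) k‖ ^ 2 / 2) (𝓝[>] 0)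
      (𝓝 (∑ k ∈ s, w k * ‖coef ρ k‖ ^ 2 / 2)) :=
    tendsto_finsetSum _ fun k _ => (((tendsto_coef hρ k).norm.pow 2).const_mul _).div_const _
  filter_upwards [(tendsto_order.mp h2).1 a hs, self_mem_nhdsWithin] with τ h3 hτ
  refine h3.trans_le ?_
  have hf : Fin' (m2 (Pm τ ρ)) := (Pm_isMin τ ρ).fin hρ
  exact sum_le_hasSum s (fun k _ => term_nonneg _ k) hf.hasSum

lemma W2_eq {ρ : PT d} (hρ : Fin' ρ) {τ : ℝ} (hτ : 0 < τ) :
    W2 ρ (m2 (Pm τ ρ)) = Real.sqrt (Cf ρ τ) := by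
  unfold W2
  congr 1
  apply IsLeast.csInf_eq
  constructor
  · exact ⟨Pm τ ρ, isCoupling_iff.mpr ⟨(Pm_isMin τ ρ).1, rfl⟩, rfl⟩
  · rintro c ⟨π, hπ, rfl⟩
    obtain ⟨h1, h2⟩ := isCoupling_iff.mp hπ
    have hf : Fin' (m2 π) := by rw [h2]; exact (Pm_isMin τ ρ).fin hρ
    have h3 := (Pm_isMin τ ρ).le hτ hρ h1 hf
    rw [h2] at h3
    have h4 : Cst (Pm τ ρ) / (2 * τ) ≤ Cst π / (2 * τ) := by linarith
    have h5 : (0 : ℝ) < 2 * τ := by positivity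
    exact (div_le_div_iff_of_pos_right h5).mp h4

/-- **lower bound of the slope** -/
theorem slope_lower (hd : 0 < d) {ρ : PT d} (h0 : 0 < energy ρ) (h1 : energy ρ < ∞) :
    ENNReal.ofReal (2 * (1 - kp d)) ≤ slopeE ρ ^ 2 / energy ρ := by
  have hρ : Fin' ρ := fin_of_energy h1
  have he := energy_of_fin hρ
  have hpos : 0 < Er ρ := by
    rw [he] at h0
    exact ENNReal.ofReal_pos.mp h0
  have hc := one_sub_kp_pos hd
  -- the main estimate
  have key : ENNReal.ofReal (Real.sqrt (2 * (1 - kp d) * Er ρ)) ≤ slopeE ρ := by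
    unfold slopeE
    refine le_iInf₂ fun r hr => ?_
    apply le_of_forall_lt
    intro b hb
    -- choose a < Er ρ with b < ofReal sqrt (c a)
    have hcont : Tendsto (fun a : ℝ => ENNReal.ofReal (Real.sqrt (2 * (1 - kp d) * a))) (𝓝[<] (Er ρ))
        (𝓝 (ENNReal.ofReal (Real.sqrt (2 * (1 - kp d) * Er ρ)))) := by
      apply Tendsto.mono_left _ nhdsWithin_le_nhds
      exact (ENNReal.continuous_ofReal.comp (by fun_prop : Continuous fun a : ℝ =>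
        Real.sqrt (2 * (1 - kp d) * a))).tendsto _
    have hpos' : Set.Ioi (0 : ℝ) ∈ 𝓝 (Er ρ) := Ioi_mem_nhds hpos
    obtain ⟨a, ⟨hba, ha⟩, ha0⟩ := (((tendsto_order.mp hcont).1 b hb).and
      self_mem_nhdsWithin |>.and (mem_nhdsWithin_of_mem_nhds hpos')).exists
    have ha' : a < Er ρ := ha
    have ha0' : 0 < a := ha0
    have hC := (tendsto_Cf hρ)
    have hr2 : ∀ᶠ τ in 𝓝[>] 0, Cf ρ τ < r ^ 2 := (tendsto_order.mp hC).2 _ (by positivity)
    obtain ⟨τ, ⟨hτ1, hτ2⟩, hτ0⟩ := ((ev_lt_Ef hρ ha').and hr2 |>.and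
      self_mem_nhdsWithin).exists
    have hτ : 0 < τ := hτ0
    have hEpos : 0 < Ef ρ τ := ha0'.trans hτ1
    have hkey := key_ineq hd hτ (Pm_isMin τ ρ) hρ
    change 2 * (1 - kp d) * τ ^ 2 * Ef ρ τ ≤ Cf ρ τ at hkey
    have hCpos : 0 < Cf ρ τ := lt_of_lt_of_le (by positivity) hkey
    have hW : W2 ρ (m2 (Pm τ ρ)) = Real.sqrt (Cf ρ τ) := W2_eq hρ hτ
    have hsq : 0 < Real.sqrt (Cf ρ τ) := Real.sqrt_pos.mpr hCpos
    have hlt : Real.sqrt (Cf ρ τ) < r := by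
      rw [Real.sqrt_lt' hr]; exact hτ2
    refine lt_of_lt_of_le hba ?_
    refine le_trans ?_ (le_iSup₂ (f := fun (η : PT d) (_ : 0 < W2 ρ η ∧ W2 ρ η < r) =>
      (energy ρ - energy η) / ENNReal.ofReal (W2 ρ η)) (m2 (Pm τ ρ))
      ⟨by rw [hW]; exact hsq, by rw [hW]; exact hlt⟩)
    rw [hW, he, energy_of_fin ((Pm_isMin τ ρ).fin hρ), ← ENNReal.ofReal_sub _ (Er_nonneg _),
      ← ENNReal.ofReal_div_of_pos hsq]
    apply ENNReal.ofReal_le_ofReal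
    obtain ⟨h5, h6⟩ := sq_ineq hd hρ hτ
    change Real.sqrt (2 * (1 - kp d) * a) ≤ (Er ρ - Ef ρ τ) / Real.sqrt (Cf ρ τ)
    rw [le_div_iff₀ hsq, ← Real.sqrt_mul (by positivity)]
    apply Real.sqrt_le_iff.mpr
    refine ⟨by linarith, ?_⟩
    calc 2 * (1 - kp d) * a * Cf ρ τ ≤ 2 * (1 - kp d) * Ef ρ τ * Cf ρ τ := by gcongr
      _ = 2 * (1 - kp d) * Cf ρ τ * Ef ρ τ := by ring
      _ ≤ _ := h5
  rw [ENNReal.le_div_iff_mul_le (Or.inl h0.ne') (Or.inl h1.ne)]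
  calc ENNReal.ofReal (2 * (1 - kp d)) * energy ρ =
        ENNReal.ofReal (Real.sqrt (2 * (1 - kp d) * Er ρ)) ^ 2 := by
        rw [he, ← ENNReal.ofReal_mul (by positivity), ← ENNReal.ofReal_pow (Real.sqrt_nonneg _),
          Real.sq_sqrt (by positivity)]
    _ ≤ slopeE ρ ^ 2 := by gcongr

end Pool.Agent.helper28.Coul
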