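import Pool.Agent.helper28.Coul.MB7

/-!
# Upper bound of the slope for trigonometric polynomials
-/

set_option autoImplicit false

open MeasureTheory UnitAddTorus Filter Topology
open scoped ENNReal ComplexConjugate InnerProductSpace

noncomputable section

namespace Pool.Agent.helper28.Coul

variable {d : ℕ}

/-- coefficients supported in a finite set -/
def FinSup (ρ : PT d) (S : Finset (Fin d → ℤ)) : Prop := ∀ k, k ∉ S → coef ρ k = 0

/-- gradient of the potential -/
def gr (ρ : PT d) (S : Finset (Fin d → ℤ)) (i : Fin d) (x : T d) : ℝ :=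
  ∑ k ∈ S, (sG i k * coef ρ k * mFourier k x).re

/-- the potential -/
def pot (ρ : PT d) (S : Finset (Fin d → ℤ)) (x : T d) : ℝ :=
  ∑ k ∈ S, w k * (conj (coef ρ k) * mFourier (-k) x).re

lemma continuous_gr (ρ : PT d) (S : Finset (Fin d → ℤ)) (i : Fin d) : Continuous (gr ρ S i) := by
  unfold gr
  have h : ∀ k : Fin d → ℤ, Continuous fun x : T d => mFourier k x := fun k => (mFourier k).continuous
  fun_prop

lemma continuous_pot (ρ : PT d) (S : Finset (Fin d → ℤ)) : Continuous (pot ρ S) := by
  unfold pot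
  have h : ∀ k : Fin d → ℤ, Continuous fun x : T d => mFourier k x := fun k => (mFourier k).continuous
  fun_prop

lemma exp_second (θ : ℝ) : ‖1 + Complex.I * θ - Complex.exp (Complex.I * θ)‖ ≤ 2 * θ ^ 2 := by
  have hn : ‖Complex.I * (θ : ℂ)‖ = |θ| := by
    rw [norm_mul, Complex.norm_I, one_mul, Complex.norm_real, Real.norm_eq_abs]
  rcases le_total |θ| 1 with h | h
  · have h1 := Complex.norm_exp_sub_one_sub_id_le (x := Complex.I * θ) (by rw [hn]; exact h)
    rw [hn, sq_abs] at h1
    have e : 1 + Complex.I * θ - Complex.exp (Complex.I * θ) =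
        -(Complex.exp (Complex.I * θ) - 1 - Complex.I * θ) := by ring
    rw [e, norm_neg]
    nlinarith [sq_nonneg θ]
  · have h1 := Real.norm_exp_I_mul_ofReal_sub_one_le (x := θ)
    have e : 1 + Complex.I * θ - Complex.exp (Complex.I * θ) =
        Complex.I * θ - (Complex.exp (Complex.I * θ) - 1) := by ring
    rw [e]
    refine (norm_sub_le _ _).trans ?_
    rw [hn]
    rw [Real.norm_eq_abs] at h1
    have h2 : |θ| ≤ θ ^ 2 := by
      rw [← sq_abs]; nlinarith [abs_nonneg θ]
    linarith

lemma pot_sub_le (ρ : PT d) (S : Finset (Fin d → ℤ)) (x y : T d) :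
    pot ρ S x - pot ρ S y ≤ ∑ i, gr ρ S i x * rp (x i - y i) +
      2 * (∑ k ∈ S, ‖coef ρ k‖) * dist2 x y := by
  have hk : ∀ k ∈ S, w k * (conj (coef ρ k) * mFourier (-k) x).re -
      w k * (conj (coef ρ k) * mFourier (-k) y).re ≤
      ∑ i, (sG i k * coef ρ k * mFourier k x).re * rp (x i - y i) + 2 * ‖coef ρ k‖ * dist2 x y := by
    intro k _
    set c := coef ρ k with hc
    set s : ℝ := ∑ i, (k i : ℝ) * rp ((x - y) i) with hs
    set θ : ℝ := 2 * Real.pi * s with hθ
    have hz := mF_eq_exp k (x - y)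
    rw [← hs, ← hθ] at hz
    have hy : mFourier (-k) y = mFourier (-k) x * Complex.exp (Complex.I * θ) := by
      rw [← hz, mF_sub_arg, mFourier_neg, mFourier_neg]
      have h1 := mF_conj_mul k x
      linear_combination (-(conj (mFourier k y))) * h1
    have hsum : ∑ i, (sG i k * c * mFourier k x).re * rp (x i - y i) =
        w k * (conj c * mFourier (-k) x * (-(Complex.I * θ))).re := by
      have h1 : ∀ i, (sG i k * c * mFourier k x).re * rp (x i - y i) =
          (w k * (2 * Real.pi * ((k i : ℝ) * rp ((x - y) i)))) *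
            (conj c * mFourier (-k) x * (-Complex.I)).re := by
        intro i
        have h2 : (sG i k * c * mFourier k x).re =
            (2 * Real.pi * (k i : ℝ) * w k) * (conj c * mFourier (-k) x * (-Complex.I)).re := by
          have h3 : sG i k * c * mFourier k x =
              ((2 * Real.pi * (k i : ℝ) * w k : ℝ) : ℂ) * (Complex.I * (c * mFourier k x)) := by
            unfold sG
            push_cast
            ring
          have h4 : conj c * mFourier (-k) x * (-Complex.I) =
              conj (Complex.I * (c * mFourier k x)) := by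
            rw [mFourier_neg]
            simp only [map_mul, Complex.conj_I]
            ring
          rw [h3, Complex.re_ofReal_mul, h4, Complex.conj_re]
        rw [h2]
        change _ * rp ((x - y) i) = _
        ring
      simp only [h1]
      rw [← Finset.sum_mul, ← Finset.mul_sum, ← Finset.mul_sum, ← hs, ← hθ]
      have h5 : conj c * mFourier (-k) x * (-(Complex.I * θ)) =
          (θ : ℂ) * (conj c * mFourier (-k) x * (-Complex.I)) := by ring
      rw [h5, Complex.re_ofReal_mul]
      ring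
    have hmain : w k * (conj c * mFourier (-k) x).re - w k * (conj c * mFourier (-k) y).re =
        w k * (conj c * mFourier (-k) x * (-(Complex.I * θ))).re +
        w k * (conj c * mFourier (-k) x *
          (1 + Complex.I * θ - Complex.exp (Complex.I * θ))).re := by
      rw [hy, ← mul_sub, ← Complex.sub_re, ← mul_add, ← Complex.add_re]
      congr 2
      ring
    rw [hmain, hsum]
    have hlast : w k * (conj c * mFourier (-k) x *
        (1 + Complex.I * θ - Complex.exp (Complex.I * θ))).re ≤ 2 * ‖c‖ * dist2 x y := by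
      have h1 : (conj c * mFourier (-k) x *
          (1 + Complex.I * θ - Complex.exp (Complex.I * θ))).re ≤ ‖c‖ * (2 * θ ^ 2) := by
        refine (Complex.re_le_norm _).trans ?_
        rw [norm_mul, norm_mul, RCLike.norm_conj, norm_mF, mul_one]
        exact mul_le_mul_of_nonneg_left (exp_second θ) (norm_nonneg _)
      have h3 : s ^ 2 ≤ dot k k * dist2 x y := by
        refine (Finset.sum_mul_sq_le_sq_mul_sq _ _ _).trans (le_of_eq ?_)
        unfold dot dist2
        congr 1
        · exact Finset.sum_congr rfl fun i _ => sq _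
        · refine Finset.sum_congr rfl fun i _ => ?_
          rw [← sq_abs, abs_rp, Pi.sub_apply]
      have h4 : w k * θ ^ 2 ≤ dist2 x y := by
        rcases eq_or_ne k 0 with rfl | hk0
        · rw [w_zero, zero_mul]; exact dist2_nonneg _ _
        · have h5 := w_mul hk0
          calc w k * θ ^ 2 = w k * (4 * Real.pi ^ 2) * s ^ 2 := by rw [hθ]; ring
            _ ≤ w k * (4 * Real.pi ^ 2) * (dot k k * dist2 x y) := by
                have := w_nonneg k
                gcongr
            _ = (w k * (4 * Real.pi ^ 2 * dot k k)) * dist2 x y := by ring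
            _ = dist2 x y := by rw [h5, one_mul]
      calc w k * (conj c * mFourier (-k) x *
          (1 + Complex.I * θ - Complex.exp (Complex.I * θ))).re ≤ w k * (‖c‖ * (2 * θ ^ 2)) :=
            mul_le_mul_of_nonneg_left h1 (w_nonneg k)
        _ = 2 * ‖c‖ * (w k * θ ^ 2) := by ring
        _ ≤ 2 * ‖c‖ * dist2 x y := by gcongr
    linarith
  unfold pot gr
  rw [← Finset.sum_sub_distrib]
  refine (Finset.sum_le_sum hk).trans (le_of_eq ?_)
  rw [Finset.sum_add_distrib, Finset.sum_comm, ← Finset.sum_mul, ← Finset.mul_sum]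
  congr 1
  refine Finset.sum_congr rfl fun i _ => ?_
  rw [Finset.sum_mul]

/-- convexity of the energy -/
lemma Er_sub_le {ρ η : PT d} {S : Finset (Fin d → ℤ)} (hS : FinSup ρ S) (hη : Fin' η) :
    Er ρ - Er η ≤ ∑ k ∈ S, w k * (conj (coef ρ k) * (coef ρ k - coef η k)).re := by
  have hρs : HasSum (fun k => w k * ‖coef ρ k‖ ^ 2 / 2) (Er ρ) := by
    apply Summable.hasSum
    apply summable_of_ne_finset_zero (s := S)
    intro k hk
    rw [hS k hk]; simp
  have h2 : HasSum (fun k => w k * (conj (coef ρ k) * (coef ρ k - coef η k)).re)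
      (∑ k ∈ S, w k * (conj (coef ρ k) * (coef ρ k - coef η k)).re) := by
    apply hasSum_sum_of_ne_finset_zero
    intro k hk
    rw [hS k hk]; simp
  have h3 := hasSum_le (fun k => ?_) (hρs.sub hη.hasSum) h2
  · exact h3
  · have e : w k * (conj (coef ρ k) * (coef ρ k - coef η k)).re -
        (w k * ‖coef ρ k‖ ^ 2 / 2 - w k * ‖coef η k‖ ^ 2 / 2) =
        w k * ‖coef ρ k - coef η k‖ ^ 2 / 2 := by
      rw [← Complex.normSq_eq_norm_sq, ← Complex.normSq_eq_norm_sq, ← Complex.normSq_eq_norm_sq]
      simp only [Complex.normSq_apply, Complex.sub_re, Complex.sub_im, Complex.mul_re,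
        Complex.conj_re, Complex.conj_im]
      ring
    have : 0 ≤ w k * ‖coef ρ k - coef η k‖ ^ 2 / 2 := by
      have := w_nonneg k
      positivity
    linarith

lemma sum_eq_int {ρ : PT d} {S : Finset (Fin d → ℤ)} (π : P2 d) :
    ∑ k ∈ S, w k * (conj (coef ρ k) * (coef (m1 π) k - coef (m2 π) k)).re =
      ∫ p, (pot ρ S p.1 - pot ρ S p.2) ∂(π : Measure (T d × T d)) := by
  have hc : ∀ k : Fin d → ℤ, Continuous fun p : T d × T d => mFourier (-k) p.1 - mFourier (-k) p.2 :=
    fun k => ((mFourier (-k)).continuous.comp continuous_fst).sub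
      ((mFourier (-k)).continuous.comp continuous_snd)
  have e : ∀ p : T d × T d, pot ρ S p.1 - pot ρ S p.2 =
      ∑ k ∈ S, w k * (conj (coef ρ k) * (mFourier (-k) p.1 - mFourier (-k) p.2)).re := by
    intro p
    unfold pot
    rw [← Finset.sum_sub_distrib]
    refine Finset.sum_congr rfl fun k _ => ?_
    rw [mul_sub (conj (coef ρ k)), Complex.sub_re, mul_sub]
  simp only [e]
  rw [integral_finsetSum]
  · refine Finset.sum_congr rfl fun k _ => ?_
    rw [integral_const_mul]
    congr 1
    have h1 : Integrable (fun p : T d × T d => conj (coef ρ k) *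
        (mFourier (-k) p.1 - mFourier (-k) p.2)) (π : Measure (T d × T d)) :=
      int_cont π (continuous_const.mul (hc k))
    have h2 := integral_re h1
    simp only [RCLike.re_eq_complex_re] at h2
    rw [h2, integral_const_mul, integral_sub, ← coef_m1, ← coef_m2]
    · exact int_cont π ((mFourier (-k)).continuous.comp continuous_fst)
    · exact int_cont π ((mFourier (-k)).continuous.comp continuous_snd)
  · intro k _
    apply int_cont π
    have := hc k
    fun_prop

lemma cs_int {α : Type*} [MeasurableSpace α] {ν : Measure α} {a b : α → ℝ}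
    (ha : Integrable (fun x => a x ^ 2) ν) (hb : Integrable (fun x => b x ^ 2) ν)
    (hab : Integrable (fun x => a x * b x) ν) :
    (∫ x, a x * b x ∂ν) ^ 2 ≤ (∫ x, a x ^ 2 ∂ν) * ∫ x, b x ^ 2 ∂ν := by
  have h : ∀ t : ℝ, 0 ≤ (∫ x, b x ^ 2 ∂ν) * (t * t) + (-2 * ∫ x, a x * b x ∂ν) * t +
      ∫ x, a x ^ 2 ∂ν := by
    intro t
    have h1 : 0 ≤ ∫ x, (t ^ 2 * b x ^ 2 + (-2 * t) * (a x * b x) + a x ^ 2) ∂ν := by
      apply integral_nonneg
      intro x
      change 0 ≤ t ^ 2 * b x ^ 2 + (-2 * t) * (a x * b x) + a x ^ 2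
      nlinarith [sq_nonneg (a x - t * b x)]
    have i1 : Integrable (fun x => t ^ 2 * b x ^ 2 + (-2 * t) * (a x * b x)) ν :=
      (hb.const_mul _).add (hab.const_mul _)
    rw [integral_add i1 ha, integral_add (hb.const_mul _) (hab.const_mul _), integral_const_mul,
      integral_const_mul] at h1
    linarith
  have h2 := discrim_le_zero h
  unfold discrim at h2
  nlinarith

/-- squared dissipation -/
def Dis (ρ : PT d) (S : Finset (Fin d → ℤ)) : ℝ :=
  ∫ x, ∑ i, gr ρ S i x ^ 2 ∂(ρ : Measure (T d))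

lemma Dis_nonneg (ρ : PT d) (S : Finset (Fin d → ℤ)) : 0 ≤ Dis ρ S :=
  integral_nonneg fun _ => Finset.sum_nonneg fun _ _ => sq_nonneg _

/-- the energy decreases at most linearly -/
lemma Er_sub_le_cost {ρ η : PT d} {S : Finset (Fin d → ℤ)} (hS : FinSup ρ S) (hη : Fin' η)
    {π : P2 d} (h1 : m1 π = ρ) (h2 : m2 π = η) :
    Er ρ - Er η ≤ Real.sqrt (Dis ρ S) * Real.sqrt (Cst π) +
      2 * (∑ k ∈ S, ‖coef ρ k‖) * Cst π := by
  have e1 := Er_sub_le hS hη
  have e2 := sum_eq_int (ρ := ρ) (S := S) π
  rw [h1, h2] at e2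
  rw [e2] at e1
  refine e1.trans ?_
  set L := ∑ k ∈ S, ‖coef ρ k‖ with hL
  have hcg : Continuous fun x : T d => ∑ i, gr ρ S i x ^ 2 := by
    have := fun i => continuous_gr ρ S i
    fun_prop
  set a : T d × T d → ℝ := fun p => Real.sqrt (∑ i, gr ρ S i p.1 ^ 2) with ha
  set b : T d × T d → ℝ := fun p => Real.sqrt (dist2 p.1 p.2) with hb
  have hac : Continuous a := Real.continuous_sqrt.comp (hcg.comp continuous_fst)
  have hbc : Continuous b := Real.continuous_sqrt.comp continuous_dist2
  have hpt : ∀ p : T d × T d, pot ρ S p.1 - pot ρ S p.2 ≤ a p * b p + 2 * L * dist2 p.1 p.2 := by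
    intro p
    refine (pot_sub_le ρ S p.1 p.2).trans ?_
    apply add_le_add _ le_rfl
    refine (Real.sum_mul_le_sqrt_mul_sqrt _ _ _).trans (le_of_eq ?_)
    rw [ha, hb]
    congr 2
    unfold dist2
    exact Finset.sum_congr rfl fun i _ => by rw [← sq_abs, abs_rp]
  have hpc : Continuous fun p : T d × T d => pot ρ S p.1 - pot ρ S p.2 :=
    ((continuous_pot ρ S).comp continuous_fst).sub ((continuous_pot ρ S).comp continuous_snd)
  have i1 := int_cont π hpc
  have i2 : Integrable (fun p => a p * b p) (π : Measure (T d × T d)) := int_cont π (hac.mul hbc)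
  have i3 : Integrable (fun p : T d × T d => 2 * L * dist2 p.1 p.2) (π : Measure (T d × T d)) :=
    (int_cont π continuous_dist2).const_mul _
  have h3 : ∫ p, (pot ρ S p.1 - pot ρ S p.2) ∂(π : Measure (T d × T d)) ≤
      ∫ p, a p * b p ∂(π : Measure (T d × T d)) + 2 * L * Cst π := by
    refine (integral_mono i1 (i2.add i3) hpt).trans (le_of_eq ?_)
    simp only [Pi.add_apply]
    rw [integral_add i2 i3, integral_const_mul]
    rfl
  refine h3.trans (add_le_add ?_ le_rfl)
  have hcs := cs_int (int_cont π (hac.pow 2)) (int_cont π (hbc.pow 2)) i2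
  have hA : ∫ p, a p ^ 2 ∂(π : Measure (T d × T d)) = Dis ρ S := by
    have e3 : ∀ p, a p ^ 2 = ∑ i, gr ρ S i p.1 ^ 2 := fun p =>
      Real.sq_sqrt (Finset.sum_nonneg fun _ _ => sq_nonneg _)
    simp only [e3]
    unfold Dis
    have hmap : (ρ : Measure (T d)) = (π : Measure (T d × T d)).map Prod.fst := by
      rw [← h1]; rfl
    rw [hmap, integral_map measurable_fst.aemeasurable hcg.aestronglyMeasurable]
  have hB : ∫ p, b p ^ 2 ∂(π : Measure (T d × T d)) = Cst π := by
    have e3 : ∀ p, b p ^ 2 = dist2 p.1 p.2 := fun p => Real.sq_sqrt (dist2_nonneg _ _)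
    simp only [e3]
    rfl
  rw [hA, hB] at hcs
  rw [← Real.sqrt_mul (Dis_nonneg ρ S)]
  exact Real.le_sqrt_of_sq_le hcs

/-- existence of optimal couplings -/
lemma exists_opt {ρ η : PT d} (h : 0 < W2 ρ η) : ∃ π : P2 d, m1 π = ρ ∧ m2 π = η ∧
    Real.sqrt (Cst π) = W2 ρ η := by
  have hne : {π : P2 d | m1 π = ρ ∧ m2 π = η}.Nonempty := by
    by_contra hc
    rw [Set.not_nonempty_iff_eq_empty] at hc
    have : W2 ρ η = 0 := by
      unfold W2
      have e : {c : ℝ | ∃ π : P2 d, IsCoupling π ρ η ∧
          c = ∫ p, dist2 p.1 p.2 ∂(π : Measure (T d × T d))} = ∅ := by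
        ext c
        simp only [Set.mem_ofPred_eq, Set.mem_empty_iff_false, iff_false]
        rintro ⟨π, hπ, -⟩
        have : π ∈ {π : P2 d | m1 π = ρ ∧ m2 π = η} := isCoupling_iff.mp hπ
        rw [hc] at this
        exact this
      refine Eq.trans (congrArg (fun s => Real.sqrt (sInf s)) e) ?_
      simp
    linarith
  have hcl : IsClosed {π : P2 d | m1 π = ρ ∧ m2 π = η} :=
    (isClosed_eq continuous_m1 continuous_const).inter (isClosed_eq continuous_m2 continuous_const)
  obtain ⟨π, hπ, hmin⟩ := hcl.isCompact.exists_isMinOn hne continuous_Cst.continuousOn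
  refine ⟨π, hπ.1, hπ.2, ?_⟩
  unfold W2
  congr 1
  symm
  apply IsLeast.csInf_eq
  constructor
  · exact ⟨π, isCoupling_iff.mpr hπ, rfl⟩
  · rintro c ⟨π', hπ', rfl⟩
    exact hmin (isCoupling_iff.mp hπ')

theorem slope_le {ρ : PT d} {S : Finset (Fin d → ℤ)} (hS : FinSup ρ S) :
    slopeE ρ ≤ ENNReal.ofReal (Real.sqrt (Dis ρ S)) := by
  set L := ∑ k ∈ S, ‖coef ρ k‖ with hL
  have hL0 : 0 ≤ L := Finset.sum_nonneg fun _ _ => norm_nonneg _
  have hρ : Fin' ρ := by
    apply summable_of_ne_finset_zero (s := S)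
    intro k hk
    rw [hS k hk]; simp
  have key : ∀ r : ℝ, 0 < r → slopeE ρ ≤ ENNReal.ofReal (Real.sqrt (Dis ρ S) + 2 * L * r) := by
    intro r hr
    unfold slopeE
    refine (iInf₂_le r hr).trans ?_
    refine iSup₂_le fun η hη => ?_
    obtain ⟨hW, hWr⟩ := hη
    obtain ⟨π, h1, h2, h3⟩ := exists_opt hW
    rw [energy_of_fin hρ]
    by_cases hf : Fin' η
    · rw [energy_of_fin hf, ← ENNReal.ofReal_sub _ (Er_nonneg _), ← ENNReal.ofReal_div_of_pos hW]
      apply ENNReal.ofReal_le_ofReal
      rw [div_le_iff₀ hW]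
      have h4 := Er_sub_le_cost hS hf h1 h2
      rw [h3, ← hL] at h4
      have h5 : Cst π = W2 ρ η ^ 2 := by
        rw [← h3, Real.sq_sqrt (Cst_nonneg _)]
      rw [h5] at h4
      refine h4.trans ?_
      have : 2 * L * W2 ρ η ^ 2 ≤ 2 * L * r * W2 ρ η := by
        have h6 : W2 ρ η ^ 2 ≤ r * W2 ρ η := by
          rw [sq]; exact mul_le_mul_of_nonneg_right hWr.le hW.le
        calc 2 * L * W2 ρ η ^ 2 ≤ 2 * L * (r * W2 ρ η) := by gcongr
          _ = _ := by ring
      linarith
    · have : energy η = ∞ := by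
        by_contra hc
        exact hf (fin_of_energy (lt_top_iff_ne_top.mpr hc))
      rw [this]
      simp
  have hlim : Tendsto (fun r : ℝ => ENNReal.ofReal (Real.sqrt (Dis ρ S) + 2 * L * r)) (𝓝[>] 0)
      (𝓝 (ENNReal.ofReal (Real.sqrt (Dis ρ S) + 2 * L * 0))) := by
    apply Tendsto.mono_left _ nhdsWithin_le_nhds
    exact (ENNReal.continuous_ofReal.comp (by fun_prop : Continuous fun r : ℝ =>
      Real.sqrt (Dis ρ S) + 2 * L * r)).tendsto _
  rw [mul_zero, add_zero] at hlim
  refine ge_of_tendsto hlim ?_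
  filter_upwards [self_mem_nhdsWithin] with r hr
  exact key r hr

end Pool.Agent.helper28.Coul
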