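import Pool.Agent.helper28.Coul.MC1

/-!
# Upper bound of the optimal constant by bounded densities
-/

set_option autoImplicit false

open MeasureTheory UnitAddTorus Filter Topology
open scoped ENNReal ComplexConjugate InnerProductSpace

noncomputable section

namespace Pool.Agent.helper28.Coul

variable {d : ℕ}

/-- Fejer means of a bounded density -/
def fj (r : HR d) (N : ℕ) : HR d := ofCont (continuous_csR (N + 1) (int_hr r))

lemma fj_ae (r : HR d) (N : ℕ) : fj r N =ᵐ[mu d] csR (N + 1) r := ofCont_ae _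

lemma fr_fj (r : HR d) (N : ℕ) (k : Fin d → ℤ) : fr (fj r N) k = kap (N + 1) k * fr r k := by
  unfold fj
  rw [fr_ofCont, fc_csR _ (int_hr r), fr_eq]

lemma kap_zero (N : ℕ) : kap (d := d) (N + 1) 0 = 1 := by
  unfold kap
  have : (Qc d (N + 1)).filter (fun b => b + 0 ∈ Qc d (N + 1)) = Qc d (N + 1) := by
    apply Finset.filter_true_of_mem
    intro b hb
    rwa [add_zero]
  rw [this, card_Qc]
  have h : ((N + 1 : ℕ) : ℝ) ^ d ≠ 0 := by positivity
  push_cast at h ⊢
  exact div_self h

lemma kap_eq_zero {N : ℕ} {k : Fin d → ℤ}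
    (hk : k ∉ Fintype.piFinset fun _ : Fin d => Finset.Ioo (-(N : ℤ)) N) : kap N k = 0 := by
  unfold kap
  have : (Qc d N).filter (fun b => b + k ∈ Qc d N) = ∅ := by
    rw [Finset.filter_eq_empty_iff]
    intro b hb hbk
    apply hk
    rw [Fintype.mem_piFinset]
    intro i
    simp only [Qc, Fintype.mem_piFinset, Finset.mem_Ico, Pi.add_apply] at hb hbk
    have h1 := hb i
    have h2 := hbk i
    rw [Finset.mem_Ioo]
    constructor <;> omega
  rw [this]
  simp

lemma tendsto_fj (r : HR d) : Tendsto (fj r) atTop (𝓝 r) := by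
  rw [tendsto_iff_norm_sub_tendsto_zero]
  have h1 : ∀ N, ‖fj r N - r‖ ^ 2 = ∑' k, ‖((kap (N + 1) k : ℂ) - 1) * fr r k‖ ^ 2 := by
    intro N
    rw [← (hasSum_norm_hr (fj r N - r)).tsum_eq]
    refine tsum_congr fun k => ?_
    rw [fr_sub, fr_fj]
    congr 2
    ring
  have h2 : Tendsto (fun N : ℕ => ∑' k, ‖((kap (N + 1) k : ℂ) - 1) * fr r k‖ ^ 2) atTop
      (𝓝 (∑' _k : Fin d → ℤ, (0 : ℝ))) := by
    apply tendsto_tsum_of_dominated_convergence (hasSum_norm_hr r).summable
    · intro k
      have h3 : Tendsto (fun N : ℕ => ((kap (N + 1) k : ℂ) - 1) * fr r k) atTop (𝓝 (((1 : ℝ) - 1) * fr r k)) := by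
        have h4 := ((tendsto_kap k).comp (tendsto_add_atTop_nat 1))
        have h5 := (Complex.continuous_ofReal.tendsto _).comp h4
        exact (h5.sub_const 1).mul_const _
      have h6 := (h3.norm).pow 2
      simpa using h6
    · refine Eventually.of_forall fun N k => ?_
      have h3 := kap_nonneg (N + 1) k
      have h4 := kap_le (N + 1) k
      have h5 : ‖((kap (N + 1) k : ℂ) - 1)‖ ≤ 1 := by
        rw [← Complex.ofReal_one, ← Complex.ofReal_sub, Complex.norm_real, Real.norm_eq_abs, abs_le]
        constructor <;> linarith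
      rw [Real.norm_of_nonneg (by positivity), norm_mul]
      have h6 : ‖((kap (N + 1) k : ℂ) - 1)‖ * ‖fr r k‖ ≤ ‖fr r k‖ :=
        mul_le_of_le_one_left (norm_nonneg _) h5
      gcongr
  rw [tsum_zero] at h2
  simp only [← h1] at h2
  have h7 := h2.sqrt
  simpa [Real.sqrt_sq (norm_nonneg _)] using h7

lemma wnull_of_tendsto {f : ℕ → HR d} {g : HR d} (h : Tendsto f atTop (𝓝 g)) :
    WNull (fun n => f n - g) := by
  have h0 : Tendsto (fun n => f n - g) atTop (𝓝 0) := by
    simpa using h.sub_const g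
  constructor
  · obtain ⟨C, hC⟩ := h0.norm.bddAbove_range
    exact ⟨C, fun n => hC ⟨n, rfl⟩⟩
  · intro y
    have := (tendsto_const_nhds (x := y)).inner (𝕜 := ℝ) h0
    simpa using this

lemma KM_fj {M : ℝ} {r : HR d} (hr : KM M r) (N : ℕ) : KM M (fj r N) := by
  have hi := int_hr r
  have hcK : ∀ x : T d, Continuous fun y => KN d (N + 1) (x - y) := fun x =>
    (continuous_KN (N + 1)).comp (continuous_const.sub continuous_id)
  have hint : ∀ x : T d, Integrable (fun y => r y * KN d (N + 1) (x - y)) (mu d) := by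
    intro x
    obtain ⟨C, hC⟩ := isCompact_univ.exists_bound_of_continuousOn (hcK x).continuousOn
    exact hi.mul_bdd (c := C) (hcK x).aestronglyMeasurable
      (Eventually.of_forall fun y => hC y (Set.mem_univ y))
  constructor
  · filter_upwards [fj_ae r N] with x hx
    rw [hx]
    unfold csR
    constructor
    · apply integral_nonneg_of_ae
      filter_upwards [hr.1] with y hy
      exact mul_nonneg hy.1 (KN_nonneg _ _)
    · calc ∫ y, r y * KN d (N + 1) (x - y) ∂(mu d) ≤ ∫ y, M * KN d (N + 1) (x - y) ∂(mu d) := by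
            apply integral_mono_ae (hint x)
            · exact ((hcK x).integrable_of_hasCompactSupport
                (HasCompactSupport.of_compactSpace _)).const_mul M
            · filter_upwards [hr.1] with y hy
              exact mul_le_mul_of_nonneg_right hy.2 (KN_nonneg _ _)
        _ = M := by
            rw [integral_const_mul, integral_KN_sub' (Nat.succ_pos N), mul_one]
  · have h1 := fr_fj r N 0
    rw [fr_zero, fr_zero, kap_zero, hr.2] at h1
    have h2 : ((∫ x, fj r N x ∂(mu d) : ℝ) : ℂ) = ((1 : ℝ) : ℂ) := by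
      rw [h1]; push_cast; ring
    exact_mod_cast h2

/-- the probability measure with a given density -/
lemma exists_meas {M : ℝ} {f : HR d} (hf : KM M f) : ∃ ρ : PT d, ∀ k, fr f k = coef ρ k := by
  have hm : Measurable f := (Lp.stronglyMeasurable f).measurable
  have hnn : ∀ᵐ x ∂(mu d), 0 ≤ f x := by
    filter_upwards [hf.1] with x hx using hx.1
  have hp : IsProbabilityMeasure ((mu d).withDensity fun x => ENNReal.ofReal (f x)) := by
    constructor
    rw [withDensity_apply _ MeasurableSet.univ, Measure.restrict_univ,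
      ← ofReal_integral_eq_lintegral_ofReal (int_hr f) hnn, hf.2, ENNReal.ofReal_one]
  refine ⟨⟨(mu d).withDensity fun x => ENNReal.ofReal (f x), hp⟩, fun k => ?_⟩
  unfold coef
  rw [ProbabilityMeasure.coe_mk, integral_withDensity_eq_integral_toReal_smul₀
    hm.ennreal_ofReal.aemeasurable (Eventually.of_forall fun x => ENNReal.ofReal_lt_top), fr_eq]
  unfold fc
  apply integral_congr_ae
  filter_upwards [hnn] with x hx
  rw [ENNReal.toReal_ofReal hx, mFourier_neg, Complex.real_smul, mul_comm]

/-- complex trigonometric polynomials -/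
def tp (S : Finset (Fin d → ℤ)) (c : (Fin d → ℤ) → ℂ) (x : T d) : ℂ := ∑ k ∈ S, c k * mFourier k x

lemma continuous_tp (S : Finset (Fin d → ℤ)) (c : (Fin d → ℤ) → ℂ) : Continuous (tp S c) := by
  unfold tp
  have h : ∀ k : Fin d → ℤ, Continuous fun x : T d => mFourier k x := fun k => (mFourier k).continuous
  fun_prop

lemma fc_tp (S : Finset (Fin d → ℤ)) (c : (Fin d → ℤ) → ℂ) (k : Fin d → ℤ) :
    fc (tp S c) k = if k ∈ S then c k else 0 := by
  unfold fc tp
  have : ∀ x : T d, conj (mFourier k x) * ∑ l ∈ S, c l * mFourier l x =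
      ∑ l ∈ S, c l * (conj (mFourier k x) * mFourier l x) := by
    intro x
    rw [Finset.mul_sum]
    exact Finset.sum_congr rfl fun l _ => by ring
  simp only [this]
  rw [integral_finsetSum]
  · simp only [integral_const_mul, integral_mF_conj, mul_ite, mul_one, mul_zero]
    rw [Finset.sum_ite_eq']
  · intro l _
    exact (int_mF (integrable_cont (mFourier l).continuous) k).const_mul _

lemma real_eq_tp {f : HR d} {S : Finset (Fin d → ℤ)} (h : ∀ k, k ∉ S → fr f k = 0) :
    ∀ᵐ x ∂(mu d), f x = (tp S (fr f) x).re := by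
  have hm : MemLp (tp S (fr f)) 2 (mu d) := by
    obtain ⟨C, hC⟩ := isCompact_univ.exists_bound_of_continuousOn
      (continuous_tp S (fr f)).continuousOn
    exact MemLp.of_bound (continuous_tp S (fr f)).aestronglyMeasurable C
      (Eventually.of_forall fun x => hC x (Set.mem_univ x))
  have e : toC d f = hm.toLp _ := by
    apply hc_ext
    intro k
    rw [fc_congr hm.coeFn_toLp, fc_tp]
    change fr f k = _
    split_ifs with hk
    · rfl
    · exact h k hk
  filter_upwards [toC_ae f, hm.coeFn_toLp] with x h1 h2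
  rw [e] at h1
  rw [← h2, h1, Complex.ofReal_re]

theorem cOpt_le_of_KM (κ : ℝ) {M : ℝ} {r : HR d} (hr : KM M r) (hE : 0 < En r) :
    cOpt d ≤ ENNReal.ofReal (2 * (1 - κ) - 2 * J κ r / En r) := by
  have htend := tendsto_fj r
  have hJ : Tendsto (fun N => J κ (fj r N)) atTop (𝓝 (J κ r)) :=
    J_tendsto (wnull_of_tendsto htend) (fun N => (KM_fj hr N).bd) hr.bd
  have hEn : Tendsto (fun N => En (fj r N)) atTop (𝓝 (En r)) := by
    unfold En
    exact tendsto_finsetSum _ fun i _ => (((G i).continuous.tendsto _).comp htend).norm.pow 2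
  have hlim : Tendsto (fun N => ENNReal.ofReal (2 * (1 - κ) - 2 * J κ (fj r N) / En (fj r N)))
      atTop (𝓝 (ENNReal.ofReal (2 * (1 - κ) - 2 * J κ r / En r))) :=
    (ENNReal.continuous_ofReal.tendsto _).comp
      (((hJ.const_mul 2).div hEn hE.ne').const_sub _)
  refine ge_of_tendsto hlim ?_
  filter_upwards [(tendsto_order.mp hEn).1 0 hE] with N hN
  set f := fj r N with hf
  have hK := KM_fj hr N
  rw [← hf] at hK
  obtain ⟨ρ, hρ⟩ := exists_meas hK
  have hd := isDens_of_coef hρ
  set S : Finset (Fin d → ℤ) := Fintype.piFinset fun _ : Fin d =>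
    Finset.Ioo (-((N + 1 : ℕ) : ℤ)) ((N + 1 : ℕ) : ℤ) with hS
  have hfr : ∀ k, k ∉ S → fr f k = 0 := by
    intro k hk
    rw [hf, fr_fj, kap_eq_zero hk]
    simp
  have hfin : FinSup ρ S := fun k hk => by rw [← hρ, hfr k hk]
  have hFin : Fin' ρ := by
    apply summable_of_ne_finset_zero (s := S)
    intro k hk
    rw [hfin k hk]; simp
  have hEE := En_eq_Er hd
  have hEr : 0 < Er ρ := by linarith
  have hD : Dis ρ S = ∫ x, gs f x * f x ∂(mu d) := by
    unfold Dis
    rw [hd.int]
    apply integral_congr_ae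
    have hG : ∀ i, ∀ᵐ x ∂(mu d), G i f x = gr ρ S i x := by
      intro i
      have h1 := real_eq_tp (f := G i f) (S := S) (fun k hk => by
        rw [fr_G, hfr k hk, mul_zero])
      filter_upwards [h1] with x hx
      rw [hx]
      unfold tp gr
      rw [Complex.re_sum]
      refine Finset.sum_congr rfl fun k _ => ?_
      rw [fr_G, hρ]
    filter_upwards [ae_all_iff.mpr hG] with x hx
    unfold gs
    simp only [hx, smul_eq_mul]
    ring
  have hJe : J κ f = (1 - κ) * En f - ∫ x, gs f x * f x ∂(mu d) := by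
    have hgr : Integrable (fun x => gs f x * f x) (mu d) :=
      int_bd (integrable_gs f) (Lp.aestronglyMeasurable f) hK.bd
    unfold J
    rw [← integral_gs, ← integral_const_mul, ← integral_sub ((integrable_gs f).const_mul _) hgr]
    congr 1
    ext x
    ring
  have hDe : Dis ρ S / Er ρ = 2 * (1 - κ) - 2 * J κ f / En f := by
    rw [hD, hJe, hEE]
    field_simp
    ring
  rw [← hDe]
  have hen := energy_of_fin hFin
  have h1 : cOpt d ≤ slopeE ρ ^ 2 / energy ρ := by
    unfold cOpt
    refine iInf₂_le ρ ⟨?_, ?_⟩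
    · rw [hen]; exact ENNReal.ofReal_pos.mpr hEr
    · rw [hen]; exact ENNReal.ofReal_lt_top
  refine h1.trans ?_
  rw [hen, ENNReal.ofReal_div_of_pos hEr]
  gcongr
  calc slopeE ρ ^ 2 ≤ ENNReal.ofReal (Real.sqrt (Dis ρ S)) ^ 2 := by
        gcongr; exact slope_le hfin
    _ = ENNReal.ofReal (Dis ρ S) := by
        rw [← ENNReal.ofReal_pow (Real.sqrt_nonneg _), Real.sq_sqrt (Dis_nonneg _ _)]

end Pool.Agent.helper28.Coul
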