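import Pool.Agent.helper28.Coul.MC2

/-!
# Integration by parts on the torus; localised radial functions
-/

set_option autoImplicit false

open MeasureTheory UnitAddTorus Filter Topology
open scoped ENNReal ComplexConjugate InnerProductSpace

noncomputable section

namespace Pool.Agent.helper28.Coul

variable {d : ℕ}

lemma rp_coe {s : ℝ} (h : -1 / 2 < s ∧ s ≤ 1 / 2) : rp (s : UnitAddCircle) = s := by
  unfold rp
  apply AddCircle.equivIoc_coe_of_mem
  rw [Set.mem_Ioc]
  exact ⟨h.1, by linarith [h.2]⟩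

lemma stp_add (i : Fin d) (s t : ℝ) : (stp i (s + t) : T d) = stp i s + stp i t := by
  unfold stp
  rw [← Pi.single_add, AddCircle.coe_add]

lemma stp_zero (i : Fin d) : (stp i 0 : T d) = 0 := by
  unfold stp
  simp

lemma stp_one (i : Fin d) : (stp i 1 : T d) = 0 := by
  unfold stp
  have : ((1 : ℝ) : UnitAddCircle) = 0 := AddCircle.coe_period 1
  rw [this]
  simp

lemma continuous_stp (i : Fin d) : Continuous fun t : ℝ => (stp i t : T d) := by
  unfold stp
  exact (continuous_single i).comp (AddCircle.continuous_mk' 1)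

lemma stp_same (x : T d) (i : Fin d) (t : ℝ) : (x + stp i t) i = x i + (t : UnitAddCircle) := by
  unfold stp
  rw [Pi.add_apply, Pi.single_eq_same]

lemma stp_ne (x : T d) {i j : Fin d} (h : j ≠ i) (t : ℝ) : (x + stp i t) j = x j := by
  unfold stp
  rw [Pi.add_apply, Pi.single_eq_of_ne h, add_zero]

/-- the integral of a derivative vanishes -/
lemma ibp0 {F F' : T d → ℂ} {C : ℝ} (hF' : Measurable F')
    (hC : ∀ x, ‖F' x‖ ≤ C) (i : Fin d)
    (h : ∀ x, HasDerivAt (fun t : ℝ => F (x + stp i t)) (F' x) 0) :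
    ∫ x, F' x ∂(mu d) = 0 := by
  have hmeas : Measurable fun p : T d × ℝ => F' (p.1 + stp i p.2) := by
    apply hF'.comp
    have : Continuous fun p : T d × ℝ => p.1 + (stp i p.2 : T d) :=
      continuous_fst.add ((continuous_stp i).comp continuous_snd)
    exact this.measurable
  have h1 : ∀ (x : T d) (t : ℝ), HasDerivAt (fun s : ℝ => F (x + stp i s)) (F' (x + stp i t)) t := by
    intro x t
    have h2 := h (x + stp i t)
    have h3 : HasDerivAt (fun s : ℝ => s - t) 1 t := (hasDerivAt_id t).sub_const t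
    have h4 : HasDerivAt (fun s : ℝ => F (x + stp i t + stp i s)) (F' (x + stp i t)) (t - t) := by
      rw [sub_self]; exact h2
    have h5 := HasDerivAt.scomp (h := fun s : ℝ => s - t) t h4 h3
    rw [one_smul] at h5
    refine h5.congr_of_eventuallyEq (Eventually.of_forall fun s => ?_)
    change F (x + stp i s) = F (x + stp i t + stp i (s - t))
    congr 1
    rw [add_assoc, ← stp_add]
    congr 2
    ring
  have hii : ∀ x : T d, IntervalIntegrable (fun t : ℝ => F' (x + stp i t)) volume 0 1 := by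
    intro x
    rw [intervalIntegrable_iff_integrableOn_Ioc_of_le zero_le_one]
    apply Integrable.of_bound (C := C)
    · exact (hmeas.comp (measurable_const.prodMk measurable_id)).aestronglyMeasurable
    · exact Eventually.of_forall fun t => hC _
  have h2 : ∀ x : T d, ∫ t in (0 : ℝ)..1, F' (x + stp i t) = 0 := by
    intro x
    rw [intervalIntegral.integral_eq_sub_of_hasDerivAt (fun t _ => h1 x t) (hii x), stp_one,
      stp_zero, sub_self]
  have h3 : ∫ x, (∫ t in (0 : ℝ)..1, F' (x + stp i t)) ∂(mu d) = 0 := by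
    simp only [h2, integral_zero]
  have h4 : ∫ x, (∫ t in (0 : ℝ)..1, F' (x + stp i t)) ∂(mu d) =
      ∫ t in (0 : ℝ)..1, (∫ x, F' (x + stp i t) ∂(mu d)) := by
    simp only [intervalIntegral.integral_of_le zero_le_one]
    apply integral_integral_swap
    apply Integrable.of_bound (C := C)
    · exact hmeas.aestronglyMeasurable
    · exact Eventually.of_forall fun p => hC _
  rw [h4] at h3
  have h5 : ∀ t : ℝ, ∫ x, F' (x + stp i t) ∂(mu d) = ∫ x, F' x ∂(mu d) := fun t =>
    integral_add_right_eq_self F' (stp i t)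
  simp only [h5] at h3
  simpa using h3

lemma ibp0R {F F' : T d → ℝ} {C : ℝ} (hF' : Measurable F')
    (hC : ∀ x, |F' x| ≤ C) (i : Fin d)
    (h : ∀ x, HasDerivAt (fun t : ℝ => F (x + stp i t)) (F' x) 0) :
    ∫ x, F' x ∂(mu d) = 0 := by
  have h1 := ibp0 (F := fun x => (F x : ℂ)) (F' := fun x => (F' x : ℂ)) (C := C)
    (Complex.measurable_ofReal.comp hF')
    (fun x => by rw [Complex.norm_real]; exact hC x) i (fun x => (h x).ofReal_comp)
  have h2 : ∫ x, ((F' x : ℝ) : ℂ) ∂(mu d) = ((∫ x, F' x ∂(mu d) : ℝ) : ℂ) := integral_ofReal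
  rw [h2] at h1
  exact_mod_cast h1

lemma hasDerivAt_mF (k : Fin d → ℤ) (i : Fin d) (x : T d) :
    HasDerivAt (fun t : ℝ => mFourier k (x + stp i t))
      (mFourier k x * (Complex.I * ((2 * Real.pi * k i : ℝ) : ℂ))) 0 := by
  have h1 : HasDerivAt (fun ε : ℝ => Complex.exp (Complex.I * ((2 * Real.pi * k i * ε : ℝ) : ℂ)))
      (Complex.I * ((2 * Real.pi * k i : ℝ) : ℂ)) 0 := by
    have h2 : HasDerivAt (fun ε : ℝ => Complex.I * ((2 * Real.pi * k i * ε : ℝ) : ℂ))
        (Complex.I * ((2 * Real.pi * k i : ℝ) : ℂ)) 0 := by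
      have h3 : HasDerivAt (fun ε : ℝ => (2 * Real.pi * k i * ε : ℝ)) (2 * Real.pi * k i) 0 := by
        simpa using (hasDerivAt_id (0 : ℝ)).const_mul (2 * Real.pi * k i : ℝ)
      exact h3.ofReal_comp.const_mul Complex.I
    have h4 := h2.cexp
    simpa using h4
  refine (h1.const_mul (mFourier k x)).congr_of_eventuallyEq (Eventually.of_forall fun t => ?_)
  change mFourier k (x + stp i t) = _
  rw [mF_add_arg, mF_stp]

/-- Fourier coefficients of derivatives -/
lemma fc_deriv {F F' : T d → ℝ} {C : ℝ} (hF : Measurable F) (hF' : Measurable F')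
    (hC : ∀ x, |F x| ≤ C) (hC' : ∀ x, |F' x| ≤ C) (i : Fin d)
    (h : ∀ x, HasDerivAt (fun t : ℝ => F (x + stp i t)) (F' x) 0) (k : Fin d → ℤ) :
    fc (fun x => (F' x : ℂ)) k = 2 * Real.pi * Complex.I * (k i : ℂ) * fc (fun x => (F x : ℂ)) k := by
  have hmk : Measurable fun x : T d => mFourier (-k) x := (mFourier (-k)).continuous.measurable
  have hFm : Measurable fun x => (F x : ℂ) := Complex.measurable_ofReal.comp hF
  have hFm' : Measurable fun x => (F' x : ℂ) := Complex.measurable_ofReal.comp hF'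
  have h1 : ∀ x, HasDerivAt (fun t : ℝ => mFourier (-k) (x + stp i t) * (F (x + stp i t) : ℂ))
      (mFourier (-k) x * (F' x : ℂ) + (-(2 * Real.pi * Complex.I * (k i : ℂ))) *
        (mFourier (-k) x * (F x : ℂ))) 0 := by
    intro x
    have h2 := (hasDerivAt_mF (-k) i x).mul (h x).ofReal_comp
    simp only [stp_zero, add_zero] at h2
    have e : mFourier (-k) x * (F' x : ℂ) + (-(2 * Real.pi * Complex.I * (k i : ℂ))) *
        (mFourier (-k) x * (F x : ℂ)) = mFourier (-k) x *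
        (Complex.I * ((2 * Real.pi * (-k) i : ℝ) : ℂ)) * (F x : ℂ) +
        mFourier (-k) x * (F' x : ℂ) := by
      simp only [Pi.neg_apply, Int.cast_neg]
      push_cast
      ring
    rw [e]
    exact h2
  have hb1 : ∀ x, ‖mFourier (-k) x * (F' x : ℂ)‖ ≤ C := fun x => by
    rw [norm_mul, norm_mF, one_mul, Complex.norm_real]; exact hC' x
  have hb2 : ∀ x, ‖mFourier (-k) x * (F x : ℂ)‖ ≤ C := fun x => by
    rw [norm_mul, norm_mF, one_mul, Complex.norm_real]; exact hC x
  have h3 := ibp0 (F := fun x => mFourier (-k) x * (F x : ℂ))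
    (F' := fun x => mFourier (-k) x * (F' x : ℂ) + (-(2 * Real.pi * Complex.I * (k i : ℂ))) *
        (mFourier (-k) x * (F x : ℂ)))
    (C := C + ‖-(2 * Real.pi * Complex.I * (k i : ℂ))‖ * C)
    ((hmk.mul hFm').add ((hmk.mul hFm).const_mul _))
    (fun x => (norm_add_le _ _).trans (add_le_add (hb1 x) (by
      rw [norm_mul]; exact mul_le_mul_of_nonneg_left (hb2 x) (norm_nonneg _)))) i h1
  have i1 : Integrable (fun x => mFourier (-k) x * (F' x : ℂ)) (mu d) :=
    Integrable.of_bound (hmk.mul hFm').aestronglyMeasurable C (Eventually.of_forall hb1)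
  have i2 : Integrable (fun x => mFourier (-k) x * (F x : ℂ)) (mu d) :=
    Integrable.of_bound (hmk.mul hFm).aestronglyMeasurable C (Eventually.of_forall hb2)
  rw [integral_add i1 (i2.const_mul _), integral_const_mul] at h3
  unfold fc
  simp only [mFourier_neg] at h3
  linear_combination h3

/-! ### radial functions -/

/-- squared distance to the origin -/
def qq (x : T d) : ℝ := ∑ j, ‖x j‖ ^ 2

lemma continuous_qq : Continuous (qq (d := d)) := by
  unfold qq
  fun_prop

lemma qq_nonneg (x : T d) : 0 ≤ qq x := Finset.sum_nonneg fun _ _ => by positivity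

lemma sum_rp_sq (x : T d) : ∑ i, rp (x i) ^ 2 = qq x := by
  unfold qq
  exact Finset.sum_congr rfl fun i _ => by rw [← abs_rp, sq_abs]

lemma norm_le_half (a : UnitAddCircle) : ‖a‖ ≤ 1 / 2 := by
  rw [← abs_rp]; exact abs_rp_le a

lemma qq_le (x : T d) : qq x ≤ d / 4 := by
  unfold qq
  calc ∑ j, ‖x j‖ ^ 2 ≤ ∑ _j : Fin d, (1 / 4 : ℝ) := by
        refine Finset.sum_le_sum fun j _ => ?_
        have := norm_le_half (x j)
        nlinarith [norm_nonneg (x j)]
    _ = d / 4 := by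
        rw [Finset.sum_const, Finset.card_univ, Fintype.card_fin, nsmul_eq_mul]; ring

lemma qq_stp (x : T d) (i : Fin d) (t : ℝ) :
    qq (x + stp i t) = qq x - ‖x i‖ ^ 2 + ‖x i + (t : UnitAddCircle)‖ ^ 2 := by
  unfold qq
  rw [← Finset.add_sum_erase _ _ (Finset.mem_univ i), ← Finset.add_sum_erase _ (fun j => ‖x j‖ ^ 2)
    (Finset.mem_univ i), stp_same]
  have : ∑ j ∈ Finset.univ.erase i, ‖(x + stp i t) j‖ ^ 2 =
      ∑ j ∈ Finset.univ.erase i, ‖x j‖ ^ 2 :=
    Finset.sum_congr rfl fun j hj => by rw [stp_ne x (Finset.ne_of_mem_erase hj)]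
  rw [this]
  ring

/-- a profile, constant for large arguments -/
structure Prof (Θ Θ' : ℝ → ℝ) (c : ℝ) : Prop where
  hd : ∀ s, HasDerivAt Θ (Θ' s) s
  hc : ∀ s, 3 / 64 ≤ s → Θ s = c

lemma Prof.der {Θ Θ' : ℝ → ℝ} {c : ℝ} (h : Prof Θ Θ' c) {s : ℝ} (hs : 1 / 16 ≤ s) : Θ' s = 0 := by
  have h1 : HasDerivAt Θ 0 s := by
    apply (hasDerivAt_const s c).congr_of_eventuallyEq
    have : Set.Ioi (3 / 64 : ℝ) ∈ 𝓝 s := Ioi_mem_nhds (by linarith)
    filter_upwards [this] with u hu
    exact h.hc u (le_of_lt hu)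
  exact (h.hd s).unique h1

lemma near_half {x : T d} {i : Fin d} (hx : ‖x i‖ = 1 / 2) :
    ∀ᶠ t : ℝ in 𝓝 0, 1 / 16 ≤ qq (x + stp i t) := by
  have : Set.Ioo (-(1 / 4) : ℝ) (1 / 4) ∈ 𝓝 (0 : ℝ) := Ioo_mem_nhds (by norm_num) (by norm_num)
  filter_upwards [this] with t ht
  have h1 : ‖(x + stp i t) i‖ ^ 2 ≤ qq (x + stp i t) :=
    Finset.single_le_sum (f := fun j => ‖(x + stp i t) j‖ ^ 2) (fun j _ => by positivity)
      (Finset.mem_univ i)
  have h2 : 1 / 4 ≤ ‖(x + stp i t) i‖ := by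
    rw [stp_same]
    have h3 := norm_sub_le (x i + (t : UnitAddCircle)) (t : UnitAddCircle)
    rw [add_sub_cancel_right, hx] at h3
    have h4 := norm_coe_le_abs t
    have h5 : |t| ≤ 1 / 4 := abs_le.mpr ⟨by linarith [ht.1], by linarith [ht.2]⟩
    linarith
  nlinarith

lemma near_reg {x : T d} {i : Fin d} (hx : ‖x i‖ < 1 / 2) :
    ∀ᶠ t : ℝ in 𝓝 0, rp ((x + stp i t) i) = rp (x i) + t := by
  rw [← abs_rp] at hx
  have hδ : 0 < 1 / 2 - |rp (x i)| := by linarith
  have : Set.Ioo (-(1 / 2 - |rp (x i)|)) (1 / 2 - |rp (x i)|) ∈ 𝓝 (0 : ℝ) :=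
    Ioo_mem_nhds (by linarith) hδ
  filter_upwards [this] with t ht
  rw [stp_same]
  conv_lhs => rw [← coe_rp (x i), ← AddCircle.coe_add]
  apply rp_coe
  have h1 := neg_abs_le (rp (x i))
  have h2 := le_abs_self (rp (x i))
  constructor <;> linarith [ht.1, ht.2]

lemma norm_lt_or_eq (a : UnitAddCircle) : ‖a‖ < 1 / 2 ∨ ‖a‖ = 1 / 2 :=
  lt_or_eq_of_le (norm_le_half a)

lemma hasDeriv_reg {Θ Θ' : ℝ → ℝ} {c : ℝ} (h : Prof Θ Θ' c) {x : T d} {i : Fin d} 
    (hx : ‖x i‖ < 1 / 2) :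
    HasDerivAt (fun t : ℝ => Θ (qq (x + stp i t))) (2 * rp (x i) * Θ' (qq x)) 0 := by
  have h1 : HasDerivAt (fun t : ℝ => qq x - rp (x i) ^ 2 + (rp (x i) + t) ^ 2) (2 * rp (x i)) 0 := by
    have h2 : HasDerivAt (fun t : ℝ => rp (x i) + t) 1 0 := (hasDerivAt_id (0 : ℝ)).const_add _
    have h3 := (h2.pow 2).const_add (qq x - rp (x i) ^ 2)
    simpa using h3
  have h4 : HasDerivAt Θ (Θ' (qq x)) (qq x - rp (x i) ^ 2 + (rp (x i) + 0) ^ 2) := by
    have e : qq x - rp (x i) ^ 2 + (rp (x i) + 0) ^ 2 = qq x := by ring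
    rw [e]; exact h.hd _
  have h5 := h4.comp (0 : ℝ) h1
  rw [mul_comm] at h5
  refine h5.congr_of_eventuallyEq ?_
  filter_upwards [near_reg hx] with t ht
  change Θ (qq (x + stp i t)) = Θ (qq x - rp (x i) ^ 2 + (rp (x i) + t) ^ 2)
  rw [qq_stp, ← abs_rp (x i), sq_abs, ← ht, stp_same, ← abs_rp (x i + (t : UnitAddCircle)), sq_abs]

lemma hasDeriv1 {Θ Θ' : ℝ → ℝ} {c : ℝ} (h : Prof Θ Θ' c) (i : Fin d) (x : T d) :
    HasDerivAt (fun t : ℝ => Θ (qq (x + stp i t))) (2 * rp (x i) * Θ' (qq x)) 0 := by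
  rcases norm_lt_or_eq (x i) with hx | hx
  · exact hasDeriv_reg h hx
  · have h0 := (near_half hx).self_of_nhds
    rw [stp_zero, add_zero] at h0
    rw [h.der h0, mul_zero]
    apply (hasDerivAt_const (0 : ℝ) c).congr_of_eventuallyEq
    filter_upwards [near_half hx] with t ht
    exact h.hc _ (by linarith)

lemma hasDeriv2 {Θ Θ' : ℝ → ℝ} (h : Prof Θ Θ' 0) (i : Fin d) (x : T d) :
    HasDerivAt (fun t : ℝ => rp ((x + stp i t) i) * Θ (qq (x + stp i t)))
      (Θ (qq x) + 2 * rp (x i) ^ 2 * Θ' (qq x)) 0 := by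
  rcases norm_lt_or_eq (x i) with hx | hx
  · have h1 := hasDeriv_reg h hx
    have h2 : HasDerivAt (fun t : ℝ => rp ((x + stp i t) i)) 1 0 := by
      have h3 : HasDerivAt (fun t : ℝ => rp (x i) + t) 1 0 := (hasDerivAt_id (0 : ℝ)).const_add _
      refine h3.congr_of_eventuallyEq ?_
      filter_upwards [near_reg hx] with t ht
      exact ht
    have h4 := h2.mul h1
    simp only [stp_zero, add_zero] at h4
    have e : Θ (qq x) + 2 * rp (x i) ^ 2 * Θ' (qq x) =
        1 * Θ (qq x) + rp (x i) * (2 * rp (x i) * Θ' (qq x)) := by ring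
    rw [e]
    exact h4
  · have h0 := (near_half hx).self_of_nhds
    rw [stp_zero, add_zero] at h0
    rw [h.der h0, h.hc _ (by linarith), mul_zero, add_zero]
    apply (hasDerivAt_const (0 : ℝ) (0 : ℝ)).congr_of_eventuallyEq
    filter_upwards [near_half hx] with t ht
    rw [h.hc _ (by linarith), mul_zero]

end Pool.Agent.helper28.Coul
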