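import Pool.Agent.helper28.Coul.MC3

/-!
# The near-optimal densities
-/

set_option autoImplicit false

open MeasureTheory UnitAddTorus Filter Topology
open scoped ENNReal ComplexConjugate InnerProductSpace

noncomputable section

namespace Pool.Agent.helper28.Coul

variable {d : ℕ}

/-! ### bounded measurable functions -/

/-- bounded and measurable -/
def BB (f : T d → ℝ) : Prop := Measurable f ∧ ∃ C, ∀ x, |f x| ≤ C

lemma BB.of_cont {f : T d → ℝ} (hf : Continuous f) : BB f := by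
  refine ⟨hf.measurable, ?_⟩
  obtain ⟨C, hC⟩ := isCompact_univ.exists_bound_of_continuousOn hf.continuousOn
  exact ⟨C, fun x => hC x (Set.mem_univ x)⟩

lemma BB.mul {f g : T d → ℝ} (hf : BB f) (hg : BB g) : BB (fun x => f x * g x) := by
  obtain ⟨C, hC⟩ := hf.2
  obtain ⟨D, hD⟩ := hg.2
  refine ⟨hf.1.mul hg.1, C * D, fun x => ?_⟩
  rw [abs_mul]
  exact mul_le_mul (hC x) (hD x) (abs_nonneg _) ((abs_nonneg _).trans (hC x))

lemma BB.add {f g : T d → ℝ} (hf : BB f) (hg : BB g) : BB (fun x => f x + g x) := by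
  obtain ⟨C, hC⟩ := hf.2
  obtain ⟨D, hD⟩ := hg.2
  exact ⟨hf.1.add hg.1, C + D, fun x => (abs_add_le _ _).trans (add_le_add (hC x) (hD x))⟩

lemma BB.rp (i : Fin d) : BB (fun x : T d => Coul.rp (x i)) :=
  ⟨measurable_rp.comp (measurable_pi_apply i), 1 / 2, fun _ => abs_rp_le _⟩

lemma BB.integrable {f : T d → ℝ} (hf : BB f) : Integrable f (mu d) := by
  obtain ⟨C, hC⟩ := hf.2
  exact Integrable.of_bound hf.1.aestronglyMeasurable C (Eventually.of_forall hC)

lemma BB.memLp {f : T d → ℝ} (hf : BB f) : MemLp f 2 (mu d) := by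
  obtain ⟨C, hC⟩ := hf.2
  exact MemLp.of_bound hf.1.aestronglyMeasurable C (Eventually.of_forall hC)

lemma fc_deriv' {F F' : T d → ℝ} (hF : BB F) (hF' : BB F') (i : Fin d)
    (h : ∀ x, HasDerivAt (fun t : ℝ => F (x + stp i t)) (F' x) 0) (k : Fin d → ℤ) :
    fc (fun x => (F' x : ℂ)) k = 2 * Real.pi * Complex.I * (k i : ℂ) * fc (fun x => (F x : ℂ)) k := by
  obtain ⟨C, hC⟩ := hF.2
  obtain ⟨D, hD⟩ := hF'.2
  exact fc_deriv (C := max C D) hF.1 hF'.1 (fun x => (hC x).trans (le_max_left _ _))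
    (fun x => (hD x).trans (le_max_right _ _)) i h k

/-! ### the cut-off -/

/-- the cut-off profile -/
def ps (n : ℕ) (s : ℝ) : ℝ := Real.smoothTransition (1 - ((n : ℝ) + 64) * (s - 1 / 32))

/-- its derivative -/
def dps (n : ℕ) (s : ℝ) : ℝ := deriv (ps n) s

lemma contDiff_ps (n : ℕ) : ContDiff ℝ 1 (ps n) := by
  unfold ps
  exact (Real.smoothTransition.contDiff (n := 1)).comp (by fun_prop)

lemma hasDerivAt_ps (n : ℕ) (s : ℝ) : HasDerivAt (ps n) (dps n s) s :=
  ((contDiff_ps n).differentiable one_ne_zero s).hasDerivAt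

lemma continuous_ps (n : ℕ) : Continuous (ps n) := (contDiff_ps n).continuous

lemma continuous_dps (n : ℕ) : Continuous (dps n) := (contDiff_ps n).continuous_deriv le_rfl

lemma ps_nonneg (n : ℕ) (s : ℝ) : 0 ≤ ps n s := Real.smoothTransition.nonneg _

lemma ps_le_one (n : ℕ) (s : ℝ) : ps n s ≤ 1 := Real.smoothTransition.le_one _

lemma ps_eq_one (n : ℕ) {s : ℝ} (h : s ≤ 1 / 32) : ps n s = 1 := by
  apply Real.smoothTransition.one_of_one_le
  have : (0 : ℝ) ≤ n := Nat.cast_nonneg n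
  nlinarith

lemma ps_eq_zero (n : ℕ) {s : ℝ} (h : 3 / 64 ≤ s) : ps n s = 0 := by
  apply Real.smoothTransition.zero_of_nonpos
  have : (0 : ℝ) ≤ n := Nat.cast_nonneg n
  nlinarith

lemma antitone_ps (n : ℕ) : Antitone (ps n) := by
  intro s t h
  apply Real.smoothTransition.monotone
  have : (0 : ℝ) ≤ n := Nat.cast_nonneg n
  nlinarith

lemma dps_nonpos (n : ℕ) (s : ℝ) : dps n s ≤ 0 := (antitone_ps n).deriv_nonpos

lemma tendsto_ps {s : ℝ} (hs : 1 / 32 < s) : ∀ᶠ n : ℕ in atTop, ps n s = 0 := by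
  have h1 : Tendsto (fun n : ℕ => ((n : ℝ) + 64) * (s - 1 / 32)) atTop atTop :=
    (tendsto_atTop_add_const_right _ _ tendsto_natCast_atTop_atTop).atTop_mul_const (by linarith)
  filter_upwards [h1.eventually_ge_atTop 1] with n hn
  apply Real.smoothTransition.zero_of_nonpos
  linarith

/-! ### profiles -/

lemma prof_g (n d : ℕ) : Prof (fun s => ps n s / d) (fun s => dps n s / d) 0 where
  hd s := (hasDerivAt_ps n s).div_const _
  hc s hs := by rw [ps_eq_zero n hs, zero_div]

lemma prof_J (n : ℕ) : Prof (fun s => s * ps n s ^ 3)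
    (fun s => ps n s ^ 3 + 3 * s * ps n s ^ 2 * dps n s) 0 where
  hd s := by
    have h := (hasDerivAt_id s).mul ((hasDerivAt_ps n s).pow 3)
    have e : ps n s ^ 3 + 3 * s * ps n s ^ 2 * dps n s =
        1 * ps n s ^ 3 + s * ((3 : ℕ) * ps n s ^ 2 * dps n s) := by
      push_cast; ring
    rw [e]
    exact h
  hc s hs := by rw [ps_eq_zero n hs]; ring

lemma prof_H (n d : ℕ) : Prof (fun s => (∫ u in (0 : ℝ)..s, ps n u) / (2 * d))
    (fun s => ps n s / (2 * d)) ((∫ u in (0 : ℝ)..(3 / 64), ps n u) / (2 * d)) where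
  hd s := ((continuous_ps n).integral_hasStrictDerivAt 0 s).hasDerivAt.div_const _
  hc s hs := by
    have h1 : ∫ u in (3 / 64 : ℝ)..s, ps n u = 0 := by
      rw [intervalIntegral.integral_congr (g := fun _ => (0 : ℝ))]
      · simp
      · intro u hu
        rw [Set.uIcc_of_le hs] at hu
        exact ps_eq_zero n hu.1
    have hi : ∀ a b : ℝ, IntervalIntegrable (ps n) volume a b := fun a b =>
      (continuous_ps n).intervalIntegrable a b
    rw [← intervalIntegral.integral_add_adjacent_intervals (hi 0 (3 / 64)) (hi (3 / 64) s), h1,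
      add_zero]

/-! ### the density -/

/-- the density -/
def r0 (n : ℕ) (x : T d) : ℝ := 1 - ps n (qq x) - 2 * qq x * dps n (qq x) / d

/-- its gradient -/
def gI (n : ℕ) (i : Fin d) (x : T d) : ℝ := rp (x i) * (ps n (qq x) / d)

lemma continuous_psq (n : ℕ) : Continuous fun x : T d => ps n (qq x) :=
  (continuous_ps n).comp continuous_qq

lemma continuous_dpsq (n : ℕ) : Continuous fun x : T d => dps n (qq x) :=
  (continuous_dps n).comp continuous_qq

lemma continuous_r0 (n : ℕ) : Continuous (r0 (d := d) n) := by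
  unfold r0
  have h1 := continuous_psq (d := d) n
  have h2 := continuous_dpsq (d := d) n
  have h3 := continuous_qq (d := d)
  fun_prop

lemma r0_nonneg (n : ℕ) (x : T d) : 0 ≤ r0 n x := by
  unfold r0
  have h1 := ps_le_one n (qq x)
  have h2 := dps_nonpos n (qq x)
  have h3 := qq_nonneg x
  have h4 : 2 * qq x * dps n (qq x) / d ≤ 0 := by
    apply div_nonpos_of_nonpos_of_nonneg _ (Nat.cast_nonneg d)
    nlinarith
  linarith

/-- the density in `L²` -/
def r0H (d n : ℕ) : HR d := ofCont (continuous_r0 n)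

lemma r0H_ae (n : ℕ) : r0H d n =ᵐ[mu d] r0 n := ofCont_ae _

lemma bb_gI (n : ℕ) (i : Fin d) : BB (gI n i) := by
  unfold gI
  exact (BB.rp i).mul (BB.of_cont ((continuous_psq n).div_const _))

/-- the potential -/
def hh (n : ℕ) (x : T d) : ℝ := (∫ u in (0 : ℝ)..(qq x), ps n u) / (2 * d)

lemma bb_hh (n : ℕ) : BB (hh (d := d) n) := by
  apply BB.of_cont
  have h1 : Continuous fun s => (∫ u in (0 : ℝ)..s, ps n u) / (2 * (d : ℝ)) := by
    rw [continuous_iff_continuousAt]
    intro s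
    exact ((prof_H n d).hd s).continuousAt
  exact h1.comp continuous_qq

lemma fc_gI (n : ℕ) (i : Fin d) (k : Fin d → ℤ) : fc (fun x => (gI n i x : ℂ)) k =
    2 * Real.pi * Complex.I * (k i : ℂ) * fc (fun x => (hh n x : ℂ)) k := by
  apply fc_deriv' (bb_hh n) (bb_gI n i)
  intro x
  have h := hasDeriv1 (prof_H n d) i x
  have e : 2 * rp (x i) * (ps n (qq x) / (2 * (d : ℝ))) = gI n i x := by
    unfold gI
    rw [show (2 * (d : ℝ)) = (d : ℝ) * 2 from mul_comm _ _, ← div_div]
    ring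
  rw [← e]
  exact h

/-- second derivative -/
def ggI (n : ℕ) (i : Fin d) (x : T d) : ℝ :=
  ps n (qq x) / d + 2 * rp (x i) ^ 2 * (dps n (qq x) / d)

lemma bb_ggI (n : ℕ) (i : Fin d) : BB (ggI n i) := by
  have h1 : BB (fun x : T d => rp (x i) * rp (x i)) := (BB.rp i).mul (BB.rp i)
  have h2 : BB (fun x : T d => 2 * (dps n (qq x) / d)) :=
    BB.of_cont (((continuous_dpsq n).div_const _).const_mul _ |>.congr fun x => rfl)
  have h3 := (BB.of_cont ((continuous_psq (d := d) n).div_const (d : ℝ))).add (h1.mul h2)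
  have e : ggI n i = fun x : T d => ps n (qq x) / d +
      rp (x i) * rp (x i) * (2 * (dps n (qq x) / d)) := by
    ext x; unfold ggI; ring
  rw [e]
  exact h3

lemma fc_ggI (n : ℕ) (i : Fin d) (k : Fin d → ℤ) : fc (fun x => (ggI n i x : ℂ)) k =
    2 * Real.pi * Complex.I * (k i : ℂ) * fc (fun x => (gI n i x : ℂ)) k :=
  fc_deriv' (bb_gI n i) (bb_ggI n i) i (fun x => hasDeriv2 (prof_g n d) i x) k

lemma sum_ggI (hd : 0 < d) (n : ℕ) (x : T d) : ∑ i, ggI n i x = 1 - r0 n x := by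
  unfold ggI r0
  rw [Finset.sum_add_distrib, Finset.sum_const, Finset.card_univ, Fintype.card_fin, nsmul_eq_mul,
    ← Finset.sum_mul, ← Finset.mul_sum, sum_rp_sq]
  have : (d : ℝ) ≠ 0 := by positivity
  field_simp
  ring

lemma fr_r0H (hd : 0 < d) (n : ℕ) (k : Fin d → ℤ) : fr (r0H d n) k = (if k = 0 then 1 else 0) +
    ((4 * Real.pi ^ 2 * dot k k : ℝ) : ℂ) * fc (fun x => (hh n x : ℂ)) k := by
  have h1 : fr (r0H d n) k = fc (fun x => (r0 n x : ℂ)) k := fr_ofCont _ _
  have h2 : (fun x : T d => ((r0 n x : ℝ) : ℂ)) = fun x => ((1 + (-1) * (∑ i, ggI n i x) : ℝ) : ℂ) := by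
    ext x
    rw [sum_ggI hd]
    push_cast; ring
  have hone : fc (fun _ : T d => ((1 : ℝ) : ℂ)) k = if k = 0 then 1 else 0 := by
    have := integral_mF_conj (d := d) k 0
    rw [mFourier_zero] at this
    unfold fc
    rw [show (fun x : T d => conj (mFourier k x) * ((1 : ℝ) : ℂ)) =
      fun x => conj (mFourier k x) * (1 : C(T d, ℂ)) x by ext x; simp]
    rw [this]
    simp only [eq_comm]
  have hi : Integrable (fun x => ∑ i, ggI n i x) (mu d) :=
    integrable_finsetSum _ fun i _ => (bb_ggI n i).integrable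
  rw [h1, h2, fcr_add (integrable_const _) (hi.const_mul _), fcr_const_mul,
    fcr_sum _ fun i _ => (bb_ggI n i).integrable, hone]
  congr 1
  simp only [fc_ggI, fc_gI]
  have h3 : ∀ i, 2 * (Real.pi : ℂ) * Complex.I * (k i : ℂ) *
      (2 * (Real.pi : ℂ) * Complex.I * (k i : ℂ) * fc (fun x => (hh n x : ℂ)) k) =
      -((4 * Real.pi ^ 2 * ((k i : ℝ) * (k i : ℝ)) : ℝ) : ℂ) * fc (fun x => (hh n x : ℂ)) k := by
    intro i
    push_cast
    linear_combination (4 * (Real.pi : ℂ) ^ 2 * (k i : ℂ) ^ 2 * fc (fun x => (hh n x : ℂ)) k) *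
      Complex.I_sq
  simp only [h3]
  rw [← Finset.sum_mul, Finset.sum_neg_distrib, ← Complex.ofReal_sum, ← Finset.mul_sum]
  change ((-1 : ℝ) : ℂ) * (-((4 * Real.pi ^ 2 * dot k k : ℝ) : ℂ) * fc (fun x => (hh n x : ℂ)) k) = _
  push_cast
  ring

lemma G_r0H (hd : 0 < d) (n : ℕ) (i : Fin d) : G i (r0H d n) =ᵐ[mu d] gI n i := by
  have e : G i (r0H d n) = (bb_gI n i).memLp.toLp _ := by
    apply hr_ext
    intro k
    rw [fr_G, fr_r0H hd, fr_eq ((bb_gI n i).memLp.toLp _)]
    have h1 : fc (fun x => ((((bb_gI n i).memLp.toLp _ : HR d) x : ℝ) : ℂ)) k =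
        fc (fun x => (gI n i x : ℂ)) k := by
      apply fc_congr
      filter_upwards [(bb_gI n i).memLp.coeFn_toLp] with x hx
      rw [hx]
    rw [h1, fc_gI]
    rcases eq_or_ne k 0 with rfl | hk
    · simp [sG]
    · rw [if_neg hk, zero_add]
      have h := w_mul hk
      have h' : ((w k : ℝ) : ℂ) * ((4 * Real.pi ^ 2 * dot k k : ℝ) : ℂ) = 1 := by
        rw [← Complex.ofReal_mul, h]; simp
      unfold sG
      linear_combination (2 * (Real.pi : ℂ) * Complex.I * (k i : ℂ) *
        fc (fun x => (hh n x : ℂ)) k) * h'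
  rw [e]
  exact (bb_gI n i).memLp.coeFn_toLp

lemma gs_r0H (hd : 0 < d) (n : ℕ) :
    ∀ᵐ x ∂(mu d), gs (r0H d n) x = qq x * ps n (qq x) ^ 2 / (d : ℝ) ^ 2 := by
  filter_upwards [ae_all_iff.mpr fun i => G_r0H hd n i] with x hx
  unfold gs
  simp only [hx]
  unfold gI
  simp only [mul_pow, div_pow]
  rw [← Finset.sum_mul, sum_rp_sq]
  ring

lemma exists_KM (hd : 0 < d) (n : ℕ) : ∃ M, KM M (r0H d n) := by
  obtain ⟨M, hM⟩ := (BB.of_cont (continuous_r0 (d := d) n)).2
  refine ⟨M, ?_, ?_⟩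
  · filter_upwards [r0H_ae n] with x hx
    rw [hx]
    exact ⟨r0_nonneg n x, (le_abs_self _).trans (hM x)⟩
  · have h1 := fr_r0H hd n 0
    rw [fr_zero] at h1
    simp only [if_true] at h1
    have h2 : dot (0 : Fin d → ℤ) 0 = 0 := by simp [dot]
    rw [h2, mul_zero, Complex.ofReal_zero, zero_mul, add_zero] at h1
    exact_mod_cast h1

/-- normalising integral -/
def An (d n : ℕ) : ℝ := ∫ x : T d, qq x * ps n (qq x) ^ 2 ∂(mu d)

/-- defect integral -/
def Dn (d n : ℕ) : ℝ := ∫ x : T d, qq x * ps n (qq x) ^ 2 * (1 - ps n (qq x)) ∂(mu d)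

lemma En_r0H (hd : 0 < d) (n : ℕ) : En (r0H d n) = An d n / (d : ℝ) ^ 2 := by
  rw [← integral_gs, integral_congr_ae (gs_r0H hd n), integral_div]
  rfl

lemma ibp_J (n : ℕ) : ∫ x : T d, ((d + 2) * (qq x * ps n (qq x) ^ 3) +
    6 * (qq x ^ 2 * ps n (qq x) ^ 2 * dps n (qq x))) ∂(mu d) = 0 := by
  have c1 := continuous_psq (d := d) n
  have c2 := continuous_dpsq (d := d) n
  have c3 := continuous_qq (d := d)
  set F : Fin d → T d → ℝ := fun i x => qq x * ps n (qq x) ^ 3 + 2 * rp (x i) ^ 2 *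
    (ps n (qq x) ^ 3 + 3 * qq x * ps n (qq x) ^ 2 * dps n (qq x)) with hF
  have hbb : ∀ i, BB (F i) := by
    intro i
    have h1 : BB (fun x : T d => qq x * ps n (qq x) ^ 3) := BB.of_cont (by fun_prop)
    have h2 : BB (fun x : T d => 2 * (ps n (qq x) ^ 3 + 3 * qq x * ps n (qq x) ^ 2 *
      dps n (qq x))) := BB.of_cont (by fun_prop)
    have h3 := h1.add (((BB.rp i).mul (BB.rp i)).mul h2)
    have e : F i = fun x => qq x * ps n (qq x) ^ 3 + rp (x i) * rp (x i) *
        (2 * (ps n (qq x) ^ 3 + 3 * qq x * ps n (qq x) ^ 2 * dps n (qq x))) := by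
      ext x; simp only [hF]; ring
    rw [e]; exact h3
  have h0 : ∀ i, ∫ x, F i x ∂(mu d) = 0 := by
    intro i
    obtain ⟨C, hC⟩ := (hbb i).2
    exact ibp0R (F := fun x => rp (x i) * (qq x * ps n (qq x) ^ 3)) (hbb i).1 hC i
      (fun x => hasDeriv2 (prof_J n) i x)
  have h1 : ∫ x, ∑ i, F i x ∂(mu d) = 0 := by
    rw [integral_finsetSum _ fun i _ => (hbb i).integrable]
    simp [h0]
  rw [← h1]
  congr 1
  ext x
  simp only [hF]
  rw [Finset.sum_add_distrib, Finset.sum_const, Finset.card_univ, Fintype.card_fin, nsmul_eq_mul,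
    ← Finset.sum_mul, ← Finset.mul_sum, sum_rp_sq]
  ring

lemma J_r0H (hd : 0 < d) (n : ℕ) : J (kp d) (r0H d n) = -(kp d / (d : ℝ) ^ 2) * Dn d n := by
  have c1 := continuous_psq (d := d) n
  have c2 := continuous_dpsq (d := d) n
  have c3 := continuous_qq (d := d)
  have hd' : (d : ℝ) ≠ 0 := by positivity
  have e1 : J (kp d) (r0H d n) = ∫ x : T d, (qq x * ps n (qq x) ^ 2 / (d : ℝ) ^ 2) *
      (1 - kp d - r0 n x) ∂(mu d) := by
    unfold J
    apply integral_congr_ae
    filter_upwards [gs_r0H hd n, r0H_ae n] with x h1 h2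
    rw [h1, h2]
  have i1 : Integrable (fun x : T d => -(kp d / (d : ℝ) ^ 2) *
      (qq x * ps n (qq x) ^ 2 * (1 - ps n (qq x)))) (mu d) :=
    (BB.of_cont (by fun_prop)).integrable
  have i2 : Integrable (fun x : T d => (1 / (3 * (d : ℝ) ^ 3)) *
      ((d + 2) * (qq x * ps n (qq x) ^ 3) +
    6 * (qq x ^ 2 * ps n (qq x) ^ 2 * dps n (qq x)))) (mu d) :=
    (BB.of_cont (by fun_prop)).integrable
  have e2 : -(kp d / (d : ℝ) ^ 2) * Dn d n = ∫ x : T d, (-(kp d / (d : ℝ) ^ 2) *
      (qq x * ps n (qq x) ^ 2 * (1 - ps n (qq x))) + (1 / (3 * (d : ℝ) ^ 3)) *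
      ((d + 2) * (qq x * ps n (qq x) ^ 3) +
    6 * (qq x ^ 2 * ps n (qq x) ^ 2 * dps n (qq x)))) ∂(mu d) := by
    rw [integral_add i1 i2, integral_const_mul, integral_const_mul, ibp_J]
    unfold Dn
    ring
  rw [e1, e2]
  congr 1
  ext x
  unfold r0 kp
  field_simp
  ring

lemma exists_An_lower (hd : 0 < d) : ∃ a : ℝ, 0 < a ∧ ∀ n, a ≤ An d n := by
  have c3 := continuous_qq (d := d)
  have hc : Continuous fun x : T d => qq x * max 0 (1 / 32 - qq x) := by fun_prop
  refine ⟨∫ x : T d, qq x * max 0 (1 / 32 - qq x) ∂(mu d), ?_, ?_⟩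
  · let i0 : Fin d := ⟨0, hd⟩
    have hq : qq (stp i0 (1 / 8) : T d) = 1 / 64 := by
      have h1 := qq_stp (0 : T d) i0 (1 / 8)
      rw [zero_add] at h1
      rw [h1]
      have h2 : qq (0 : T d) = 0 := by unfold qq; simp
      rw [h2, Pi.zero_apply, norm_zero, zero_add, ← abs_rp, rp_coe (by norm_num)]
      norm_num
    apply hc.integral_pos_of_hasCompactSupport_nonneg_nonzero (x := stp i0 (1 / 8))
      (HasCompactSupport.of_compactSpace _)
    · intro x
      exact mul_nonneg (qq_nonneg x) (le_max_left _ _)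
    · rw [hq]
      norm_num
  · intro n
    have c1 := continuous_psq (d := d) n
    unfold An
    apply integral_mono (BB.of_cont hc).integrable (BB.of_cont (by fun_prop)).integrable
    intro x
    change qq x * max 0 (1 / 32 - qq x) ≤ qq x * ps n (qq x) ^ 2
    apply mul_le_mul_of_nonneg_left _ (qq_nonneg x)
    rcases le_total (qq x) (1 / 32) with h | h
    · rw [ps_eq_one n h]
      have := qq_nonneg x
      apply max_le <;> linarith
    · rw [max_eq_left (by linarith)]
      positivity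

lemma tendsto_Dn (d : ℕ) : Tendsto (Dn d) atTop (𝓝 0) := by
  have c3 := continuous_qq (d := d)
  have h1 : Tendsto (fun n => ∫ x : T d, qq x * ps n (qq x) ^ 2 * (1 - ps n (qq x)) ∂(mu d)) atTop
      (𝓝 (∫ _x : T d, (0 : ℝ) ∂(mu d))) := by
    apply tendsto_integral_of_dominated_convergence (fun _ => (d : ℝ) / 4)
    · intro n
      have c1 := continuous_psq (d := d) n
      exact (by fun_prop : Continuous fun x : T d =>
        qq x * ps n (qq x) ^ 2 * (1 - ps n (qq x))).aestronglyMeasurable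
    · exact integrable_const _
    · intro n
      refine Eventually.of_forall fun x => ?_
      have a1 := ps_nonneg n (qq x)
      have a2 := ps_le_one n (qq x)
      have a3 := qq_nonneg x
      have a4 := qq_le x
      have a5 : 0 ≤ 1 - ps n (qq x) := by linarith
      rw [Real.norm_of_nonneg (by positivity)]
      have a6 : ps n (qq x) ^ 2 ≤ 1 := by nlinarith
      calc qq x * ps n (qq x) ^ 2 * (1 - ps n (qq x)) ≤ qq x * 1 * 1 := by
            gcongr
            linarith
        _ ≤ d / 4 := by linarith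
    · refine Eventually.of_forall fun x => ?_
      rcases le_or_gt (qq x) (1 / 32) with h | h
      · refine tendsto_const_nhds.congr fun n => ?_
        rw [ps_eq_one n h]; ring
      · refine tendsto_const_nhds.congr' ?_
        filter_upwards [tendsto_ps h] with n hn
        rw [hn]; ring
  rw [integral_zero] at h1
  exact h1

theorem cOpt_le (hd : 0 < d) : cOpt d ≤ ENNReal.ofReal (2 * (1 - kp d)) := by
  obtain ⟨a, ha, hA⟩ := exists_An_lower hd
  have hd' : (0 : ℝ) < (d : ℝ) ^ 2 := by positivity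
  have h1 : ∀ n, cOpt d ≤ ENNReal.ofReal (2 * (1 - kp d) + 2 * kp d * (Dn d n / An d n)) := by
    intro n
    obtain ⟨M, hM⟩ := exists_KM hd n
    have hAn : 0 < An d n := ha.trans_le (hA n)
    have hE : 0 < En (r0H d n) := by rw [En_r0H hd]; positivity
    have h2 := cOpt_le_of_KM (kp d) hM hE
    rw [J_r0H hd, En_r0H hd] at h2
    refine h2.trans (le_of_eq ?_)
    congr 1
    field_simp
    ring
  have h3 : Tendsto (fun n => Dn d n / An d n) atTop (𝓝 0) := by
    have h4 : Tendsto (fun n => Dn d n / a) atTop (𝓝 0) := by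
      simpa using (tendsto_Dn d).div_const a
    have hD0 : ∀ n, 0 ≤ Dn d n := by
      intro n
      apply integral_nonneg
      intro x
      have a1 := ps_nonneg n (qq x)
      have a2 := ps_le_one n (qq x)
      have a3 := qq_nonneg x
      have a5 : 0 ≤ 1 - ps n (qq x) := by linarith
      change 0 ≤ qq x * ps n (qq x) ^ 2 * (1 - ps n (qq x))
      positivity
    refine squeeze_zero (fun n => div_nonneg (hD0 n) (ha.trans_le (hA n)).le) (fun n => ?_) h4
    exact div_le_div_of_nonneg_left (hD0 n) ha (hA n)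
  have h5 : Tendsto (fun n => ENNReal.ofReal (2 * (1 - kp d) + 2 * kp d * (Dn d n / An d n))) atTop
      (𝓝 (ENNReal.ofReal (2 * (1 - kp d) + 2 * kp d * 0))) :=
    (ENNReal.continuous_ofReal.tendsto _).comp ((h3.const_mul _).const_add _)
  rw [mul_zero, add_zero] at h5
  exact ge_of_tendsto' h5 h1

theorem le_cOpt (hd : 0 < d) : ENNReal.ofReal (2 * (1 - kp d)) ≤ cOpt d := by
  unfold cOpt
  exact le_iInf₂ fun ρ hρ => slope_lower hd hρ.1 hρ.2

theorem cOpt_eq (hd : 0 < d) : cOpt d = ENNReal.ofReal (2 * ((d : ℝ) + 2) / (3 * d)) := by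
  rw [le_antisymm (cOpt_le hd) (le_cOpt hd)]
  congr 1
  unfold kp
  have : (d : ℝ) ≠ 0 := by positivity
  field_simp
  ring

end Pool.Agent.helper28.Coul
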