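import Pool.Agent.helper28.Coul.Basic

/-!
# Fourier multipliers on complex `L²`
-/

set_option autoImplicit false

open MeasureTheory UnitAddTorus Filter Topology
open scoped ENNReal ComplexConjugate InnerProductSpace

noncomputable section

namespace Pool.Agent.helper28.Coul

variable {d : ℕ}

lemma norm_sq_hc (f : HC d) : ‖f‖ ^ 2 = ∫ x, ‖f x‖ ^ 2 ∂(mu d) := by
  have h : (⟪f, f⟫_ℂ).re = ‖f‖ ^ 2 := by
    rw [← RCLike.re_eq_complex_re, inner_self_eq_norm_sq]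
  rw [← h, MeasureTheory.L2.inner_def]
  have : ∀ x, ⟪f x, f x⟫_ℂ = ((‖f x‖ ^ 2 : ℝ) : ℂ) := fun x => by
    rw [inner_self_eq_norm_sq_to_K]; norm_cast
  simp only [this]
  have h2 : ∫ x, ((‖f x‖ ^ 2 : ℝ) : ℂ) ∂(mu d) = ((∫ x, ‖f x‖ ^ 2 ∂(mu d) : ℝ) : ℂ) :=
    integral_ofReal
  rw [h2, Complex.ofReal_re]

lemma hasSum_norm_sq (f : HC d) : HasSum (fun k => ‖fc f k‖ ^ 2) (‖f‖ ^ 2) := by
  rw [norm_sq_hc]; exact hasSum_sq_fc f

lemma inner_hc (f g : HC d) : ⟪f, g⟫_ℂ = ∫ x, conj (f x) * g x ∂(mu d) := by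
  rw [MeasureTheory.L2.inner_def]
  congr 1
  ext x
  rw [RCLike.inner_apply, mul_comm]

lemma hasSum_inner_hc (f g : HC d) :
    HasSum (fun k => conj (fc f k) * fc g k) ⟪f, g⟫_ℂ := by
  rw [inner_hc]; exact hasSum_inner_fc f g

lemma fc_congr {f g : T d → ℂ} (h : f =ᵐ[mu d] g) (k : Fin d → ℤ) : fc f k = fc g k := by
  unfold fc
  apply integral_congr_ae
  filter_upwards [h] with x hx
  rw [hx]

lemma hc_ext {f g : HC d} (h : ∀ k, fc f k = fc g k) : f = g := by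
  apply (bas d).repr.injective
  apply lp.ext
  ext k
  rw [bas_repr, bas_repr, h]

/-- the `L²` function with given square-summable coefficients -/
lemma exists_hc {a : (Fin d → ℤ) → ℂ} (ha : Summable fun k => ‖a k‖ ^ 2) :
    ∃ f : HC d, ∀ k, fc f k = a k := by
  have hm : Memℓp a 2 := by
    apply memℓp_gen
    simpa using ha
  refine ⟨(bas d).repr.symm ⟨a, hm⟩, fun k => ?_⟩
  rw [← bas_repr, LinearIsometryEquiv.apply_symm_apply]

lemma fc_add (f g : HC d) (k : Fin d → ℤ) : fc (f + g : HC d) k = fc f k + fc g k := by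
  rw [← bas_repr, ← bas_repr, ← bas_repr, map_add]
  rfl

lemma fc_smul (c : ℂ) (f : HC d) (k : Fin d → ℤ) : fc (c • f : HC d) k = c * fc f k := by
  rw [← bas_repr, ← bas_repr, map_smul]
  rfl

/-- bounded symbols -/
def Bdd (m : (Fin d → ℤ) → ℂ) : Prop := ∃ C : ℝ, ∀ k, ‖m k‖ ≤ C

lemma mult_exists {m : (Fin d → ℤ) → ℂ} {C : ℝ} (hm : ∀ k, ‖m k‖ ≤ C) (f : HC d) :
    ∃ g : HC d, ∀ k, fc g k = m k * fc f k := by
  apply exists_hc
  refine Summable.of_nonneg_of_le (fun k => by positivity) (fun k => ?_)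
    ((hasSum_norm_sq f).summable.mul_left (C ^ 2))
  rw [norm_mul, mul_pow]
  have := hm k
  gcongr

lemma mult_norm {m : (Fin d → ℤ) → ℂ} {C : ℝ} (hm : ∀ k, ‖m k‖ ≤ C) {f g : HC d}
    (h : ∀ k, fc g k = m k * fc f k) : ‖g‖ ≤ C * ‖f‖ := by
  have hC : 0 ≤ C := (norm_nonneg _).trans (hm 0)
  have h1 := hasSum_norm_sq g
  have h2 := (hasSum_norm_sq f).mul_left (C ^ 2)
  have h3 : ‖g‖ ^ 2 ≤ C ^ 2 * ‖f‖ ^ 2 := by
    refine hasSum_le (fun k => ?_) h1 h2
    rw [h, norm_mul, mul_pow]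
    have := hm k
    gcongr
  rw [← mul_pow] at h3
  exact le_of_sq_le_sq h3 (by positivity)
where
  le_of_sq_le_sq {a b : ℝ} (h : a ^ 2 ≤ b ^ 2) (hb : 0 ≤ b) : a ≤ b :=
    (le_abs_self a).trans (abs_le_of_sq_le_sq h hb)

/-- Fourier multiplier operator -/
def mul (m : (Fin d → ℤ) → ℂ) : HC d →L[ℂ] HC d :=
  open Classical in
  if h : ∃ C : ℝ, ∀ k, ‖m k‖ ≤ C then
    LinearMap.mkContinuous
      { toFun := fun f => (mult_exists h.choose_spec f).choose
        map_add' := fun f g => hc_ext fun k => by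
          rw [(mult_exists h.choose_spec (f + g)).choose_spec, fc_add, fc_add,
            (mult_exists h.choose_spec f).choose_spec, (mult_exists h.choose_spec g).choose_spec,
            mul_add]
        map_smul' := fun c f => hc_ext fun k => by
          rw [(mult_exists h.choose_spec (c • f)).choose_spec, fc_smul, RingHom.id_apply, fc_smul,
            (mult_exists h.choose_spec f).choose_spec]
          ring }
      h.choose
      (fun f => mult_norm h.choose_spec (mult_exists h.choose_spec f).choose_spec)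
  else 0

lemma fc_mul {m : (Fin d → ℤ) → ℂ} (hm : Bdd m) (f : HC d) (k : Fin d → ℤ) :
    fc (mul m f) k = m k * fc f k := by
  unfold mul
  have h : ∃ C : ℝ, ∀ k, ‖m k‖ ≤ C := hm
  rw [dif_pos h]
  exact (mult_exists h.choose_spec f).choose_spec k

lemma tendsto_mul {ι : Type*} {l : Filter ι} {m : ι → (Fin d → ℤ) → ℂ} {m₀ : (Fin d → ℤ) → ℂ}
    {C : ℝ} (hm : ∀ i k, ‖m i k‖ ≤ C) (hm₀ : ∀ k, ‖m₀ k‖ ≤ C)
    (h : ∀ k, Tendsto (fun i => m i k) l (𝓝 (m₀ k))) (f : HC d) :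
    Tendsto (fun i => mul (m i) f) l (𝓝 (mul m₀ f)) := by
  rw [tendsto_iff_norm_sub_tendsto_zero]
  have hs := hasSum_norm_sq f
  have h1 : ∀ i, ‖mul (m i) f - mul m₀ f‖ ^ 2 = ∑' k, ‖(m i k - m₀ k)‖ ^ 2 * ‖fc f k‖ ^ 2 := by
    intro i
    rw [← (hasSum_norm_sq (mul (m i) f - mul m₀ f)).tsum_eq]
    congr 1
    ext k
    have : fc (mul (m i) f - mul m₀ f : HC d) k = (m i k - m₀ k) * fc f k := by
      have e : mul (m i) f - mul m₀ f = mul (m i) f + (-1 : ℂ) • mul m₀ f := by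
        rw [neg_one_smul, sub_eq_add_neg]
      rw [e, fc_add, fc_smul, fc_mul ⟨C, hm i⟩, fc_mul ⟨C, hm₀⟩]
      ring
    rw [this, norm_mul, mul_pow]
  have h2 : Tendsto (fun i => ∑' k, ‖(m i k - m₀ k)‖ ^ 2 * ‖fc f k‖ ^ 2) l
      (𝓝 (∑' k : Fin d → ℤ, (0 : ℝ))) := by
    apply tendsto_tsum_of_dominated_convergence (bound := fun k => (C + C) ^ 2 * ‖fc f k‖ ^ 2)
      (hs.summable.mul_left _)
    · intro k
      have := ((((h k).sub_const (m₀ k)).norm).pow 2).mul_const (‖fc f k‖ ^ 2)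
      simpa using this
    · refine Eventually.of_forall fun i k => ?_
      rw [Real.norm_of_nonneg (by positivity)]
      have : ‖m i k - m₀ k‖ ≤ C + C := (norm_sub_le _ _).trans (add_le_add (hm i k) (hm₀ k))
      gcongr
  rw [tsum_zero] at h2
  have h3 : Tendsto (fun i => ‖mul (m i) f - mul m₀ f‖ ^ 2) l (𝓝 0) := by
    simp only [h1]; exact h2
  have h4 := (Real.continuous_sqrt.tendsto 0).comp h3
  rw [Real.sqrt_zero] at h4
  refine h4.congr fun i => ?_
  rw [Function.comp_apply, Real.sqrt_sq (norm_nonneg _)]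

/-! ### real functions -/

/-- inclusion of real functions -/
def toC (d : ℕ) : HR d →L[ℝ] HC d := Complex.ofRealCLM.compLpL 2 (mu d)

/-- real part -/
def toR (d : ℕ) : HC d →L[ℝ] HR d := Complex.reCLM.compLpL 2 (mu d)

lemma toC_ae (f : HR d) : toC d f =ᵐ[mu d] fun x => (f x : ℂ) := by
  have := ContinuousLinearMap.coeFn_compLpL (p := 2) (μ := mu d) Complex.ofRealCLM f
  exact this

lemma toR_ae (f : HC d) : toR d f =ᵐ[mu d] fun x => (f x).re := by
  have := ContinuousLinearMap.coeFn_compLpL (p := 2) (μ := mu d) Complex.reCLM f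
  exact this

/-- Fourier coefficients of a real function -/
def fr (f : HR d) (k : Fin d → ℤ) : ℂ := fc (toC d f) k

lemma fr_eq (f : HR d) (k : Fin d → ℤ) : fr f k = fc (fun x => (f x : ℂ)) k :=
  fc_congr (toC_ae f) k

lemma fc_neg_of_real (f : T d → ℝ) (k : Fin d → ℤ) :
    fc (fun x => (f x : ℂ)) (-k) = conj (fc (fun x => (f x : ℂ)) k) := by
  unfold fc
  rw [← integral_conj]
  congr 1
  ext x
  rw [mFourier_neg, map_mul, Complex.conj_ofReal]

lemma fr_neg (f : HR d) (k : Fin d → ℤ) : fr f (-k) = conj (fr f k) := by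
  rw [fr_eq, fr_eq, fc_neg_of_real]

lemma toR_toC (f : HR d) : toR d (toC d f) = f := by
  apply Lp.ext
  filter_upwards [toR_ae (toC d f), toC_ae f] with x h1 h2
  rw [h1, h2, Complex.ofReal_re]

/-- complex conjugation -/
def cj (d : ℕ) : HC d →L[ℝ] HC d := (Complex.conjCLE : ℂ →L[ℝ] ℂ).compLpL 2 (mu d)

lemma cj_ae (f : HC d) : cj d f =ᵐ[mu d] fun x => conj (f x) := by
  have := ContinuousLinearMap.coeFn_compLpL (p := 2) (μ := mu d) (Complex.conjCLE : ℂ →L[ℝ] ℂ) f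
  exact this

lemma fc_cj (f : HC d) (k : Fin d → ℤ) : fc (cj d f) k = conj (fc f (-k)) := by
  rw [fc_congr (cj_ae f)]
  unfold fc
  rw [← integral_conj]
  congr 1
  ext x
  rw [mFourier_neg, map_mul, Complex.conj_conj]

lemma real_of_herm {f : HC d} (h : ∀ k, fc f (-k) = conj (fc f k)) : toC d (toR d f) = f := by
  have h1 : cj d f = f := by
    apply hc_ext
    intro k
    rw [fc_cj, h, Complex.conj_conj]
  apply Lp.ext
  filter_upwards [toC_ae (toR d f), toR_ae f, cj_ae f] with x a b c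
  rw [h1] at c
  rw [a, b]
  exact Complex.conj_eq_iff_re.mp c.symm

lemma inner_toC (f g : HR d) : ⟪toC d f, toC d g⟫_ℂ = ((⟪f, g⟫_ℝ : ℝ) : ℂ) := by
  rw [inner_hc, MeasureTheory.L2.inner_def]
  have h2 : ∫ x, ((⟪f x, g x⟫_ℝ : ℝ) : ℂ) ∂(mu d) = ((∫ x, ⟪f x, g x⟫_ℝ ∂(mu d) : ℝ) : ℂ) :=
    integral_ofReal
  rw [← h2]
  apply integral_congr_ae
  filter_upwards [toC_ae f, toC_ae g] with x a b
  rw [a, b, Complex.conj_ofReal]
  simp [mul_comm]

lemma hasSum_inner_hr (f g : HR d) :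
    HasSum (fun k => (conj (fr f k) * fr g k).re) ⟪f, g⟫_ℝ := by
  have h := Complex.hasSum_re (hasSum_inner_hc (toC d f) (toC d g))
  rw [inner_toC, Complex.ofReal_re] at h
  exact h

lemma norm_toC (f : HR d) : ‖toC d f‖ = ‖f‖ := by
  have h : ‖toC d f‖ ^ 2 = ‖f‖ ^ 2 := by
    have h1 : (⟪toC d f, toC d f⟫_ℂ).re = ‖toC d f‖ ^ 2 := by
      rw [← RCLike.re_eq_complex_re, inner_self_eq_norm_sq]
    rw [← h1, inner_toC, Complex.ofReal_re, real_inner_self_eq_norm_sq]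
  have := congrArg Real.sqrt h
  rwa [Real.sqrt_sq (norm_nonneg _), Real.sqrt_sq (norm_nonneg _)] at this

lemma hasSum_norm_hr (f : HR d) : HasSum (fun k => ‖fr f k‖ ^ 2) (‖f‖ ^ 2) := by
  rw [← norm_toC]
  exact hasSum_norm_sq _

lemma hr_ext {f g : HR d} (h : ∀ k, fr f k = fr g k) : f = g := by
  have h1 : toC d f = toC d g := hc_ext h
  rw [← toR_toC f, h1, toR_toC]

lemma inner_hr (f g : HR d) : ⟪f, g⟫_ℝ = ∫ x, f x * g x ∂(mu d) := by
  rw [MeasureTheory.L2.inner_def]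
  congr 1
  ext x
  simp [mul_comm]

/-- hermitian symbols -/
def Herm (m : (Fin d → ℤ) → ℂ) : Prop := ∀ k, m (-k) = conj (m k)

/-- Fourier multipliers on real functions -/
def mulR (m : (Fin d → ℤ) → ℂ) : HR d →L[ℝ] HR d :=
  (toR d).comp (((mul m).restrictScalars ℝ).comp (toC d))

lemma toC_mulR {m : (Fin d → ℤ) → ℂ} (hb : Bdd m) (hh : Herm m) (f : HR d) :
    toC d (mulR m f) = mul m (toC d f) := by
  have h : toC d (toR d (mul m (toC d f))) = mul m (toC d f) := by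
    apply real_of_herm
    intro k
    rw [fc_mul hb, fc_mul hb, hh, map_mul]
    congr 1
    exact fr_neg f k
  exact h

lemma fr_mulR {m : (Fin d → ℤ) → ℂ} (hb : Bdd m) (hh : Herm m) (f : HR d) (k : Fin d → ℤ) :
    fr (mulR m f) k = m k * fr f k := by
  unfold fr
  rw [toC_mulR hb hh, fc_mul hb]

lemma fr_add (f g : HR d) (k : Fin d → ℤ) : fr (f + g) k = fr f k + fr g k := by
  unfold fr
  rw [map_add, fc_add]

lemma fr_smul (c : ℝ) (f : HR d) (k : Fin d → ℤ) : fr (c • f) k = c * fr f k := by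
  unfold fr
  rw [map_smul, ← fc_smul]
  congr 2

lemma fr_neg' (f : HR d) (k : Fin d → ℤ) : fr (-f) k = - fr f k := by
  rw [← neg_one_smul ℝ f, fr_smul]; simp

lemma fr_sub (f g : HR d) (k : Fin d → ℤ) : fr (f - g) k = fr f k - fr g k := by
  rw [sub_eq_add_neg, fr_add, fr_neg', ← sub_eq_add_neg]

lemma tendsto_mulR {ι : Type*} {l : Filter ι} {m : ι → (Fin d → ℤ) → ℂ} {m₀ : (Fin d → ℤ) → ℂ}
    {C : ℝ} (hm : ∀ i k, ‖m i k‖ ≤ C) (hm₀ : ∀ k, ‖m₀ k‖ ≤ C)
    (h : ∀ k, Tendsto (fun i => m i k) l (𝓝 (m₀ k))) (f : HR d) :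
    Tendsto (fun i => mulR (m i) f) l (𝓝 (mulR m₀ f)) :=
  ((toR d).continuous.tendsto _).comp (tendsto_mul hm hm₀ h (toC d f))

end Pool.Agent.helper28.Coul
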