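import Pool.Agent.helper28.Coul.DirL1

/-!
# The cubic functional on bounded densities: first variation
-/

set_option autoImplicit false

open MeasureTheory UnitAddTorus Filter Topology
open scoped ENNReal ComplexConjugate InnerProductSpace

noncomputable section

namespace Pool.Agent.helper28.Coul

variable {d : ℕ}

/-- squared length of the gradient of the potential -/
def gs (f : HR d) (x : T d) : ℝ := ∑ i, (G i f x) ^ 2

lemma int_mul (f g : HR d) : Integrable (fun x => f x * g x) (mu d) :=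
  (Lp.memLp f).integrable_mul (Lp.memLp g)

lemma int_hr (f : HR d) : Integrable (fun x => f x) (mu d) := (Lp.memLp f).integrable one_le_two

lemma integrable_gs (f : HR d) : Integrable (gs f) (mu d) := by
  unfold gs
  apply integrable_finsetSum
  intro i _
  have := int_mul (G i f) (G i f)
  simpa only [← sq] using this

lemma integral_gs (f : HR d) : ∫ x, gs f x ∂(mu d) = En f := by
  unfold gs En
  rw [integral_finsetSum]
  · refine Finset.sum_congr rfl fun i _ => ?_
    rw [← real_inner_self_eq_norm_sq, inner_hr]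
    simp only [← sq]
  · intro i _
    have := int_mul (G i f) (G i f)
    simpa only [← sq] using this

lemma gs_nonneg (f : HR d) (x : T d) : 0 ≤ gs f x := Finset.sum_nonneg fun _ _ => sq_nonneg _

/-- almost everywhere bounded -/
def BdF (C : ℝ) (f : T d → ℝ) : Prop := ∀ᵐ x ∂(mu d), |f x| ≤ C

lemma int_bd {f g : T d → ℝ} {C : ℝ} (hf : Integrable f (mu d))
    (hg : AEStronglyMeasurable g (mu d)) (hb : BdF C g) :
    Integrable (fun x => f x * g x) (mu d) := by
  refine (hf.abs.mul_const C).mono (hf.aestronglyMeasurable.mul hg) ?_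
  filter_upwards [hb] with x hx
  rw [norm_mul, norm_mul, Real.norm_eq_abs, Real.norm_eq_abs, Real.norm_eq_abs, abs_abs]
  exact mul_le_mul_of_nonneg_left (hx.trans (le_abs_self C)) (abs_nonneg _)

lemma exists_prod {a : T d → ℝ} {C : ℝ} (ha : AEStronglyMeasurable a (mu d)) (hb : BdF C a)
    (f : HR d) : ∃ p : HR d, p =ᵐ[mu d] fun x => a x * f x := by
  have hm : MemLp (fun x => a x * f x) 2 (mu d) := by
    refine ((Lp.memLp f).const_mul C).mono (ha.mul (Lp.aestronglyMeasurable f)) ?_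
    filter_upwards [hb] with x hx
    rw [norm_mul, norm_mul, Real.norm_eq_abs, Real.norm_eq_abs, Real.norm_eq_abs]
    exact mul_le_mul_of_nonneg_right (hx.trans (le_abs_self C)) (abs_nonneg _)
  exact ⟨hm.toLp _, hm.coeFn_toLp⟩

/-- the functional `∫|∇h|²(1-κ-ρ)` -/
def J (κ : ℝ) (f : HR d) : ℝ := ∫ x, gs f x * (1 - κ - f x) ∂(mu d)

/-- `V i = (1-κ-ρ)∂_i h` -/
def IsV (κ : ℝ) (r : HR d) (V : Fin d → HR d) : Prop :=
  ∀ i, V i =ᵐ[mu d] fun x => (1 - κ - r x) * G i r x

/-- the first variation -/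
def PP (r : HR d) (V : Fin d → HR d) (x : T d) : ℝ := 2 * (-(∑ i, G i (V i)) : HR d) x - gs r x

lemma integrable_PP (r : HR d) (V : Fin d → HR d) : Integrable (PP r V) (mu d) :=
  ((int_hr _).const_mul 2).sub (integrable_gs r)

lemma bd_const_sub {C κ : ℝ} {r : HR d} (hr : BdF C r) : BdF (|1 - κ| + C) (fun x => 1 - κ - r x) := by
  filter_upwards [hr] with x hx
  exact (abs_sub _ _).trans (add_le_add le_rfl hx)

lemma meas_const_sub {κ : ℝ} (r : HR d) : AEStronglyMeasurable (fun x => 1 - κ - r x) (mu d) :=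
  aestronglyMeasurable_const.sub (Lp.aestronglyMeasurable r)

/-- cross term -/
def cr (f g : HR d) (x : T d) : ℝ := ∑ i, G i f x * G i g x

lemma integrable_cr (f g : HR d) : Integrable (cr f g) (mu d) := by
  unfold cr
  exact integrable_finsetSum _ fun i _ => int_mul (G i f) (G i g)

lemma gs_add_smul (r p : HR d) (s : ℝ) :
    ∀ᵐ x ∂(mu d), gs (r + s • p) x = gs r x + 2 * s * cr r p x + s ^ 2 * gs p x := by
  have h : ∀ i, ∀ᵐ x ∂(mu d), G i (r + s • p) x = G i r x + s * G i p x := by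
    intro i
    rw [map_add, map_smul]
    filter_upwards [Lp.coeFn_add (G i r) (s • G i p), Lp.coeFn_smul s (G i p)] with x h1 h2
    rw [h1, Pi.add_apply, h2, Pi.smul_apply, smul_eq_mul]
  filter_upwards [ae_all_iff.mpr h] with x hx
  unfold gs cr
  simp only [hx]
  rw [Finset.mul_sum, Finset.mul_sum, ← Finset.sum_add_distrib, ← Finset.sum_add_distrib]
  exact Finset.sum_congr rfl fun i _ => by ring

lemma int_PP {C κ : ℝ} {r p : HR d} {V : Fin d → HR d} (hV : IsV κ r V) (hr : BdF C r)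
    (hp : BdF C p) :
    ∫ x, PP r V x * p x ∂(mu d) =
      ∫ x, (2 * cr r p x * (1 - κ - r x) - gs r x * p x) ∂(mu d) := by
  have hg : Integrable (fun x => gs r x * p x) (mu d) :=
    int_bd (integrable_gs r) (Lp.aestronglyMeasurable p) hp
  have hc : Integrable (fun x => 2 * cr r p x * (1 - κ - r x)) (mu d) :=
    int_bd ((integrable_cr r p).const_mul 2) (meas_const_sub r) (bd_const_sub hr)
  have hq : Integrable (fun x => 2 * ((-(∑ i, G i (V i)) : HR d) x * p x)) (mu d) :=
    (int_mul _ _).const_mul 2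
  rw [integral_sub hc hg]
  have e1 : ∫ x, PP r V x * p x ∂(mu d) = ∫ x, 2 * ((-(∑ i, G i (V i)) : HR d) x * p x) ∂(mu d) -
      ∫ x, gs r x * p x ∂(mu d) := by
    rw [← integral_sub hq hg]
    congr 1
    ext x
    unfold PP
    ring
  rw [e1, integral_const_mul, ← inner_hr]
  congr 1
  have e2 : ⟪-(∑ i, G i (V i)), p⟫_ℝ = ∑ i, ⟪V i, G i p⟫_ℝ := by
    rw [inner_neg_left, sum_inner, ← Finset.sum_neg_distrib]
    refine Finset.sum_congr rfl fun i _ => ?_
    rw [inner_G, neg_neg]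
  rw [e2]
  have e3 : ∀ i, ⟪V i, G i p⟫_ℝ = ∫ x, (G i r x * G i p x) * (1 - κ - r x) ∂(mu d) := by
    intro i
    rw [inner_hr]
    apply integral_congr_ae
    filter_upwards [hV i] with x hx
    rw [hx]; ring
  simp only [e3]
  rw [← integral_finsetSum]
  · rw [← integral_const_mul]
    congr 1
    ext x
    unfold cr
    rw [Finset.mul_sum, Finset.mul_sum, Finset.sum_mul]
    exact Finset.sum_congr rfl fun i _ => by ring
  · intro i _
    exact int_bd (int_mul _ _) (meas_const_sub r) (bd_const_sub hr)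

/-- expansion of the functional along a line -/
lemma J_expand {C κ : ℝ} {r p : HR d} {V : Fin d → HR d} (hV : IsV κ r V) (hr : BdF C r)
    (hp : BdF C p) : ∃ A B : ℝ, ∀ s : ℝ,
      J κ (r + s • p) = J κ r + s * ∫ x, PP r V x * p x ∂(mu d) + s ^ 2 * A + s ^ 3 * B := by
  refine ⟨∫ x, (gs p x * (1 - κ - r x) - 2 * cr r p x * p x) ∂(mu d),
    ∫ x, -(gs p x * p x) ∂(mu d), fun s => ?_⟩
  rw [int_PP hV hr hp]
  unfold J
  have i1 : Integrable (fun x => gs r x * (1 - κ - r x)) (mu d) :=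
    int_bd (integrable_gs r) (meas_const_sub r) (bd_const_sub hr)
  have i2 : Integrable (fun x => 2 * cr r p x * (1 - κ - r x) - gs r x * p x) (mu d) :=
    (int_bd ((integrable_cr r p).const_mul 2) (meas_const_sub r) (bd_const_sub hr)).sub
      (int_bd (integrable_gs r) (Lp.aestronglyMeasurable p) hp)
  have i3 : Integrable (fun x => gs p x * (1 - κ - r x) - 2 * cr r p x * p x) (mu d) :=
    (int_bd (integrable_gs p) (meas_const_sub r) (bd_const_sub hr)).sub
      (int_bd ((integrable_cr r p).const_mul 2) (Lp.aestronglyMeasurable p) hp)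
  have i4 : Integrable (fun x => -(gs p x * p x)) (mu d) :=
    (int_bd (integrable_gs p) (Lp.aestronglyMeasurable p) hp).neg
  have j2 := i2.const_mul s
  have j3 := i3.const_mul (s ^ 2)
  have j4 := i4.const_mul (s ^ 3)
  rw [← integral_const_mul, ← integral_const_mul, ← integral_const_mul]
  have k1 : Integrable (fun x => gs r x * (1 - κ - r x) +
      s * (2 * cr r p x * (1 - κ - r x) - gs r x * p x)) (mu d) := i1.add j2
  have k2 : Integrable (fun x => gs r x * (1 - κ - r x) +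
      s * (2 * cr r p x * (1 - κ - r x) - gs r x * p x) +
      s ^ 2 * (gs p x * (1 - κ - r x) - 2 * cr r p x * p x)) (mu d) := k1.add j3
  rw [← integral_add i1 j2, ← integral_add k1 j3, ← integral_add k2 j4]
  apply integral_congr_ae
  filter_upwards [gs_add_smul r p s, Lp.coeFn_add r (s • p), Lp.coeFn_smul s p] with x h1 h2 h3
  rw [h1, h2, Pi.add_apply, h3, Pi.smul_apply, smul_eq_mul]
  ring

lemma exists_V {C : ℝ} (κ : ℝ) {r : HR d} (hr : BdF C r) : ∃ V : Fin d → HR d, IsV κ r V := by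
  choose V hV using fun i => exists_prod (meas_const_sub (κ := κ) r) (bd_const_sub (κ := κ) hr)
    (G i r)
  exact ⟨V, hV⟩

lemma sL_mul (k : Fin d → ℤ) : (sL k : ℂ) = -((w k * (4 * Real.pi ^ 2 * dot k k) : ℝ) : ℂ) := by
  rcases eq_or_ne k 0 with rfl | hk
  · simp [sL]
  · rw [w_mul hk]; simp [sL, hk]

lemma trace_R (r : HR d) : ∑ i, R i i r = Lap d r := by
  apply hr_ext
  intro k
  have h : ∀ s : Finset (Fin d), fr (∑ i ∈ s, R i i r) k = ∑ i ∈ s, sH i i k * fr r k := by
    intro s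
    induction s using Finset.cons_induction with
    | empty => simp [fr, fc]
    | cons a s ha ih => rw [Finset.sum_cons, Finset.sum_cons, fr_add, ih, fr_R]
  rw [h, fr_Lap, ← Finset.sum_mul]
  congr 1
  rw [sL_mul]
  unfold sH dot
  push_cast
  rw [Finset.mul_sum, Finset.mul_sum, ← Finset.sum_neg_distrib]
  exact Finset.sum_congr rfl fun i _ => by ring

/-- mean one -/
lemma Lap_of_mean {r : HR d} (h1 : ∫ x, r x ∂(mu d) = 1) : Lap d r =ᵐ[mu d] fun x => 1 - r x := by
  have hc : Continuous fun _ : T d => (1 : ℝ) := continuous_const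
  have e : Lap d r = ofCont hc - r := by
    apply hr_ext
    intro k
    rw [fr_Lap, fr_sub, fr_ofCont]
    have h2 : fc (fun _ : T d => ((1 : ℝ) : ℂ)) k = if k = 0 then 1 else 0 := by
      have := integral_mF_conj (d := d) k 0
      rw [mFourier_zero] at this
      unfold fc
      rw [show (fun x : T d => conj (mFourier k x) * ((1 : ℝ) : ℂ)) =
        fun x => conj (mFourier k x) * (1 : C(T d, ℂ)) x by ext x; simp]
      rw [this]
      simp only [eq_comm]
    rw [h2]
    rcases eq_or_ne k 0 with rfl | hk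
    · rw [fr_zero, h1]; simp [sL]
    · simp [sL, hk]
  rw [e]
  filter_upwards [Lp.coeFn_sub (ofCont hc) r, ofCont_ae hc] with x h2 h3
  rw [h2, Pi.sub_apply, h3]

/-- right hand side of the equation for the first variation -/
def ff (κ : ℝ) (r : HR d) (x : T d) : ℝ :=
  2 * (Lap d r x) ^ 2 - 2 * (∑ i, ∑ j, (R i j r x) ^ 2) - 2 * κ * Lap d r x

lemma int_sq (f : HR d) : Integrable (fun x => (f x) ^ 2) (mu d) := by
  simpa only [← sq] using int_mul f f

lemma integrable_ff (κ : ℝ) (r : HR d) : Integrable (ff κ r) (mu d) := by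
  unfold ff
  refine ((int_sq _).const_mul 2 |>.sub (Integrable.const_mul ?_ 2)).sub
    ((int_hr _).const_mul (2 * κ))
  exact integrable_finsetSum _ fun i _ => integrable_finsetSum _ fun j _ => int_sq _

lemma fc_neg_Bn (f g : HR d) (k : Fin d → ℤ) :
    fc (fun x => ((f x * g x : ℝ) : ℂ)) k = Bn f g (-k) := by
  unfold fc Bn
  congr 1
  ext x
  rw [mFourier_neg]
  push_cast
  ring

lemma fcr_add {f g : T d → ℝ} (hf : Integrable f (mu d)) (hg : Integrable g (mu d))
    (k : Fin d → ℤ) : fc (fun x => ((f x + g x : ℝ) : ℂ)) k =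
      fc (fun x => (f x : ℂ)) k + fc (fun x => (g x : ℂ)) k := by
  refine Eq.trans ?_ (integral_add (int_mF (hf.ofReal (𝕜 := ℂ)) k)
    (int_mF (hg.ofReal (𝕜 := ℂ)) k))
  unfold fc
  congr 1
  ext x
  push_cast
  exact mul_add _ _ _

lemma fcr_const_mul (c : ℝ) (f : T d → ℝ)
    (k : Fin d → ℤ) : fc (fun x => ((c * f x : ℝ) : ℂ)) k = c * fc (fun x => (f x : ℂ)) k := by
  unfold fc
  rw [← integral_const_mul]
  congr 1
  ext x
  push_cast
  ring

lemma fcr_sum {ι : Type*} (s : Finset ι) {f : ι → T d → ℝ}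
    (hf : ∀ i ∈ s, Integrable (f i) (mu d)) (k : Fin d → ℤ) :
    fc (fun x => ((∑ i ∈ s, f i x : ℝ) : ℂ)) k = ∑ i ∈ s, fc (fun x => (f i x : ℂ)) k := by
  refine Eq.trans ?_ (integral_finsetSum _ fun i hi => int_mF ((hf i hi).ofReal (𝕜 := ℂ)) k)
  unfold fc
  congr 1
  ext x
  push_cast
  rw [Finset.mul_sum]

lemma fr_sum (f : Fin d → HR d) (k : Fin d → ℤ) : fr (∑ i, f i) k = ∑ i, fr (f i) k := by
  have h : ∀ s : Finset (Fin d), fr (∑ i ∈ s, f i) k = ∑ i ∈ s, fr (f i) k := by
    intro s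
    induction s using Finset.cons_induction with
    | empty => simp [fr, fc]
    | cons a s ha ih => rw [Finset.sum_cons, Finset.sum_cons, fr_add, ih]
  exact h _

lemma fc_PP {r : HR d} {V : Fin d → HR d} (k : Fin d → ℤ) :
    fc (fun x => (PP r V x : ℂ)) k = -2 * (∑ i, sG i k * fr (V i) k) -
      ∑ i, Bn (G i r) (G i r) (-k) := by
  have e : (fun x => (PP r V x : ℂ)) = fun x => ((2 * (-(∑ i, G i (V i)) : HR d) x +
      (-1) * gs r x : ℝ) : ℂ) := by
    ext x; unfold PP; push_cast; ring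
  rw [e, fcr_add ((int_hr _).const_mul 2) ((integrable_gs r).const_mul (-1)), fcr_const_mul,
    fcr_const_mul]
  have e2 : fc (fun x => (((-(∑ i, G i (V i)) : HR d) x : ℝ) : ℂ)) k =
      -∑ i, sG i k * fr (V i) k := by
    rw [← fr_eq, fr_neg', fr_sum]
    simp only [fr_G]
  have e3 : fc (fun x => (gs r x : ℂ)) k = ∑ i, Bn (G i r) (G i r) (-k) := by
    unfold gs
    rw [fcr_sum _ fun i _ => int_sq _]
    refine Finset.sum_congr rfl fun i _ => ?_
    rw [← fc_neg_Bn]
    simp only [sq]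
  rw [e2, e3]
  push_cast
  ring

lemma fr_V {κ : ℝ} {r : HR d} {V : Fin d → HR d} (hV : IsV κ r V)
    (h1 : ∫ x, r x ∂(mu d) = 1) (i : Fin d) (k : Fin d → ℤ) :
    fr (V i) k = Bn (Lap d r) (G i r) (-k) - κ * fr (G i r) k := by
  rw [fr_eq]
  have e : (fun x => ((V i x : ℝ) : ℂ)) =ᵐ[mu d] fun x => ((Lap d r x * G i r x +
      (-κ) * G i r x : ℝ) : ℂ) := by
    filter_upwards [hV i, Lap_of_mean h1] with x a b
    rw [a, b]
    push_cast
    ring
  rw [fc_congr e, fcr_add (int_mul _ _) ((int_hr _).const_mul _), fcr_const_mul, fc_neg_Bn,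
    ← fr_eq]
  push_cast
  ring

lemma fc_ff (κ : ℝ) (r : HR d) (k : Fin d → ℤ) :
    fc (fun x => (ff κ r x : ℂ)) k = 2 * Bn (Lap d r) (Lap d r) (-k) -
      2 * (∑ i, ∑ j, Bn (R i j r) (R i j r) (-k)) - 2 * κ * fr (Lap d r) k := by
  have i1 : Integrable (fun x => ∑ i, ∑ j, (R i j r x) ^ 2) (mu d) :=
    integrable_finsetSum _ fun i _ => integrable_finsetSum _ fun j _ => int_sq _
  have e : (fun x => (ff κ r x : ℂ)) = fun x => ((2 * (Lap d r x) ^ 2 +
      ((-2) * (∑ i, ∑ j, (R i j r x) ^ 2) + (-(2 * κ)) * Lap d r x) : ℝ) : ℂ) := by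
    ext x; unfold ff; push_cast; ring
  have i2 : Integrable (fun x => (-2) * (∑ i, ∑ j, (R i j r x) ^ 2) +
      (-(2 * κ)) * Lap d r x) (mu d) := (i1.const_mul (-2)).add ((int_hr _).const_mul _)
  rw [e, fcr_add ((int_sq _).const_mul 2) i2,
    fcr_add (i1.const_mul (-2)) ((int_hr _).const_mul _), fcr_const_mul, fcr_const_mul,
    fcr_const_mul, ← fr_eq]
  have e1 : fc (fun x => (((Lap d r x) ^ 2 : ℝ) : ℂ)) k = Bn (Lap d r) (Lap d r) (-k) := by
    rw [← fc_neg_Bn]; simp only [sq]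
  have e2 : fc (fun x => ((∑ i, ∑ j, (R i j r x) ^ 2 : ℝ) : ℂ)) k =
      ∑ i, ∑ j, Bn (R i j r) (R i j r) (-k) := by
    rw [fcr_sum _ fun i _ => integrable_finsetSum _ fun j _ => int_sq _]
    refine Finset.sum_congr rfl fun i _ => ?_
    rw [fcr_sum _ fun j _ => int_sq _]
    refine Finset.sum_congr rfl fun j _ => ?_
    rw [← fc_neg_Bn]; simp only [sq]
  rw [e1, e2]
  push_cast
  ring

lemma dot_mul_sG (i : Fin d) (k : Fin d → ℤ) :
    ((4 * Real.pi ^ 2 * dot k k : ℝ) : ℂ) * sG i k = 2 * Real.pi * Complex.I * (k i : ℂ) := by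
  rcases eq_or_ne k 0 with rfl | hk
  · simp [sG]
  · have h := w_mul hk
    have h' : ((w k : ℝ) : ℂ) * ((4 * Real.pi ^ 2 * dot k k : ℝ) : ℂ) = 1 := by
      rw [← Complex.ofReal_mul, h]; simp
    unfold sG
    linear_combination (2 * Real.pi * Complex.I * (k i : ℂ)) * h'

/-- the equation for the first variation -/
theorem PP_eq {κ : ℝ} {r : HR d} {V : Fin d → HR d} (hV : IsV κ r V)
    (h1 : ∫ x, r x ∂(mu d) = 1) (k : Fin d → ℤ) :
    ((4 * Real.pi ^ 2 * dot k k : ℝ) : ℂ) * fc (fun x => (PP r V x : ℂ)) k =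
      - fc (fun x => (ff κ r x : ℂ)) k := by
  rw [fc_PP, fc_ff]
  have hid := ident r (-k)
  rw [dot_neg_neg] at hid
  have e1 : ((4 * Real.pi ^ 2 * dot k k : ℝ) : ℂ) * (∑ i, sG i k * fr (V i) k) =
      ∑ i, (2 * Real.pi * Complex.I * (k i : ℂ)) * Bn (Lap d r) (G i r) (-k) -
        κ * ((-(4 * Real.pi ^ 2) * w k * dot k k : ℝ) : ℂ) * fr r k := by
    rw [← sum_nG k k, Finset.mul_sum, Finset.mul_sum, Finset.sum_mul, ← Finset.sum_sub_distrib]
    refine Finset.sum_congr rfl fun i _ => ?_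
    rw [fr_V hV h1, fr_G, ← mul_assoc, dot_mul_sG]
    ring
  have e2 : fr (Lap d r) k = ((-(4 * Real.pi ^ 2) * w k * dot k k : ℝ) : ℂ) * fr r k := by
    rw [fr_Lap, sL_mul]; push_cast; ring
  have e3 : ∑ i, (2 * Real.pi * Complex.I * (((-k) i : ℤ) : ℂ)) * Bn (Lap d r) (G i r) (-k) =
      - ∑ i, (2 * Real.pi * Complex.I * (k i : ℂ)) * Bn (Lap d r) (G i r) (-k) := by
    rw [← Finset.sum_neg_distrib]
    refine Finset.sum_congr rfl fun i _ => ?_
    simp only [Pi.neg_apply, Int.cast_neg]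
    ring
  rw [e3] at hid
  rw [e2]
  linear_combination -2 * e1 + hid

end Pool.Agent.helper28.Coul
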