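import Pool.Agent.helper28.Coul.PA1

/-!
# The multiplier estimate
-/

set_option autoImplicit false

open MeasureTheory UnitAddTorus Filter Topology
open scoped ENNReal ComplexConjugate InnerProductSpace

noncomputable section

namespace Pool.Agent.helper28.Coul

variable {d : ℕ}

/-- the constant `2(d-1)/(3d)` -/
def kp (d : ℕ) : ℝ := 2 * ((d : ℝ) - 1) / (3 * d)

lemma ff_le (hd : 0 < d) {r : HR d} (h1 : ∫ x, r x ∂(mu d) = 1) :
    ∀ᵐ x ∂(mu d), r x = 0 → ff (kp d) r x ≤ kp d := by
  have ht : ∀ᵐ x ∂(mu d), ∑ i, R i i r x = Lap d r x := by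
    rw [← trace_R]
    have h : ∀ s : Finset (Fin d), ∀ᵐ x ∂(mu d), (∑ i ∈ s, R i i r : HR d) x = ∑ i ∈ s, R i i r x := by
      intro s
      induction s using Finset.cons_induction with
      | empty =>
        filter_upwards [Lp.coeFn_zero ℝ 2 (mu d)] with x hx
        simp
      | cons a s ha ih =>
        rw [Finset.sum_cons]
        filter_upwards [ih, Lp.coeFn_add (R a a r) (∑ i ∈ s, R i i r)] with x h1 h2
        rw [h2, Pi.add_apply, h1, Finset.sum_cons]
    filter_upwards [h Finset.univ] with x hx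
    exact hx.symm
  filter_upwards [ht, Lap_of_mean h1] with x a b hx
  rw [hx, sub_zero] at b
  rw [b] at a
  have h2 : ∑ i, (R i i r x) ^ 2 ≤ ∑ i, ∑ j, (R i j r x) ^ 2 :=
    Finset.sum_le_sum fun i _ => Finset.single_le_sum (f := fun j => (R i j r x) ^ 2)
      (fun j _ => sq_nonneg _) (Finset.mem_univ i)
  have h3 : (∑ i, R i i r x) ^ 2 ≤ (Finset.univ : Finset (Fin d)).card * ∑ i, (R i i r x) ^ 2 :=
    sq_sum_le_card_mul_sum_sq
  rw [a, Finset.card_univ, Fintype.card_fin] at h3
  have hd' : (0 : ℝ) < d := by exact_mod_cast hd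
  have h4 : 1 / (d : ℝ) ≤ ∑ i, ∑ j, (R i j r x) ^ 2 := by
    rw [div_le_iff₀ hd']
    nlinarith
  unfold ff
  rw [b]
  have e : kp d = 2 / 3 * (1 - 1 / d) := by unfold kp; field_simp
  rw [e]
  nlinarith

lemma G_negLap (r : HR d) (i : Fin d) : G i (-(Lap d r)) = G i r := by
  apply hr_ext
  intro k
  rw [fr_G, fr_G, fr_neg', fr_Lap]
  rcases eq_or_ne k 0 with rfl | hk
  · simp [sG]
  · simp [sL, hk]

lemma bd_negLap {C : ℝ} {r : HR d} (hr : BdF C r) (h1 : ∫ x, r x ∂(mu d) = 1) :
    BdF (1 + C) (-(Lap d r)) := by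
  filter_upwards [hr, Lap_of_mean h1, Lp.coeFn_neg (Lap d r)] with x a b c
  rw [c, Pi.neg_apply, b, abs_neg]
  exact (abs_sub _ _).trans (by rw [abs_one]; linarith)

lemma integral_PP_sub_one {C κ : ℝ} {r : HR d} {V : Fin d → HR d} (hV : IsV κ r V)
    (hr : BdF C r) (h1 : ∫ x, r x ∂(mu d) = 1) :
    ∫ x, PP r V x * (r x - 1) ∂(mu d) = 3 * J κ r + κ * En r := by
  have hC : 0 ≤ C := by
    obtain ⟨x, hx⟩ := hr.exists
    exact (abs_nonneg _).trans hx
  have hb1 : BdF (1 + C) r := by
    filter_upwards [hr] with x hx; linarith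
  have h := int_PP hV hb1 (bd_negLap hr h1)
  have ae1 : (-(Lap d r) : HR d) =ᵐ[mu d] fun x => r x - 1 := by
    filter_upwards [Lap_of_mean h1, Lp.coeFn_neg (Lap d r)] with x b c
    rw [c, Pi.neg_apply, b]; ring
  have e1 : ∫ x, PP r V x * (-(Lap d r) : HR d) x ∂(mu d) = ∫ x, PP r V x * (r x - 1) ∂(mu d) := by
    apply integral_congr_ae
    filter_upwards [ae1] with x hx
    rw [hx]
  have e2 : ∫ x, (2 * cr r (-(Lap d r)) x * (1 - κ - r x) - gs r x * (-(Lap d r) : HR d) x) ∂(mu d) =
      ∫ x, (3 * (gs r x * (1 - κ - r x)) + κ * gs r x) ∂(mu d) := by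
    apply integral_congr_ae
    filter_upwards [ae1] with x hx
    rw [hx]
    have : cr r (-(Lap d r)) x = gs r x := by
      unfold cr gs
      refine Finset.sum_congr rfl fun i _ => ?_
      rw [G_negLap, sq]
    rw [this]; ring
  rw [e1, e2] at h
  rw [h, integral_add, integral_const_mul, integral_const_mul, integral_gs]
  · rfl
  · exact (int_bd (integrable_gs r) (meas_const_sub r) (bd_const_sub hr)).const_mul 3
  · exact (integrable_gs r).const_mul κ

/-- truncation -/
def trunc (K t : ℝ) : ℝ := min (max t 0) K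

lemma trunc_mono {K s t : ℝ} (h : s ≤ t) : trunc K s ≤ trunc K t := by
  unfold trunc; exact min_le_min_right _ (max_le_max_right _ h)

lemma trunc_lip {K s t : ℝ} (h : s ≤ t) : trunc K t - trunc K s ≤ t - s := by
  unfold trunc
  have h1 : max t 0 ≤ max s 0 + (t - s) := by
    apply max_le
    · linarith [le_max_left s 0]
    · linarith [le_max_right s 0]
  rcases le_total (max s 0) K with h2 | h2
  · rw [min_eq_left h2]
    linarith [min_le_left (max t 0) K]
  · rw [min_eq_right h2]
    linarith [min_le_right (max t 0) K]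

lemma trunc_prop (K s t : ℝ) : (trunc K s - trunc K t) ^ 2 ≤ (s - t) * (trunc K s - trunc K t) := by
  rcases le_total s t with h | h
  · have h1 := trunc_mono (K := K) h
    have h2 := trunc_lip (K := K) h
    nlinarith
  · have h1 := trunc_mono (K := K) h
    have h2 := trunc_lip (K := K) h
    nlinarith

lemma continuous_trunc (K : ℝ) : Continuous (trunc K) := by unfold trunc; fun_prop

lemma trunc_nonneg {K : ℝ} (hK : 0 ≤ K) (t : ℝ) : 0 ≤ trunc K t :=
  le_min (le_max_right _ _) hK

lemma trunc_le (K t : ℝ) : trunc K t ≤ K := min_le_right _ _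

/-- **the multiplier estimate** -/
theorem lam_le (hd : 0 < d) {r : HR d} {V : Fin d → HR d} (hV : IsV (kp d) r V)
    (h1 : ∫ x, r x ∂(mu d) = 1) {c : ℝ} (hc : ∀ᵐ x ∂(mu d), PP r V x < c → r x = 0) :
    ∫ x, max (c - PP r V x) 0 ∂(mu d) ≤ kp d * En r := by
  set l : T d → ℝ := fun x => c - PP r V x with hldef
  have hl : Integrable l (mu d) := (integrable_const c).sub (integrable_PP r V)
  have hf := integrable_ff (kp d) r
  have hrel : ∀ k, fc (fun x => (ff (kp d) r x : ℂ)) k =
      ((4 * Real.pi ^ 2 * dot k k : ℝ) : ℂ) * fc (fun x => (l x : ℂ)) k := by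
    intro k
    have e : (fun x => (l x : ℂ)) = fun x => ((c * 1 + (-1) * PP r V x : ℝ) : ℂ) := by
      ext x; rw [hldef]; push_cast; ring
    rw [e, fcr_add ((integrable_const (1 : ℝ)).const_mul c) ((integrable_PP r V).const_mul (-1)),
      fcr_const_mul, fcr_const_mul]
    have h2 : ((4 * Real.pi ^ 2 * dot k k : ℝ) : ℂ) * fc (fun _ : T d => ((1 : ℝ) : ℂ)) k = 0 := by
      rcases eq_or_ne k 0 with rfl | hk
      · simp [dot]
      · have := integral_mF_conj (d := d) k 0
        rw [mFourier_zero] at this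
        unfold fc
        rw [show (fun x : T d => conj (mFourier k x) * ((1 : ℝ) : ℂ)) =
          fun x => conj (mFourier k x) * (1 : C(T d, ℂ)) x by ext x; simp]
        rw [this, if_neg (fun h => hk h.symm), mul_zero]
    have h3 := PP_eq hV h1 k
    push_cast at h2 h3 ⊢
    linear_combination (-c) * h2 + h3
  have key : ∀ n : ℕ, ∫ x, trunc n (l x) ∂(mu d) ≤ kp d * En r := by
    intro n
    have hn : (0 : ℝ) ≤ n := Nat.cast_nonneg n
    have hb : ∀ s, |trunc (n : ℝ) s| ≤ n := fun s => by
      rw [abs_of_nonneg (trunc_nonneg hn s)]; exact trunc_le _ _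
    have h := dirichlet_L1 hl hf hrel (trunc_prop n) (continuous_trunc n) hb r
    have hti : Integrable (fun x => trunc n (l x)) (mu d) := by
      refine (integrable_const (n : ℝ)).mono
        ((continuous_trunc n).comp_aestronglyMeasurable hl.aestronglyMeasurable)
        (Eventually.of_forall fun x => ?_)
      rw [Real.norm_eq_abs, Real.norm_eq_abs, abs_of_nonneg hn]
      exact hb _
    have hzero : ∀ᵐ x ∂(mu d), r x ≠ 0 → trunc n (l x) = 0 := by
      filter_upwards [hc] with x hx hr
      have : ¬ PP r V x < c := fun h => hr (hx h)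
      have h2 : l x ≤ 0 := by rw [hldef]; simp only; linarith
      unfold trunc
      rw [max_eq_right h2, min_eq_left hn]
    have e1 : ∫ x, Lap d r x * trunc n (l x) ∂(mu d) = ∫ x, trunc n (l x) ∂(mu d) := by
      apply integral_congr_ae
      filter_upwards [hzero, Lap_of_mean h1] with x a b
      by_cases hr : r x = 0
      · rw [b, hr]; ring
      · rw [a hr, mul_zero]
    have e2 : ∫ x, ff (kp d) r x * trunc n (l x) ∂(mu d) ≤ kp d * ∫ x, trunc n (l x) ∂(mu d) := by
      rw [← integral_const_mul]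
      apply integral_mono_ae _ (hti.const_mul _)
      · filter_upwards [hzero, ff_le hd h1] with x a b
        by_cases hr : r x = 0
        · exact mul_le_mul_of_nonneg_right (b hr) (trunc_nonneg hn _)
        · simp only [a hr, mul_zero]; exact le_rfl
      · refine int_bd (C := n) hf
          ((continuous_trunc n).comp_aestronglyMeasurable hl.aestronglyMeasurable)
          (Eventually.of_forall fun x => hb _)
    rw [e1] at h
    set I := ∫ x, trunc n (l x) ∂(mu d) with hI
    have hI0 : 0 ≤ I := integral_nonneg fun x => trunc_nonneg hn _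
    have h3 : I ^ 2 ≤ kp d * I * En r :=
      h.trans (mul_le_mul_of_nonneg_right e2 (En_nonneg r))
    rcases hI0.eq_or_lt with h0 | h0
    · rw [← h0]
      have : 0 ≤ kp d := by
        unfold kp
        have : (1 : ℝ) ≤ d := by exact_mod_cast hd
        have : 0 ≤ (d : ℝ) - 1 := by linarith
        positivity
      exact mul_nonneg this (En_nonneg r)
    · have : I * I ≤ (kp d * En r) * I := by nlinarith
      exact le_of_mul_le_mul_right this h0
  have lim : Tendsto (fun n : ℕ => ∫ x, trunc n (l x) ∂(mu d)) atTop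
      (𝓝 (∫ x, max (l x) 0 ∂(mu d))) := by
    apply tendsto_integral_of_dominated_convergence (fun x => |l x|)
    · intro n
      exact (continuous_trunc n).comp_aestronglyMeasurable hl.aestronglyMeasurable
    · exact hl.abs
    · intro n
      refine Eventually.of_forall fun x => ?_
      have hn : (0 : ℝ) ≤ n := Nat.cast_nonneg n
      rw [Real.norm_eq_abs, abs_of_nonneg (trunc_nonneg hn _)]
      exact (min_le_left _ _).trans (max_le (le_abs_self _) (abs_nonneg _))
    · refine Eventually.of_forall fun x => ?_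
      apply tendsto_const_nhds.congr'
      filter_upwards [eventually_ge_atTop ⌈max (l x) 0⌉₊] with n hn
      unfold trunc
      rw [min_eq_left]
      exact (Nat.le_ceil _).trans (by exact_mod_cast hn)
  exact le_of_tendsto' lim key

end Pool.Agent.helper28.Coul
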