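import Pool.Agent.helper28.Coul.PA2

/-!
# Weak compactness and existence of a maximiser
-/

set_option autoImplicit false

open MeasureTheory UnitAddTorus Filter Topology
open scoped ENNReal ComplexConjugate InnerProductSpace

noncomputable section

namespace Pool.Agent.helper28.Coul

variable {d : ℕ}

/-- bounded sequences which tend weakly to zero -/
def WNull (x : ℕ → HR d) : Prop :=
  (∃ C : ℝ, ∀ n, ‖x n‖ ≤ C) ∧ ∀ y : HR d, Tendsto (fun n => ⟪y, x n⟫_ℝ) atTop (𝓝 0)

instance instFactTwo : Fact ((2 : ℝ≥0∞) ≠ ∞) := ⟨by simp⟩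

instance instSepHR : TopologicalSpace.SeparableSpace (HR d) := by
  have h0 : IsSeparable (mu d) := isSeparable_of_sigmaFinite (mu d)
  have h2 : SecondCountableTopology (HR d) := Lp.SecondCountableTopology
  infer_instance

lemma exists_weak {x : ℕ → HR d} {C : ℝ} (hx : ∀ n, ‖x n‖ ≤ C) :
    ∃ (a : HR d) (φ : ℕ → ℕ), StrictMono φ ∧ WNull (fun n => x (φ n) - a) := by
  have hsc := WeakDual.isSeqCompact_closedBall ℝ (HR d) (0 : StrongDual ℝ (HR d)) C
  let F : ℕ → WeakDual ℝ (HR d) :=
    fun n => (StrongDual.toWeakDual (InnerProductSpace.toDual ℝ (HR d) (x n)))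
  have hF : ∀ n, F n ∈ WeakDual.toStrongDual ⁻¹'
      Metric.closedBall (0 : StrongDual ℝ (HR d)) C := by
    intro n
    rw [Set.mem_preimage, mem_closedBall_zero_iff]
    have : (WeakDual.toStrongDual (F n)) = InnerProductSpace.toDual ℝ (HR d) (x n) := rfl
    rw [this, LinearIsometryEquiv.norm_map]
    exact hx n
  obtain ⟨L, hL, φ, hφ, hlim⟩ := hsc hF
  set a := (InnerProductSpace.toDual ℝ (HR d)).symm (WeakDual.toStrongDual L) with ha
  refine ⟨a, φ, hφ, ⟨C + ‖a‖, fun n => (norm_sub_le _ _).trans (by gcongr; exact hx _)⟩, ?_⟩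
  intro y
  have h1 : Tendsto (fun n => (F (φ n)) y) atTop (𝓝 (L y)) :=
    ((WeakDual.eval_continuous y).tendsto L).comp hlim
  have h2 : ∀ n, (F (φ n)) y = ⟪x (φ n), y⟫_ℝ := fun n => rfl
  have h3 : L y = ⟪a, y⟫_ℝ := by
    rw [ha, InnerProductSpace.toDual_symm_apply]; rfl
  simp only [inner_sub_right]
  have h4 := h1.sub_const (L y)
  rw [sub_self] at h4
  refine h4.congr fun n => ?_
  rw [h2, h3, real_inner_comm y, real_inner_comm y]

lemma wnull_comp {x : ℕ → HR d} (hx : WNull x) {φ : ℕ → ℕ} (hφ : Tendsto φ atTop atTop) :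
    WNull (fun n => x (φ n)) :=
  ⟨⟨hx.1.choose, fun n => hx.1.choose_spec (φ n)⟩, fun y => (hx.2 y).comp hφ⟩

lemma wnull_fr {x : ℕ → HR d} (hx : WNull x) (k : Fin d → ℤ) :
    Tendsto (fun n => fr (x n) k) atTop (𝓝 0) := by
  have hc : Continuous fun y : T d => (mFourier k y).re :=
    Complex.continuous_re.comp (mFourier k).continuous
  have hs : Continuous fun y : T d => (mFourier k y).im :=
    Complex.continuous_im.comp (mFourier k).continuous
  have e : ∀ f : HR d, fr f k = ((⟪ofCont hc, f⟫_ℝ : ℝ) : ℂ) -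
      Complex.I * ((⟪ofCont hs, f⟫_ℝ : ℝ) : ℂ) := by
    intro f
    rw [inner_hr, inner_hr, fr_eq]
    have e1 : ∫ x, ofCont hc x * f x ∂(mu d) = ∫ x, (mFourier k x).re * f x ∂(mu d) := by
      apply integral_congr_ae
      filter_upwards [ofCont_ae hc] with x hx
      rw [hx]
    have e2 : ∫ x, ofCont hs x * f x ∂(mu d) = ∫ x, (mFourier k x).im * f x ∂(mu d) := by
      apply integral_congr_ae
      filter_upwards [ofCont_ae hs] with x hx
      rw [hx]
    have i1 : Integrable (fun x => (mFourier k x).re * f x) (mu d) := by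
      refine (int_mul (ofCont hc) f).congr ?_
      filter_upwards [ofCont_ae hc] with x hx
      rw [hx]
    have i2 : Integrable (fun x => (mFourier k x).im * f x) (mu d) := by
      refine (int_mul (ofCont hs) f).congr ?_
      filter_upwards [ofCont_ae hs] with x hx
      rw [hx]
    have j1 : ∫ x, (((mFourier k x).re * f x : ℝ) : ℂ) ∂(mu d) =
      ((∫ x, (mFourier k x).re * f x ∂(mu d) : ℝ) : ℂ) := integral_ofReal
    have j2 : ∫ x, (((mFourier k x).im * f x : ℝ) : ℂ) ∂(mu d) =
      ((∫ x, (mFourier k x).im * f x ∂(mu d) : ℝ) : ℂ) := integral_ofReal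
    rw [e1, e2, ← j1, ← j2, ← integral_const_mul]
    refine Eq.trans ?_ (integral_sub (i1.ofReal (𝕜 := ℂ)) ((i2.ofReal (𝕜 := ℂ)).const_mul _))
    unfold fc
    congr 1
    ext x
    have : conj (mFourier k x) = ((mFourier k x).re : ℂ) - Complex.I * ((mFourier k x).im : ℂ) := by
      apply Complex.ext <;> simp
    rw [this]
    simp only [Complex.ofReal_mul]
    ring
  simp only [e]
  have h1 := (Complex.continuous_ofReal.tendsto 0).comp (hx.2 (ofCont hc))
  have h2 := ((Complex.continuous_ofReal.tendsto 0).comp (hx.2 (ofCont hs))).const_mul Complex.I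
  have h3 := h1.sub h2
  simpa using h3

lemma finite_w {ε : ℝ} (hε : 0 < ε) : {k : Fin d → ℤ | ε ≤ w k}.Finite := by
  set R : ℤ := ⌈1 / ε⌉ with hR
  apply Set.Finite.subset (Fintype.piFinset fun _ : Fin d => Finset.Icc (-R) R).finite_toSet
  intro k hk
  have hk' : ε ≤ w k := hk
  rw [Finset.mem_coe, Fintype.mem_piFinset]
  intro i
  rw [Finset.mem_Icc, ← abs_le]
  have hk0 : k ≠ 0 := by
    rintro rfl
    rw [w_zero] at hk'
    linarith
  have h1 := w_mul hk0
  have h2 := abs_le_dot k i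
  have h3 := one_le_dot_self hk0
  have h4 : (1 : ℝ) ≤ 4 * Real.pi ^ 2 := by nlinarith [Real.pi_gt_three]
  have h5 : dot k k * w k ≤ 1 := by
    have h6 : 0 ≤ dot k k * w k := mul_nonneg (dot_self_nonneg k) (w_nonneg k)
    nlinarith
  have h7 : dot k k ≤ 1 / ε := by
    rw [le_div_iff₀ hε]
    calc dot k k * ε ≤ dot k k * w k := by gcongr
      _ ≤ 1 := h5
  have h8 : |(k i : ℝ)| ≤ R := (h2.trans h7).trans (Int.le_ceil _)
  exact_mod_cast h8

lemma wnull_En {x : ℕ → HR d} (hx : WNull x) : Tendsto (fun n => En (x n)) atTop (𝓝 0) := by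
  obtain ⟨C, hC⟩ := hx.1
  have hC0 : 0 ≤ C := (norm_nonneg _).trans (hC 0)
  rw [Metric.tendsto_atTop']
  intro ε hε
  set δ : ℝ := ε / (2 * (C ^ 2 + 1)) with hδdef
  have hδ : 0 < δ := by positivity
  set S := (finite_w (d := d) hδ).toFinset with hS
  have h1 : Tendsto (fun n => ∑ k ∈ S, w k * ‖fr (x n) k‖ ^ 2) atTop (𝓝 0) := by
    have : Tendsto (fun n => ∑ k ∈ S, w k * ‖fr (x n) k‖ ^ 2) atTop
        (𝓝 (∑ k ∈ S, w k * ‖(0 : ℂ)‖ ^ 2)) :=
      tendsto_finsetSum _ fun k _ => (((wnull_fr hx k).norm).pow 2).const_mul _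
    simpa using this
  rw [Metric.tendsto_atTop'] at h1
  obtain ⟨N, hN⟩ := h1 (ε / 2) (half_pos hε)
  refine ⟨N, fun n hn => ?_⟩
  have h2 := hN n hn
  rw [Real.dist_eq, sub_zero] at h2 ⊢
  rw [abs_of_nonneg (En_nonneg _)]
  have h3 := (hasSum_En (x n))
  have h4 := hasSum_norm_hr (x n)
  have h5 : En (x n) ≤ ∑ k ∈ S, w k * ‖fr (x n) k‖ ^ 2 + δ * ‖x n‖ ^ 2 := by
    have h6 : HasSum (fun k => (if k ∈ S then w k * ‖fr (x n) k‖ ^ 2 else 0) +
        δ * ‖fr (x n) k‖ ^ 2)
        (∑ k ∈ S, w k * ‖fr (x n) k‖ ^ 2 + δ * ‖x n‖ ^ 2) := by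
      apply HasSum.add _ (h4.mul_left δ)
      have : HasSum (fun k => (if k ∈ S then w k * ‖fr (x n) k‖ ^ 2 else 0))
          (∑ k ∈ S, (if k ∈ S then w k * ‖fr (x n) k‖ ^ 2 else 0)) :=
        hasSum_sum_of_ne_finset_zero fun k hk => if_neg hk
      rwa [Finset.sum_congr rfl fun k hk => if_pos hk] at this
    refine hasSum_le (fun k => ?_) h3 h6
    split_ifs with hk
    · have : 0 ≤ δ * ‖fr (x n) k‖ ^ 2 := by positivity
      linarith
    · have : w k < δ := by
        by_contra hcon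
        exact hk ((finite_w hδ).mem_toFinset.mpr (not_lt.mp hcon))
      rw [zero_add]
      gcongr
  have h7 : δ * ‖x n‖ ^ 2 ≤ ε / 2 := by
    have h8 : ‖x n‖ ^ 2 ≤ C ^ 2 := by
      have := hC n
      gcongr
    calc δ * ‖x n‖ ^ 2 ≤ δ * (C ^ 2 + 1) := by gcongr; linarith
      _ = ε / 2 := by rw [hδdef]; field_simp
  calc En (x n) ≤ ∑ k ∈ S, w k * ‖fr (x n) k‖ ^ 2 + δ * ‖x n‖ ^ 2 := h5
    _ < ε / 2 + ε / 2 := by
        have := (le_abs_self _).trans_lt h2
        linarith
    _ = ε := by ring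

lemma wnull_G {x : ℕ → HR d} (hx : WNull x) (i : Fin d) :
    Tendsto (fun n => ‖G i (x n)‖) atTop (𝓝 0) := by
  have h : ∀ n, ‖G i (x n)‖ ^ 2 ≤ En (x n) := fun n =>
    Finset.single_le_sum (f := fun i => ‖G i (x n)‖ ^ 2) (fun i _ => by positivity)
      (Finset.mem_univ i)
  have h2 : Tendsto (fun n => Real.sqrt (En (x n))) atTop (𝓝 0) := by
    have := (Real.continuous_sqrt.tendsto 0).comp (wnull_En hx)
    rwa [Real.sqrt_zero] at this
  refine squeeze_zero (fun n => norm_nonneg _) (fun n => ?_) h2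
  exact Real.le_sqrt_of_sq_le (h n)

/-- clipping -/
def clip (K t : ℝ) : ℝ := max (-K) (min K t)

/-- bounded weakly null sequences against integrable functions -/
lemma wnull_l1 {z : ℕ → HR d} (hz : WNull z) {C : ℝ} (hb : ∀ n, BdF C (z n)) {u : T d → ℝ}
    (hu : Integrable u (mu d)) : Tendsto (fun n => ∫ x, u x * z n x ∂(mu d)) atTop (𝓝 0) := by
  have hC : 0 ≤ C := by
    obtain ⟨x, hx⟩ := (hb 0).exists
    exact (abs_nonneg _).trans hx
  have hclip : Tendsto (fun K : ℕ => ∫ x, |u x - clip K (u x)| ∂(mu d)) atTop (𝓝 0) := by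
    have : Tendsto (fun K : ℕ => ∫ x, |u x - clip K (u x)| ∂(mu d)) atTop
        (𝓝 (∫ _x : T d, (0 : ℝ) ∂(mu d))) := by
      apply tendsto_integral_of_dominated_convergence (fun x => |u x|)
      · intro K
        unfold clip
        have hm := hu.aestronglyMeasurable
        exact (hm.sub ((by fun_prop : Continuous fun t : ℝ =>
          max (-(K : ℝ)) (min K t)).comp_aestronglyMeasurable hm)).norm
      · exact hu.abs
      · intro K
        refine Eventually.of_forall fun x => ?_
        rw [Real.norm_eq_abs, abs_abs]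
        have hK : (0 : ℝ) ≤ K := Nat.cast_nonneg K
        unfold clip
        rcases le_total 0 (u x) with h | h
        · have h1 : min (K : ℝ) (u x) ≤ u x := min_le_right _ _
          have h2 : 0 ≤ min (K : ℝ) (u x) := le_min hK h
          rw [max_eq_right (by linarith), abs_of_nonneg (by linarith), abs_of_nonneg h]
          linarith
        · have h1 : min (K : ℝ) (u x) = u x := min_eq_right (h.trans hK)
          rw [h1]
          have h2 : u x ≤ max (-(K : ℝ)) (u x) := le_max_right _ _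
          have h3 : max (-(K : ℝ)) (u x) ≤ 0 := max_le (by linarith) h
          rw [abs_of_nonpos (by linarith), abs_of_nonpos h]
          linarith
      · refine Eventually.of_forall fun x => ?_
        apply tendsto_const_nhds.congr'
        filter_upwards [eventually_ge_atTop ⌈|u x|⌉₊] with K hK
        have h1 : |u x| ≤ K := (Nat.le_ceil _).trans (by exact_mod_cast hK)
        unfold clip
        rw [min_eq_right ((le_abs_self _).trans h1), max_eq_right (by linarith [neg_abs_le (u x)])]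
        simp
    simpa using this
  rw [Metric.tendsto_atTop']
  intro ε hε
  rw [Metric.tendsto_atTop'] at hclip
  obtain ⟨K0, hK0⟩ := hclip (ε / (2 * (C + 1))) (by positivity)
  have hK1 := hK0 (K0 + 1) (by simp)
  set K : ℝ := ((K0 + 1 : ℕ) : ℝ) with hKdef
  have hKpos : 0 ≤ K := Nat.cast_nonneg _
  rw [Real.dist_eq, sub_zero, abs_of_nonneg (integral_nonneg fun x => abs_nonneg _)] at hK1
  have hcc : Continuous (clip K) := by unfold clip; fun_prop
  have hcm : AEStronglyMeasurable (fun x => clip K (u x)) (mu d) :=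
    hcc.comp_aestronglyMeasurable hu.aestronglyMeasurable
  have hcb : ∀ t, |clip K t| ≤ K := by
    intro t
    unfold clip
    rw [abs_le]
    exact ⟨le_max_left _ _, max_le (by linarith) (min_le_left _ _)⟩
  have hcl : MemLp (fun x => clip K (u x)) 2 (mu d) :=
    MemLp.of_bound hcm K (Eventually.of_forall fun x => hcb _)
  set v : HR d := hcl.toLp _ with hv
  have hvae : v =ᵐ[mu d] fun x => clip K (u x) := hcl.coeFn_toLp
  have h2 := hz.2 v
  rw [Metric.tendsto_atTop'] at h2
  obtain ⟨N, hN⟩ := h2 (ε / 2) (half_pos hε)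
  refine ⟨N, fun n hn => ?_⟩
  have h3 := hN n hn
  rw [Real.dist_eq, sub_zero] at h3 ⊢
  have hci : Integrable (fun x => clip K (u x)) (mu d) := hcl.integrable one_le_two
  have hui : Integrable (fun x => u x - clip K (u x)) (mu d) := hu.sub hci
  have e : ∫ x, u x * z n x ∂(mu d) = ⟪v, z n⟫_ℝ + ∫ x, (u x - clip K (u x)) * z n x ∂(mu d) := by
    rw [inner_hr]
    have e1 : ∫ x, v x * z n x ∂(mu d) = ∫ x, clip K (u x) * z n x ∂(mu d) := by
      apply integral_congr_ae
      filter_upwards [hvae] with x hx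
      rw [hx]
    rw [e1, ← integral_add (int_bd hci (Lp.aestronglyMeasurable (z n)) (hb n))
      (int_bd hui (Lp.aestronglyMeasurable (z n)) (hb n))]
    congr 1
    ext x
    ring
  rw [e]
  have h4 : |∫ x, (u x - clip K (u x)) * z n x ∂(mu d)| ≤ ε / 2 := by
    calc |∫ x, (u x - clip K (u x)) * z n x ∂(mu d)|
        ≤ ∫ x, |(u x - clip K (u x)) * z n x| ∂(mu d) := abs_integral_le_integral_abs
      _ ≤ ∫ x, |u x - clip K (u x)| * C ∂(mu d) := by
          apply integral_mono_ae
          · exact (int_bd (hu.sub hci) (Lp.aestronglyMeasurable (z n)) (hb n)).abs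
          · exact (hu.sub hci).abs.mul_const C
          · filter_upwards [hb n] with x hx
            rw [abs_mul]
            exact mul_le_mul_of_nonneg_left hx (abs_nonneg _)
      _ = (∫ x, |u x - clip K (u x)| ∂(mu d)) * C := integral_mul_const _ _
      _ ≤ (ε / (2 * (C + 1))) * (C + 1) := by
          apply mul_le_mul hK1.le (by linarith) hC (by positivity)
      _ = ε / 2 := by field_simp
  calc |⟪v, z n⟫_ℝ + ∫ x, (u x - clip K (u x)) * z n x ∂(mu d)|
      ≤ |⟪v, z n⟫_ℝ| + |∫ x, (u x - clip K (u x)) * z n x ∂(mu d)| := abs_add_le _ _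
    _ < ε / 2 + ε / 2 := by linarith
    _ = ε := by ring

end Pool.Agent.helper28.Coul
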