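import Pool.Agent.helper28.Coul.PA3

/-!
# Existence of a maximiser
-/

set_option autoImplicit false

open MeasureTheory UnitAddTorus Filter Topology
open scoped ENNReal ComplexConjugate InnerProductSpace

noncomputable section

namespace Pool.Agent.helper28.Coul

variable {d : ℕ}

lemma norm_prod_le {a : T d → ℝ} {C : ℝ} (hb : BdF C a) {f p : HR d}
    (hp : p =ᵐ[mu d] fun x => a x * f x) : ‖p‖ ≤ C * ‖f‖ := by
  apply Lp.norm_le_mul_norm_of_ae_le_mul
  filter_upwards [hb, hp] with x h1 h2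
  rw [h2, norm_mul]
  exact mul_le_mul_of_nonneg_right h1 (norm_nonneg _)

/-- bounded densities -/
def KM (M : ℝ) (f : HR d) : Prop :=
  (∀ᵐ x ∂(mu d), 0 ≤ f x ∧ f x ≤ M) ∧ ∫ x, f x ∂(mu d) = 1

lemma KM.bd {M : ℝ} {f : HR d} (h : KM M f) : BdF M f := by
  filter_upwards [h.1] with x hx
  rw [abs_of_nonneg hx.1]; exact hx.2

lemma KM.norm_sq_le {M : ℝ} {f : HR d} (h : KM M f) : ‖f‖ ^ 2 ≤ M := by
  rw [← real_inner_self_eq_norm_sq, inner_hr]
  calc ∫ x, f x * f x ∂(mu d) ≤ ∫ x, M * f x ∂(mu d) := by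
        apply integral_mono_ae (int_mul f f) ((int_hr f).const_mul M)
        filter_upwards [h.1] with x hx
        exact mul_le_mul_of_nonneg_right hx.2 hx.1
    _ = M := by rw [integral_const_mul, h.2, mul_one]

lemma KM.En_le {M : ℝ} {f : HR d} (h : KM M f) : En f ≤ M - 1 := by
  have h1 := hasSum_En f
  have h2 := hasSum_norm_hr f
  have h3 : HasSum (fun k => if k = 0 then ‖fr f k‖ ^ 2 else 0) (‖fr f 0‖ ^ 2) :=
    hasSum_ite_eq 0 _ |>.congr_fun fun k => by
      by_cases hk : k = 0 <;> simp [hk]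
  have h4 := h2.sub h3
  have h5 : fr f 0 = 1 := by rw [fr_zero, h.2]; simp
  rw [h5] at h4
  have h6 : En f ≤ ‖f‖ ^ 2 - ‖(1 : ℂ)‖ ^ 2 := by
    refine hasSum_le (fun k => ?_) h1 h4
    by_cases hk : k = 0
    · rw [if_pos hk, hk]; simp
    · rw [if_neg hk, sub_zero]
      exact mul_le_of_le_one_left (by positivity) (w_le k)
  have h7 := h.norm_sq_le
  rw [norm_one] at h6
  linarith

lemma KM.one_le {M : ℝ} {f : HR d} (h : KM M f) : 1 ≤ M := by
  have := h.En_le
  have := En_nonneg f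
  linarith

lemma KM_closed {f : ℕ → HR d} {g : HR d} (h : WNull (fun n => f n - g)) {M : ℕ → ℝ} {M₀ : ℝ}
    (hM : Tendsto M atTop (𝓝 M₀)) (hf : ∀ n, KM (M n) (f n)) : KM M₀ g := by
  have hset : ∀ A : Set (T d), MeasurableSet A →
      Tendsto (fun n => ∫ x in A, f n x ∂(mu d)) atTop (𝓝 (∫ x in A, g x ∂(mu d))) := by
    intro A hA
    have h1 := h.2 (indicatorConstLp 2 hA (measure_ne_top (mu d) A) (1 : ℝ))
    simp only [inner_sub_right] at h1
    simp only [L2.inner_indicatorConstLp_one] at h1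
    have h2 := h1.add_const (∫ x in A, g x ∂(mu d))
    simpa using h2
  have hgi := int_hr g
  have h0 : 0 ≤ᵐ[mu d] g := by
    apply ae_nonneg_of_forall_setIntegral_nonneg hgi
    intro A hA _
    refine ge_of_tendsto' (hset A hA) fun n => ?_
    apply setIntegral_nonneg_of_ae_restrict
    apply ae_restrict_of_ae
    filter_upwards [(hf n).1] with x hx
    exact hx.1
  have h1 : 0 ≤ᵐ[mu d] fun x => M₀ - g x := by
    apply ae_nonneg_of_forall_setIntegral_nonneg ((integrable_const M₀).sub hgi)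
    intro A hA _
    have e : ∀ (c : ℝ) (u : HR d), ∫ x in A, (c - u x) ∂(mu d) =
        (mu d).real A * c - ∫ x in A, u x ∂(mu d) := by
      intro c u
      rw [integral_sub (integrable_const c).integrableOn (int_hr u).integrableOn,
        setIntegral_const, smul_eq_mul]
    change 0 ≤ ∫ x in A, (M₀ - g x) ∂(mu d)
    rw [e]
    have h3 : Tendsto (fun n => (mu d).real A * M n - ∫ x in A, f n x ∂(mu d)) atTop
        (𝓝 ((mu d).real A * M₀ - ∫ x in A, g x ∂(mu d))) :=
      (hM.const_mul _).sub (hset A hA)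
    refine ge_of_tendsto' h3 fun n => ?_
    rw [← e]
    apply setIntegral_nonneg_of_ae_restrict
    apply ae_restrict_of_ae
    filter_upwards [(hf n).1] with x hx
    simp only [Pi.zero_apply]
    linarith [hx.2]
  refine ⟨?_, ?_⟩
  · filter_upwards [h0, h1] with x a b
    have a' : 0 ≤ g x := a
    have b' : 0 ≤ M₀ - g x := b
    exact ⟨a', by linarith⟩
  · have h2 := hset Set.univ MeasurableSet.univ
    simp only [setIntegral_univ] at h2
    have h3 : Tendsto (fun n => ∫ x, f n x ∂(mu d)) atTop (𝓝 1) :=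
      tendsto_const_nhds.congr fun n => (hf n).2.symm
    exact tendsto_nhds_unique h2 h3

lemma J_eq_sum {C κ : ℝ} {f : HR d} (hf : BdF C f) :
    J κ f = ∑ i, ∫ x, (G i f x) ^ 2 * (1 - κ - f x) ∂(mu d) := by
  unfold J gs
  rw [← integral_finsetSum]
  · congr 1
    ext x
    rw [Finset.sum_mul]
  · intro i _
    exact int_bd (int_sq _) (meas_const_sub f) (bd_const_sub hf)

lemma J_tendsto {κ M : ℝ} {f : ℕ → HR d} {g : HR d} (h : WNull (fun n => f n - g))
    (hf : ∀ n, BdF M (f n)) (hg : BdF M g) :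
    Tendsto (fun n => J κ (f n)) atTop (𝓝 (J κ g)) := by
  have hM : 0 ≤ M := by
    obtain ⟨x, hx⟩ := hg.exists
    exact (abs_nonneg _).trans hx
  simp only [fun n => J_eq_sum (κ := κ) (hf n), J_eq_sum (κ := κ) hg]
  apply tendsto_finsetSum
  intro i _
  have hG := wnull_G h i
  simp only [map_sub] at hG
  -- the difference
  have hz : ∀ n, BdF (M + M) (f n - g : HR d) := by
    intro n
    filter_upwards [hf n, hg, Lp.coeFn_sub (f n) g] with x a b c
    rw [c, Pi.sub_apply]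
    exact (abs_sub _ _).trans (add_le_add a b)
  have h2 := wnull_l1 h hz (int_sq (G i g))
  choose p hp using fun n => exists_prod (meas_const_sub (κ := κ) (f n))
    (bd_const_sub (κ := κ) (hf n)) (G i (f n) + G i g)
  have hCpos : 0 ≤ |1 - κ| + M := by positivity
  have e : ∀ n, ∫ x, (G i (f n) x) ^ 2 * (1 - κ - f n x) ∂(mu d) =
      ∫ x, (G i g x) ^ 2 * (1 - κ - g x) ∂(mu d) + ⟪G i (f n) - G i g, p n⟫_ℝ -
      ∫ x, (G i g x) ^ 2 * (f n - g : HR d) x ∂(mu d) := by
    intro n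
    have j1 : Integrable (fun x => (G i g x) ^ 2 * (1 - κ - g x)) (mu d) :=
      int_bd (int_sq _) (meas_const_sub g) (bd_const_sub hg)
    have j2 := int_mul (G i (f n) - G i g) (p n)
    have j3 : Integrable (fun x => (G i g x) ^ 2 * (f n - g : HR d) x) (mu d) :=
      int_bd (int_sq _) (Lp.aestronglyMeasurable _) (hz n)
    rw [inner_hr, ← integral_add j1 j2]
    refine Eq.trans ?_ (integral_sub (j1.add j2) j3)
    apply integral_congr_ae
    filter_upwards [hp n, Lp.coeFn_sub (f n) g, Lp.coeFn_sub (G i (f n)) (G i g),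
      Lp.coeFn_add (G i (f n)) (G i g)] with x a b c e
    rw [a, b, c, e]
    simp only [Pi.add_apply, Pi.sub_apply]
    ring
  simp only [e]
  have h3 : Tendsto (fun n => ⟪G i (f n) - G i g, p n⟫_ℝ) atTop (𝓝 0) := by
    have h4 : ∀ n, ‖p n‖ ≤ (|1 - κ| + M) * (‖G i (f n) - G i g‖ + 2 * ‖G i g‖) := by
      intro n
      refine (norm_prod_le (bd_const_sub (hf n)) (hp n)).trans ?_
      have : G i (f n) + G i g = (G i (f n) - G i g) + (2 : ℝ) • G i g := by
        rw [two_smul]; abel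
      rw [this]
      have h5 : ‖(G i (f n) - G i g) + (2 : ℝ) • G i g‖ ≤ ‖G i (f n) - G i g‖ + 2 * ‖G i g‖ := by
        refine (norm_add_le _ _).trans ?_
        rw [norm_smul]; simp
      gcongr
    have h6 : Tendsto (fun n => ‖G i (f n) - G i g‖ *
        ((|1 - κ| + M) * (‖G i (f n) - G i g‖ + 2 * ‖G i g‖))) atTop
        (𝓝 (0 * ((|1 - κ| + M) * (0 + 2 * ‖G i g‖)))) :=
      hG.mul ((hG.add_const _).const_mul _)
    rw [zero_mul] at h6
    refine squeeze_zero_norm (fun n => ?_) h6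
    refine (norm_inner_le_norm _ _).trans ?_
    gcongr
    exact h4 n
  have h7 := (h3.const_add (∫ x, (G i g x) ^ 2 * (1 - κ - g x) ∂(mu d))).sub h2
  simpa using h7

/-- existence of a maximiser of the homogenised functional -/
theorem exists_max {κ : ℝ} (hκ : 0 ≤ κ) {M₀ : ℝ} (hM₀ : 1 < M₀) {r₀ : HR d} (hr₀ : KM M₀ r₀)
    (hJ : 0 < J κ r₀) : ∃ (M : ℝ) (r : HR d), M₀ ≤ M ∧ KM M r ∧ 0 < J κ r ∧
      ∀ (M' : ℝ) (r' : HR d), M₀ ≤ M' → KM M' r' → J κ r' * (M - 1) ^ 2 ≤ J κ r * (M' - 1) ^ 2 := by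
  have hJle : ∀ (M : ℝ) (r : HR d), KM M r → J κ r ≤ M - 1 := by
    intro M r hr
    have h1 : J κ r ≤ ∫ x, gs r x ∂(mu d) := by
      unfold J
      apply integral_mono_ae (int_bd (integrable_gs r) (meas_const_sub r) (bd_const_sub hr.bd))
        (integrable_gs r)
      filter_upwards [hr.1] with x hx
      exact mul_le_of_le_one_right (gs_nonneg r x) (by linarith [hx.1])
    rw [integral_gs] at h1
    exact h1.trans hr.En_le
  set S : Set ℝ := {t | ∃ (M : ℝ) (r : HR d), M₀ ≤ M ∧ KM M r ∧ t = J κ r / (M - 1) ^ 2} with hS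
  have hbdd : BddAbove S := by
    refine ⟨1 / (M₀ - 1), ?_⟩
    rintro t ⟨M, r, hM, hr, rfl⟩
    have h1 : 0 < M - 1 := by linarith
    have h2 : 0 < M₀ - 1 := by linarith
    calc J κ r / (M - 1) ^ 2 ≤ (M - 1) / (M - 1) ^ 2 := by
          have := hJle M r hr
          gcongr
      _ = 1 / (M - 1) := by field_simp
      _ ≤ 1 / (M₀ - 1) := by gcongr
  have hne : (J κ r₀ / (M₀ - 1) ^ 2) ∈ S := ⟨M₀, r₀, le_rfl, hr₀, rfl⟩
  obtain ⟨t, -, htlim, htS⟩ := exists_seq_tendsto_sSup ⟨_, hne⟩ hbdd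
  set β := sSup S with hβ
  have hβpos : 0 < β := by
    have h1 : 0 < J κ r₀ / (M₀ - 1) ^ 2 := by
      have : 0 < M₀ - 1 := by linarith
      positivity
    exact h1.trans_le (le_csSup hbdd hne)
  choose Ms rs hMs hrs hts using htS
  -- pass to a tail
  have hev : ∀ᶠ n in atTop, Ms n ≤ 1 + 2 / β := by
    have h1 : ∀ᶠ n in atTop, β / 2 < t n := htlim.eventually (lt_mem_nhds (half_lt_self hβpos))
    filter_upwards [h1] with n hn
    have h2 : 0 < Ms n - 1 := by linarith [hMs n]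
    have h3 : t n ≤ 1 / (Ms n - 1) := by
      rw [hts n]
      calc J κ (rs n) / (Ms n - 1) ^ 2 ≤ (Ms n - 1) / (Ms n - 1) ^ 2 := by
            have := hJle _ _ (hrs n)
            gcongr
        _ = 1 / (Ms n - 1) := by field_simp
    have h4 : β / 2 < 1 / (Ms n - 1) := hn.trans_le h3
    rw [lt_div_iff₀ h2] at h4
    have h5 : Ms n - 1 < 2 / β := by
      rw [lt_div_iff₀ hβpos]; nlinarith
    linarith
  obtain ⟨N, hN⟩ := eventually_atTop.mp hev
  -- convergent subsequence of the bounds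
  have hIcc : ∀ n, Ms (N + n) ∈ Set.Icc M₀ (1 + 2 / β) := fun n => ⟨hMs _, hN _ (by omega)⟩
  obtain ⟨M, hMmem, φ, hφ, hMlim⟩ := isCompact_Icc.tendsto_subseq hIcc
  have hnorm : ∀ n, ‖rs (N + φ n)‖ ≤ Real.sqrt (1 + 2 / β) := by
    intro n
    apply Real.le_sqrt_of_sq_le
    exact (hrs _).norm_sq_le.trans (hIcc _).2
  obtain ⟨r, ψ, hψ, hw⟩ := exists_weak hnorm
  have hφψ : Tendsto (fun n => N + φ (ψ n)) atTop atTop :=
    tendsto_atTop_mono (fun n => Nat.le_add_left _ _) (hφ.tendsto_atTop.comp hψ.tendsto_atTop)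
  have hM2 : Tendsto (fun n => Ms (N + φ (ψ n))) atTop (𝓝 M) := hMlim.comp hψ.tendsto_atTop
  have hr : KM M r := KM_closed hw hM2 fun n => hrs _
  have hJlim : Tendsto (fun n => J κ (rs (N + φ (ψ n)))) atTop (𝓝 (J κ r)) := by
    apply J_tendsto (M := 1 + 2 / β) hw
    · intro n
      filter_upwards [(hrs (N + φ (ψ n))).bd] with x hx
      exact hx.trans (hIcc _).2
    · filter_upwards [hr.bd] with x hx
      exact hx.trans hMmem.2
  have hM1 : 0 < M - 1 := by linarith [hMmem.1]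
  have hquot : Tendsto (fun n => t (N + φ (ψ n))) atTop (𝓝 (J κ r / (M - 1) ^ 2)) := by
    have h1 := hJlim.div ((hM2.sub_const 1).pow 2) (by positivity : (M - 1) ^ 2 ≠ 0)
    refine h1.congr fun n => ?_
    rw [hts]
    rfl
  have heq : J κ r / (M - 1) ^ 2 = β := tendsto_nhds_unique hquot (htlim.comp hφψ)
  have hJr : J κ r = β * (M - 1) ^ 2 := by
    rw [← heq]; field_simp
  refine ⟨M, r, hMmem.1, hr, ?_, ?_⟩
  · rw [hJr]; positivity
  · intro M' r' hM' hr'
    have h1 : J κ r' / (M' - 1) ^ 2 ≤ β := le_csSup hbdd ⟨M', r', hM', hr', rfl⟩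
    have h2 : 0 < M' - 1 := by linarith
    rw [div_le_iff₀ (by positivity)] at h1
    rw [hJr]
    calc J κ r' * (M - 1) ^ 2 ≤ (β * (M' - 1) ^ 2) * (M - 1) ^ 2 := by gcongr
      _ = β * (M - 1) ^ 2 * (M' - 1) ^ 2 := by ring

end Pool.Agent.helper28.Coul
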