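import Pool.Agent.helper28.Coul.PA4

/-!
# The sharp dissipation inequality for bounded densities
-/

set_option autoImplicit false

open MeasureTheory UnitAddTorus Filter Topology
open scoped ENNReal ComplexConjugate InnerProductSpace

noncomputable section

namespace Pool.Agent.helper28.Coul

variable {d : ℕ}

/-- maximality property -/
def IsMx (κ M : ℝ) (r : HR d) : Prop :=
  ∀ (M' : ℝ) (r' : HR d), M ≤ M' → KM M' r' → J κ r' * (M - 1) ^ 2 ≤ J κ r * (M' - 1) ^ 2

lemma var_le {κ M : ℝ} (hM : 1 < M) {r : HR d} {V : Fin d → HR d} (hV : IsV κ r V) (hr : KM M r)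
    (hmx : IsMx κ M r) {C : ℝ} {p : HR d} (hp : BdF C p) {s₀ : ℝ} (hs₀ : 0 < s₀)
    (hK : ∀ s, 0 < s → s ≤ s₀ → KM (1 + (1 + s) * (M - 1)) (r + s • p)) :
    ∫ x, PP r V x * p x ∂(mu d) ≤ 2 * J κ r := by
  have hb1 : BdF (max M C) r := by
    filter_upwards [hr.bd] with x hx; exact hx.trans (le_max_left _ _)
  have hb2 : BdF (max M C) p := by
    filter_upwards [hp] with x hx; exact hx.trans (le_max_right _ _)
  obtain ⟨A, B, hAB⟩ := J_expand hV hb1 hb2
  set I := ∫ x, PP r V x * p x ∂(mu d) with hI
  have h1 : ∀ᶠ s : ℝ in 𝓝[>] 0, I + s * A + s ^ 2 * B ≤ J κ r * (2 + s) := by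
    have : ∀ᶠ s : ℝ in 𝓝[>] 0, s < s₀ := by
      have : Set.Iio s₀ ∈ 𝓝 (0 : ℝ) := Iio_mem_nhds hs₀
      exact mem_nhdsWithin_of_mem_nhds this
    filter_upwards [this, self_mem_nhdsWithin] with s hs hs'
    have hs0 : 0 < s := hs'
    have hM1 : 0 < M - 1 := by linarith
    have h2 := hmx _ _ (by nlinarith) (hK s hs0 hs.le)
    have h3 : J κ (r + s • p) ≤ J κ r * (1 + s) ^ 2 := by
      have : J κ (r + s • p) * (M - 1) ^ 2 ≤ (J κ r * (1 + s) ^ 2) * (M - 1) ^ 2 := by
        calc J κ (r + s • p) * (M - 1) ^ 2 ≤ J κ r * ((1 + (1 + s) * (M - 1)) - 1) ^ 2 := h2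
          _ = (J κ r * (1 + s) ^ 2) * (M - 1) ^ 2 := by ring
      exact le_of_mul_le_mul_right this (by positivity)
    rw [hAB s] at h3
    have h4 : s * (I + s * A + s ^ 2 * B) ≤ s * (J κ r * (2 + s)) := by nlinarith
    exact le_of_mul_le_mul_left h4 hs0
  have l1 : Tendsto (fun s : ℝ => I + s * A + s ^ 2 * B) (𝓝[>] 0) (𝓝 (I + 0 * A + 0 ^ 2 * B)) := by
    apply Tendsto.mono_left _ nhdsWithin_le_nhds
    exact (by fun_prop : Continuous fun s : ℝ => I + s * A + s ^ 2 * B).tendsto 0
  have l2 : Tendsto (fun s : ℝ => J κ r * (2 + s)) (𝓝[>] 0) (𝓝 (J κ r * (2 + 0))) := by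
    apply Tendsto.mono_left _ nhdsWithin_le_nhds
    exact (by fun_prop : Continuous fun s : ℝ => J κ r * (2 + s)).tendsto 0
  have := le_of_tendsto_of_tendsto l1 l2 h1
  linarith

lemma meas_hr (f : HR d) : Measurable f := (Lp.stronglyMeasurable f).measurable

lemma meas_PP (r : HR d) (V : Fin d → HR d) : Measurable (PP r V) := by
  unfold PP gs
  refine ((meas_hr _).const_mul 2).sub ?_
  exact Finset.measurable_fun_sum _ fun i _ => (meas_hr _).pow_const 2

/-- mass deficit -/
def bt (r : HR d) (a : ℝ) : ℝ := ∫ x in {x | a ≤ r x}, (r x - 1) ∂(mu d)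

lemma int_sub_one (r : HR d) : Integrable (fun x => r x - 1) (mu d) :=
  (int_hr r).sub (integrable_const 1)

lemma bt_nonneg {M : ℝ} {r : HR d} (hr : KM M r) {a : ℝ} (ha : a ≤ 1) : 0 ≤ bt r a := by
  have hA : MeasurableSet {x | a ≤ r x} := measurableSet_le measurable_const (meas_hr r)
  have h1 := integral_add_compl hA (int_sub_one r)
  have h2 : ∫ x, (r x - 1) ∂(mu d) = 0 := by
    rw [integral_sub (int_hr r) (integrable_const 1), hr.2]; simp
  have h3 : ∫ x in {x | a ≤ r x}ᶜ, (r x - 1) ∂(mu d) ≤ 0 := by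
    apply setIntegral_nonpos hA.compl
    intro x hx
    have : r x < a := not_le.mp hx
    linarith
  unfold bt
  linarith

lemma claim2 {κ M : ℝ} (hM : 1 < M) {r : HR d} {V : Fin d → HR d} (hV : IsV κ r V) (hr : KM M r)
    (hmx : IsMx κ M r) {a : ℝ} (ha : 0 < a) (ha1 : a ≤ 1) {b : ℝ} (hb : 0 < b) {A : Set (T d)}
    (hA : MeasurableSet A) (hAb : ∀ x ∈ A, b ≤ r x) (hApos : 0 < (mu d).real A) {c : ℝ}
    (hAc : ∀ x ∈ A, PP r V x ≤ c) :
    (∫ x in {x | a ≤ r x}, PP r V x * (r x - 1) ∂(mu d)) - bt r a * c ≤ 2 * J κ r := by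
  have hE : MeasurableSet {x | a ≤ r x} := measurableSet_le measurable_const (meas_hr r)
  set E := {x | a ≤ r x} with hEdef
  set q : ℝ := bt r a / (mu d).real A with hq
  have hβ := bt_nonneg hr ha1
  have hq0 : 0 ≤ q := div_nonneg hβ hApos.le
  set P : T d → ℝ := fun x => E.indicator (fun x => r x - 1) x - q * A.indicator 1 x with hP
  have hPm : Measurable P := by
    refine (((meas_hr r).sub_const 1).indicator hE).sub ?_
    exact (measurable_one.indicator hA).const_mul q
  have hM0 : 0 ≤ M := by linarith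
  have hPb : ∀ᵐ x ∂(mu d), |P x| ≤ (M + 1) + q := by
    filter_upwards [hr.1] with x hx
    rw [hP]
    simp only
    refine (abs_sub _ _).trans (add_le_add ?_ ?_)
    · by_cases h : x ∈ E
      · rw [Set.indicator_of_mem h, abs_le]; constructor <;> linarith [hx.1, hx.2]
      · rw [Set.indicator_of_notMem h, abs_zero]; linarith
    · rw [abs_mul, abs_of_nonneg hq0]
      by_cases h : x ∈ A
      · rw [Set.indicator_of_mem h]; simp
      · rw [Set.indicator_of_notMem h]; simpa using hq0
  have hPl : MemLp P 2 (mu d) := MemLp.of_bound hPm.aestronglyMeasurable _ hPb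
  set p : HR d := hPl.toLp P with hp
  have hpae : p =ᵐ[mu d] P := hPl.coeFn_toLp
  have hpb : BdF ((M + 1) + q) p := by
    filter_upwards [hpae, hPb] with x h1 h2
    rw [h1]; exact h2
  have hPint : Integrable P (mu d) := hPl.integrable one_le_two
  have hint0 : ∫ x, p x ∂(mu d) = 0 := by
    rw [integral_congr_ae hpae]
    have i1 : Integrable (fun x => E.indicator (fun x => r x - 1) x) (mu d) :=
      (int_sub_one r).indicator hE
    have i2 : Integrable (fun x => q * A.indicator (1 : T d → ℝ) x) (mu d) :=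
      ((integrable_const (1 : ℝ)).indicator hA).const_mul q
    have : ∫ x, P x ∂(mu d) = ∫ x, E.indicator (fun x => r x - 1) x ∂(mu d) -
        ∫ x, q * A.indicator (1 : T d → ℝ) x ∂(mu d) := integral_sub i1 i2
    rw [this, integral_indicator hE, integral_const_mul, integral_indicator_one hA]
    change bt r a - q * (mu d).real A = 0
    rw [hq]
    field_simp
    ring
  have hs₀ : 0 < min a (b / (1 + q)) := lt_min ha (by positivity)
  have hvar := var_le hM hV hr hmx hpb hs₀ (by
    intro s hs hs'
    have hsa : s ≤ a := hs'.trans (min_le_left _ _)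
    have hsb : s * (1 + q) ≤ b := by
      have : s ≤ b / (1 + q) := hs'.trans (min_le_right _ _)
      rwa [le_div_iff₀ (by positivity)] at this
    constructor
    · filter_upwards [hr.1, hpae, Lp.coeFn_add r (s • p), Lp.coeFn_smul s p] with x h1 h2 h3 h4
      rw [h3, Pi.add_apply, h4, Pi.smul_apply, smul_eq_mul, h2, hP]
      simp only
      have hM1 : 0 < M - 1 := by linarith
      by_cases hxE : x ∈ E
      · have hxa : a ≤ r x := hxE
        rw [Set.indicator_of_mem hxE]
        by_cases hxA : x ∈ A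
        · rw [Set.indicator_of_mem hxA]
          have := hAb x hxA
          simp only [Pi.one_apply, mul_one]
          constructor
          · nlinarith [h1.1]
          · nlinarith [h1.1, h1.2, mul_nonneg hs.le hq0]
        · rw [Set.indicator_of_notMem hxA]
          simp only [mul_zero, sub_zero]
          constructor
          · nlinarith [h1.1]
          · nlinarith [h1.1, h1.2]
      · have hxa : r x < a := not_le.mp hxE
        rw [Set.indicator_of_notMem hxE]
        by_cases hxA : x ∈ A
        · rw [Set.indicator_of_mem hxA]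
          have := hAb x hxA
          simp only [Pi.one_apply, mul_one]
          constructor
          · nlinarith [h1.1]
          · nlinarith [h1.1, h1.2, mul_nonneg hs.le hq0]
        · rw [Set.indicator_of_notMem hxA]
          simp only [mul_zero, sub_zero]
          constructor
          · linarith [h1.1]
          · nlinarith [h1.1, h1.2]
    · have e : ∫ x, (r + s • p : HR d) x ∂(mu d) = ∫ x, (r x + s * p x) ∂(mu d) := by
        apply integral_congr_ae
        filter_upwards [Lp.coeFn_add r (s • p), Lp.coeFn_smul s p] with x h3 h4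
        rw [h3, Pi.add_apply, h4, Pi.smul_apply, smul_eq_mul]
      rw [e, integral_add (int_hr r) ((int_hr p).const_mul s), integral_const_mul, hint0, hr.2]
      ring)
  refine le_trans ?_ hvar
  -- compute the integral
  have hPP := integrable_PP r V
  have j1 : Integrable (fun x => PP r V x * (r x - 1)) (mu d) := by
    apply int_bd (C := M + 1) hPP ((meas_hr r).sub_const 1).aestronglyMeasurable
    filter_upwards [hr.1] with x hx
    rw [abs_le]; constructor <;> linarith [hx.1, hx.2]
  have e : ∫ x, PP r V x * p x ∂(mu d) = (∫ x in E, PP r V x * (r x - 1) ∂(mu d)) -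
      q * ∫ x in A, PP r V x ∂(mu d) := by
    rw [← integral_indicator hE, ← integral_indicator hA, ← integral_const_mul]
    rw [← integral_sub (j1.indicator hE) ((hPP.indicator hA).const_mul q)]
    apply integral_congr_ae
    filter_upwards [hpae] with x hx
    rw [hx, hP]
    simp only
    by_cases h1 : x ∈ E <;> by_cases h2 : x ∈ A <;> simp [h1, h2] <;> ring
  rw [e]
  have h5 : ∫ x in A, PP r V x ∂(mu d) ≤ c * (mu d).real A := by
    calc ∫ x in A, PP r V x ∂(mu d) ≤ ∫ _x in A, c ∂(mu d) :=
          setIntegral_mono_on hPP.integrableOn (integrable_const c).integrableOn hA hAc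
      _ = c * (mu d).real A := by rw [setIntegral_const, smul_eq_mul, mul_comm]
  have h6 : q * ∫ x in A, PP r V x ∂(mu d) ≤ bt r a * c := by
    calc q * ∫ x in A, PP r V x ∂(mu d) ≤ q * (c * (mu d).real A) := by gcongr
      _ = bt r a * c := by rw [hq]; field_simp
  linarith

end Pool.Agent.helper28.Coul
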