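import Pool.Agent.helper28.Coul.Mult

/-!
# Symbols: gradient and Hessian of the potential
-/

set_option autoImplicit false

open MeasureTheory UnitAddTorus Filter Topology
open scoped ENNReal ComplexConjugate InnerProductSpace

noncomputable section

namespace Pool.Agent.helper28.Coul

variable {d : ℕ}

/-- scalar product of frequencies -/
def dot (a b : Fin d → ℤ) : ℝ := ∑ i, (a i : ℝ) * (b i : ℝ)

/-- the weight `1/(4π²|k|²)`, zero at zero -/
def w (k : Fin d → ℤ) : ℝ := if k = 0 then 0 else 1 / (4 * Real.pi ^ 2 * dot k k)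

lemma dot_self_nonneg (k : Fin d → ℤ) : 0 ≤ dot k k :=
  Finset.sum_nonneg fun _ _ => mul_self_nonneg _

lemma one_le_dot_self {k : Fin d → ℤ} (hk : k ≠ 0) : 1 ≤ dot k k := by
  obtain ⟨i, hi⟩ := Function.ne_iff.mp hk
  have h1 : (k i : ℝ) * (k i : ℝ) ≤ dot k k :=
    Finset.single_le_sum (f := fun i => (k i : ℝ) * (k i : ℝ)) (fun i _ => mul_self_nonneg _)
      (Finset.mem_univ i)
  have h2 : (1 : ℝ) ≤ (k i : ℝ) * (k i : ℝ) := by
    have h3 : 1 ≤ k i * k i := by
      have : k i ≠ 0 := hi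
      have := mul_self_pos.mpr this
      omega
    exact_mod_cast h3
  linarith

lemma abs_le_dot (k : Fin d → ℤ) (i : Fin d) : |(k i : ℝ)| ≤ dot k k := by
  have h1 : (k i : ℝ) * (k i : ℝ) ≤ dot k k :=
    Finset.single_le_sum (f := fun i => (k i : ℝ) * (k i : ℝ)) (fun i _ => mul_self_nonneg _)
      (Finset.mem_univ i)
  have h2 : |(k i : ℝ)| ≤ (k i : ℝ) * (k i : ℝ) := by
    have h3 : |k i| ≤ k i * k i := by
      rcases eq_or_ne (k i) 0 with h | h
      · simp [h]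
      · have : 1 ≤ |k i| := Int.one_le_abs h
        nlinarith [abs_mul_abs_self (k i)]
    exact_mod_cast h3
  linarith

lemma sq_le_dot (k : Fin d → ℤ) (i : Fin d) : (k i : ℝ) ^ 2 ≤ dot k k := by
  have h1 : (k i : ℝ) * (k i : ℝ) ≤ dot k k :=
    Finset.single_le_sum (f := fun i => (k i : ℝ) * (k i : ℝ)) (fun i _ => mul_self_nonneg _)
      (Finset.mem_univ i)
  rw [sq]; exact h1

lemma w_nonneg (k : Fin d → ℤ) : 0 ≤ w k := by
  unfold w
  split_ifs
  · exact le_rfl
  · have := dot_self_nonneg k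
    positivity

@[simp] lemma w_zero : w (0 : Fin d → ℤ) = 0 := by simp [w]

lemma w_mul {k : Fin d → ℤ} (hk : k ≠ 0) : w k * (4 * Real.pi ^ 2 * dot k k) = 1 := by
  unfold w
  rw [if_neg hk]
  have := one_le_dot_self hk
  have : dot k k ≠ 0 := by linarith
  have := Real.pi_ne_zero
  field_simp

lemma dot_neg_neg (k : Fin d → ℤ) : dot (-k) (-k) = dot k k := by simp [dot]

lemma w_neg (k : Fin d → ℤ) : w (-k) = w k := by
  unfold w
  simp [dot_neg_neg]

lemma w_le (k : Fin d → ℤ) : w k ≤ 1 := by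
  rcases eq_or_ne k 0 with rfl | hk
  · simp
  · have h1 := w_mul hk
    have h2 := one_le_dot_self hk
    have h3 : (1 : ℝ) ≤ Real.pi ^ 2 := by nlinarith [Real.pi_gt_three]
    have h4 := w_nonneg k
    have h5 : 1 ≤ 4 * Real.pi ^ 2 * dot k k := by nlinarith
    nlinarith

/-- symbol of the `i`-th component of the gradient of the potential -/
def sG (i : Fin d) (k : Fin d → ℤ) : ℂ := 2 * Real.pi * Complex.I * (k i : ℂ) * (w k : ℂ)

/-- symbol of the Hessian of the potential -/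
def sH (i j : Fin d) (k : Fin d → ℤ) : ℂ := -(4 * Real.pi ^ 2 * (k i : ℂ) * (k j : ℂ) * (w k : ℂ))

/-- symbol of the Laplacian of the potential -/
def sL (k : Fin d → ℤ) : ℂ := if k = 0 then 0 else -1

lemma norm_sG (i : Fin d) (k : Fin d → ℤ) : ‖sG i k‖ ≤ 1 := by
  rcases eq_or_ne k 0 with rfl | hk
  · simp [sG]
  · have h1 := w_mul hk
    have h2 := abs_le_dot k i
    have h3 : ‖sG i k‖ = 2 * Real.pi * |(k i : ℝ)| * w k := by
      unfold sG
      simp only [norm_mul, Complex.norm_I, Complex.norm_real, Complex.norm_intCast, Real.norm_eq_abs]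
      rw [abs_of_pos Real.pi_pos, abs_of_nonneg (w_nonneg k)]
      norm_num
    rw [h3]
    have h4 := w_nonneg k
    have h5 := Real.pi_gt_three
    calc 2 * Real.pi * |(k i : ℝ)| * w k ≤ 2 * Real.pi * dot k k * w k := by gcongr
      _ ≤ (2 * Real.pi) * (2 * Real.pi) * dot k k * w k := by
          have h6 : 0 ≤ dot k k * w k := mul_nonneg (dot_self_nonneg k) h4
          nlinarith
      _ = 1 := by rw [← h1]; ring

lemma norm_sH (i j : Fin d) (k : Fin d → ℤ) : ‖sH i j k‖ ≤ 1 := by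
  rcases eq_or_ne k 0 with rfl | hk
  · simp [sH]
  · have h1 := w_mul hk
    have h3 : ‖sH i j k‖ = 4 * Real.pi ^ 2 * (|(k i : ℝ)| * |(k j : ℝ)|) * w k := by
      unfold sH
      simp only [norm_neg, norm_mul, norm_pow, Complex.norm_real, Complex.norm_intCast,
        Real.norm_eq_abs]
      rw [abs_of_pos Real.pi_pos, abs_of_nonneg (w_nonneg k), Complex.norm_ofNat]
      ring
    have h2 : |(k i : ℝ)| * |(k j : ℝ)| ≤ dot k k := by
      have e1 := sq_le_dot k i
      have e2 := sq_le_dot k j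
      rw [← sq_abs] at e1 e2
      nlinarith [sq_nonneg (|(k i : ℝ)| - |(k j : ℝ)|)]
    rw [h3]
    have h4 := w_nonneg k
    calc 4 * Real.pi ^ 2 * (|(k i : ℝ)| * |(k j : ℝ)|) * w k ≤ 4 * Real.pi ^ 2 * dot k k * w k := by
          gcongr
      _ = 1 := by rw [← h1]; ring

lemma norm_sL (k : Fin d → ℤ) : ‖sL k‖ ≤ 1 := by
  unfold sL; split_ifs <;> simp

lemma herm_sG (i : Fin d) : Herm (sG i) := by
  intro k
  unfold sG
  rw [w_neg]
  simp only [Pi.neg_apply, Int.cast_neg, map_mul, Complex.conj_I, Complex.conj_ofReal, map_ofNat,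
    map_intCast]
  ring

lemma herm_sH (i j : Fin d) : Herm (sH i j) := by
  intro k
  unfold sH
  rw [w_neg]
  simp only [Pi.neg_apply, Int.cast_neg, map_mul, Complex.conj_ofReal, map_ofNat,
    map_intCast, map_neg, map_pow]
  ring

lemma herm_sL : Herm (sL (d := d)) := by
  intro k
  unfold sL
  by_cases h : k = 0 <;> simp [h]

/-- gradient of the potential -/
def G (i : Fin d) : HR d →L[ℝ] HR d := mulR (sG i)

/-- Hessian of the potential -/
def R (i j : Fin d) : HR d →L[ℝ] HR d := mulR (sH i j)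

/-- Laplacian of the potential -/
def Lap (d : ℕ) : HR d →L[ℝ] HR d := mulR sL

lemma bdd_sG (i : Fin d) : Bdd (sG i) := ⟨1, norm_sG i⟩
lemma bdd_sH (i j : Fin d) : Bdd (sH i j) := ⟨1, norm_sH i j⟩
lemma bdd_sL : Bdd (sL (d := d)) := ⟨1, norm_sL⟩

lemma fr_G (i : Fin d) (f : HR d) (k : Fin d → ℤ) : fr (G i f) k = sG i k * fr f k :=
  fr_mulR (bdd_sG i) (herm_sG i) f k

lemma fr_R (i j : Fin d) (f : HR d) (k : Fin d → ℤ) : fr (R i j f) k = sH i j k * fr f k :=
  fr_mulR (bdd_sH i j) (herm_sH i j) f k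

lemma fr_Lap (f : HR d) (k : Fin d → ℤ) : fr (Lap d f) k = sL k * fr f k :=
  fr_mulR bdd_sL herm_sL f k

lemma inner_G (i : Fin d) (f g : HR d) : ⟪G i f, g⟫_ℝ = - ⟪f, G i g⟫_ℝ := by
  rw [← (hasSum_inner_hr (G i f) g).tsum_eq, ← (hasSum_inner_hr f (G i g)).tsum_eq, ← tsum_neg]
  congr 1
  ext k
  rw [fr_G, fr_G, map_mul]
  have : conj (sG i k) = - sG i k := by
    rw [← herm_sG i k]
    unfold sG
    rw [w_neg]
    simp only [Pi.neg_apply, Int.cast_neg]
    ring
  rw [this]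
  simp only [← Complex.neg_re]
  congr 1
  ring

lemma sum_sG_sq (k : Fin d → ℤ) : ∑ i, ‖sG i k‖ ^ 2 = w k := by
  rcases eq_or_ne k 0 with rfl | hk
  · simp [sG]
  · have h1 := w_mul hk
    have h3 : ∀ i, ‖sG i k‖ ^ 2 = 4 * Real.pi ^ 2 * w k ^ 2 * ((k i : ℝ) * (k i : ℝ)) := by
      intro i
      unfold sG
      simp only [norm_mul, Complex.norm_I, Complex.norm_real, Complex.norm_intCast,
        Real.norm_eq_abs, mul_pow, sq_abs]
      norm_num
      ring
    simp only [h3]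
    rw [← Finset.mul_sum]
    change 4 * Real.pi ^ 2 * w k ^ 2 * dot k k = w k
    calc 4 * Real.pi ^ 2 * w k ^ 2 * dot k k = w k * (w k * (4 * Real.pi ^ 2 * dot k k)) := by ring
      _ = w k := by rw [h1, mul_one]

/-- the energy `∫|∇h|²` -/
def En (f : HR d) : ℝ := ∑ i, ‖G i f‖ ^ 2

lemma En_nonneg (f : HR d) : 0 ≤ En f := Finset.sum_nonneg fun i _ => by positivity

lemma hasSum_En (f : HR d) : HasSum (fun k => w k * ‖fr f k‖ ^ 2) (En f) := by
  have h : ∀ i ∈ Finset.univ, HasSum (fun k => ‖fr (G i f) k‖ ^ 2) (‖G i f‖ ^ 2) :=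
    fun i _ => hasSum_norm_hr (G i f)
  have h2 : HasSum (fun k => ∑ i, ‖fr (G i f) k‖ ^ 2) (En f) := hasSum_sum h
  convert h2 using 1
  ext k
  rw [← sum_sG_sq, Finset.sum_mul]
  refine Finset.sum_congr rfl fun i _ => ?_
  rw [fr_G, norm_mul, mul_pow]

lemma fr_zero (f : HR d) : fr f 0 = ((∫ x, f x ∂(mu d) : ℝ) : ℂ) := by
  rw [fr_eq]
  have h2 : ∫ x, ((f x : ℝ) : ℂ) ∂(mu d) = ((∫ x, f x ∂(mu d) : ℝ) : ℂ) :=
    integral_ofReal
  rw [← h2]
  unfold fc
  congr 1
  ext x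
  rw [mFourier_zero]
  simp

end Pool.Agent.helper28.Coul
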